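import Pool.Agent.H55.Sweep.Fu7

/-!
Block recoding: the levels for `σ^n` are the levels of the recoded map over the alphabet `S^n`.
-/

namespace Pool.Agent.H55.Sweep

open Filter Topology

/-- the `n`-block recoding of a map of `S^ℤ`, a map of `(S^n)^ℤ` -/
def recode {S : Type*} (n : ℕ) (hn : 0 < n) (f : Conf S → Conf S) :
    Conf (Fin n → S) → Conf (Fin n → S) := fun X => enc n (f (dec hn X))

section
variable {S : Type*} {n : ℕ}

theorem enc_congr {x y : Conf S} {j : ℤ}
    (h : ∀ i : ℤ, j * n ≤ i → i < j * n + n → x i = y i) : enc n x j = enc n y j := by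
  funext i
  have hi : ((i : ℕ) : ℤ) < n := by exact_mod_cast i.2
  exact h _ (by omega) (by omega)

theorem recode_comp (hn : 0 < n) (g h : Conf S → Conf S) :
    recode n hn (g ∘ h) = recode n hn g ∘ recode n hn h := by
  funext X
  simp only [recode, Function.comp, dec_enc]

theorem recode_id (hn : 0 < n) : recode n hn (id : Conf S → Conf S) = id := by
  funext X
  simp only [recode, id, enc_dec]

/-- every map of `(S^n)^ℤ` is a recoded map -/
theorem recode_surj (hn : 0 < n) (G : Conf (Fin n → S) → Conf (Fin n → S)) :
    recode n hn (fun x => dec hn (G (enc n x))) = G := by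
  funext X
  simp only [recode, enc_dec]

theorem recode_inj (hn : 0 < n) {g h : Conf S → Conf S} (he : recode n hn g = recode n hn h) :
    g = h := by
  funext x
  have := congrFun he (enc n x)
  simp only [recode, dec_enc] at this
  exact enc_inj hn this

theorem closing_recode (hn : 0 < n) {b : Bool} {g : Conf S → Conf S} :
    Closing b (recode n hn g) ↔ Closing b g := by
  have hn' : (0 : ℤ) < n := by omega
  cases b
  · constructor
    · intro h x y hxy hN
      obtain ⟨N, hN⟩ := hN
      apply enc_inj hn
      apply h
      · simp only [recode, dec_enc, hxy]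
      · refine ⟨(N / n) - 1, fun j hj => enc_congr fun i _ hi2 => hN i ?_⟩
        have h1 : (j + 1) * (n : ℤ) ≤ N / n * n := mul_le_mul_of_nonneg_right (by omega) hn'.le
        have h2 : N / (n : ℤ) * n ≤ N := Int.ediv_mul_le N hn'.ne'
        have e : (j + 1) * (n : ℤ) = j * n + n := by ring
        omega
    · intro h X Y hXY hN
      obtain ⟨N, hN⟩ := hN
      apply dec_inj hn
      exact h _ _ (enc_inj hn hXY) ⟨N * n, dec_low hn hN⟩
  · constructor
    · intro h x y hxy hN
      obtain ⟨N, hN⟩ := hN
      apply enc_inj hn
      apply h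
      · simp only [recode, dec_enc, hxy]
      · refine ⟨N / n + 1, fun j hj => enc_congr fun i hi1 _ => hN i ?_⟩
        have h1 : (N / (n : ℤ) + 1) * n ≤ j * n := mul_le_mul_of_nonneg_right hj hn'.le
        have h2 : N < (N / (n : ℤ) + 1) * n := Int.lt_ediv_add_one_mul_self N hn'
        omega
    · intro h X Y hXY hN
      obtain ⟨N, hN⟩ := hN
      apply dec_inj hn
      exact h _ _ (enc_inj hn hXY) ⟨N * n, dec_high hn hN⟩

variable [TopologicalSpace S]

theorem isCA_recode (hn : 0 < n) {g : Conf S → Conf S} :
    IsCA (recode n hn g) ↔ IsPowCA n g := by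
  constructor
  · intro h
    have e : g = fun x => dec hn (recode n hn g (enc n x)) := by
      funext x
      simp only [recode, dec_enc]
    refine powCA_of_tr ?_ (fun x => ?_)
    · rw [e]
      exact (dec_cont hn).comp (h.1.comp enc_cont)
    · have h1 : g (tr n x) = dec hn (recode n hn g (enc n (tr n x))) := by
        simp only [recode, dec_enc]
      have h2 : enc n (tr (n : ℤ) x) = tr 1 (enc n x) := by
        have := enc_tr (n := n) 1 x
        rwa [one_mul] at this
      rw [h1, h2, comm_tr h, dec_tr, one_mul]
      simp only [recode, dec_enc]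
  · intro h
    refine ⟨enc_cont.comp (h.1.comp (dec_cont hn)), fun X => ?_⟩
    show enc n (g (dec hn (tr 1 X))) = tr 1 (enc n (g (dec hn X)))
    rw [dec_tr, one_mul, powCA_tr h, ← enc_tr, one_mul]

theorem level_recode (hn : 0 < n) {b : Bool} {k : ℕ} {g : Conf S → Conf S} :
    recode n hn g ∈ Level b k ↔ g ∈ LevelPow n b k := by
  induction k generalizing b g with
  | zero =>
    constructor
    · intro h
      have h' : recode n hn g = id := h
      have : g = id := recode_inj hn (by rw [h', recode_id])
      exact this
    · intro h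
      have h' : g = id := h
      show recode n hn g = id
      rw [h', recode_id]
  | succ k ih =>
    constructor
    · rintro ⟨G, H, hG, hc, hH, he⟩
      rw [← recode_surj hn G] at hG hc he
      rw [← recode_surj hn H] at hH he
      rw [← recode_comp] at he
      exact ⟨_, _, (isCA_recode hn).1 hG, (closing_recode hn).1 hc, ih.1 hH, recode_inj hn he⟩
    · rintro ⟨G, H, hG, hc, hH, rfl⟩
      exact ⟨_, _, (isCA_recode hn).2 hG, (closing_recode hn).2 hc, ih.2 hH, recode_comp hn G H⟩

end

end Pool.Agent.H55.Sweep
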