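import Pool.Agent.H55.Sweep.Rt3
import Pool.Agent.H55.Sweep.Recode

/-!
Membership in a level for one power of the shift implies membership for all large powers.
-/

namespace Pool.Agent.H55.Sweep

open Filter Topology

section
variable {S : Type*} [TopologicalSpace S] [DiscreteTopology S] [Finite S]
variable {f : Conf S → Conf S} {a : ℤ} {m : ℕ}

theorem chain_equiv {b : Bool} {K : ℕ} {A : ℕ → Set ((Fin m → S) × (Fin m → S))}
    (hA : EqChain f m b K A) (hK : ∀ x y, f x = f y ↔ Ker f m (A K) x y) {i : ℕ} (hi : i ≤ K) :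
    Equivalence (Ker f m (A i)) := by
  rcases Nat.lt_or_ge i K with h | h
  · exact (hA.2 i h).2.1
  · have : i = K := by omega
    subst this
    exact ⟨fun x => (hK x x).1 rfl, fun {x y} h => (hK y x).1 ((hK x y).2 h).symm,
      fun {x y z} h1 h2 => (hK x z).1 (((hK x y).2 h1).trans ((hK y z).2 h2))⟩

/-- all relations of the chain are kernels for some power of the shift -/
theorem quo_of_chain (hf : IsCA f) (hw : Window f a m) {b : Bool} {K : ℕ}
    {A : ℕ → Set ((Fin m → S) × (Fin m → S))} (hA : EqChain f m b K A)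
    (hK : ∀ x y, f x = f y ↔ Ker f m (A K) x y) :
    ∀ d i : ℕ, i + d = K → ∃ n : ℕ, 0 < n ∧ Quo n (Ker f m (A i)) := by
  have : Fintype S := Fintype.ofFinite S
  intro d
  induction d with
  | zero =>
    intro i hi
    have hiK : i = K := by omega
    subst hiK
    have hp : PreInj f := fun x y hxy h1 h2 =>
      chain_preInj hA i le_rfl x y ((hK x y).1 hxy) h1 h2
    exact ⟨1, Nat.one_pos, f, hf.1, fun x => comm_tr hf _ x, surj_of_preInj hf hp, hK⟩
  | succ d ih =>
    intro i hi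
    obtain ⟨n, hn, H, hH1, hH2, hH3, hH4⟩ := ih (i + 1) (by omega)
    obtain ⟨q1, q2, q3⟩ := hA.2 i (by omega)
    have hp : PreInj H := fun x y hxy h1 h2 =>
      chain_preInj hA (i + 1) (by omega) x y ((hH4 x y).1 hxy) h1 h2
    obtain ⟨n', hn', _, hq⟩ := quo_pow hH1 hn hH2 hp (ker_isRel hf hw q2)
      (fun x y h => (hH4 x y).2 (ker_mono q1 h)) (bstep_of_step hH4 q3)
    exact ⟨n', hn', hq⟩

/-- building the factorisation when all relations are kernels for the same power -/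
theorem levelPow_of_quos {n : ℕ} (hn : 0 < n) :
    ∀ (k : ℕ) (b : Bool) (A : ℕ → Set ((Fin m → S) × (Fin m → S))), EqChain f m b (k + 1) A →
      (∀ i, i ≤ k → Quo n (Ker f m (A i))) → ∀ h : Conf S → Conf S, IsPowCA n h →
        (∀ x y, h x = h y ↔ Ker f m (A (k + 1)) x y) → h ∈ LevelPow n b (k + 1) := by
  have : Fintype S := Fintype.ofFinite S
  intro k
  induction k with
  | zero =>
    intro b A hA _ h hh hker
    obtain ⟨_, _, q3⟩ := hA.2 0 (by omega)
    have e : 0 + 1 - 1 - 0 = 0 := rfl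
    rw [e, typ_zero] at q3
    refine ⟨h, id, hh, ?_, rfl, rfl⟩
    exact closing_of_step_pow hn (h := id) (powCA_of_CA isCA_id) Function.surjective_id
      (fun x y => (hA.1 x y).symm) hker q3
  | succ k ih =>
    intro b A hA hQ h hh hker
    obtain ⟨q1, q2, q3⟩ := hA.2 (k + 1) (by omega)
    have e : k + 1 + 1 - 1 - (k + 1) = 0 := by omega
    rw [e, typ_zero] at q3
    obtain ⟨h', hc', ht', hs', hk'⟩ := hQ (k + 1) le_rfl
    have hh' : IsPowCA n h' := powCA_of_tr hc' ht'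
    have hA' : EqChain f m (!b) (k + 1) A := by
      refine ⟨hA.1, fun i hi => ?_⟩
      obtain ⟨p1, p2, p3⟩ := hA.2 i (by omega)
      refine ⟨p1, p2, ?_⟩
      have e : k + 1 + 1 - 1 - i = (k + 1 - 1 - i) + 1 := by omega
      rw [e, typ_succ] at p3
      exact p3
    have hlev := ih (!b) A hA' (fun i hi => hQ i (by omega)) h' hh' hk'
    obtain ⟨g, hg1, hg2, rfl⟩ := exists_factor_pow hh.1 (powCA_tr hh) hc' ht' hs'
      (fun x y hxy => (hker x y).2 (ker_mono q1 ((hk' x y).1 hxy)))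
    refine ⟨g, h', powCA_of_tr hg1 hg2, ?_, hlev, rfl⟩
    exact closing_of_step_pow hn hh' hs' hk' hker q3

theorem levelPow_large (hf : IsCA f) (hw : Window f a m) {b : Bool} {k : ℕ}
    {A : ℕ → Set ((Fin m → S) × (Fin m → S))} (hA : EqChain f m b (k + 1) A)
    (hK : ∀ x y, f x = f y ↔ Ker f m (A (k + 1)) x y) :
    ∃ n1 : ℕ, ∀ n : ℕ, 0 < n → n1 ≤ n → f ∈ LevelPow n b (k + 1) := by
  have h1 : ∀ i : ℕ, ∃ n1 : ℕ, i ≤ k → ∀ n : ℕ, n1 ≤ n → Quo n (Ker f m (A i)) := by
    intro i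
    by_cases hi : i ≤ k
    · obtain ⟨n', hn', hq⟩ := quo_of_chain hf hw hA hK (k + 1 - i) i (by omega)
      obtain ⟨n1, hn1⟩ := quo_all (ker_isRel hf hw (chain_equiv hA hK (by omega))) hn' hq
      exact ⟨n1, fun _ => hn1⟩
    · exact ⟨0, fun h => absurd h hi⟩
  choose N hN using h1
  refine ⟨(Finset.range (k + 1)).sup N, fun n hn hle => ?_⟩
  refine levelPow_of_quos hn k b A hA (fun i hi => hN i hi n ?_) f (powCA_of_CA hf) hK
  exact (Finset.le_sup (f := N) (Finset.mem_range.2 (by omega))).trans hle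

/-- the eventual levels -/
theorem eventual_tfae (hf : IsCA f) (hw : Window f a m) (b : Bool) (k : ℕ) {R : ℕ}
    (hR : 1 + Nat.card (Fin m → S × S × S) ≤ R) :
    List.TFAE [
      ∃ (n : ℕ) (hn : 0 < n), recode n hn f ∈ Level b (k + 1),
      ∃ n1 : ℕ, ∀ (n : ℕ) (hn : 0 < n), n1 ≤ n → recode n hn f ∈ Level b (k + 1),
      ∃ A : ℕ → Set ((Fin m → S) × (Fin m → S)), FinChain f a m b (k + 1) R A] := by
  tfae_have 1 → 3 := by
    rintro ⟨n, hn, h⟩
    obtain ⟨A, hA⟩ := (levelPow_iff hf hw b k).1 ⟨n, hn, (level_recode hn).1 h⟩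
    exact ⟨A, (finChain_iff hf hw hR b (k + 1) A).1 hA⟩
  tfae_have 3 → 2 := by
    rintro ⟨A, hA⟩
    obtain ⟨h1, h2⟩ := (finChain_iff hf hw hR b (k + 1) A).2 hA
    obtain ⟨n1, hn1⟩ := levelPow_large hf hw h1 h2
    exact ⟨n1, fun n hn hle => (level_recode hn).2 (hn1 n hn hle)⟩
  tfae_have 2 → 1 := by
    rintro ⟨n1, h⟩
    exact ⟨n1 + 1, Nat.succ_pos _, h _ _ (Nat.le_succ _)⟩
  tfae_finish

end

end Pool.Agent.H55.Sweep
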