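import Pool.Agent.H55.Sweep.Defs

namespace Pool.Agent.H55.Sweep

open Filter Topology

section
variable {S : Type*}

/-- translation by `n` -/
def tr (n : ℤ) (x : Conf S) : Conf S := fun i => x (i + n)

theorem tr_apply (n : ℤ) (x : Conf S) (i : ℤ) : tr n x i = x (i + n) := rfl

theorem tr_zero (x : Conf S) : tr 0 x = x := by
  funext i; simp [tr]

theorem tr_tr (m n : ℤ) (x : Conf S) : tr m (tr n x) = tr (m + n) x := by
  funext i; simp [tr, add_assoc]

theorem shift_eq_tr (x : Conf S) : shift x = tr 1 x := rfl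

theorem comm_tr [TopologicalSpace S] {f : Conf S → Conf S} (hf : IsCA f) (n : ℤ) (x : Conf S) :
    f (tr n x) = tr n (f x) := by
  have h1 : ∀ x, f (tr 1 x) = tr 1 (f x) := fun x => hf.2 x
  have hm1 : ∀ x, f (tr (-1) x) = tr (-1) (f x) := by
    intro x
    have := h1 (tr (-1) x)
    rw [tr_tr] at this
    have h0 : tr ((1 : ℤ) + (-1)) x = x := by
      have : ((1 : ℤ) + (-1)) = 0 := by norm_num
      rw [this, tr_zero]
    rw [h0] at this
    rw [this, tr_tr]
    have : ((-1 : ℤ) + 1) = 0 := by norm_num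
    rw [this, tr_zero]
  induction n using Int.induction_on with
  | zero => simp [tr_zero]
  | succ n ih =>
    have : tr ((n : ℤ) + 1) x = tr 1 (tr n x) := by rw [tr_tr, add_comm]
    rw [this, h1, ih, tr_tr, add_comm]
  | pred n ih =>
    have : tr (-(n : ℤ) - 1) x = tr (-1) (tr (-(n : ℤ)) x) := by rw [tr_tr]; ring_nf
    rw [this, hm1, ih, tr_tr]; ring_nf

theorem isCA_id [TopologicalSpace S] : IsCA (id : Conf S → Conf S) :=
  ⟨continuous_id, fun _ => rfl⟩

theorem isCA_comp [TopologicalSpace S] {f g : Conf S → Conf S} (hf : IsCA f) (hg : IsCA g) :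
    IsCA (f ∘ g) := by
  refine ⟨hf.1.comp hg.1, fun x => ?_⟩
  simp only [Function.comp]
  rw [hg.2, hf.2]

/-- Curtis–Hedlund–Lyndon, in the form we need: a CA has a symmetric window -/
theorem exists_radius [TopologicalSpace S] [DiscreteTopology S] [Finite S]
    {f : Conf S → Conf S} (hf : IsCA f) :
    ∃ ρ : ℕ, ∀ x y i, (∀ j : ℤ, i - ρ ≤ j → j ≤ i + ρ → x j = y j) → f x i = f y i := by
  classical
  -- value at zero
  have key : ∃ ρ : ℕ, ∀ x y : Conf S, (∀ j : ℤ, -(ρ : ℤ) ≤ j → j ≤ ρ → x j = y j) →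
      f x 0 = f y 0 := by
    by_contra hcon
    push Not at hcon
    choose x y hxy hne using hcon
    obtain ⟨z, φ, hφ, hz⟩ := CompactSpace.tendsto_subseq x
    have hzy : Tendsto (y ∘ φ) atTop (𝓝 z) := by
      rw [tendsto_pi_nhds]
      intro j
      rw [tendsto_pi_nhds] at hz
      refine (hz j).congr' ?_
      filter_upwards [eventually_ge_atTop j.natAbs] with n hn
      have h1 : j.natAbs ≤ φ n := le_trans hn (hφ.id_le n)
      apply hxy (φ n) j
      · have : (j.natAbs : ℤ) ≤ φ n := by exact_mod_cast h1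
        omega
      · have : (j.natAbs : ℤ) ≤ φ n := by exact_mod_cast h1
        omega
    have h1 : Tendsto (fun n => f (x (φ n)) 0) atTop (𝓝 (f z 0)) :=
      ((continuous_apply (0 : ℤ)).comp hf.1).continuousAt.tendsto.comp hz
    have h2 : Tendsto (fun n => f (y (φ n)) 0) atTop (𝓝 (f z 0)) :=
      ((continuous_apply (0 : ℤ)).comp hf.1).continuousAt.tendsto.comp hzy
    rw [nhds_discrete, tendsto_pure] at h1 h2
    obtain ⟨n, hn1, hn2⟩ := (h1.and h2).exists
    exact hne (φ n) (hn1.trans hn2.symm)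
  obtain ⟨ρ, hρ⟩ := key
  refine ⟨ρ, fun x y i h => ?_⟩
  have h1 := hρ (tr i x) (tr i y) (fun j hj1 hj2 => h (j + i) (by omega) (by omega))
  rw [comm_tr hf, comm_tr hf] at h1
  simpa [tr] using h1

/-- gluing: `x` to the left of `s`, `x'` from `s` on -/
def glue (s : ℤ) (x x' : Conf S) : Conf S := fun j => if j < s then x j else x' j

theorem glue_lt {s : ℤ} {x x' : Conf S} {j : ℤ} (h : j < s) : glue s x x' j = x j := by
  simp [glue, h]

theorem glue_ge {s : ℤ} {x x' : Conf S} {j : ℤ} (h : s ≤ j) : glue s x x' j = x' j := by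
  simp [glue, not_lt.mpr h]

theorem st_eq_iff {m : ℕ} {x y x' y' : Conf S} {s t : ℤ} :
    st m x y s = st m x' y' t ↔
      (∀ j : ℤ, 0 ≤ j → j < m → x (s + j) = x' (t + j)) ∧
      (∀ j : ℤ, 0 ≤ j → j < m → y (s + j) = y' (t + j)) := by
  constructor
  · intro h
    have h1 := congrArg Prod.fst h
    have h2 := congrArg Prod.snd h
    constructor
    · intro j h0 hj
      have := congrFun h1 ⟨j.toNat, by omega⟩
      simpa [st, Int.toNat_of_nonneg h0] using this
    · intro j h0 hj
      have := congrFun h2 ⟨j.toNat, by omega⟩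
      simpa [st, Int.toNat_of_nonneg h0] using this
  · rintro ⟨h1, h2⟩
    refine Prod.ext ?_ ?_
    · funext j; exact h1 j (by positivity) (by exact_mod_cast j.2)
    · funext j; exact h2 j (by positivity) (by exact_mod_cast j.2)

theorem st_tr {m : ℕ} (n : ℤ) (x y : Conf S) (t : ℤ) :
    st m (tr n x) (tr n y) t = st m x y (t + n) := by
  rw [st_eq_iff]
  constructor <;> intro j _ _ <;> simp only [tr] <;> congr 1 <;> ring

/-- values of `f` at a glued configuration -/
theorem f_glue {f : Conf S → Conf S} {a : ℤ} {m : ℕ} (hw : Window f a m) {s : ℤ}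
    {x x' : Conf S} (hx : ∀ j : ℤ, s ≤ j → j < s + m → x j = x' j) (i : ℤ) :
    f (glue s x x') i = if i + a < s then f x i else f x' i := by
  split_ifs with h
  · apply hw
    intro j h1 h2
    by_cases hlt : i + j < s
    · rw [glue_lt hlt]
    · rw [glue_ge (not_lt.mp hlt)]
      exact (hx _ (not_lt.mp hlt) (by omega)).symm
  · apply hw
    intro j h1 h2
    rw [glue_ge (by omega)]

theorem ker_glue {f : Conf S → Conf S} {a : ℤ} {m : ℕ} (hw : Window f a m) {s : ℤ}
    {x y x' y' : Conf S} (hx : ∀ j : ℤ, s ≤ j → j < s + m → x j = x' j)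
    (hy : ∀ j : ℤ, s ≤ j → j < s + m → y j = y' j) (h : f x = f y) (h' : f x' = f y') :
    f (glue s x x') = f (glue s y y') := by
  funext i
  rw [f_glue hw hx, f_glue hw hy, h, h']

/-- agreement of images -/
theorem agree_of_radius {h : Conf S → Conf S} {ρ : ℕ}
    (hρ : ∀ x y i, (∀ j : ℤ, i - ρ ≤ j → j ≤ i + ρ → x j = y j) → h x i = h y i)
    {x y : Conf S} {i : ℤ} (hxy : ∀ j, i - ρ ≤ j → j ≤ i + ρ → x j = y j) : h x i = h y i :=
  hρ x y i hxy

theorem closing_comp {b : Bool} {f g : Conf S → Conf S} [TopologicalSpace S]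
    [DiscreteTopology S] [Finite S] (hg : IsCA g) (h1 : Closing b f) (h2 : Closing b g) :
    Closing b (f ∘ g) := by
  obtain ⟨ρ, hρ⟩ := exists_radius hg
  cases b
  · intro x y hxy hN
    refine h2 x y ?_ hN
    refine h1 (g x) (g y) hxy ?_
    obtain ⟨N, hN⟩ := hN
    exact ⟨N - ρ, fun j hj => hρ x y j (fun i _ hi => hN i (by omega))⟩
  · intro x y hxy hN
    refine h2 x y ?_ hN
    refine h1 (g x) (g y) hxy ?_
    obtain ⟨N, hN⟩ := hN
    exact ⟨N + ρ, fun j hj => hρ x y j (fun i hi _ => hN i (by omega))⟩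

theorem closing_of_injective {b : Bool} {f : Conf S → Conf S} (h : Function.Injective f) :
    Closing b f := by
  cases b
  · intro x y hxy _; exact h hxy
  · intro x y hxy _; exact h hxy

/-- pre-injective maps -/
def PreInj (f : Conf S → Conf S) : Prop :=
  ∀ x y, f x = f y → (∃ N : ℤ, ∀ j, j ≤ N → x j = y j) → (∃ N : ℤ, ∀ j, N ≤ j → x j = y j) →
    x = y

theorem preInj_of_closing {b : Bool} {f : Conf S → Conf S} (h : Closing b f) : PreInj f := by
  cases b
  · intro x y hxy h1 _; exact h x y hxy h1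
  · intro x y hxy _ h2; exact h x y hxy h2

theorem preInj_comp {f g : Conf S → Conf S} [TopologicalSpace S]
    [DiscreteTopology S] [Finite S] (hg : IsCA g) (h1 : PreInj f) (h2 : PreInj g) :
    PreInj (f ∘ g) := by
  obtain ⟨ρ, hρ⟩ := exists_radius hg
  intro x y hxy hN hM
  refine h2 x y ?_ hN hM
  refine h1 (g x) (g y) hxy ?_ ?_
  · obtain ⟨N, hN⟩ := hN
    exact ⟨N - ρ, fun j hj => hρ x y j (fun i _ hi => hN i (by omega))⟩
  · obtain ⟨N, hN⟩ := hM
    exact ⟨N + ρ, fun j hj => hρ x y j (fun i hi _ => hN i (by omega))⟩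

theorem preInj_id : PreInj (id : Conf S → Conf S) := fun _ _ h _ _ => h

end

end Pool.Agent.H55.Sweep
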