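import Mathlib

/-!
Cellular automata on `ℤ → S`, closing maps, the hierarchy of compositions of closing maps
(levels `k`), windows, and the relation `Ker f m A`.
-/

namespace Pool.Agent.H55.Sweep

/-- bi-infinite configurations over the alphabet `S` -/
abbrev Conf (S : Type*) := ℤ → S

section
variable {S : Type*}

/-- the shift `σ(x)_i = x_{i+1}` -/
def shift (x : Conf S) : Conf S := fun i => x (i + 1)

/-- cellular automata: continuous maps commuting with the shift -/
def IsCA [TopologicalSpace S] (f : Conf S → Conf S) : Prop :=
  Continuous f ∧ ∀ x, f (shift x) = shift (f x)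

/-- left-closing: no `x ≠ y` with `f x = f y` and `x_j = y_j` for all large `j` -/
def LeftClosing (f : Conf S → Conf S) : Prop :=
  ∀ x y, f x = f y → (∃ N : ℤ, ∀ j, N ≤ j → x j = y j) → x = y

/-- right-closing: no `x ≠ y` with `f x = f y` and `x_j = y_j` for all small `j` -/
def RightClosing (f : Conf S → Conf S) : Prop :=
  ∀ x y, f x = f y → (∃ N : ℤ, ∀ j, j ≤ N → x j = y j) → x = y

/-- `Closing true` is left-closing, `Closing false` is right-closing -/
def Closing : Bool → (Conf S → Conf S) → Prop
  | true => LeftClosing
  | false => RightClosing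

/-- `Level true k` is the class `L^cl_k`, `Level false k` is the class `R^cl_k`:
level `0` is `{id}`, and a member of level `k+1` of type `b` is `g ∘ h` with `g` a closing CA of
type `b` and `h` in level `k` of the other type. -/
def Level [TopologicalSpace S] : Bool → ℕ → Set (Conf S → Conf S)
  | _, 0 => {id}
  | b, k + 1 => {f | ∃ g h, IsCA g ∧ Closing b g ∧ h ∈ Level (!b) k ∧ f = g ∘ h}

/-- `f` has window `[a, a+m]`: the value `f(x)_i` depends only on `x_{i+a}, …, x_{i+a+m}` -/
def Window (f : Conf S → Conf S) (a : ℤ) (m : ℕ) : Prop :=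
  ∀ x y i, (∀ j : ℤ, a ≤ j → j ≤ a + m → x (i + j) = y (i + j)) → f x i = f y i

/-- the pair of words of length `m` seen in `x` and `y` at position `t` -/
def st (m : ℕ) (x y : Conf S) (t : ℤ) : (Fin m → S) × (Fin m → S) :=
  (fun j => x (t + ((j : ℕ) : ℤ)), fun j => y (t + ((j : ℕ) : ℤ)))

/-- for a set `A` of pairs of words of length `m`: the relation of all `(x, y)` with
`f x = f y` such that at every position the pair of words seen in `x` and `y` lies in `A` -/
def Ker (f : Conf S → Conf S) (m : ℕ) (A : Set ((Fin m → S) × (Fin m → S)))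
    (x y : Conf S) : Prop :=
  f x = f y ∧ ∀ t, st m x y t ∈ A

end

end Pool.Agent.H55.Sweep
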