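import Pool.Agent.H55.Sweep.Struct

namespace Pool.Agent.H55.Sweep

open Filter Topology

/-! finite agreement and compactness -/

section
variable {S : Type*}

/-- `u n` converges to `p` in the sense of finite windows -/
def Conv (u : ℕ → Conf S) (p : Conf S) : Prop :=
  ∀ r : ℕ, ∃ n0 : ℕ, ∀ n, n0 ≤ n → ∀ j : ℤ, -(r : ℤ) ≤ j → j ≤ r → u n j = p j

theorem Conv.window {u : ℕ → Conf S} {p : Conf S} (h : Conv u p) (r1 r2 : ℤ) :
    ∃ n0 : ℕ, ∀ n, n0 ≤ n → ∀ j : ℤ, r1 ≤ j → j ≤ r2 → u n j = p j := by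
  obtain ⟨n0, hn0⟩ := h (r1.natAbs + r2.natAbs)
  refine ⟨n0, fun n hn j h1 h2 => hn0 n hn j ?_ ?_⟩ <;> rw [Nat.cast_add] <;> omega

theorem Conv.comp {u : ℕ → Conf S} {p : Conf S} (h : Conv u p) {φ : ℕ → ℕ}
    (hφ : StrictMono φ) : Conv (u ∘ φ) p := by
  intro r
  obtain ⟨n0, hn0⟩ := h r
  exact ⟨n0, fun n hn => hn0 (φ n) (hn.trans (hφ.id_le n))⟩

theorem exists_conv [Finite S] (u : ℕ → Conf S) :
    ∃ (φ : ℕ → ℕ) (p : Conf S), StrictMono φ ∧ Conv (u ∘ φ) p := by
  let _ : TopologicalSpace S := ⊥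
  have _ : DiscreteTopology S := ⟨rfl⟩
  obtain ⟨p, φ, hφ, hp⟩ := CompactSpace.tendsto_subseq u
  refine ⟨φ, p, hφ, fun r => ?_⟩
  have hev : ∀ᶠ n in atTop, ∀ j ∈ Finset.Icc (-(r : ℤ)) r, (u ∘ φ) n j = p j := by
    rw [Filter.eventually_all_finset]
    intro j _
    have := (tendsto_pi_nhds.mp hp) j
    rw [nhds_discrete, tendsto_pure] at this
    exact this
  obtain ⟨n0, hn0⟩ := eventually_atTop.mp hev
  exact ⟨n0, fun n hn j h1 h2 => hn0 n hn j (Finset.mem_Icc.mpr ⟨h1, h2⟩)⟩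

theorem exists_conv2 [Finite S] (u v : ℕ → Conf S) :
    ∃ (φ : ℕ → ℕ) (p q : Conf S), StrictMono φ ∧ Conv (u ∘ φ) p ∧ Conv (v ∘ φ) q := by
  obtain ⟨φ, p, hφ, hp⟩ := exists_conv u
  obtain ⟨ψ, q, hψ, hq⟩ := exists_conv (v ∘ φ)
  exact ⟨φ ∘ ψ, p, q, hφ.comp hψ, hp.comp hψ, hq⟩

theorem exists_conv3 [Finite S] (u v w : ℕ → Conf S) :
    ∃ (φ : ℕ → ℕ) (p q r : Conf S), StrictMono φ ∧ Conv (u ∘ φ) p ∧ Conv (v ∘ φ) q ∧
      Conv (w ∘ φ) r := by
  obtain ⟨φ, p, q, hφ, hp, hq⟩ := exists_conv2 u v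
  obtain ⟨ψ, r, hψ, hr⟩ := exists_conv (w ∘ φ)
  exact ⟨φ ∘ ψ, p, q, r, hφ.comp hψ, hp.comp hψ, hq.comp hψ, hr⟩

/-- the word of length `m` of `x` at `t` -/
def wd (m : ℕ) (x : Conf S) (t : ℤ) : Fin m → S := fun j => x (t + ((j : ℕ) : ℤ))

theorem wd_eq_iff {m : ℕ} {x y : Conf S} {s t : ℤ} :
    wd m x s = wd m y t ↔ ∀ j : ℤ, 0 ≤ j → j < m → x (s + j) = y (t + j) := by
  constructor
  · intro h j h0 hj
    have := congrFun h ⟨j.toNat, by omega⟩
    simpa [wd, Int.toNat_of_nonneg h0] using this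
  · intro h
    funext j
    exact h _ (by positivity) (by exact_mod_cast j.2)

theorem wd_eq_iff' {m : ℕ} {x y : Conf S} {t : ℤ} :
    wd m x t = wd m y t ↔ ∀ j : ℤ, t ≤ j → j < t + m → x j = y j := by
  rw [wd_eq_iff]
  constructor
  · intro h j h1 h2
    have := h (j - t) (by omega) (by omega)
    have e : t + (j - t) = j := by ring
    rwa [e] at this
  · intro h j h1 h2
    exact h _ (by omega) (by omega)

theorem st_eq_wd {m : ℕ} (x y : Conf S) (t : ℤ) : st m x y t = (wd m x t, wd m y t) := rfl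

end

/-! the setting: `f` a CA with window `[a, a+m]`, `A` a set of pairs of words -/

/-- label of `x` at `t`: the value of `f x` computed from `x` on `[t, t+m]` -/
def fl {S : Type*} (f : Conf S → Conf S) (a : ℤ) (x : Conf S) (t : ℤ) : S := f x (t - a)

section
variable {S : Type*} {f : Conf S → Conf S} {a : ℤ} {m : ℕ}

theorem fl_congr (hw : Window f a m) {x y : Conf S} {t : ℤ}
    (h : ∀ j : ℤ, t ≤ j → j ≤ t + m → x j = y j) : fl f a x t = fl f a y t := by
  apply hw
  intro j h1 h2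
  exact h _ (by omega) (by omega)

theorem f_eq_iff {x y : Conf S} : f x = f y ↔ ∀ t, fl f a x t = fl f a y t := by
  constructor
  · intro h t; simp only [fl, h]
  · intro h
    funext i
    have := h (i + a)
    simp only [fl] at this
    have e : i + a - a = i := by ring
    rwa [e] at this

theorem fl_tr [TopologicalSpace S] (hf : IsCA f) (n : ℤ) (x : Conf S) (t : ℤ) :
    fl f a (tr n x) t = fl f a x (t + n) := by
  simp only [fl, comm_tr hf, tr]
  congr 1; ring

/-- the hypotheses of the criterion -/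
structure Crit (f : Conf S → Conf S) (m : ℕ) (A : Set ((Fin m → S) × (Fin m → S))) : Prop where
  equiv : Equivalence (Ker f m A)
  left : ∀ x y, Ker f m A x y → (∃ N : ℤ, ∀ j, N ≤ j → x j = y j) → x = y
  fwd : ∀ x y t, f x = f y → st m x y t ∈ A → st m x y (t + 1) ∈ A

/-- the states of `(x', x)` lie in `A` arbitrarily far to the left -/
def Al (m : ℕ) (A : Set ((Fin m → S) × (Fin m → S))) (x' x : Conf S) : Prop :=
  ∀ T : ℤ, ∃ s, s ≤ T ∧ st m x' x s ∈ A

/-- `x'` is left-related to `x` up to `t` -/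
def Rel (f : Conf S → Conf S) (a : ℤ) (m : ℕ) (A : Set ((Fin m → S) × (Fin m → S)))
    (t : ℤ) (x' x : Conf S) : Prop :=
  (∀ i, i < t → fl f a x' i = fl f a x i) ∧ Al m A x' x

variable {A : Set ((Fin m → S) × (Fin m → S))}

theorem st_congr {x y x' y' : Conf S} {s : ℤ} (hx : ∀ j : ℤ, s ≤ j → j < s + m → x j = x' j)
    (hy : ∀ j : ℤ, s ≤ j → j < s + m → y j = y' j) : st m x y s = st m x' y' s := by
  rw [st_eq_wd, st_eq_wd, wd_eq_iff'.2 hx, wd_eq_iff'.2 hy]

theorem al_congr {x y x' y' : Conf S} {N : ℤ} (hx : ∀ j : ℤ, j < N → x j = x' j)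
    (hy : ∀ j : ℤ, j < N → y j = y' j) (h : Al m A x y) : Al m A x' y' := by
  intro T
  obtain ⟨s, hs, hA⟩ := h (min T (N - m))
  refine ⟨s, by omega, ?_⟩
  rw [← st_congr (fun j _ h2 => hx j (by omega)) (fun j _ h2 => hy j (by omega))]
  exact hA

theorem fwd_all (hC : Crit f m A) {x y : Conf S} (hf : f x = f y) {s : ℤ}
    (hs : st m x y s ∈ A) : ∀ t, s ≤ t → st m x y t ∈ A := by
  intro t hst
  obtain ⟨n, rfl⟩ : ∃ n : ℕ, t = s + n := ⟨(t - s).toNat, by rw [Int.toNat_of_nonneg (by omega)]; ring⟩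
  clear hst
  induction n with
  | zero => simpa using hs
  | succ n ih =>
    have := hC.fwd x y (s + n) hf ih
    rw [add_assoc] at this
    exact_mod_cast this

theorem ker_of_al (hC : Crit f m A) {x y : Conf S} (hf : f x = f y) (h : Al m A x y) :
    Ker f m A x y := by
  refine ⟨hf, fun t => ?_⟩
  obtain ⟨s, hs, hA⟩ := h t
  exact fwd_all hC hf hA t hs

theorem al_of_ker {x y : Conf S} (h : Ker f m A x y) : Al m A x y :=
  fun T => ⟨T, le_rfl, h.2 T⟩

/-- gluing a left-related pair with a pair of the kernel of `f` -/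
theorem fl_glue (hw : Window f a m) {s : ℤ} {x x' : Conf S}
    (hx : ∀ j : ℤ, s ≤ j → j < s + m → x j = x' j) (i : ℤ) :
    fl f a (glue s x x') i = if i < s then fl f a x i else fl f a x' i := by
  split_ifs with h
  · apply fl_congr hw
    intro j h1 h2
    by_cases hlt : j < s
    · rw [glue_lt hlt]
    · rw [glue_ge (not_lt.mp hlt)]; exact (hx j (not_lt.mp hlt) (by omega)).symm
  · apply fl_congr hw
    intro j h1 h2
    rw [glue_ge (by omega)]

theorem glue_ker (hw : Window f a m) (hC : Crit f m A) {s : ℤ} {x y x' y' : Conf S}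
    (hx : ∀ j : ℤ, s ≤ j → j < s + m → x j = x' j)
    (hy : ∀ j : ℤ, s ≤ j → j < s + m → y j = y' j)
    (hl : ∀ i, i < s → fl f a x i = fl f a y i) (hal : Al m A x y)
    (hr : ∀ i, s ≤ i → fl f a x' i = fl f a y' i) :
    Ker f m A (glue s x x') (glue s y y') := by
  apply ker_of_al hC
  · rw [f_eq_iff (a := a)]
    intro t
    rw [fl_glue hw hx, fl_glue hw hy]
    split_ifs with h
    · exact hl t h
    · exact hr t (not_lt.mp h)
  · exact al_congr (N := s) (fun j hj => (glue_lt hj).symm) (fun j hj => (glue_lt hj).symm) hal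

/-- approximation criterion for the relation -/
theorem ker_of_approx [TopologicalSpace S] (hf : IsCA f) (hw : Window f a m) (hC : Crit f m A)
    {p' p : Conf S} (hp : f p' = f p)
    (h : ∀ r : ℤ, ∃ z' z s, (∀ i, i < s → fl f a z' i = fl f a z i) ∧ Al m A z' z ∧
      st m z' z s = st m p' p r) : Ker f m A p' p := by
  refine ⟨hp, fun r => ?_⟩
  obtain ⟨z', z, s, hl, hal, hst⟩ := h r
  have h1 := st_eq_iff.mp hst
  have hx : ∀ j : ℤ, s ≤ j → j < s + m → z' j = tr (r - s) p' j := by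
    intro j h2 h3
    have := h1.1 (j - s) (by omega) (by omega)
    simp only [tr]
    have e1 : s + (j - s) = j := by ring
    have e2 : r + (j - s) = j + (r - s) := by ring
    rw [e1, e2] at this
    exact this
  have hy : ∀ j : ℤ, s ≤ j → j < s + m → z j = tr (r - s) p j := by
    intro j h2 h3
    have := h1.2 (j - s) (by omega) (by omega)
    simp only [tr]
    have e1 : s + (j - s) = j := by ring
    have e2 : r + (j - s) = j + (r - s) := by ring
    rw [e1, e2] at this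
    exact this
  have hK := glue_ker hw hC hx hy hl hal (fun i _ => by
    rw [fl_tr hf, fl_tr hf]
    exact (f_eq_iff (a := a)).1 hp _)
  have h2 := hK.2 s
  rw [st_glue_le hx hy le_rfl, hst] at h2
  exact h2

/-- every limit of left translates of a left-related pair is in the relation -/
theorem ker_of_limit [TopologicalSpace S] (hf : IsCA f) (hw : Window f a m) (hC : Crit f m A)
    {x' x : Conf S} {t : ℤ} (hR : Rel f a m A t x' x) {φ : ℕ → ℕ} (hφ : StrictMono φ)
    {p' p : Conf S} (h' : Conv ((fun n : ℕ => tr (-(n : ℤ)) x') ∘ φ) p')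
    (h : Conv ((fun n : ℕ => tr (-(n : ℤ)) x) ∘ φ) p) : Ker f m A p' p := by
  have big : ∀ B : ℤ, ∃ n0 : ℕ, ∀ n, n0 ≤ n → B ≤ (φ n : ℤ) := by
    intro B
    refine ⟨B.toNat, fun n hn => ?_⟩
    have h1 : n ≤ φ n := hφ.id_le n
    have h2 : (B.toNat : ℤ) ≤ φ n := by exact_mod_cast hn.trans h1
    have := Int.self_le_toNat B
    omega
  apply ker_of_approx hf hw hC
  · rw [f_eq_iff (a := a)]
    intro i
    obtain ⟨n1, h1⟩ := h'.window i (i + m)
    obtain ⟨n2, h2⟩ := h.window i (i + m)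
    obtain ⟨n3, h3⟩ := big (i - t + 1)
    set n := n1 + n2 + n3
    have e1 : fl f a p' i = fl f a (tr (-(φ n : ℤ)) x') i :=
      fl_congr hw (fun j hj1 hj2 => (h1 n (by omega) j hj1 hj2).symm)
    have e2 : fl f a p i = fl f a (tr (-(φ n : ℤ)) x) i :=
      fl_congr hw (fun j hj1 hj2 => (h2 n (by omega) j hj1 hj2).symm)
    rw [e1, e2, fl_tr hf, fl_tr hf]
    apply hR.1
    have := h3 n (by omega)
    omega
  · intro r
    obtain ⟨n1, h1⟩ := h'.window r (r + m)
    obtain ⟨n2, h2⟩ := h.window r (r + m)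
    obtain ⟨n3, h3⟩ := big (r - t + 1)
    set n := n1 + n2 + n3
    refine ⟨x', x, r - φ n, fun i hi => hR.1 i ?_, hR.2, ?_⟩
    · have := h3 n (by omega)
      omega
    · rw [st_eq_iff]
      constructor
      · intro j hj1 hj2
        have := h1 n (by omega) (r + j) (by omega) (by omega)
        rw [← this]
        simp only [Function.comp, tr]
        congr 1; ring
      · intro j hj1 hj2
        have := h2 n (by omega) (r + j) (by omega) (by omega)
        rw [← this]
        simp only [Function.comp, tr]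
        congr 1; ring

/-- states of left translates converge -/
theorem al_of_limits {x' x : Conf S} {φ : ℕ → ℕ} (hφ : StrictMono φ)
    {p' p : Conf S} (h' : Conv ((fun n : ℕ => tr (-(n : ℤ)) x') ∘ φ) p')
    (h : Conv ((fun n : ℕ => tr (-(n : ℤ)) x) ∘ φ) p) (hA : st m p' p 0 ∈ A) :
    Al m A x' x := by
  intro T
  obtain ⟨n1, h1⟩ := h'.window 0 m
  obtain ⟨n2, h2⟩ := h.window 0 m
  set n := n1 + n2 + T.natAbs
  refine ⟨-(φ n : ℤ), ?_, ?_⟩
  · have h1 : n ≤ φ n := hφ.id_le n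
    have h2 : (n : ℤ) ≤ φ n := by exact_mod_cast h1
    have h3 : (T.natAbs : ℤ) ≤ n := by
      have : T.natAbs ≤ n := by omega
      exact_mod_cast this
    omega
  · have e : st m x' x (-(φ n : ℤ)) = st m p' p 0 := by
      rw [st_eq_iff]
      constructor
      · intro j hj1 hj2
        have := h1 n (by omega) j (by omega) (by omega)
        rw [zero_add, ← this]
        simp only [Function.comp, tr]
        congr 1; ring
      · intro j hj1 hj2
        have := h2 n (by omega) j (by omega) (by omega)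
        rw [zero_add, ← this]
        simp only [Function.comp, tr]
        congr 1; ring
    rw [e]; exact hA

variable [TopologicalSpace S] [Finite S]

theorem rel_refl (hC : Crit f m A) (t : ℤ) (x : Conf S) : Rel f a m A t x x :=
  ⟨fun _ _ => rfl, al_of_ker (hC.equiv.refl x)⟩

theorem rel_symm (hf : IsCA f) (hw : Window f a m) (hC : Crit f m A) {t : ℤ} {x' x : Conf S}
    (h : Rel f a m A t x' x) : Rel f a m A t x x' := by
  refine ⟨fun i hi => (h.1 i hi).symm, ?_⟩
  obtain ⟨φ, p', p, hφ, hp', hp⟩ := exists_conv2 (fun n : ℕ => tr (-(n : ℤ)) x')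
    (fun n : ℕ => tr (-(n : ℤ)) x)
  have hK := ker_of_limit hf hw hC h hφ hp' hp
  exact al_of_limits hφ hp hp' ((hC.equiv.symm hK).2 0)

theorem rel_trans (hf : IsCA f) (hw : Window f a m) (hC : Crit f m A) {t : ℤ}
    {x'' x' x : Conf S} (h1 : Rel f a m A t x'' x') (h2 : Rel f a m A t x' x) :
    Rel f a m A t x'' x := by
  refine ⟨fun i hi => (h1.1 i hi).trans (h2.1 i hi), ?_⟩
  obtain ⟨φ, p'', p', p, hφ, hp'', hp', hp⟩ := exists_conv3 (fun n : ℕ => tr (-(n : ℤ)) x'')
    (fun n : ℕ => tr (-(n : ℤ)) x') (fun n : ℕ => tr (-(n : ℤ)) x)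
  have hK1 := ker_of_limit hf hw hC h1 hφ hp'' hp'
  have hK2 := ker_of_limit hf hw hC h2 hφ hp' hp
  exact al_of_limits hφ hp'' hp ((hC.equiv.trans hK1 hK2).2 0)

theorem rel_mono {t t' : ℤ} (h : t' ≤ t) {x' x : Conf S} (hR : Rel f a m A t x' x) :
    Rel f a m A t' x' x := ⟨fun i hi => hR.1 i (by omega), hR.2⟩

/-- uniqueness of left rays with given end word -/
theorem rel_unique (hw : Window f a m) (hC : Crit f m A) {t : ℤ}
    {x' x : Conf S} (h : Rel f a m A t x' x) (hwd : wd m x' t = wd m x t) :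
    ∀ j, j < t + m → x' j = x j := by
  have hx := wd_eq_iff'.1 hwd
  have hK : Ker f m A (glue t x' x) (glue t x x) :=
    glue_ker hw hC hx (fun _ _ _ => rfl) h.1 h.2 (fun _ _ => rfl)
  have hE := hC.left _ _ hK ⟨t, fun j hj => by rw [glue_ge hj, glue_ge hj]⟩
  intro j hj
  by_cases hlt : j < t
  · have := congrFun hE j
    rwa [glue_lt hlt, glue_lt hlt] at this
  · exact hx j (not_lt.mp hlt) hj

/-- changing the right part does not matter -/
theorem rel_congr (hw : Window f a m) {t : ℤ} {x' x y' y : Conf S}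
    (hx : ∀ j, j < t + m → x' j = y' j) (hy : ∀ j, j < t + m → x j = y j)
    (h : Rel f a m A t x' x) : Rel f a m A t y' y := by
  refine ⟨fun i hi => ?_, al_congr hx hy h.2⟩
  rw [← fl_congr hw (fun j _ h2 => hx j (by omega)), ← fl_congr hw (fun j _ h2 => hy j (by omega))]
  exact h.1 i hi

theorem rel_tr (hf : IsCA f) {t n : ℤ} {x' x : Conf S} (h : Rel f a m A (t + n) x' x) :
    Rel f a m A t (tr n x') (tr n x) := by
  refine ⟨fun i hi => ?_, fun T => ?_⟩
  · rw [fl_tr hf, fl_tr hf]; exact h.1 _ (by omega)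
  · obtain ⟨s, hs, hA⟩ := h.2 (T + n)
    refine ⟨s - n, by omega, ?_⟩
    rw [st_tr]
    have e : s - n + n = s := by ring
    rw [e]; exact hA

end

end Pool.Agent.H55.Sweep
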