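import Pool.Agent.H55.Sweep.Ev1

namespace Pool.Agent.H55.Sweep

open Filter Topology

open Classical in
/-- end words of the rays left-related to `x` up to `t` -/
noncomputable def E {S : Type*} [Fintype S] (f : Conf S → Conf S) (a : ℤ) (m : ℕ)
    (A : Set ((Fin m → S) × (Fin m → S))) (t : ℤ) (x : Conf S) : Finset (Fin m → S) :=
  Finset.univ.filter (fun w => ∃ x', Rel f a m A t x' x ∧ wd m x' t = w)

/-- the configuration with the word `w` on `[0, m)` and `c` elsewhere -/
def zc {S : Type*} {m : ℕ} (w : Fin m → S) (c : S) : Conf S := fun j =>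
  if h : 0 ≤ j ∧ j < m then w ⟨j.toNat, by omega⟩ else c

/-- label of the word `w` followed by `c` -/
def lab {S : Type*} (f : Conf S → Conf S) (a : ℤ) {m : ℕ} (w : Fin m → S) (c : S) : S :=
  fl f a (zc w c) 0

/-- the word `w` shifted by one with `c` appended -/
def push {S : Type*} {m : ℕ} (w : Fin m → S) (c : S) : Fin m → S := wd m (zc w c) 1

/-- replace everything from `t + m` on by `c` -/
def ext {S : Type*} (m : ℕ) (x : Conf S) (t : ℤ) (c : S) : Conf S := fun j =>
  if j < t + m then x j else c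

open Classical in
/-- the successor of a set of words under a label -/
noncomputable def nxt {S : Type*} [Fintype S] (f : Conf S → Conf S) (a : ℤ) {m : ℕ}
    (F : Finset (Fin m → S)) (s : S) : Finset (Fin m → S) :=
  ((F ×ˢ (Finset.univ : Finset S)).filter (fun p => lab f a p.1 p.2 = s)).image
    (fun p => push p.1 p.2)

section
variable {S : Type*} {m : ℕ}

theorem ext_lt {x : Conf S} {t : ℤ} {c : S} {j : ℤ} (h : j < t + m) : ext m x t c j = x j := by
  simp [ext, h]

theorem ext_ge {x : Conf S} {t : ℤ} {c : S} {j : ℤ} (h : t + m ≤ j) : ext m x t c j = c := by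
  simp [ext, not_lt.mpr h]

theorem lab_eq [TopologicalSpace S] {f : Conf S → Conf S} {a : ℤ} (hf : IsCA f)
    (hw : Window f a m) (x : Conf S) (t : ℤ) : fl f a x t = lab f a (wd m x t) (x (t + m)) := by
  have h1 : fl f a x t = fl f a (tr t x) 0 := by rw [fl_tr hf, zero_add]
  rw [h1]
  apply fl_congr hw
  intro j h1 h2
  simp only [tr, zc]
  by_cases h : 0 ≤ j ∧ j < m
  · rw [dif_pos h]
    simp only [wd]
    congr 1
    rw [Int.toNat_of_nonneg h.1]; ring
  · rw [dif_neg h]
    have : j = m := by omega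
    subst this
    congr 1; ring

theorem push_eq (x : Conf S) (t : ℤ) : wd m x (t + 1) = push (wd m x t) (x (t + m)) := by
  simp only [push]
  rw [wd_eq_iff]
  intro j h1 h2
  simp only [zc]
  by_cases h : 0 ≤ 1 + j ∧ 1 + j < m
  · rw [dif_pos h]
    simp only [wd]
    congr 1
    rw [Int.toNat_of_nonneg h.1]; ring
  · rw [dif_neg h]
    have : 1 + j = m := by omega
    congr 1
    omega

theorem mem_nxt [Fintype S] {f : Conf S → Conf S} {a : ℤ} {F : Finset (Fin m → S)} {s : S}
    {w' : Fin m → S} : w' ∈ nxt f a F s ↔ ∃ w ∈ F, ∃ c, lab f a w c = s ∧ push w c = w' := by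
  classical
  simp only [nxt, Finset.mem_image, Finset.mem_filter, Finset.mem_product, Finset.mem_univ,
    and_true, Prod.exists]
  constructor
  · rintro ⟨w, c, ⟨h1, h2⟩, h3⟩; exact ⟨w, h1, c, h2, h3⟩
  · rintro ⟨w, h1, c, h2, h3⟩; exact ⟨w, c, ⟨h1, h2⟩, h3⟩

end

section
variable {S : Type*} {f : Conf S → Conf S} {a : ℤ} {m : ℕ}
variable {A : Set ((Fin m → S) × (Fin m → S))} [TopologicalSpace S] [Fintype S]

theorem mem_E {t : ℤ} {x : Conf S} {w : Fin m → S} :
    w ∈ E f a m A t x ↔ ∃ x', Rel f a m A t x' x ∧ wd m x' t = w := by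
  simp [E]

theorem self_mem_E (hC : Crit f m A) (t : ℤ) (x : Conf S) : wd m x t ∈ E f a m A t x :=
  mem_E.2 ⟨x, rel_refl hC t x, rfl⟩

theorem E_rel (hf : IsCA f) (hw : Window f a m) (hC : Crit f m A) {t : ℤ} {y x : Conf S}
    (h : Rel f a m A t y x) : E f a m A t y = E f a m A t x := by
  ext w
  rw [mem_E, mem_E]
  constructor
  · rintro ⟨x', h1, h2⟩; exact ⟨x', rel_trans hf hw hC h1 h, h2⟩
  · rintro ⟨x', h1, h2⟩; exact ⟨x', rel_trans hf hw hC h1 (rel_symm hf hw hC h), h2⟩

theorem E_congr (hw : Window f a m) {t : ℤ} {x y : Conf S}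
    (h : ∀ j, j < t + m → x j = y j) : E f a m A t x = E f a m A t y := by
  ext w
  rw [mem_E, mem_E]
  constructor
  · rintro ⟨x', h1, h2⟩; exact ⟨x', rel_congr hw (fun _ _ => rfl) h h1, h2⟩
  · rintro ⟨x', h1, h2⟩
    exact ⟨x', rel_congr hw (fun _ _ => rfl) (fun j hj => (h j hj).symm) h1, h2⟩

theorem E_tr_le (hf : IsCA f) {t n : ℤ} {x : Conf S} :
    E f a m A (t + n) x ⊆ E f a m A t (tr n x) := by
  intro w
  rw [mem_E, mem_E]
  rintro ⟨x', h1, h2⟩
  refine ⟨tr n x', rel_tr hf h1, ?_⟩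
  rw [← h2, wd_eq_iff]
  intro j _ _
  simp only [tr]; congr 1; ring

theorem E_tr (hf : IsCA f) (t n : ℤ) (x : Conf S) :
    E f a m A t (tr n x) = E f a m A (t + n) x := by
  apply Finset.Subset.antisymm
  · have h := E_tr_le (f := f) (a := a) (m := m) (A := A) hf (t := t + n) (n := -n) (x := tr n x)
    rw [tr_tr] at h
    have e1 : t + n + -n = t := by ring
    have e2 : -n + n = 0 := by ring
    rw [e1, e2, tr_zero] at h
    exact h
  · exact E_tr_le hf

/-- extending a ray by one letter -/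
theorem rel_ext (hf : IsCA f) (hw : Window f a m) {t : ℤ} {x' x : Conf S}
    (h : Rel f a m A t x' x) {c : S} (hc : lab f a (wd m x' t) c = fl f a x t) :
    Rel f a m A (t + 1) (ext m x' t c) x := by
  have hag : ∀ j, j < t + m → ext m x' t c j = x' j := fun j hj => ext_lt hj
  have h1 := rel_congr hw (fun j hj => (hag j hj).symm) (fun _ _ => rfl) h
  refine ⟨fun i hi => ?_, h1.2⟩
  by_cases hit : i < t
  · exact h1.1 i hit
  · have : i = t := by omega
    subst this
    rw [lab_eq hf hw]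
    have e1 : wd m (ext m x' i c) i = wd m x' i := wd_eq_iff'.2 (fun j _ h2 => ext_lt (by omega))
    rw [e1, ext_ge le_rfl]
    exact hc

theorem wd_ext {x' : Conf S} {t : ℤ} {c : S} :
    wd m (ext m x' t c) (t + 1) = push (wd m x' t) c := by
  rw [push_eq]
  have e1 : wd m (ext m x' t c) t = wd m x' t := wd_eq_iff'.2 (fun j _ h2 => ext_lt (by omega))
  rw [e1, ext_ge le_rfl]

theorem fl_ext (hf : IsCA f) (hw : Window f a m) {x' : Conf S} {t : ℤ} {c : S} :
    fl f a (ext m x' t c) t = lab f a (wd m x' t) c := by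
  rw [lab_eq hf hw]
  have e1 : wd m (ext m x' t c) t = wd m x' t := wd_eq_iff'.2 (fun j _ h2 => ext_lt (by omega))
  rw [e1, ext_ge le_rfl]

theorem E_succ (hf : IsCA f) (hw : Window f a m) (t : ℤ) (x : Conf S) :
    E f a m A (t + 1) x = nxt f a (E f a m A t x) (fl f a x t) := by
  ext w'
  rw [mem_nxt, mem_E]
  constructor
  · rintro ⟨x', h1, h2⟩
    refine ⟨wd m x' t, mem_E.2 ⟨x', rel_mono (by omega) h1, rfl⟩, x' (t + m), ?_, ?_⟩
    · rw [← lab_eq hf hw]; exact h1.1 t (by omega)
    · rw [← push_eq]; exact h2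
  · rintro ⟨w, hw1, c, hc, hp⟩
    obtain ⟨x', h1, rfl⟩ := mem_E.1 hw1
    exact ⟨ext m x' t c, rel_ext hf hw h1 hc, by rw [wd_ext]; exact hp⟩

/-- every non-empty successor of `E t x` is again of the form `E (t+1) y` -/
theorem nxt_form (hf : IsCA f) (hw : Window f a m) (hC : Crit f m A) {t : ℤ} {x : Conf S}
    {s : S} {w : Fin m → S} (hwE : w ∈ E f a m A t x) {c : S} (hc : lab f a w c = s) :
    ∃ y, Rel f a m A t y x ∧ fl f a y t = s ∧ wd m y t = w ∧ y (t + m) = c ∧
      E f a m A (t + 1) y = nxt f a (E f a m A t x) s := by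
  obtain ⟨x', h1, rfl⟩ := mem_E.1 hwE
  have hR : Rel f a m A t (ext m x' t c) x :=
    rel_congr hw (fun j hj => (ext_lt hj).symm) (fun _ _ => rfl) h1
  have hfl : fl f a (ext m x' t c) t = s := by rw [fl_ext hf hw]; exact hc
  refine ⟨ext m x' t c, hR, hfl, wd_eq_iff'.2 (fun j _ h2 => ext_lt h2), ext_ge le_rfl, ?_⟩
  rw [E_succ hf hw, hfl, E_rel hf hw hC hR]

/-- injectivity of `(w, c) ↦ (label, next word)` on `E t x × S` -/
theorem step_inj (hf : IsCA f) (hw : Window f a m) (hC : Crit f m A) {t : ℤ} {x : Conf S}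
    {w w2 : Fin m → S} {c c2 : S} (h1 : w ∈ E f a m A t x) (h2 : w2 ∈ E f a m A t x)
    (hl : lab f a w c = lab f a w2 c2) (hp : push w c = push w2 c2) : w = w2 ∧ c = c2 := by
  obtain ⟨x', hx', rfl⟩ := mem_E.1 h1
  obtain ⟨x'', hx'', rfl⟩ := mem_E.1 h2
  have hR : Rel f a m A t x' (ext m x'' t c2) :=
    rel_congr hw (fun _ _ => rfl) (fun j hj => (ext_lt hj).symm)
      (rel_trans hf hw hC hx' (rel_symm hf hw hC hx''))
  have hR2 : Rel f a m A (t + 1) (ext m x' t c) (ext m x'' t c2) :=
    rel_ext hf hw hR (by rw [fl_ext hf hw]; exact hl)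
  have hU := rel_unique hw hC hR2 (by rw [wd_ext, wd_ext]; exact hp)
  constructor
  · rw [wd_eq_iff']
    intro j hj1 hj2
    have := hU j (by omega)
    rwa [ext_lt hj2, ext_lt hj2] at this
  · have := hU (t + m) (by omega)
    rwa [ext_ge le_rfl, ext_ge le_rfl] at this

theorem sum_nxt (hf : IsCA f) (hw : Window f a m) (hC : Crit f m A) (t : ℤ) (x : Conf S) :
    ∑ s : S, (nxt f a (E f a m A t x) s).card = (E f a m A t x).card * Fintype.card S := by
  classical
  have h1 : (E f a m A t x).card * Fintype.card S =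
      ((E f a m A t x) ×ˢ (Finset.univ : Finset S)).card := by
    rw [Finset.card_product, Finset.card_univ]
  rw [h1, Finset.card_eq_sum_card_fiberwise (f := fun p => lab f a p.1 p.2) (t := Finset.univ)
    (fun _ _ => Finset.mem_coe.2 (Finset.mem_univ _))]
  refine Finset.sum_congr rfl (fun s _ => ?_)
  simp only [nxt]
  rw [Finset.card_image_of_injOn]
  · rintro ⟨w, c⟩ hp ⟨w2, c2⟩ hq h
    simp only [Finset.coe_filter, Finset.mem_product, Finset.mem_univ, and_true,
      Set.mem_setOf_eq] at hp hq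
    obtain ⟨e1, e2⟩ := step_inj hf hw hC hp.1 hq.1 (hp.2.trans hq.2.symm) h
    rw [e1, e2]

/-- maximality persists -/
theorem max_step (hf : IsCA f) (hw : Window f a m) (hC : Crit f m A) {M : ℕ}
    (hM : ∀ t x, (E f a m A t x).card ≤ M) {t : ℤ} {x : Conf S}
    (h : (E f a m A t x).card = M) (s : S) : (nxt f a (E f a m A t x) s).card = M := by
  classical
  have hle : ∀ s : S, (nxt f a (E f a m A t x) s).card ≤ M := by
    intro s
    rcases (nxt f a (E f a m A t x) s).eq_empty_or_nonempty with h0 | ⟨w', hw'⟩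
    · rw [h0]; simp
    · obtain ⟨w, hwE, c, hc, _⟩ := mem_nxt.1 hw'
      obtain ⟨y, _, _, _, _, hy⟩ := nxt_form hf hw hC hwE hc
      rw [← hy]; exact hM _ _
  have hsum := sum_nxt hf hw hC t x
  rw [h] at hsum
  by_contra hne
  have hlt : (nxt f a (E f a m A t x) s).card < M := lt_of_le_of_ne (hle s) hne
  have : ∑ s : S, (nxt f a (E f a m A t x) s).card < ∑ _s : S, M :=
    Finset.sum_lt_sum (fun i _ => hle i) ⟨s, Finset.mem_univ _, hlt⟩
  rw [hsum, Finset.sum_const, Finset.card_univ, smul_eq_mul, mul_comm] at this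
  exact lt_irrefl _ this

/-- upper semicontinuity -/
theorem usc (hf : IsCA f) (hw : Window f a m) (hC : Crit f m A) {t : ℤ} {y : ℕ → Conf S}
    {x : Conf S} (hy : Conv y x) {w : Fin m → S}
    (h : ∀ N : ℕ, ∃ n, N ≤ n ∧ w ∈ E f a m A t (y n)) : w ∈ E f a m A t x := by
  have h1 : ∀ N : ℕ, ∃ n z, N ≤ n ∧ Rel f a m A t z (y n) ∧ wd m z t = w := by
    intro N
    obtain ⟨n, hn, hwn⟩ := h N
    obtain ⟨z, hz1, hz2⟩ := mem_E.1 hwn
    exact ⟨n, z, hn, hz1, hz2⟩
  choose n z hn hz hzw using h1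
  obtain ⟨φ, x', hφ, hx'⟩ := exists_conv z
  have big : ∀ N, N ≤ n (φ N) := fun N => (hφ.id_le N).trans (hn (φ N))
  -- labels agree
  have hlab : ∀ i, i < t → fl f a x' i = fl f a x i := by
    intro i hi
    obtain ⟨n1, h1⟩ := hx'.window i (i + m)
    obtain ⟨n2, h2⟩ := hy.window i (i + m)
    set N := n1 + n2
    have e1 : fl f a x' i = fl f a (z (φ N)) i :=
      fl_congr hw (fun j hj1 hj2 => (h1 N (by omega) j hj1 hj2).symm)
    have e2 : fl f a x i = fl f a (y (n (φ N))) i :=
      fl_congr hw (fun j hj1 hj2 => (h2 (n (φ N)) ((by omega : n2 ≤ N).trans (big N)) j hj1 hj2).symm)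
    rw [e1, e2]
    exact (hz (φ N)).1 i hi
  refine mem_E.2 ⟨x', ⟨hlab, ?_⟩, ?_⟩
  · -- states
    obtain ⟨ψ, p', p, hψ, hp', hp⟩ := exists_conv2 (fun n : ℕ => tr (-(n : ℤ)) x')
      (fun n : ℕ => tr (-(n : ℤ)) x)
    have bigψ : ∀ B : ℤ, ∃ n0 : ℕ, ∀ n, n0 ≤ n → B ≤ (ψ n : ℤ) := by
      intro B
      refine ⟨B.toNat, fun n hn => ?_⟩
      have h1 : n ≤ ψ n := hψ.id_le n
      have h2 : (B.toNat : ℤ) ≤ ψ n := by exact_mod_cast hn.trans h1
      have := Int.self_le_toNat B
      omega
    have hK : Ker f m A p' p := by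
      apply ker_of_approx hf hw hC
      · rw [f_eq_iff (a := a)]
        intro i
        obtain ⟨n1, h1⟩ := hp'.window i (i + m)
        obtain ⟨n2, h2⟩ := hp.window i (i + m)
        obtain ⟨n3, h3⟩ := bigψ (i - t + 1)
        set k := n1 + n2 + n3
        have e1 : fl f a p' i = fl f a (tr (-(ψ k : ℤ)) x') i :=
          fl_congr hw (fun j hj1 hj2 => (h1 k (by omega) j hj1 hj2).symm)
        have e2 : fl f a p i = fl f a (tr (-(ψ k : ℤ)) x) i :=
          fl_congr hw (fun j hj1 hj2 => (h2 k (by omega) j hj1 hj2).symm)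
        rw [e1, e2, fl_tr hf, fl_tr hf]
        apply hlab
        have := h3 k (by omega)
        omega
      · intro r
        obtain ⟨n1, h1⟩ := hp'.window r (r + m)
        obtain ⟨n2, h2⟩ := hp.window r (r + m)
        obtain ⟨n3, h3⟩ := bigψ (r - t + 1)
        set k := n1 + n2 + n3
        obtain ⟨n4, h4⟩ := hx'.window (r - ψ k) (r - ψ k + m)
        obtain ⟨n5, h5⟩ := hy.window (r - ψ k) (r - ψ k + m)
        set N := n4 + n5
        refine ⟨z (φ N), y (n (φ N)), r - ψ k, fun i hi => (hz (φ N)).1 i ?_, (hz (φ N)).2, ?_⟩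
        · have := h3 k (by omega)
          omega
        · have e1 : st m (z (φ N)) (y (n (φ N))) (r - ψ k) = st m x' x (r - ψ k) :=
            st_congr (fun j hj1 hj2 => h4 N (by omega) j hj1 (by omega))
              (fun j hj1 hj2 => h5 (n (φ N)) ((by omega : n5 ≤ N).trans (big N)) j hj1 (by omega))
          rw [e1, st_eq_iff]
          constructor
          · intro j hj1 hj2
            have := h1 k (by omega) (r + j) (by omega) (by omega)
            rw [← this]
            simp only [Function.comp, tr]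
            congr 1; ring
          · intro j hj1 hj2
            have := h2 k (by omega) (r + j) (by omega) (by omega)
            rw [← this]
            simp only [Function.comp, tr]
            congr 1; ring
    exact al_of_limits hψ hp' hp (hK.2 0)
  · obtain ⟨n1, h1⟩ := hx'.window t (t + m)
    rw [← hzw (φ n1), wd_eq_iff']
    intro j hj1 hj2
    exact (h1 n1 le_rfl j hj1 (by omega)).symm

/-- all classes have the same number of end words -/
theorem exists_max [Nonempty S] (hf : IsCA f) (hw : Window f a m) (hC : Crit f m A) :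
    ∃ M : ℕ, ∀ t x, (E f a m A t x).card = M := by
  classical
  obtain ⟨x0⟩ : Nonempty (Conf S) := inferInstance
  -- a maximum
  obtain ⟨F, hF, hmax⟩ := ((Finset.univ : Finset (Finset (Fin m → S))).filter
    (fun F => ∃ t x, E f a m A t x = F)).exists_max_image (fun F => F.card)
    ⟨E f a m A 0 x0, by simp only [Finset.mem_filter, Finset.mem_univ, true_and]; exact ⟨0, x0, rfl⟩⟩
  simp only [Finset.mem_filter, Finset.mem_univ, true_and] at hF hmax
  obtain ⟨t0, u, rfl⟩ := hF
  set M := (E f a m A t0 u).card with hMdef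
  have hM : ∀ t x, (E f a m A t x).card ≤ M := fun t x => hmax _ ⟨t, x, rfl⟩
  refine ⟨M, fun t x => ?_⟩
  -- approximating configurations
  let y : ℕ → Conf S := fun n j => if j < -(n : ℤ) + m then tr (t0 + n) u j else x j
  have hy0 : ∀ n : ℕ, (E f a m A (-(n : ℤ)) (y n)).card = M := by
    intro n
    have e : E f a m A (-(n : ℤ)) (y n) = E f a m A (-(n : ℤ)) (tr (t0 + n) u) :=
      E_congr hw (fun j hj => by simp only [y]; rw [if_pos hj])
    rw [e, E_tr hf]
    have e2 : -(n : ℤ) + (t0 + n) = t0 := by ring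
    rw [e2]
  have hyk : ∀ n k : ℕ, (E f a m A (-(n : ℤ) + k) (y n)).card = M := by
    intro n k
    induction k with
    | zero => simpa using hy0 n
    | succ k ih =>
      have e : (-(n : ℤ) + ((k + 1 : ℕ) : ℤ)) = (-(n : ℤ) + k) + 1 := by push_cast; ring
      rw [e, E_succ hf hw]
      exact max_step hf hw hC hM ih _
  have hyt : ∀ n : ℕ, -t ≤ n → (E f a m A t (y n)).card = M := by
    intro n hn
    have := hyk n (t + n).toNat
    rw [Int.toNat_of_nonneg (by omega)] at this
    have e : -(n : ℤ) + (t + n) = t := by ring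
    rwa [e] at this
  have hconv : Conv y x := by
    intro r
    refine ⟨r + m + 1, fun n hn j hj1 hj2 => ?_⟩
    simp only [y]
    rw [if_neg]
    have : ((r + m + 1 : ℕ) : ℤ) ≤ n := by exact_mod_cast hn
    push_cast at this
    omega
  -- some value is taken infinitely often
  obtain ⟨G, hG⟩ : ∃ G : Finset (Fin m → S), ∀ N : ℕ, ∃ n, N ≤ n ∧ E f a m A t (y n) = G := by
    by_contra hcon
    push Not at hcon
    choose N hN using hcon
    have h1 := hN (E f a m A t (y (Finset.univ.sup N))) (Finset.univ.sup N)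
      (Finset.le_sup (f := N) (Finset.mem_univ _))
    exact h1 rfl
  have hsub : G ⊆ E f a m A t x := by
    intro w hwG
    refine usc hf hw hC hconv (fun N => ?_)
    obtain ⟨n, hn, hnG⟩ := hG N
    exact ⟨n, hn, by rw [hnG]; exact hwG⟩
  have hGM : G.card = M := by
    obtain ⟨n, hn, hnG⟩ := hG ((-t).toNat)
    rw [← hnG]
    apply hyt
    have := Int.self_le_toNat (-t)
    have h2 : ((-t).toNat : ℤ) ≤ n := by exact_mod_cast hn
    omega
  exact le_antisymm (hM t x) (by rw [← hGM]; exact Finset.card_le_card hsub)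

/-- continuity of `E` -/
theorem E_conv (hf : IsCA f) (hw : Window f a m) (hC : Crit f m A) {M : ℕ}
    (hM : ∀ t x, (E f a m A t x).card = M) {y : ℕ → Conf S} {x : Conf S} (hy : Conv y x)
    (t : ℤ) : ∃ N : ℕ, ∀ n, N ≤ n → E f a m A t (y n) = E f a m A t x := by
  classical
  have h1 : ∀ w : Fin m → S, ∃ N : ℕ, w ∉ E f a m A t x → ∀ n, N ≤ n → w ∉ E f a m A t (y n) := by
    intro w
    by_cases hwx : w ∈ E f a m A t x
    · exact ⟨0, fun h => absurd hwx h⟩
    · by_contra hcon
      push Not at hcon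
      apply hwx
      refine usc hf hw hC hy (fun N => ?_)
      obtain ⟨_, n, hn, h2⟩ := hcon N
      exact ⟨n, hn, h2⟩
  choose N hN using h1
  refine ⟨Finset.univ.sup N, fun n hn => ?_⟩
  apply Finset.eq_of_subset_of_card_le
  · intro w hwn
    by_contra hwx
    exact hN w hwx n ((Finset.le_sup (f := N) (Finset.mem_univ w)).trans hn) hwn
  · rw [hM, hM]

/-- uniform finite memory of `E` -/
theorem exists_memory (hf : IsCA f) (hw : Window f a m) (hC : Crit f m A) {M : ℕ}
    (hM : ∀ t x, (E f a m A t x).card = M) :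
    ∃ n0 : ℕ, ∀ t x y, (∀ j : ℤ, t - n0 ≤ j → j < t + m → x j = y j) →
      E f a m A t x = E f a m A t y := by
  have key : ∃ n0 : ℕ, ∀ x y : Conf S, (∀ j : ℤ, -(n0 : ℤ) ≤ j → j < m → x j = y j) →
      E f a m A 0 x = E f a m A 0 y := by
    by_contra hcon
    push Not at hcon
    choose x y hxy hne using hcon
    obtain ⟨φ, p, hφ, hp⟩ := exists_conv x
    let y' : ℕ → Conf S := fun n j => if j < m then y n j else x n j
    have hy' : ∀ n, E f a m A 0 (y' n) = E f a m A 0 (y n) := fun n =>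
      E_congr hw (fun j hj => by simp only [y']; rw [if_pos (by omega)])
    have hp' : Conv (y' ∘ φ) p := by
      intro r
      obtain ⟨n1, h1⟩ := hp r
      refine ⟨n1 + r, fun n hn j hj1 hj2 => ?_⟩
      rw [← h1 n (by omega) j hj1 hj2]
      simp only [Function.comp, y']
      split_ifs with h
      · refine (hxy (φ n) j ?_ h).symm
        have h2 : n ≤ φ n := hφ.id_le n
        have h3 : ((n1 + r : ℕ) : ℤ) ≤ φ n := by exact_mod_cast hn.trans h2
        push_cast at h3
        omega
      · rfl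
    obtain ⟨N1, h1⟩ := E_conv hf hw hC hM hp 0
    obtain ⟨N2, h2⟩ := E_conv hf hw hC hM hp' 0
    apply hne (φ (N1 + N2))
    rw [← hy']
    exact (h1 (N1 + N2) (by omega)).trans (h2 (N1 + N2) (by omega)).symm
  obtain ⟨n0, hn0⟩ := key
  refine ⟨n0, fun t x y h => ?_⟩
  have h1 := hn0 (tr t x) (tr t y) (fun j hj1 hj2 => h (j + t) (by omega) (by omega))
  rw [E_tr hf, E_tr hf, zero_add] at h1
  exact h1

end

end Pool.Agent.H55.Sweep
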