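import Pool.Agent.H55.Sweep.Ev2

namespace Pool.Agent.H55.Sweep

open Filter Topology

/-- labels of `x` on `[t, t+n)` -/
def lb {S : Type*} (f : Conf S → Conf S) (a : ℤ) (n : ℕ) (x : Conf S) (t : ℤ) : Fin n → S :=
  fun i => fl f a x (t + ((i : ℕ) : ℤ))

/-- run of a set of words along a block of labels -/
noncomputable def run {S : Type*} [Fintype S] (f : Conf S → Conf S) (a : ℤ) {m n : ℕ}
    (F : Finset (Fin m → S)) (v : Fin n → S) : Finset (Fin m → S) :=
  (List.ofFn v).foldl (nxt f a) F

section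
variable {S : Type*} {f : Conf S → Conf S} {a : ℤ} {m : ℕ}
variable {A : Set ((Fin m → S) × (Fin m → S))} [TopologicalSpace S] [Fintype S]

theorem E_run (hf : IsCA f) (hw : Window f a m) (n : ℕ) (t : ℤ) (x : Conf S) :
    E f a m A (t + n) x = run f a (E f a m A t x) (lb f a n x t) := by
  induction n with
  | zero => simp [run]
  | succ n ih =>
    have e : t + ((n + 1 : ℕ) : ℤ) = (t + n) + 1 := by push_cast; ring
    rw [e, E_succ hf hw, ih]
    simp only [run]
    rw [List.ofFn_succ', List.concat_eq_append, List.foldl_append]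
    simp only [lb, List.foldl_cons, List.foldl_nil, Fin.val_last]
    rfl

theorem realize_list (hf : IsCA f) (hw : Window f a m) {t : ℤ} {x : Conf S} (l : List S) :
    ∀ w' ∈ l.foldl (nxt f a) (E f a m A t x), ∃ z, Rel f a m A t z x ∧
      (∀ (i : ℕ) (hi : i < l.length), fl f a z (t + i) = l[i]) ∧ wd m z (t + l.length) = w' := by
  induction l using List.reverseRecOn with
  | nil =>
    intro w' hw'
    obtain ⟨x', h1, h2⟩ := mem_E.1 hw'
    exact ⟨x', h1, fun i hi => absurd hi (Nat.not_lt_zero i), by simpa using h2⟩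
  | append_singleton l s ih =>
    intro w' hw'
    rw [List.foldl_append] at hw'
    simp only [List.foldl_cons, List.foldl_nil] at hw'
    obtain ⟨w, hwl, c, hc, hp⟩ := mem_nxt.1 hw'
    obtain ⟨z, hz1, hz2, hz3⟩ := ih w hwl
    refine ⟨ext m z (t + l.length) c, ?_, ?_, ?_⟩
    · exact rel_congr hw (fun j hj => (ext_lt (by omega)).symm) (fun _ _ => rfl) hz1
    · intro i hi
      have hi' : i < l.length + 1 := by simpa using hi
      by_cases hil : i < l.length
      · rw [List.getElem_append_left hil, ← hz2 i hil]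
        apply fl_congr hw
        intro j _ hj2
        exact ext_lt (by omega)
      · have hie : i = l.length := by omega
        subst hie
        rw [fl_ext hf hw, hz3, hc]
        simp
    · have e : t + ((l ++ [s]).length : ℤ) = (t + l.length) + 1 := by
        simp; ring
      rw [e, wd_ext, hz3, hp]

theorem realize (hf : IsCA f) (hw : Window f a m) {t : ℤ} {x : Conf S} {n : ℕ} (v : Fin n → S)
    {w' : Fin m → S} (h : w' ∈ run f a (E f a m A t x) v) :
    ∃ z, Rel f a m A t z x ∧ lb f a n z t = v ∧ wd m z (t + n) = w' := by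
  obtain ⟨z, h1, h2, h3⟩ := realize_list hf hw (List.ofFn v) w' h
  refine ⟨z, h1, ?_, by simpa using h3⟩
  funext i
  have := h2 i (by simp)
  rw [List.getElem_ofFn] at this
  exact this

theorem run_form (hf : IsCA f) (hw : Window f a m) (hC : Crit f m A) {M : ℕ}
    (hM : ∀ t x, (E f a m A t x).card = M) (l : List S) :
    ∀ (t : ℤ) (x : Conf S), ∃ y, E f a m A (t + l.length) y = l.foldl (nxt f a) (E f a m A t x) := by
  induction l with
  | nil => intro t x; exact ⟨x, by simp⟩
  | cons s l ih =>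
    intro t x
    have hpos : 0 < M := by
      rw [← hM t x]; exact Finset.card_pos.2 ⟨_, self_mem_E hC t x⟩
    have hcard := max_step hf hw hC (fun t x => (hM t x).le) (hM t x) s
    have hne : (nxt f a (E f a m A t x) s).Nonempty := Finset.card_pos.1 (by omega)
    obtain ⟨w', hw'⟩ := hne
    obtain ⟨w, hwE, c, hc, _⟩ := mem_nxt.1 hw'
    obtain ⟨y, _, _, _, _, hy⟩ := nxt_form hf hw hC hwE hc
    obtain ⟨z, hz⟩ := ih (t + 1) y
    refine ⟨z, ?_⟩
    rw [List.foldl_cons, ← hy, ← hz]
    congr 1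
    simp; ring

theorem run_isE (hf : IsCA f) (hw : Window f a m) (hC : Crit f m A) {M : ℕ}
    (hM : ∀ t x, (E f a m A t x).card = M) {n : ℕ} (v : Fin n → S) {t : ℤ} (x : Conf S) :
    ∃ y, run f a (E f a m A t x) v = E f a m A 0 y := by
  obtain ⟨y, hy⟩ := run_form hf hw hC hM (List.ofFn v) t x
  refine ⟨tr (t + (List.ofFn v).length) y, ?_⟩
  rw [E_tr hf, zero_add]
  exact hy.symm

/-- put the letters `c` at `[m, m+n)` of `u` -/
def put {S : Type*} (m : ℕ) {n : ℕ} (u : Conf S) (c : Fin n → S) : Conf S := fun j =>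
  if h : (m : ℤ) ≤ j ∧ j < m + n then c ⟨(j - m).toNat, by omega⟩ else u j

theorem put_lt {n : ℕ} {u : Conf S} {c : Fin n → S} {j : ℤ} (h : j < m) : put m u c j = u j := by
  simp only [put]
  rw [dif_neg (by omega)]

theorem put_mid {n : ℕ} {u u' : Conf S} {c : Fin n → S} {j : ℤ} (h1 : (m : ℤ) ≤ j)
    (h2 : j < m + n) : put m u c j = put m u' c j := by
  simp only [put]
  rw [dif_pos ⟨h1, h2⟩, dif_pos ⟨h1, h2⟩]

theorem put_at {n : ℕ} {u : Conf S} {c : Fin n → S} (i : Fin n) :
    put m u c (m + ((i : ℕ) : ℤ)) = c i := by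
  simp only [put]
  have hi : ((i : ℕ) : ℤ) < n := by exact_mod_cast i.2
  rw [dif_pos ⟨by omega, by omega⟩]
  congr 1
  apply Fin.ext
  simp

theorem put_self {n : ℕ} {u z : Conf S} {j : ℤ} (h1 : (m : ℤ) ≤ j) (h2 : j < m + n) :
    put m u (fun i : Fin n => z (m + ((i : ℕ) : ℤ))) j = z j := by
  simp only [put]
  rw [dif_pos ⟨h1, h2⟩]
  congr 1
  rw [Int.toNat_of_nonneg (by omega)]; ring

open Classical in
/-- the number of blocks leading from `E 0 x` to `F'` does not depend on `x` -/
theorem count_blocks (hf : IsCA f) (hw : Window f a m) (hC : Crit f m A) {M : ℕ}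
    (hM : ∀ t x, (E f a m A t x).card = M) {n0 : ℕ}
    (hn0 : ∀ t x y, (∀ j : ℤ, t - n0 ≤ j → j < t + m → x j = y j) →
      E f a m A t x = E f a m A t y) {n : ℕ} (hn : n0 + m ≤ n) (x0 x : Conf S)
    {F' : Finset (Fin m → S)} {w' : Fin m → S} (hw' : w' ∈ F') :
    (Finset.univ.filter (fun v : Fin n → S => run f a (E f a m A 0 x) v = F')).card =
      M * (Finset.univ.filter (fun c : Fin n → S => wd m (put m x0 c) n = w' ∧
        E f a m A n (put m x0 c) = F')).card := by
  set C := Finset.univ.filter (fun c : Fin n → S => wd m (put m x0 c) n = w' ∧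
        E f a m A n (put m x0 c) = F') with hCdef
  have hnm : (m : ℤ) ≤ n := by
    have : m ≤ n := by omega
    exact_mod_cast this
  have hn' : ((n0 : ℤ) + m) ≤ n := by exact_mod_cast hn
  -- rays
  have hray : ∀ w : Fin m → S, ∃ r : Conf S, w ∈ E f a m A 0 x → Rel f a m A 0 r x ∧ wd m r 0 = w := by
    intro w
    by_cases h : w ∈ E f a m A 0 x
    · obtain ⟨r, h1, h2⟩ := mem_E.1 h
      exact ⟨r, fun _ => ⟨h1, h2⟩⟩
    · exact ⟨x, fun h' => absurd h' h⟩
  choose ray hray using hray
  have hput : ∀ w ∈ E f a m A 0 x, ∀ c : Fin n → S, Rel f a m A 0 (put m (ray w) c) x := by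
    intro w hwE c
    exact rel_congr hw (fun j hj => (put_lt (by omega)).symm) (fun _ _ => rfl) (hray w hwE).1
  have hEput : ∀ (u u' : Conf S) (c : Fin n → S),
      E f a m A n (put m u c) = E f a m A n (put m u' c) := by
    intro u u' c
    exact hn0 _ _ _ (fun j hj1 hj2 => put_mid (by omega) (by omega))
  have hwput : ∀ (u u' : Conf S) (c : Fin n → S),
      wd m (put m u c) n = wd m (put m u' c) n := by
    intro u u' c
    exact wd_eq_iff'.2 (fun j hj1 hj2 => put_mid (by omega) (by omega))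
  have hrunput : ∀ w ∈ E f a m A 0 x, ∀ c : Fin n → S,
      run f a (E f a m A 0 x) (lb f a n (put m (ray w) c) 0) = E f a m A n (put m (ray w) c) := by
    intro w hwE c
    rw [← E_rel hf hw hC (hput w hwE c), ← E_run hf hw, zero_add]
  rw [← hM 0 x, ← Finset.card_product]
  symm
  apply Finset.card_bij (fun (p : (Fin m → S) × (Fin n → S)) _ => lb f a n (put m (ray p.1) p.2) 0)
  · rintro ⟨w, c⟩ hp
    simp only [Finset.mem_product, hCdef, Finset.mem_filter, Finset.mem_univ, true_and] at hp ⊢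
    rw [hrunput w hp.1 c, hEput _ x0]
    exact hp.2.2
  · rintro ⟨w, c⟩ hp ⟨w2, c2⟩ hq heq
    simp only [Finset.mem_product, hCdef, Finset.mem_filter, Finset.mem_univ, true_and] at hp hq heq
    have hR0 : Rel f a m A 0 (put m (ray w) c) (put m (ray w2) c2) :=
      rel_trans hf hw hC (hput w hp.1 c) (rel_symm hf hw hC (hput w2 hq.1 c2))
    have hR : Rel f a m A n (put m (ray w) c) (put m (ray w2) c2) := by
      refine ⟨fun i hi => ?_, hR0.2⟩
      by_cases hi0 : i < 0
      · exact hR0.1 i hi0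
      · have := congrFun heq ⟨i.toNat, by omega⟩
        simp only [lb, zero_add] at this
        rwa [Int.toNat_of_nonneg (by omega)] at this
    have hU := rel_unique hw hC hR (by rw [hwput _ x0, hp.2.1, hwput _ x0, hq.2.1])
    have e1 : w = w2 := by
      rw [← (hray w hp.1).2, ← (hray w2 hq.1).2, wd_eq_iff']
      intro j hj1 hj2
      have := hU j (by omega)
      rwa [put_lt (by omega), put_lt (by omega)] at this
    have e2 : c = c2 := by
      funext i
      have hi : ((i : ℕ) : ℤ) < n := by exact_mod_cast i.2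
      have := hU (m + ((i : ℕ) : ℤ)) (by omega)
      rwa [put_at, put_at] at this
    rw [e1, e2]
  · intro v hv
    simp only [Finset.mem_filter, Finset.mem_univ, true_and] at hv
    obtain ⟨z, hz1, hz2, hz3⟩ := realize hf hw v (by rw [hv]; exact hw')
    rw [zero_add] at hz3
    have hwE : wd m z 0 ∈ E f a m A 0 x := mem_E.2 ⟨z, hz1, rfl⟩
    have hrz : ∀ j, j < 0 + (m : ℤ) → ray (wd m z 0) j = z j :=
      rel_unique hw hC (rel_trans hf hw hC (hray _ hwE).1 (rel_symm hf hw hC hz1)) (hray _ hwE).2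
    have hag : ∀ j : ℤ, j < m + n →
        put m (ray (wd m z 0)) (fun i : Fin n => z (m + ((i : ℕ) : ℤ))) j = z j := by
      intro j hj
      by_cases hjm : j < m
      · rw [put_lt hjm]; exact hrz j (by omega)
      · exact put_self (not_lt.mp hjm) hj
    have hlbz : lb f a n (put m (ray (wd m z 0)) (fun i : Fin n => z (m + ((i : ℕ) : ℤ)))) 0 = v := by
      rw [← hz2]
      funext i
      simp only [lb]
      have hi : ((i : ℕ) : ℤ) < n := by exact_mod_cast i.2
      apply fl_congr hw
      intro j _ hj2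
      exact hag j (by omega)
    refine ⟨(wd m z 0, fun i : Fin n => z (m + ((i : ℕ) : ℤ))), ?_, hlbz⟩
    simp only [Finset.mem_product, hCdef, Finset.mem_filter, Finset.mem_univ, true_and]
    refine ⟨hwE, ?_, ?_⟩
    · rw [hwput x0 (ray (wd m z 0)), ← hz3]
      exact wd_eq_iff'.2 (fun j _ hj2 => hag j (by omega))
    · rw [hEput x0 (ray (wd m z 0)), ← hrunput _ hwE, hlbz]
      exact hv

/-- equal fibre cardinalities give a bijection -/
theorem exists_equiv_of_fibers {α γ : Type*} [Fintype α] (g1 g2 : α → γ)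
    (h : ∀ e, Nat.card {v // g1 v = e} = Nat.card {v // g2 v = e}) :
    ∃ β : α ≃ α, ∀ v, g2 (β v) = g1 v := by
  classical
  have h1 : ∀ e, Nonempty ({v // g1 v = e} ≃ {v // g2 v = e}) := fun e => by
    rw [← Finite.card_eq (α := {v // g1 v = e}) (β := {v // g2 v = e})]
    exact h e
  let φ : ∀ e, {v // g1 v = e} ≃ {v // g2 v = e} := fun e => (h1 e).some
  refine ⟨(Equiv.sigmaFiberEquiv g1).symm.trans
    ((Equiv.sigmaCongrRight φ).trans (Equiv.sigmaFiberEquiv g2)), fun v => ?_⟩
  have : (((Equiv.sigmaFiberEquiv g1).symm.trans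
    ((Equiv.sigmaCongrRight φ).trans (Equiv.sigmaFiberEquiv g2))) v) =
      ((φ (g1 v) ⟨v, rfl⟩ : {u // g2 u = g1 v}) : α) := rfl
  rw [this]
  exact (φ (g1 v) ⟨v, rfl⟩).2

theorem exists_beta (hf : IsCA f) (hw : Window f a m) (hC : Crit f m A) {M : ℕ}
    (hM : ∀ t x, (E f a m A t x).card = M) {n0 : ℕ}
    (hn0 : ∀ t x y, (∀ j : ℤ, t - n0 ≤ j → j < t + m → x j = y j) →
      E f a m A t x = E f a m A t y) {n : ℕ} (hn : n0 + m ≤ n) (x0 x : Conf S) :
    ∃ β : (Fin n → S) ≃ (Fin n → S), ∀ v,
      run f a (E f a m A 0 x0) (β v) = run f a (E f a m A 0 x) v := by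
  classical
  apply exists_equiv_of_fibers
  intro F'
  rw [Nat.card_eq_fintype_card, Nat.card_eq_fintype_card, Fintype.card_subtype,
    Fintype.card_subtype]
  rcases F'.eq_empty_or_nonempty with rfl | ⟨w', hw'⟩
  · have hpos : 0 < M := by
      rw [← hM 0 x]; exact Finset.card_pos.2 ⟨_, self_mem_E hC 0 x⟩
    have key : ∀ (y : Conf S) (v : Fin n → S), run f a (E f a m A 0 y) v ≠ ∅ := by
      intro y v h
      obtain ⟨z, hz⟩ := run_isE hf hw hC hM v (t := 0) y
      have := hM 0 z
      rw [← hz, h] at this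
      simp at this
      omega
    rw [Finset.filter_false_of_mem (fun v _ => key x v),
      Finset.filter_false_of_mem (fun v _ => key x0 v)]
  · rw [count_blocks hf hw hC hM hn0 hn x0 x hw', count_blocks hf hw hC hM hn0 hn x0 x0 hw']

/-- equality of the kernel relation from equality of `E` far to the left -/
theorem ker_of_E (hw : Window f a m) (hC : Crit f m A) {x y : Conf S}
    (hxy : f x = f y) (h : ∀ T : ℤ, ∃ t, t ≤ T ∧ E f a m A t x = E f a m A t y) :
    Ker f m A x y := by
  refine ⟨hxy, fun s => ?_⟩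
  obtain ⟨t, hts, hE⟩ := h s
  have h1 : wd m x t ∈ E f a m A t y := by rw [← hE]; exact self_mem_E hC t x
  obtain ⟨y', hy', hwy⟩ := mem_E.1 h1
  have hK := glue_ker (x' := x) (y' := y) hw hC (wd_eq_iff'.1 hwy) (fun _ _ _ => rfl) hy'.1 hy'.2
    (fun i _ => (f_eq_iff (a := a)).1 hxy i)
  have := hK.2 s
  rwa [st_glue_ge hts] at this

theorem E_of_ker (hf : IsCA f) (hw : Window f a m) (hC : Crit f m A) {x y : Conf S}
    (h : Ker f m A x y) (t : ℤ) : E f a m A t x = E f a m A t y :=
  E_rel hf hw hC ⟨fun i _ => (f_eq_iff (a := a)).1 h.1 i, al_of_ker h⟩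

end

end Pool.Agent.H55.Sweep
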