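import Pool.Agent.H55.Sweep.Ev3

namespace Pool.Agent.H55.Sweep

open Filter Topology

section
variable {S : Type*} {f : Conf S → Conf S} {a : ℤ} {m : ℕ}
variable {A : Set ((Fin m → S) × (Fin m → S))} [Fintype S]

/-- relabelled block at `t` -/
noncomputable def blk (f : Conf S → Conf S) (a : ℤ) (m : ℕ)
    (A : Set ((Fin m → S) × (Fin m → S))) {n : ℕ}
    (β : Finset (Fin m → S) → ((Fin n → S) ≃ (Fin n → S))) (x : Conf S) (t : ℤ) : Fin n → S :=
  β (E f a m A t x) (lb f a n x t)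

theorem emod_lt_nat {n : ℕ} (hn : 0 < n) (p : ℤ) : (p % (n : ℤ)).toNat < n := by
  have h1 := Int.emod_nonneg p (show (n : ℤ) ≠ 0 by omega)
  have h2 := Int.emod_lt_of_pos p (show (0 : ℤ) < n by omega)
  omega

/-- the factor map onto the full shift over blocks -/
noncomputable def Hm (f : Conf S → Conf S) (a : ℤ) (m : ℕ)
    (A : Set ((Fin m → S) × (Fin m → S))) {n : ℕ} (hn : 0 < n)
    (β : Finset (Fin m → S) → ((Fin n → S) ≃ (Fin n → S))) (x : Conf S) : Conf S := fun p =>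
  blk f a m A β x ((p / n) * n) ⟨(p % (n : ℤ)).toNat, emod_lt_nat hn p⟩

theorem block_div {n : ℕ} (hn : 0 < n) (j : ℤ) (i : Fin n) :
    (j * n + ((i : ℕ) : ℤ)) / n = j ∧ (j * n + ((i : ℕ) : ℤ)) % n = ((i : ℕ) : ℤ) := by
  have hn' : (0 : ℤ) < n := by omega
  have hi : ((i : ℕ) : ℤ) < n := by exact_mod_cast i.2
  constructor
  · rw [Int.add_comm, Int.add_mul_ediv_right _ _ hn'.ne', Int.ediv_eq_zero_of_lt (by omega) hi,
      zero_add]
  · rw [Int.add_comm, Int.add_mul_emod_self_right, Int.emod_eq_of_lt (by omega) hi]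

theorem Hm_block {n : ℕ} (hn : 0 < n)
    (β : Finset (Fin m → S) → ((Fin n → S) ≃ (Fin n → S))) (x : Conf S) (j : ℤ) (i : Fin n) :
    Hm f a m A hn β x (j * n + ((i : ℕ) : ℤ)) = blk f a m A β x (j * n) i := by
  obtain ⟨h1, h2⟩ := block_div hn j i
  simp only [Hm]
  rw [h1]
  congr 1
  apply Fin.ext
  simp only
  rw [h2]; simp

theorem blk_congr_of_Hm {n : ℕ} (hn : 0 < n)
    {β : Finset (Fin m → S) → ((Fin n → S) ≃ (Fin n → S))} {x y : Conf S} {j : ℤ}
    (h : ∀ p : ℤ, j * n ≤ p → p < (j + 1) * n → Hm f a m A hn β x p = Hm f a m A hn β y p) :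
    blk f a m A β x (j * n) = blk f a m A β y (j * n) := by
  funext i
  have hi : ((i : ℕ) : ℤ) < n := by exact_mod_cast i.2
  rw [← Hm_block hn, ← Hm_block hn]
  apply h
  · omega
  · have : (j + 1) * (n : ℤ) = j * n + n := by ring
    omega

variable [TopologicalSpace S]

theorem blk_run (hf : IsCA f) (hw : Window f a m) {n : ℕ} {x0 : Conf S}
    {β : Finset (Fin m → S) → ((Fin n → S) ≃ (Fin n → S))}
    (hβ : ∀ t x v, run f a (E f a m A 0 x0) (β (E f a m A t x) v) = run f a (E f a m A t x) v)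
    (x : Conf S) (t : ℤ) :
    E f a m A (t + n) x = run f a (E f a m A 0 x0) (blk f a m A β x t) := by
  rw [E_run hf hw, ← hβ]
  rfl

theorem Hm_tr (hf : IsCA f) {n : ℕ} (hn : 0 < n)
    (β : Finset (Fin m → S) → ((Fin n → S) ≃ (Fin n → S))) (x : Conf S) :
    Hm f a m A hn β (tr n x) = tr n (Hm f a m A hn β x) := by
  funext p
  have hn' : (n : ℤ) ≠ 0 := by omega
  have h1 : (p + n) / (n : ℤ) = p / n + 1 := by
    have e : p + (n : ℤ) = p + 1 * n := by ring
    rw [e, Int.add_mul_ediv_right _ _ hn']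
  have h2 : (p + n) % (n : ℤ) = p % n := by
    rw [Int.add_emod_right]
  have h3 : blk f a m A β (tr n x) (p / n * n) =
      blk f a m A β x ((p + n) / (n : ℤ) * n) := by
    rw [h1]
    have e : (p / (n : ℤ) + 1) * n = p / n * n + n := by ring
    rw [e]
    simp only [blk]
    have e3 : lb f a n (tr n x) (p / (n : ℤ) * n) = lb f a n x (p / (n : ℤ) * n + n) := by
      funext i
      simp only [lb]
      rw [fl_tr hf]
      congr 1; ring
    rw [E_tr hf, e3]
  have h4 : (⟨(p % (n : ℤ)).toNat, emod_lt_nat hn p⟩ : Fin n) =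
      ⟨((p + n) % (n : ℤ)).toNat, emod_lt_nat hn (p + n)⟩ := by
    apply Fin.ext
    simp only
    rw [h2]
  show blk f a m A β (tr n x) (p / n * n) ⟨(p % (n : ℤ)).toNat, emod_lt_nat hn p⟩ =
    blk f a m A β x ((p + n) / (n : ℤ) * n) ⟨((p + n) % (n : ℤ)).toNat, emod_lt_nat hn (p + n)⟩
  rw [← h4, h3]

theorem continuous_of_window {T : Type*} [TopologicalSpace T] [DiscreteTopology S]
    {φ : Conf S → T}
    (h : ∃ r1 r2 : ℤ, ∀ x y : Conf S, (∀ j, r1 ≤ j → j ≤ r2 → x j = y j) → φ x = φ y) :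
    Continuous φ := by
  obtain ⟨r1, r2, h⟩ := h
  apply IsLocallyConstant.continuous
  rw [IsLocallyConstant.iff_exists_open]
  intro x
  refine ⟨⋂ j ∈ Set.Icc r1 r2, {y : Conf S | y j = x j}, ?_, ?_, ?_⟩
  · apply Set.Finite.isOpen_biInter (Set.finite_Icc r1 r2)
    intro j _
    exact (isOpen_discrete ({x j} : Set S)).preimage (continuous_apply (A := fun _ : ℤ => S) j)
  · simp
  · intro y hy
    apply h
    intro j hj1 hj2
    simp only [Set.mem_iInter, Set.mem_ofPred_eq] at hy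
    exact hy j ⟨hj1, hj2⟩

theorem Hm_continuous [DiscreteTopology S] (hw : Window f a m) {n0 : ℕ}
    (hn0 : ∀ t x y, (∀ j : ℤ, t - n0 ≤ j → j < t + m → x j = y j) →
      E f a m A t x = E f a m A t y) {n : ℕ} (hn : 0 < n)
    (β : Finset (Fin m → S) → ((Fin n → S) ≃ (Fin n → S))) :
    Continuous (Hm f a m A hn β) := by
  apply continuous_pi
  intro p
  apply continuous_of_window
  refine ⟨p / n * n - n0, p / n * n + n + m, fun x y h => ?_⟩
  simp only [Hm, blk]
  have e1 : E f a m A (p / (n : ℤ) * n) x = E f a m A (p / (n : ℤ) * n) y :=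
    hn0 _ _ _ (fun j h1 h2 => h j h1 (by omega))
  have e2 : lb f a n x (p / (n : ℤ) * n) = lb f a n y (p / (n : ℤ) * n) := by
    funext i
    have hi : ((i : ℕ) : ℤ) < n := by exact_mod_cast i.2
    exact fl_congr hw (fun j h1 h2 => h j (by omega) (by omega))
  rw [e1, e2]

theorem labels_of_blocks {n : ℕ} (hn : 0 < n) {x y : Conf S}
    (h : ∀ j : ℤ, lb f a n x (j * n) = lb f a n y (j * n)) : f x = f y := by
  rw [f_eq_iff (a := a)]
  intro t
  have hn' : (0 : ℤ) < n := by omega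
  have h1 := congrFun (h (t / n)) ⟨(t % (n : ℤ)).toNat, emod_lt_nat hn t⟩
  simp only [lb] at h1
  rw [Int.toNat_of_nonneg (Int.emod_nonneg t hn'.ne')] at h1
  have e : t / (n : ℤ) * n + t % n = t := by
    have := Int.mul_ediv_add_emod t n
    linarith [mul_comm (n : ℤ) (t / n)]
  rwa [e] at h1

theorem ker_of_Hm (hf : IsCA f) (hw : Window f a m) (hC : Crit f m A) {n : ℕ} (hn : 0 < n)
    {x0 : Conf S} {β : Finset (Fin m → S) → ((Fin n → S) ≃ (Fin n → S))}
    (hβ : ∀ t x v, run f a (E f a m A 0 x0) (β (E f a m A t x) v) = run f a (E f a m A t x) v)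
    {x y : Conf S} (h : Hm f a m A hn β x = Hm f a m A hn β y) : Ker f m A x y := by
  have hblk : ∀ j : ℤ, blk f a m A β x (j * n) = blk f a m A β y (j * n) := fun j =>
    blk_congr_of_Hm hn (fun p _ _ => congrFun h p)
  have hE : ∀ j : ℤ, E f a m A (j * n) x = E f a m A (j * n) y := by
    intro j
    have h1 := blk_run hf hw hβ x ((j - 1) * n)
    have h2 := blk_run hf hw hβ y ((j - 1) * n)
    rw [hblk, ← h2] at h1
    have e : (j - 1) * (n : ℤ) + n = j * n := by ring
    rwa [e] at h1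
  have hlb : ∀ j : ℤ, lb f a n x (j * n) = lb f a n y (j * n) := by
    intro j
    have h1 := hblk j
    simp only [blk] at h1
    rw [hE j] at h1
    exact (β _).injective h1
  refine ker_of_E hw hC (labels_of_blocks hn hlb) (fun T => ?_)
  refine ⟨-(T.natAbs : ℤ) * n, ?_, hE _⟩
  have h1 : (1 : ℤ) ≤ n := by omega
  have h2 : (T.natAbs : ℤ) * 1 ≤ (T.natAbs : ℤ) * n :=
    mul_le_mul_of_nonneg_left h1 (by positivity)
  have h3 : -(T.natAbs : ℤ) * n = -((T.natAbs : ℤ) * n) := by ring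
  rw [h3]
  omega

theorem ker_of_Hm_left (hf : IsCA f) (hw : Window f a m) (hC : Crit f m A) {n : ℕ} (hn : 0 < n)
    {x0 : Conf S} {β : Finset (Fin m → S) → ((Fin n → S) ≃ (Fin n → S))}
    (hβ : ∀ t x v, run f a (E f a m A 0 x0) (β (E f a m A t x) v) = run f a (E f a m A t x) v)
    {x y : Conf S} (hxy : f x = f y)
    (h : ∃ N : ℤ, ∀ p, p ≤ N → Hm f a m A hn β x p = Hm f a m A hn β y p) :
    Ker f m A x y := by
  obtain ⟨N, hN⟩ := h
  refine ker_of_E hw hC hxy (fun T => ?_)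
  set k : ℤ := -((T.natAbs : ℤ) + N.natAbs) with hk
  have h1 : (1 : ℤ) ≤ n := by omega
  have hkn : k * n ≤ k := by
    have h2 : ((T.natAbs : ℤ) + N.natAbs) * 1 ≤ ((T.natAbs : ℤ) + N.natAbs) * n :=
      mul_le_mul_of_nonneg_left h1 (by positivity)
    have h3 : k * n = -(((T.natAbs : ℤ) + N.natAbs) * n) := by rw [hk]; ring
    rw [h3, hk]
    linarith
  refine ⟨k * n, by omega, ?_⟩
  have hb : blk f a m A β x ((k - 1) * n) = blk f a m A β y ((k - 1) * n) := by
    apply blk_congr_of_Hm hn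
    intro p _ hp2
    apply hN
    have e : (k - 1 + 1) * (n : ℤ) = k * n := by ring
    rw [e] at hp2
    omega
  have h2 := blk_run hf hw hβ x ((k - 1) * n)
  have h3 := blk_run hf hw hβ y ((k - 1) * n)
  rw [hb, ← h3] at h2
  have e : (k - 1) * (n : ℤ) + n = k * n := by ring
  rwa [e] at h2

theorem Hm_of_ker (hf : IsCA f) (hw : Window f a m) (hC : Crit f m A) {n : ℕ} (hn : 0 < n)
    {β : Finset (Fin m → S) → ((Fin n → S) ≃ (Fin n → S))}
    {x y : Conf S} (h : Ker f m A x y) : Hm f a m A hn β x = Hm f a m A hn β y := by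
  funext p
  simp only [Hm, blk]
  rw [E_of_ker hf hw hC h]
  have : lb f a n x (p / (n : ℤ) * n) = lb f a n y (p / (n : ℤ) * n) := by
    funext i
    exact (f_eq_iff (a := a)).1 h.1 _
  rw [this]

/-- realisation of finitely many blocks -/
theorem realize_blocks (hf : IsCA f) (hw : Window f a m) (hC : Crit f m A) {M : ℕ}
    (hM : ∀ t x, (E f a m A t x).card = M) {n : ℕ}
    (F : ℤ → Finset (Fin m → S)) (v : ℤ → Fin n → S) (hF : ∀ j, ∃ x, F j = E f a m A 0 x)
    (hFv : ∀ j, run f a (F j) (v j) = F (j + 1)) (j0 : ℤ) (k : ℕ) :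
    ∃ x, (∀ i : ℕ, i ≤ k → E f a m A ((j0 + i) * n) x = F (j0 + i)) ∧
      ∀ i : ℕ, i < k → lb f a n x ((j0 + i) * n) = v (j0 + i) := by
  induction k with
  | zero =>
    obtain ⟨x, hx⟩ := hF j0
    refine ⟨tr (-(j0 * n)) x, fun i hi => ?_, fun i hi => absurd hi (Nat.not_lt_zero i)⟩
    have : i = 0 := by omega
    subst this
    rw [E_tr hf]
    have e : (j0 + ((0 : ℕ) : ℤ)) * n + -(j0 * n) = 0 := by simp
    rw [e]; simp [hx]
  | succ k ih =>
    obtain ⟨x, hx1, hx2⟩ := ih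
    have hEk := hx1 k le_rfl
    have hne : (run f a (E f a m A ((j0 + k) * n) x) (v (j0 + k))).Nonempty := by
      obtain ⟨y, hy⟩ := run_isE hf hw hC hM (v (j0 + k)) (t := (j0 + k) * n) x
      rw [hy]
      exact ⟨_, self_mem_E hC 0 y⟩
    obtain ⟨w', hw'⟩ := hne
    obtain ⟨z, hz1, hz2, _⟩ := realize hf hw (v (j0 + k)) hw'
    have hle : ∀ i : ℕ, i ≤ k → (j0 + i) * (n : ℤ) ≤ (j0 + k) * n := by
      intro i hi
      apply mul_le_mul_of_nonneg_right _ (by positivity)
      have : (i : ℤ) ≤ k := by exact_mod_cast hi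
      omega
    have hEz : ∀ i : ℕ, i ≤ k → E f a m A ((j0 + i) * n) z = F (j0 + i) := by
      intro i hi
      rw [← hx1 i hi]
      exact E_rel hf hw hC (rel_mono (hle i hi) hz1)
    have hlz : ∀ i : ℕ, i < k + 1 → lb f a n z ((j0 + i) * n) = v (j0 + i) := by
      intro i hi
      by_cases hik : i < k
      · rw [← hx2 i hik]
        funext i'
        simp only [lb]
        apply hz1.1
        have hi' : ((i' : ℕ) : ℤ) < n := by exact_mod_cast i'.2
        have h1 : (j0 + ((i + 1 : ℕ) : ℤ)) * (n : ℤ) ≤ (j0 + k) * n := hle (i + 1) hik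
        have h2 : (j0 + ((i + 1 : ℕ) : ℤ)) * (n : ℤ) = (j0 + i) * n + n := by push_cast; ring
        rw [h2] at h1
        omega
      · have : i = k := by omega
        subst this
        exact hz2
    refine ⟨z, fun i hi => ?_, hlz⟩
    by_cases hik : i ≤ k
    · exact hEz i hik
    · have hie : i = k + 1 := by omega
      subst hie
      have e : (j0 + ((k + 1 : ℕ) : ℤ)) * (n : ℤ) = (j0 + k) * n + n := by push_cast; ring
      rw [e, E_run hf hw, hEz k le_rfl, hlz k (by omega), hFv]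
      congr 1
      push_cast; ring

theorem Hm_surjective (hf : IsCA f) (hw : Window f a m) (hC : Crit f m A) {M : ℕ}
    (hM : ∀ t x, (E f a m A t x).card = M) {n : ℕ} (hn : 0 < n)
    {x0 : Conf S} {β : Finset (Fin m → S) → ((Fin n → S) ≃ (Fin n → S))}
    (hβ : ∀ t x v, run f a (E f a m A 0 x0) (β (E f a m A t x) v) = run f a (E f a m A t x) v) :
    Function.Surjective (Hm f a m A hn β) := by
  intro b
  let bb : ℤ → Fin n → S := fun j i => b (j * n + ((i : ℕ) : ℤ))
  let F : ℤ → Finset (Fin m → S) := fun j => run f a (E f a m A 0 x0) (bb (j - 1))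
  have hF : ∀ j, ∃ x, F j = E f a m A 0 x := fun j => run_isE hf hw hC hM _ x0
  let v : ℤ → Fin n → S := fun j => (β (F j)).symm (bb j)
  have hFv : ∀ j, run f a (F j) (v j) = F (j + 1) := by
    intro j
    obtain ⟨x, hx⟩ := hF j
    have h1 := hβ 0 x (v j)
    rw [← hx] at h1
    rw [← h1]
    simp only [v, F, Equiv.apply_symm_apply]
    congr 2
    ring
  have hex : ∀ J : ℕ, ∃ x, (∀ i : ℕ, i ≤ 2 * J → E f a m A ((-(J : ℤ) + i) * n) x = F (-(J : ℤ) + i)) ∧
      ∀ i : ℕ, i < 2 * J → lb f a n x ((-(J : ℤ) + i) * n) = v (-(J : ℤ) + i) := fun J =>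
    realize_blocks hf hw hC hM F v hF hFv (-(J : ℤ)) (2 * J)
  choose x hx1 hx2 using hex
  obtain ⟨φ, p, hφ, hp⟩ := exists_conv x
  have hE : ∀ j : ℤ, E f a m A (j * n) p = F j := by
    intro j
    obtain ⟨N, hN⟩ := E_conv hf hw hC hM hp (j * n)
    set k := N + j.natAbs
    rw [← hN k (by omega)]
    have h1 : k ≤ φ k := hφ.id_le k
    have h2 : (j.natAbs : ℤ) ≤ φ k := by
      have : j.natAbs ≤ φ k := by omega
      exact_mod_cast this
    have h3 := hx1 (φ k) (j + φ k).toNat (by omega)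
    rw [Int.toNat_of_nonneg (by omega)] at h3
    have e : -((φ k : ℕ) : ℤ) + (j + φ k) = j := by ring
    rwa [e] at h3
  have hL : ∀ j : ℤ, lb f a n p (j * n) = v j := by
    intro j
    obtain ⟨N, hN⟩ := hp.window (j * n) (j * n + n + m)
    set k := N + j.natAbs + 1
    have h1 : k ≤ φ k := hφ.id_le k
    have h2 : (j.natAbs : ℤ) + 1 ≤ φ k := by
      have : j.natAbs + 1 ≤ φ k := by omega
      exact_mod_cast this
    have h3 := hx2 (φ k) (j + φ k).toNat (by omega)
    rw [Int.toNat_of_nonneg (by omega)] at h3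
    have e : -((φ k : ℕ) : ℤ) + (j + φ k) = j := by ring
    rw [e] at h3
    rw [← h3]
    funext i
    have hi : ((i : ℕ) : ℤ) < n := by exact_mod_cast i.2
    exact fl_congr hw (fun q hq1 hq2 => (hN k (by omega) q (by omega) (by omega)).symm)
  refine ⟨p, ?_⟩
  funext q
  have hn' : (0 : ℤ) < n := by omega
  simp only [Hm, blk]
  rw [hE, hL]
  simp only [v, Equiv.apply_symm_apply, bb]
  rw [Int.toNat_of_nonneg (Int.emod_nonneg q hn'.ne')]
  congr 1
  have := Int.mul_ediv_add_emod q n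
  linarith [mul_comm (n : ℤ) (q / n)]

end

end Pool.Agent.H55.Sweep
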