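import Pool.Agent.H55.Sweep.Ev4

namespace Pool.Agent.H55.Sweep

open Filter Topology

section
variable {S : Type*} [TopologicalSpace S] [DiscreteTopology S]

theorem radius_at [Finite S] {φ : Conf S → S} (hφ : Continuous φ) :
    ∃ ρ : ℕ, ∀ x y : Conf S, (∀ j : ℤ, -(ρ : ℤ) ≤ j → j ≤ ρ → x j = y j) → φ x = φ y := by
  by_contra hcon
  push Not at hcon
  choose x y hxy hne using hcon
  obtain ⟨z, ψ, hψ, hz⟩ := CompactSpace.tendsto_subseq x
  have hzy : Tendsto (y ∘ ψ) atTop (𝓝 z) := by
    rw [tendsto_pi_nhds]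
    intro j
    rw [tendsto_pi_nhds] at hz
    refine (hz j).congr' ?_
    filter_upwards [eventually_ge_atTop j.natAbs] with n hn
    have h1 : j.natAbs ≤ ψ n := le_trans hn (hψ.id_le n)
    have h2 : (j.natAbs : ℤ) ≤ ψ n := by exact_mod_cast h1
    apply hxy (ψ n) j <;> omega
  have h1 : Tendsto (fun n => φ (x (ψ n))) atTop (𝓝 (φ z)) :=
    hφ.continuousAt.tendsto.comp hz
  have h2 : Tendsto (fun n => φ (y (ψ n))) atTop (𝓝 (φ z)) :=
    hφ.continuousAt.tendsto.comp hzy
  rw [nhds_discrete, tendsto_pure] at h1 h2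
  obtain ⟨n, hn1, hn2⟩ := (h1.and h2).exists
  exact hne (ψ n) (hn1.trans hn2.symm)

omit [TopologicalSpace S] [DiscreteTopology S] in
theorem comm_tr_mul {h : Conf S → Conf S} {n : ℤ} (hc : ∀ x, h (tr n x) = tr n (h x)) (q : ℤ)
    (x : Conf S) : h (tr (q * n) x) = tr (q * n) (h x) := by
  have hm : ∀ x, h (tr (-n) x) = tr (-n) (h x) := by
    intro x
    have h1 := hc (tr (-n) x)
    rw [tr_tr] at h1
    have e : n + -n = 0 := by ring
    rw [e, tr_zero] at h1
    rw [h1, tr_tr]
    have e2 : -n + n = 0 := by ring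
    rw [e2, tr_zero]
  induction q using Int.induction_on with
  | zero => simp [tr_zero]
  | succ q ih =>
    have e : tr (((q : ℤ) + 1) * n) x = tr n (tr ((q : ℤ) * n) x) := by rw [tr_tr]; ring_nf
    rw [e, hc, ih, tr_tr]; ring_nf
  | pred q ih =>
    have e : tr ((-(q : ℤ) - 1) * n) x = tr (-n) (tr (-(q : ℤ) * n) x) := by
      rw [tr_tr]; ring_nf
    rw [e, hm, ih, tr_tr]; ring_nf

theorem exists_radius_pow [Finite S] {h : Conf S → Conf S} (hcont : Continuous h) {n : ℕ}
    (hn : 0 < n) (hc : ∀ x, h (tr n x) = tr n (h x)) :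
    ∃ ρ : ℕ, ∀ x y i, (∀ j : ℤ, i - ρ ≤ j → j ≤ i + ρ → x j = y j) → h x i = h y i := by
  have h1 : ∀ i0 : ℕ, ∃ ρ : ℕ, ∀ x y : Conf S, (∀ j : ℤ, -(ρ : ℤ) ≤ j → j ≤ ρ → x j = y j) →
      h x i0 = h y i0 := fun i0 => radius_at ((continuous_apply (i0 : ℤ)).comp hcont)
  choose ρ hρ using h1
  refine ⟨(Finset.range n).sup ρ + n, fun x y i hxy => ?_⟩
  have hn' : (0 : ℤ) < n := by omega
  set q := i / (n : ℤ) with hq
  have hi0 : 0 ≤ i % (n : ℤ) := Int.emod_nonneg i hn'.ne'
  have hi1 : i % (n : ℤ) < n := Int.emod_lt_of_pos i hn'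
  have hdiv : i = i % (n : ℤ) + q * n := by
    have := Int.mul_ediv_add_emod i n
    rw [hq]
    linarith [mul_comm (n : ℤ) (i / n)]
  obtain ⟨i0, hi0'⟩ := Int.eq_ofNat_of_zero_le hi0
  rw [hi0'] at hi1 hdiv
  have hi2 : i0 < n := by exact_mod_cast hi1
  have hle : ρ i0 ≤ (Finset.range n).sup ρ := Finset.le_sup (Finset.mem_range.2 hi2)
  have e1 : ∀ z : Conf S, h z i = h (tr (q * n) z) i0 := by
    intro z
    rw [comm_tr_mul hc]
    simp only [tr]
    rw [← hdiv]
  rw [e1, e1]
  apply hρ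
  intro j hj1 hj2
  have h3 : ((ρ i0 : ℕ) : ℤ) ≤ ((Finset.range n).sup ρ : ℕ) := by exact_mod_cast hle
  simp only [tr]
  apply hxy
  · push_cast at h3 ⊢
    omega
  · push_cast at h3 ⊢
    omega

theorem wd_tr {S : Type*} {m : ℕ} (n : ℤ) (x : Conf S) (t : ℤ) :
    wd m (tr n x) t = wd m x (t + n) := by
  rw [wd_eq_iff]
  intro j _ _
  simp only [tr]; congr 1; ring

/-- from a factorisation commuting with a power of the shift to the criterion -/
theorem crit_of_factor [Finite S] {f g h : Conf S → Conf S} (hf : IsCA f) {a : ℤ} {m : ℕ}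
    (hw : Window f a m) {n : ℕ} (hn : 0 < n) (hcont : Continuous h)
    (hc : ∀ x, h (tr n x) = tr n (h x)) (hg : RightClosing g) (hh : LeftClosing h)
    (hfg : f = g ∘ h) : ∃ A : Set ((Fin m → S) × (Fin m → S)), Crit f m A := by
  obtain ⟨ρ, hρ⟩ := exists_radius_pow hcont hn hc
  let K : Conf S → Conf S → Prop := fun x y => ∀ j : ℤ, h (tr j x) = h (tr j y)
  have hKf : ∀ {x y}, K x y → f x = f y := by
    intro x y hK
    have := hK 0
    rw [tr_zero, tr_zero] at this
    rw [hfg]; exact congrArg g this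
  have hKtr : ∀ {x y} (k : ℤ), K x y → K (tr k x) (tr k y) := by
    intro x y k hK j
    rw [tr_tr, tr_tr]; exact hK _
  let A : Set ((Fin m → S) × (Fin m → S)) := {q | ∃ x y t, K x y ∧ st m x y t = q}
  -- gluing a pair of `K` on the left
  have hglue : ∀ {x y : Conf S} {t : ℤ}, f x = f y → st m x y t ∈ A →
      ∃ u v, (∀ j : ℤ, t ≤ j → j < t + m → u j = x j) ∧ (∀ j : ℤ, t ≤ j → j < t + m → v j = y j) ∧
        K (glue t u x) (glue t v y) := by
    intro x y t hxy hA
    obtain ⟨u, v, s, hK, hst⟩ := hA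
    have hst' := st_eq_iff.mp hst
    refine ⟨tr (s - t) u, tr (s - t) v, ?_, ?_, ?_⟩
    · intro j h1 h2
      have := hst'.1 (j - t) (by omega) (by omega)
      simp only [tr]
      have e1 : s + (j - t) = j + (s - t) := by ring
      have e2 : t + (j - t) = j := by ring
      rwa [e1, e2] at this
    · intro j h1 h2
      have := hst'.2 (j - t) (by omega) (by omega)
      simp only [tr]
      have e1 : s + (j - t) = j + (s - t) := by ring
      have e2 : t + (j - t) = j := by ring
      rwa [e1, e2] at this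
    · have hK' := hKtr (s - t) hK
      set u' := tr (s - t) u
      set v' := tr (s - t) v
      have hu : ∀ j : ℤ, t ≤ j → j < t + m → u' j = x j := by
        intro j h1 h2
        have := hst'.1 (j - t) (by omega) (by omega)
        simp only [u', tr]
        have e1 : s + (j - t) = j + (s - t) := by ring
        have e2 : t + (j - t) = j := by ring
        rwa [e1, e2] at this
      have hv : ∀ j : ℤ, t ≤ j → j < t + m → v' j = y j := by
        intro j h1 h2
        have := hst'.2 (j - t) (by omega) (by omega)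
        simp only [v', tr]
        have e1 : s + (j - t) = j + (s - t) := by ring
        have e2 : t + (j - t) = j := by ring
        rwa [e1, e2] at this
      have hfe : f (glue t u' x) = f (glue t v' y) := ker_glue hw hu hv (hKf hK') hxy
      intro k
      apply hg
      · have h1 : f (tr k (glue t u' x)) = f (tr k (glue t v' y)) := by
          rw [comm_tr hf, comm_tr hf, hfe]
        rw [hfg] at h1
        exact h1
      · refine ⟨t - k - ρ - 1, fun j hj => ?_⟩
        have h1 : h (tr k (glue t u' x)) j = h (tr k u') j :=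
          hρ _ _ _ (fun i _ hi => by simp only [tr]; exact glue_lt (by omega))
        have h2 : h (tr k (glue t v' y)) j = h (tr k v') j :=
          hρ _ _ _ (fun i _ hi => by simp only [tr]; exact glue_lt (by omega))
        rw [h1, h2, hK' k]
  have hker : ∀ x y, Ker f m A x y ↔ K x y := by
    intro x y
    constructor
    · rintro ⟨hxy, hst⟩ k
      funext i
      obtain ⟨u, v, _, _, hK⟩ := hglue hxy (hst (i + k - ρ))
      have h1 : h (tr k (glue (i + k - ρ) u x)) i = h (tr k x) i :=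
        hρ _ _ _ (fun j hj _ => by simp only [tr]; exact glue_ge (by omega))
      have h2 : h (tr k (glue (i + k - ρ) v y)) i = h (tr k y) i :=
        hρ _ _ _ (fun j hj _ => by simp only [tr]; exact glue_ge (by omega))
      rw [← h1, ← h2, hK k]
    · intro hK
      exact ⟨hKf hK, fun t => ⟨x, y, t, hK, rfl⟩⟩
  refine ⟨A, ⟨⟨fun x => ?_, fun {x y} hxy => ?_, fun {x y z} h1 h2 => ?_⟩, ?_, ?_⟩⟩
  · exact (hker x x).2 (fun _ => rfl)
  · exact (hker y x).2 (fun j => ((hker x y).1 hxy j).symm)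
  · exact (hker x z).2 (fun j => ((hker x y).1 h1 j).trans ((hker y z).1 h2 j))
  · intro x y hxy hN
    have := (hker x y).1 hxy 0
    rw [tr_zero, tr_zero] at this
    exact hh x y this hN
  · intro x y t hxy hA
    obtain ⟨u, v, _, _, hK⟩ := hglue hxy hA
    refine ⟨_, _, t + 1, hK, ?_⟩
    exact st_glue_ge (by omega)

end

section
variable {S : Type*} [TopologicalSpace S] [DiscreteTopology S] [Fintype S]

/-- factorisation for maps commuting with a power of the shift -/
theorem exists_factor_pow {h h' : Conf S → Conf S} {n : ℤ} (hcont : Continuous h)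
    (hc : ∀ x, h (tr n x) = tr n (h x)) (hcont' : Continuous h')
    (hc' : ∀ x, h' (tr n x) = tr n (h' x)) (hs : Function.Surjective h')
    (hk : ∀ x y, h' x = h' y → h x = h y) :
    ∃ g, Continuous g ∧ (∀ x, g (tr n x) = tr n (g x)) ∧ h = g ∘ h' := by
  have hgh : ∀ x, h (Function.surjInv hs (h' x)) = h x := fun x =>
    hk _ _ (Function.surjInv_eq hs (h' x))
  refine ⟨fun u => h (Function.surjInv hs u), ?_, ?_, ?_⟩
  · have hq : IsQuotientMap h' := (hcont'.isClosedMap).isQuotientMap hcont' hs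
    rw [hq.continuous_iff]
    have : (fun u => h (Function.surjInv hs u)) ∘ h' = h := funext hgh
    rw [this]; exact hcont
  · intro u
    obtain ⟨x, rfl⟩ := hs u
    rw [← hc' x]
    show h (Function.surjInv hs (h' (tr n x))) = tr n (h (Function.surjInv hs (h' x)))
    rw [hgh, hgh, hc]
  · funext x; exact (hgh x).symm

theorem factor_of_crit {f : Conf S → Conf S} (hf : IsCA f) {a : ℤ} {m : ℕ}
    (hw : Window f a m) {A : Set ((Fin m → S) × (Fin m → S))} (hC : Crit f m A) :
    ∃ n1 : ℕ, ∀ n : ℕ, n1 ≤ n → ∃ g h : Conf S → Conf S, Continuous g ∧ Continuous h ∧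
      (∀ x, g (tr n x) = tr n (g x)) ∧ (∀ x, h (tr n x) = tr n (h x)) ∧
      RightClosing g ∧ LeftClosing h ∧ f = g ∘ h := by
  rcases isEmpty_or_nonempty S with hS | hS
  · have hE : IsEmpty (Conf S) := ⟨fun x => hS.false (x 0)⟩
    refine ⟨0, fun n _ => ⟨id, id, continuous_id, continuous_id, fun _ => rfl, fun _ => rfl,
      fun x => (hE.false x).elim, fun x => (hE.false x).elim, funext fun x => (hE.false x).elim⟩⟩
  obtain ⟨M, hM⟩ := exists_max hf hw hC
  obtain ⟨n0, hn0⟩ := exists_memory hf hw hC hM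
  refine ⟨n0 + m + 1, fun n hn => ?_⟩
  have hnpos : 0 < n := by omega
  obtain ⟨x0⟩ : Nonempty (Conf S) := inferInstance
  -- relabellings
  have hβ : ∀ F : Finset (Fin m → S), ∃ β : (Fin n → S) ≃ (Fin n → S),
      (∃ x, F = E f a m A 0 x) → ∀ v, run f a (E f a m A 0 x0) (β v) = run f a F v := by
    intro F
    by_cases hF : ∃ x, F = E f a m A 0 x
    · obtain ⟨x, rfl⟩ := hF
      obtain ⟨β, hβ⟩ := exists_beta hf hw hC hM hn0 (by omega : n0 + m ≤ n) x0 x
      exact ⟨β, fun _ => hβ⟩
    · exact ⟨Equiv.refl _, fun h => absurd h hF⟩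
  choose β hβ using hβ
  have hβ' : ∀ t x v, run f a (E f a m A 0 x0) (β (E f a m A t x) v) =
      run f a (E f a m A t x) v := by
    intro t x v
    refine hβ _ ⟨tr t x, ?_⟩ v
    rw [E_tr hf, zero_add]
  set H := Hm f a m A hnpos β with hH
  have hHcont : Continuous H := Hm_continuous hw hn0 hnpos β
  have hHtr : ∀ x, H (tr n x) = tr n (H x) := Hm_tr hf hnpos β
  have hHsurj : Function.Surjective H := Hm_surjective hf hw hC hM hnpos hβ'
  have hHker : ∀ x y, H x = H y → Ker f m A x y := fun x y h =>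
    ker_of_Hm hf hw hC hnpos hβ' h
  obtain ⟨g, hg1, hg2, hg3⟩ := exists_factor_pow hf.1 (fun x => comm_tr hf n x) hHcont hHtr hHsurj
    (fun x y h => (hHker x y h).1)
  refine ⟨g, H, hg1, hHcont, hg2, hHtr, ?_, ?_, hg3⟩
  · intro u v huv hN
    obtain ⟨x, rfl⟩ := hHsurj u
    obtain ⟨y, rfl⟩ := hHsurj v
    have hxy : f x = f y := by rw [hg3]; exact huv
    exact Hm_of_ker hf hw hC hnpos (ker_of_Hm_left hf hw hC hnpos hβ' hxy hN)
  · intro x y hxy hN
    exact hC.left x y (hHker x y hxy) hN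

end

end Pool.Agent.H55.Sweep
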