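import Pool.Agent.H55.Sweep.Ev1

namespace Pool.Agent.H55.Sweep

open Filter Topology

/-- hypotheses on a set `A` of pairs of words: the relation `Ker f m A` is an equivalence
relation, `A` is symmetric and forward closed in the kernel of `f` -/
structure CritR {S : Type*} (f : Conf S → Conf S) (m : ℕ)
    (A : Set ((Fin m → S) × (Fin m → S))) : Prop where
  equiv : Equivalence (Ker f m A)
  fwd : ∀ x y t, f x = f y → st m x y t ∈ A → st m x y (t + 1) ∈ A
  symm : ∀ x y t, st m x y t ∈ A → st m y x t ∈ A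

/-- the finite approximations of the relation -/
def Kr {S : Type*} (f : Conf S → Conf S) (a : ℤ) (m : ℕ)
    (A : Set ((Fin m → S) × (Fin m → S))) (r : ℕ) (x y : Conf S) : Prop :=
  ∀ t : ℤ, -(r : ℤ) ≤ t → t ≤ r → fl f a x t = fl f a y t ∧ st m x y t ∈ A

/-- relation powers -/
def RP {S : Type*} (R : Conf S → Conf S → Prop) : ℕ → Conf S → Conf S → Prop
  | 0, x, y => x = y
  | n + 1, x, y => ∃ z, R x z ∧ RP R n z y

section
variable {S : Type*} {f : Conf S → Conf S} {a : ℤ} {m : ℕ}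
variable {A : Set ((Fin m → S) × (Fin m → S))}

theorem fwdR_all (hC : CritR f m A) {x y : Conf S} (hf : f x = f y) {s : ℤ}
    (hs : st m x y s ∈ A) : ∀ t, s ≤ t → st m x y t ∈ A := by
  intro t hst
  obtain ⟨n, rfl⟩ : ∃ n : ℕ, t = s + n := ⟨(t - s).toNat, by rw [Int.toNat_of_nonneg (by omega)]; ring⟩
  clear hst
  induction n with
  | zero => simpa using hs
  | succ n ih =>
    have := hC.fwd x y (s + n) hf ih
    rw [add_assoc] at this
    exact_mod_cast this

theorem kr_refl (hC : CritR f m A) (r : ℕ) (x : Conf S) : Kr f a m A r x x :=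
  fun t _ _ => ⟨rfl, (hC.equiv.refl x).2 t⟩

theorem kr_symm (hC : CritR f m A) {r : ℕ} {x y : Conf S} (h : Kr f a m A r x y) :
    Kr f a m A r y x := fun t h1 h2 => ⟨(h t h1 h2).1.symm, hC.symm _ _ _ (h t h1 h2).2⟩

theorem kr_mono {r r' : ℕ} (hr : r ≤ r') {x y : Conf S} (h : Kr f a m A r' x y) :
    Kr f a m A r x y := fun t h1 h2 => h t (by omega) (by omega)

theorem kr_congr (hw : Window f a m) {r : ℕ} {x y x' y' : Conf S}
    (hx : ∀ j : ℤ, -(r : ℤ) ≤ j → j ≤ r + m → x j = x' j)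
    (hy : ∀ j : ℤ, -(r : ℤ) ≤ j → j ≤ r + m → y j = y' j) (h : Kr f a m A r x y) :
    Kr f a m A r x' y' := by
  intro t h1 h2
  have e1 : fl f a x' t = fl f a x t := fl_congr hw (fun j hj1 hj2 => (hx j (by omega) (by omega)).symm)
  have e2 : fl f a y' t = fl f a y t := fl_congr hw (fun j hj1 hj2 => (hy j (by omega) (by omega)).symm)
  have e3 : st m x' y' t = st m x y t :=
    st_congr (fun j hj1 hj2 => (hx j (by omega) (by omega)).symm)
      (fun j hj1 hj2 => (hy j (by omega) (by omega)).symm)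
  rw [e1, e2, e3]
  exact h t h1 h2

theorem ker_of_kr {x y : Conf S} (h : ∀ r : ℕ, Kr f a m A r x y) : Ker f m A x y := by
  refine ⟨(f_eq_iff (a := a)).2 (fun t => (h t.natAbs t (by omega) (by omega)).1),
    fun t => (h t.natAbs t (by omega) (by omega)).2⟩

theorem kr_of_ker {x y : Conf S} (h : Ker f m A x y) (r : ℕ) : Kr f a m A r x y :=
  fun t _ _ => ⟨(f_eq_iff (a := a)).1 h.1 t, h.2 t⟩

/-- limits of approximately related sequences are related -/
theorem ker_of_conv (hw : Window f a m) {u v : ℕ → Conf S} {x y : Conf S}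
    (hu : Conv u x) (hv : Conv v y) (h : ∀ r : ℕ, ∃ n0 : ℕ, ∀ n, n0 ≤ n → Kr f a m A r (u n) (v n)) :
    Ker f m A x y := by
  apply ker_of_kr
  intro r
  obtain ⟨n0, h0⟩ := h r
  obtain ⟨n1, h1⟩ := hu.window (-(r : ℤ)) (r + m)
  obtain ⟨n2, h2⟩ := hv.window (-(r : ℤ)) (r + m)
  exact kr_congr hw (h1 (n0 + n1 + n2) (by omega)) (h2 (n0 + n1 + n2) (by omega))
    (h0 (n0 + n1 + n2) (by omega))

theorem kr_comp [Finite S] (hw : Window f a m) (hC : CritR f m A) (r : ℕ) :
    ∃ r' : ℕ, ∀ x y z, Kr f a m A r' x y → Kr f a m A r' y z → Kr f a m A r x z := by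
  by_contra hcon
  push Not at hcon
  choose x y z hxy hyz hne using hcon
  obtain ⟨φ, p, q, s, hφ, hp, hq, hs⟩ := exists_conv3 x y z
  have h1 : Ker f m A p q := ker_of_conv (a := a) hw hp hq (fun r => ⟨r, fun n hn =>
    kr_mono (hn.trans (hφ.id_le n)) (hxy (φ n))⟩)
  have h2 : Ker f m A q s := ker_of_conv (a := a) hw hq hs (fun r => ⟨r, fun n hn =>
    kr_mono (hn.trans (hφ.id_le n)) (hyz (φ n))⟩)
  have h3 := kr_of_ker (a := a) (hC.equiv.trans h1 h2) r
  obtain ⟨n1, hn1⟩ := hp.window (-(r : ℤ)) (r + m)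
  obtain ⟨n2, hn2⟩ := hs.window (-(r : ℤ)) (r + m)
  apply hne (φ (n1 + n2))
  exact kr_congr hw (fun j hj1 hj2 => (hn1 (n1 + n2) (by omega) j hj1 hj2).symm)
    (fun j hj1 hj2 => (hn2 (n1 + n2) (by omega) j hj1 hj2).symm) h3

theorem rp_small [Finite S] (hw : Window f a m) (hC : CritR f m A) (n : ℕ) :
    ∀ r0 : ℕ, ∃ r : ℕ, ∀ r', r ≤ r' → ∀ x y, RP (Kr f a m A r') n x y → Kr f a m A r0 x y := by
  induction n with
  | zero =>
    intro r0
    refine ⟨0, fun r' _ x y h => ?_⟩
    have : x = y := h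
    subst this
    exact kr_refl hC r0 x
  | succ n ih =>
    intro r0
    obtain ⟨r1, h1⟩ := kr_comp hw hC r0
    obtain ⟨r2, h2⟩ := ih r1
    refine ⟨max r1 r2, fun r' hr' x y ⟨z, hxz, hzy⟩ => ?_⟩
    exact h1 x z y (kr_mono ((le_max_left _ _).trans hr') hxz)
      (h2 r' ((le_max_right _ _).trans hr') z y hzy)

/-- normalisation on the window `[-r, r+m]` -/
def norm (r m : ℕ) (s0 : S) (x : Conf S) : Conf S := fun j =>
  if -(r : ℤ) ≤ j ∧ j ≤ r + m then x j else s0

theorem norm_in {r : ℕ} {s0 : S} {x : Conf S} {j : ℤ} (h1 : -(r : ℤ) ≤ j) (h2 : j ≤ r + m) :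
    norm r m s0 x j = x j := by simp [norm, h1, h2]

theorem norm_out {r : ℕ} {s0 : S} {x : Conf S} {j : ℤ} (h : ¬ (-(r : ℤ) ≤ j ∧ j ≤ r + m)) :
    norm r m s0 x j = s0 := by
  simp only [norm]; rw [if_neg h]

theorem fl_norm (hw : Window f a m) {r : ℕ} {s0 : S} {x : Conf S} {t : ℤ} (h1 : -(r : ℤ) ≤ t)
    (h2 : t ≤ r) : fl f a (norm r m s0 x) t = fl f a x t :=
  fl_congr hw (fun j hj1 hj2 => norm_in (by omega) (by omega))

/-- normalised configurations with prescribed labels on `[-r, r]` -/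
abbrev Vt (f : Conf S → Conf S) (a : ℤ) (m r : ℕ) (s0 : S) (b : ℤ → S) : Type _ :=
  {u : Conf S // (∀ j : ℤ, ¬ (-(r : ℤ) ≤ j ∧ j ≤ r + m) → u j = s0) ∧
    ∀ t : ℤ, -(r : ℤ) ≤ t → t ≤ r → fl f a u t = b t}

theorem vt_inj (hw : Window f a m) (hp : PreInj f) {r : ℕ} {s0 : S} {b : ℤ → S} :
    Function.Injective (fun u : Vt f a m r s0 b =>
      (wd m u.1 (-(r : ℤ)), wd m u.1 ((r : ℤ) + 1))) := by
  rintro ⟨u, hu1, hu2⟩ ⟨v, hv1, hv2⟩ h
  have e1 := wd_eq_iff'.1 (congrArg Prod.fst h)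
  have e2 := wd_eq_iff'.1 (congrArg Prod.snd h)
  have hout : ∀ j : ℤ, (j < -(r : ℤ) + m ∨ (r : ℤ) + 1 ≤ j) → u j = v j := by
    intro j hj
    by_cases hin : -(r : ℤ) ≤ j ∧ j ≤ r + m
    · rcases hj with hj | hj
      · exact e1 j hin.1 hj
      · exact e2 j hj (by omega)
    · rw [hu1 j hin, hv1 j hin]
  have hf : f u = f v := by
    rw [f_eq_iff (a := a)]
    intro t
    by_cases h1 : t < -(r : ℤ)
    · exact fl_congr hw (fun j hj1 hj2 => hout j (Or.inl (by omega)))
    · by_cases h2 : t ≤ r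
      · rw [hu2 t (by omega) h2, hv2 t (by omega) h2]
      · exact fl_congr hw (fun j hj1 hj2 => hout j (Or.inr (by omega)))
  have := hp u v hf ⟨-(r : ℤ) - 1, fun j hj => hout j (Or.inl (by omega))⟩
    ⟨(r : ℤ) + 1, fun j hj => hout j (Or.inr hj)⟩
  exact Subtype.ext this

/-- the graph of `Kr r` on `Vt` -/
def Gr (hC : CritR f m A) (a : ℤ) (r : ℕ) (s0 : S) (b : ℤ → S) :
    SimpleGraph (Vt f a m r s0 b) where
  Adj u v := u ≠ v ∧ Kr f a m A r u.1 v.1
  symm := ⟨fun _ _ h => ⟨h.1.symm, kr_symm hC h.2⟩⟩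
  loopless := ⟨fun _ h => h.1 rfl⟩

theorem walk_rp (hC : CritR f m A) {r : ℕ} {s0 : S} {b : ℤ → S} {u v : Vt f a m r s0 b}
    (p : (Gr hC a r s0 b).Walk u v) : RP (Kr f a m A r) p.length u.1 v.1 := by
  induction p with
  | nil => rfl
  | cons h p ih => exact ⟨_, h.2, ih⟩

theorem rp_snoc {R : Conf S → Conf S → Prop} {n : ℕ} {x y z : Conf S} (h : RP R n x y)
    (hyz : R y z) : RP R (n + 1) x z := by
  induction n generalizing x with
  | zero =>
    have : x = y := h
    subst this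
    exact ⟨z, hyz, rfl⟩
  | succ n ih =>
    obtain ⟨w, h1, h2⟩ := h
    exact ⟨w, h1, ih h2⟩

theorem short [Finite S] (hw : Window f a m) (hC : CritR f m A) (hp : PreInj f) (s0 : S)
    {r : ℕ} {x y : Conf S} (h : Relation.EqvGen (Kr f a m A r) x y) :
    ∃ n, n ≤ Nat.card ((Fin m → S) × (Fin m → S)) + 2 ∧ RP (Kr f a m A r) n x y := by
  classical
  let b : ℤ → S := fl f a x
  have mk : ∀ z : Conf S, (∀ t : ℤ, -(r : ℤ) ≤ t → t ≤ r → fl f a z t = b t) →
      (∀ j : ℤ, ¬ (-(r : ℤ) ≤ j ∧ j ≤ r + m) → norm r m s0 z j = s0) ∧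
      ∀ t : ℤ, -(r : ℤ) ≤ t → t ≤ r → fl f a (norm r m s0 z) t = b t := fun z hz =>
    ⟨fun j hj => norm_out hj, fun t h1 h2 => (fl_norm hw h1 h2).trans (hz t h1 h2)⟩
  have key : ∀ z z' : Conf S, Relation.EqvGen (Kr f a m A r) z z' →
      (∀ t : ℤ, -(r : ℤ) ≤ t → t ≤ r → fl f a z t = fl f a z' t) ∧
      ∀ (hz : ∀ t : ℤ, -(r : ℤ) ≤ t → t ≤ r → fl f a z t = b t)
        (hz' : ∀ t : ℤ, -(r : ℤ) ≤ t → t ≤ r → fl f a z' t = b t),
        (Gr hC a r s0 b).Reachable ⟨norm r m s0 z, mk z hz⟩ ⟨norm r m s0 z', mk z' hz'⟩ := by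
    intro z z' hzz
    induction hzz with
    | rel z z' hk =>
      refine ⟨fun t h1 h2 => (hk t h1 h2).1, fun hz hz' => ?_⟩
      by_cases he : (⟨norm r m s0 z, mk z hz⟩ : Vt f a m r s0 b) = ⟨norm r m s0 z', mk z' hz'⟩
      · rw [he]
      · apply SimpleGraph.Adj.reachable
        refine ⟨he, ?_⟩
        exact kr_congr hw (fun j h1 h2 => (norm_in h1 h2).symm) (fun j h1 h2 => (norm_in h1 h2).symm) hk
    | refl z => exact ⟨fun _ _ _ => rfl, fun hz hz' => SimpleGraph.Reachable.refl _⟩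
    | symm z z' _ ih =>
      exact ⟨fun t h1 h2 => (ih.1 t h1 h2).symm, fun hz hz' => (ih.2 hz' hz).symm⟩
    | trans z z' z'' _ _ ih1 ih2 =>
      refine ⟨fun t h1 h2 => (ih1.1 t h1 h2).trans (ih2.1 t h1 h2), fun hz hz'' => ?_⟩
      have hz' : ∀ t : ℤ, -(r : ℤ) ≤ t → t ≤ r → fl f a z' t = b t :=
        fun t h1 h2 => (ih1.1 t h1 h2).symm.trans (hz t h1 h2)
      exact (ih1.2 hz hz').trans (ih2.2 hz' hz'')
  obtain ⟨hlab, hreach⟩ := key x y h
  have hx : ∀ t : ℤ, -(r : ℤ) ≤ t → t ≤ r → fl f a x t = b t := fun _ _ _ => rfl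
  have hy : ∀ t : ℤ, -(r : ℤ) ≤ t → t ≤ r → fl f a y t = b t := fun t h1 h2 => (hlab t h1 h2).symm
  obtain ⟨p, hpath⟩ := (hreach hx hy).exists_isPath
  have : Finite (Vt f a m r s0 b) := Finite.of_injective _ (vt_inj hw hp)
  let : Fintype (Vt f a m r s0 b) := Fintype.ofFinite _
  have hlen := hpath.length_lt
  have hcard : Fintype.card (Vt f a m r s0 b) ≤ Nat.card ((Fin m → S) × (Fin m → S)) := by
    rw [← Nat.card_eq_fintype_card]
    exact Nat.card_le_card_of_injective _ (vt_inj hw hp)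
  refine ⟨p.length + 1 + 1, by omega, ?_⟩
  have h1 := walk_rp hC p
  have h2 : Kr f a m A r (norm r m s0 y) y :=
    kr_congr hw (fun j h1 h2 => (norm_in h1 h2).symm) (fun _ _ _ => rfl) (kr_refl hC r y)
  have h3 : Kr f a m A r x (norm r m s0 x) :=
    kr_congr hw (fun _ _ _ => rfl) (fun j h1 h2 => (norm_in h1 h2).symm) (kr_refl hC r x)
  exact ⟨norm r m s0 x, h3, rp_snoc h1 h2⟩

/-- separation -/
theorem sep [Finite S] (hw : Window f a m) (hC : CritR f m A) (hp : PreInj f) (s0 : S) :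
    ∃ r : ℕ, ∀ x y, Relation.EqvGen (Kr f a m A r) x y →
      fl f a x 0 = fl f a y 0 ∧ st m x y 0 ∈ A := by
  have h1 := fun n : ℕ => rp_small hw hC n 0
  choose r hr using h1
  refine ⟨(Finset.range (Nat.card ((Fin m → S) × (Fin m → S)) + 3)).sup r, fun x y h => ?_⟩
  obtain ⟨n, hn, hRP⟩ := short hw hC hp s0 h
  have h2 : r n ≤ (Finset.range (Nat.card ((Fin m → S) × (Fin m → S)) + 3)).sup r :=
    Finset.le_sup (Finset.mem_range.2 (by omega))
  exact hr n _ h2 x y hRP 0 (by simp) (by simp)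

end

/-- the finite-state description: values `ε t x`, translation invariant, with finite memory,
deterministic along labels, constant on related pairs and separating unrelated ones -/
structure Eps {S : Type*} (f : Conf S → Conf S) (a : ℤ) (m n0 : ℕ)
    (K : Conf S → Conf S → Prop) {T : Type*} (ε : ℤ → Conf S → T) : Prop where
  tr : ∀ t n x, ε t (tr n x) = ε (t + n) x
  mem : ∀ t x y, (∀ j : ℤ, t - n0 ≤ j → j < t + m → x j = y j) → ε t x = ε t y
  det : ∀ t x y, ε t x = ε t y → fl f a x t = fl f a y t → ε (t + 1) x = ε (t + 1) y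
  inv : ∀ t x y, K x y → ε t x = ε t y
  sep : ∀ x y, f x = f y → (∀ T : ℤ, ∃ t, t ≤ T ∧ ε t x = ε t y) → K x y

section
universe u
variable {S : Type u} {f : Conf S → Conf S} {a : ℤ} {m : ℕ}
variable {A : Set ((Fin m → S) × (Fin m → S))} [TopologicalSpace S]

theorem exists_eps [Finite S] (hf : IsCA f) (hw : Window f a m) (hC : CritR f m A)
    (hp : PreInj f) (s0 : S) :
    ∃ (T : Type u) (n0 : ℕ) (ε : ℤ → Conf S → T), Eps f a m n0 (Ker f m A) ε := by
  obtain ⟨r, hr⟩ := sep hw hC hp s0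
  let qv : Conf S → ℤ → Quot (Kr f a m A r) := fun x t => Quot.mk _ (tr t x)
  have q1 : ∀ x y t, Ker f m A x y → qv x t = qv y t := by
    intro x y t h
    apply Quot.sound
    have h' : Ker f m A (tr t x) (tr t y) := by
      refine ⟨by rw [comm_tr hf, comm_tr hf, h.1], fun s => ?_⟩
      rw [st_tr]; exact h.2 _
    exact kr_of_ker h' r
  have q2 : ∀ x y t, qv x t = qv y t → fl f a x t = fl f a y t ∧ st m x y t ∈ A := by
    intro x y t h
    have h1 := hr _ _ (Quot.eqvGen_exact h)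
    rw [fl_tr hf, fl_tr hf, st_tr, zero_add] at h1
    exact h1
  have q3 : ∀ x y t, (∀ j : ℤ, t - r ≤ j → j ≤ t + r + m → x j = y j) → qv x t = qv y t := by
    intro x y t h
    apply Quot.sound
    exact kr_congr hw (fun _ _ _ => rfl) (fun j h1 h2 => by
      simp only [tr]; exact h _ (by omega) (by omega)) (kr_refl hC r (tr t x))
  have qtr : ∀ x t n, qv (tr n x) t = qv x (t + n) := by
    intro x t n
    simp only [qv, tr_tr]
  -- determinism with delay
  have hdet : ∃ D : ℕ, ∀ D', D ≤ D' → ∀ x y t,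
      (∀ i : ℤ, t - D' ≤ i → i ≤ t → qv x i = qv y i) →
      (∀ i : ℤ, t - D' ≤ i → i ≤ t + D' → fl f a x i = fl f a y i) → qv x (t + 1) = qv y (t + 1) := by
    by_contra hcon
    push Not at hcon
    choose D' hD' x y t hq hl hne using hcon
    obtain ⟨φ, p, q, hφ, hp', hq'⟩ := exists_conv2 (fun n => tr (t n) (x n)) (fun n => tr (t n) (y n))
    have big : ∀ n, n ≤ D' (φ n) := fun n => (hφ.id_le n).trans (hD' (φ n))
    have hfe : f p = f q := by
      rw [f_eq_iff (a := a)]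
      intro i
      obtain ⟨n1, h1⟩ := hp'.window i (i + m)
      obtain ⟨n2, h2⟩ := hq'.window i (i + m)
      set n := n1 + n2 + i.natAbs
      have e1 : fl f a p i = fl f a (tr (t (φ n)) (x (φ n))) i :=
        fl_congr hw (fun j hj1 hj2 => (h1 n (by omega) j hj1 hj2).symm)
      have e2 : fl f a q i = fl f a (tr (t (φ n)) (y (φ n))) i :=
        fl_congr hw (fun j hj1 hj2 => (h2 n (by omega) j hj1 hj2).symm)
      have h3 : (i.natAbs : ℤ) ≤ D' (φ n) := by
        have := big n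
        have : i.natAbs ≤ D' (φ n) := by omega
        exact_mod_cast this
      rw [e1, e2, fl_tr hf, fl_tr hf]
      exact hl _ _ (by omega) (by omega)
    have hst : ∀ i : ℤ, i ≤ 0 → st m p q i ∈ A := by
      intro i hi
      obtain ⟨n1, h1⟩ := hp'.window i (i + m)
      obtain ⟨n2, h2⟩ := hq'.window i (i + m)
      set n := n1 + n2 + i.natAbs
      have h3 : (i.natAbs : ℤ) ≤ D' (φ n) := by
        have := big n
        have : i.natAbs ≤ D' (φ n) := by omega
        exact_mod_cast this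
      have e : st m p q i = st m (tr (t (φ n)) (x (φ n))) (tr (t (φ n)) (y (φ n))) i :=
        st_congr (fun j hj1 hj2 => (h1 n (by omega) j hj1 (by omega)).symm)
          (fun j hj1 hj2 => (h2 n (by omega) j hj1 (by omega)).symm)
      rw [e, st_tr]
      exact (q2 _ _ _ (hq (φ n) _ (by omega) (by omega))).2
    have hK : Ker f m A p q :=
      ⟨hfe, fun i => by
        by_cases hi : i ≤ 0
        · exact hst i hi
        · exact fwdR_all hC hfe (hst 0 le_rfl) i (by omega)⟩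
    have hq1 := q1 p q 1 hK
    obtain ⟨n1, h1⟩ := hp'.window (1 - r) (1 + r + m)
    obtain ⟨n2, h2⟩ := hq'.window (1 - r) (1 + r + m)
    set n := n1 + n2
    have e1 : qv (tr (t (φ n)) (x (φ n))) 1 = qv p 1 := q3 _ _ _ (h1 n (by omega))
    have e2 : qv (tr (t (φ n)) (y (φ n))) 1 = qv q 1 := q3 _ _ _ (h2 n (by omega))
    rw [qtr] at e1 e2
    apply hne (φ n)
    have e3 : t (φ n) + 1 = 1 + t (φ n) := by ring
    rw [e3, e1, e2, hq1]
  obtain ⟨D0, hD0⟩ := hdet
  set D := D0 + r + 1 with hD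
  let ε : ℤ → Conf S → (Fin (D + 1) → Quot (Kr f a m A r)) × (Fin (2 * D) → S) := fun t x =>
    (fun i => qv x (t - D - ((i : ℕ) : ℤ)), fun i => fl f a x (t - 1 - ((i : ℕ) : ℤ)))
  have hε : ∀ t x y, ε t x = ε t y ↔ (∀ i : ℤ, t - 2 * D ≤ i → i ≤ t - D → qv x i = qv y i) ∧
      (∀ i : ℤ, t - 2 * D ≤ i → i ≤ t - 1 → fl f a x i = fl f a y i) := by
    intro t x y
    constructor
    · intro h
      constructor
      · intro i h1 h2
        have := congrFun (congrArg Prod.fst h) ⟨(t - D - i).toNat, by omega⟩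
        simp only [ε] at this
        rw [Int.toNat_of_nonneg (by omega)] at this
        have e : t - (D : ℤ) - (t - D - i) = i := by ring
        rwa [e] at this
      · intro i h1 h2
        have := congrFun (congrArg Prod.snd h) ⟨(t - 1 - i).toNat, by omega⟩
        simp only [ε] at this
        rw [Int.toNat_of_nonneg (by omega)] at this
        have e : t - 1 - (t - 1 - i) = i := by ring
        rwa [e] at this
    · rintro ⟨h1, h2⟩
      refine Prod.ext ?_ ?_
      · funext i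
        have hi : ((i : ℕ) : ℤ) < D + 1 := by exact_mod_cast i.2
        exact h1 _ (by omega) (by omega)
      · funext i
        have hi : ((i : ℕ) : ℤ) < 2 * D := by exact_mod_cast i.2
        exact h2 _ (by omega) (by omega)
  refine ⟨_, 2 * D + r, ε, ⟨?_, ?_, ?_, ?_, ?_⟩⟩
  · intro t n x
    refine Prod.ext ?_ ?_
    · funext i
      simp only [ε]
      rw [qtr]
      congr 1; ring
    · funext i
      simp only [ε]
      rw [fl_tr hf]
      congr 1; ring
  · intro t x y h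
    rw [hε]
    constructor
    · intro i h1 h2
      apply q3
      intro j hj1 hj2
      apply h <;> push_cast <;> omega
    · intro i h1 h2
      apply fl_congr hw
      intro j hj1 hj2
      apply h <;> push_cast <;> omega
  · intro t x y h hl
    rw [hε] at h ⊢
    constructor
    · intro i h1 h2
      by_cases hi : i ≤ t - D
      · exact h.1 i (by omega) hi
      · have hie : i = (t - D) + 1 := by omega
        rw [hie]
        apply hD0 D (by omega)
        · intro k hk1 hk2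
          exact h.1 k (by omega) (by omega)
        · intro k hk1 hk2
          by_cases hk : k ≤ t - 1
          · exact h.2 k (by omega) hk
          · have : k = t := by omega
            rw [this]; exact hl
    · intro i h1 h2
      by_cases hi : i ≤ t - 1
      · exact h.2 i (by omega) hi
      · have : i = t := by omega
        rw [this]; exact hl
  · intro t x y h
    rw [hε]
    exact ⟨fun i _ _ => q1 x y i h, fun i _ _ => (f_eq_iff (a := a)).1 h.1 i⟩
  · intro x y hxy h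
    refine ⟨hxy, fun s => ?_⟩
    obtain ⟨t, ht, he⟩ := h s
    rw [hε] at he
    have h1 := (q2 x y (t - D) (he.1 (t - D) (by omega) le_rfl)).2
    exact fwdR_all hC hxy h1 s (by omega)

end

end Pool.Agent.H55.Sweep
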