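import Pool.Agent.H55.Sweep.Fu1
import Pool.Agent.H55.Sweep.Ev5

namespace Pool.Agent.H55.Sweep

open Filter Topology

/-- put the letters `c` at `[m, m+n)` of `u` -/
def pt {S : Type*} (m : ℕ) {n : ℕ} (u : Conf S) (c : Fin n → S) : Conf S := fun j =>
  if h : (m : ℤ) ≤ j ∧ j < m + n then c ⟨(j - m).toNat, by omega⟩ else u j

section
variable {S : Type*} {m n : ℕ}

theorem pt_lt {u : Conf S} {c : Fin n → S} {j : ℤ} (h : j < m) : pt m u c j = u j := by
  simp only [pt]
  rw [dif_neg (by omega)]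

theorem pt_ge {u : Conf S} {c : Fin n → S} {j : ℤ} (h : (m : ℤ) + n ≤ j) :
    pt m u c j = u j := by
  simp only [pt]
  rw [dif_neg (by omega)]

theorem pt_at {u : Conf S} {c : Fin n → S} (i : Fin n) :
    pt m u c (m + ((i : ℕ) : ℤ)) = c i := by
  simp only [pt]
  have hi : ((i : ℕ) : ℤ) < n := by exact_mod_cast i.2
  rw [dif_pos ⟨by omega, by omega⟩]
  congr 1
  apply Fin.ext
  simp

theorem pt_eq {u z : Conf S} {c : Fin n → S} (hc : wd n z m = c) {j : ℤ} (h1 : (m : ℤ) ≤ j)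
    (h2 : j < m + n) : pt m u c j = z j := by
  subst hc
  simp only [pt]
  rw [dif_pos ⟨h1, h2⟩]
  simp only [wd]
  congr 1
  rw [Int.toNat_of_nonneg (by omega)]; ring

theorem wd_pt {u : Conf S} {c : Fin n → S} : wd n (pt m u c) m = c := by
  funext i
  exact pt_at i

theorem pt_congr {u u' : Conf S} {c : Fin n → S} {j : ℤ} (h1 : (m : ℤ) ≤ j)
    (h2 : j < m + n) : pt m u c j = pt m u' c j :=
  pt_eq (z := pt m u' c) wd_pt h1 h2

end

/-- configurations supported on `[-n0, t+m)` with state `e` at `0` and labels `v` on `[0, t)` -/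
def Zs {S T : Type*} (f : Conf S → Conf S) (a : ℤ) (m n0 : ℕ) (s0 : S) (ε : ℤ → Conf S → T)
    (t : ℕ) (e : T) (v : Conf S) : Set (Conf S) :=
  {z | (∀ j : ℤ, ¬ (-(n0 : ℤ) ≤ j ∧ j < t + m) → z j = s0) ∧ ε 0 z = e ∧
    ∀ i : ℤ, 0 ≤ i → i < t → fl f a z i = v i}

/-- configurations supported on `[-n0, t+L+m)` with state `e` at `0`, labels `v` on `[0, t)`
and the property `D` -/
def Ys {S T : Type*} (f : Conf S → Conf S) (a : ℤ) (m n0 : ℕ) (s0 : S) (ε : ℤ → Conf S → T)
    (t L : ℕ) (e : T) (v : Conf S) (D : Conf S → Prop) : Set (Conf S) :=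
  {z | (∀ j : ℤ, ¬ (-(n0 : ℤ) ≤ j ∧ j < t + L + m) → z j = s0) ∧ ε 0 z = e ∧
    (∀ i : ℤ, 0 ≤ i → i < t → fl f a z i = v i) ∧ D z}

section
variable {S T : Type*} {f : Conf S → Conf S} {a : ℤ} {m n0 : ℕ}
variable {K : Conf S → Conf S → Prop} {ε : ℤ → Conf S → T}

theorem zs_inj (hw : Window f a m) (hp : PreInj f) {s0 : S} {t : ℕ} {e : T} {v : Conf S} :
    Function.Injective (fun z : Zs f a m n0 s0 ε t e v =>
      (wd (n0 + m) z.1 (-(n0 : ℤ)), wd m z.1 (t : ℤ))) := by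
  rintro ⟨y, hy1, hy2, hy3⟩ ⟨z, hz1, hz2, hz3⟩ h
  have e1 := wd_eq_iff'.1 (congrArg Prod.fst h)
  have e2 := wd_eq_iff'.1 (congrArg Prod.snd h)
  have hout : ∀ j : ℤ, (j < m ∨ (t : ℤ) ≤ j) → y j = z j := by
    intro j hj
    by_cases hin : -(n0 : ℤ) ≤ j ∧ j < t + m
    · rcases hj with hj | hj
      · exact e1 j hin.1 (by push_cast; omega)
      · exact e2 j hj (by omega)
    · rw [hy1 j hin, hz1 j hin]
  have hf : f y = f z := by
    rw [f_eq_iff (a := a)]
    intro i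
    by_cases h1 : i < 0
    · exact fl_congr hw (fun j _ hj2 => hout j (Or.inl (by omega)))
    · by_cases h2 : i < t
      · rw [hy3 i (by omega) h2, hz3 i (by omega) h2]
      · exact fl_congr hw (fun j hj1 _ => hout j (Or.inr (by omega)))
  have := hp y z hf ⟨-1, fun j hj => hout j (Or.inl (by omega))⟩
    ⟨(t : ℤ), fun j hj => hout j (Or.inr hj)⟩
  exact Subtype.ext this

theorem zs_finite [Finite S] (hw : Window f a m) (hp : PreInj f) {s0 : S} {t : ℕ} {e : T}
    {v : Conf S} : Finite (Zs f a m n0 s0 ε t e v) :=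
  Finite.of_injective _ (zs_inj hw hp)

theorem zs_card_le [Finite S] (hw : Window f a m) (hp : PreInj f) {s0 : S} {t : ℕ} {e : T}
    {v : Conf S} : Nat.card (Zs f a m n0 s0 ε t e v) ≤
      Nat.card ((Fin (n0 + m) → S) × (Fin m → S)) :=
  Nat.card_le_card_of_injective _ (zs_inj hw hp)

theorem det_all (hE : Eps f a m n0 K ε) {x y : Conf S} {t : ℤ} (h : ε t x = ε t y) (n : ℕ)
    (hl : ∀ i : ℤ, t ≤ i → i < t + n → fl f a x i = fl f a y i) :
    ε (t + n) x = ε (t + n) y := by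
  induction n with
  | zero => simpa using h
  | succ n ih =>
    have e : t + ((n + 1 : ℕ) : ℤ) = (t + n) + 1 := by push_cast; ring
    rw [e]
    apply hE.det
    · exact ih (fun i h1 h2 => hl i h1 (by push_cast; omega))
    · exact hl _ (by omega) (by push_cast; omega)

/-- first count: free letters -/
theorem card_ys (hw : Window f a m) (hE : Eps f a m n0 K ε) {s0 : S} {t L : ℕ} {e : T}
    {v : Conf S} {D : Conf S → Prop} {C : Set (Fin L → S)}
    (hD : ∀ z : Conf S, D z ↔ wd L z ((t : ℤ) + m) ∈ C) :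
    Nat.card (Ys f a m n0 s0 ε t L e v D) = Nat.card (Zs f a m n0 s0 ε t e v) * Nat.card C := by
  have ec : ((t + m : ℕ) : ℤ) = (t : ℤ) + m := by push_cast; ring
  have hwd : ∀ (z : Conf S) (c : Fin L → S), wd L (pt (t + m) z c) ((t : ℤ) + m) = c := by
    intro z c
    rw [← ec]; exact wd_pt
  rw [← Nat.card_prod]
  symm
  refine Nat.card_eq_of_bijective (fun p => ⟨pt (t + m) p.1.1 p.2.1, ?_⟩) ⟨?_, ?_⟩
  · obtain ⟨⟨z, hz1, hz2, hz3⟩, ⟨c, hc⟩⟩ := p
    show pt (t + m) z c ∈ Ys f a m n0 s0 ε t L e v D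
    refine ⟨fun j hj => ?_, ?_, fun i hi1 hi2 => ?_, ?_⟩
    · by_cases h1 : j < ((t + m : ℕ) : ℤ)
      · rw [pt_lt h1]
        exact hz1 j (by push_cast at h1; omega)
      · rw [pt_ge (by push_cast at h1 ⊢; omega)]
        exact hz1 j (by push_cast at h1; omega)
    · rw [← hz2]
      exact hE.mem _ _ _ (fun j _ hj2 => pt_lt (by push_cast; omega))
    · rw [← hz3 i hi1 hi2]
      exact fl_congr hw (fun j _ hj2 => pt_lt (by push_cast; omega))
    · rw [hD, hwd]; exact hc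
  · rintro ⟨⟨z, hz1, hz2, hz3⟩, ⟨c, hc⟩⟩ ⟨⟨z', hz1', hz2', hz3'⟩, ⟨c', hc'⟩⟩ h
    have h' : pt (t + m) z c = pt (t + m) z' c' := congrArg Subtype.val h
    have h1 : c = c' := by
      rw [← hwd z c, ← hwd z' c', h']
    have h2 : z = z' := by
      funext j
      by_cases hj : j < ((t + m : ℕ) : ℤ)
      · have := congrFun h' j
        rwa [pt_lt hj, pt_lt hj] at this
      · push_cast at hj
        rw [hz1 j (by omega), hz1' j (by omega)]
    subst h1 h2
    rfl
  · rintro ⟨y, hy1, hy2, hy3, hy4⟩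
    refine ⟨⟨⟨fun j => if j < (t : ℤ) + m then y j else s0, ?_, ?_, ?_⟩,
      ⟨wd L y ((t : ℤ) + m), (hD y).1 hy4⟩⟩, ?_⟩
    · intro j hj
      show (if j < (t : ℤ) + m then y j else s0) = s0
      split_ifs with h
      · exact hy1 j (by omega)
      · rfl
    · rw [← hy2]
      exact hE.mem _ _ _ (fun j _ hj2 => if_pos (by omega))
    · intro i hi1 hi2
      rw [← hy3 i hi1 hi2]
      exact fl_congr hw (fun j _ hj2 => if_pos (by omega))
    · apply Subtype.ext
      funext j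
      show pt (t + m) _ _ j = y j
      by_cases h1 : j < ((t + m : ℕ) : ℤ)
      · rw [pt_lt h1]
        exact if_pos (by push_cast at h1; exact h1)
      · by_cases h2 : j < ((t + m : ℕ) : ℤ) + L
        · exact pt_eq (z := y) (by rw [ec]) (not_lt.mp h1) h2
        · rw [pt_ge (not_lt.mp h2)]
          push_cast at h1 h2
          show (if j < (t : ℤ) + m then y j else s0) = y j
          rw [if_neg (by omega), hy1 j (by omega)]

/-- second count: by labels -/
theorem card_ys' [Finite S] (hw : Window f a m) (hp : PreInj f) {s0 : S} {t L : ℕ} {e : T}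
    {v : Conf S} {D : Conf S → Prop} {W : Set (Fin L → S)} {M : ℕ}
    (hD : ∀ z ∈ Ys f a m n0 s0 ε t L e v (fun _ => True), D z ↔ lb f a L z t ∈ W)
    (hM : ∀ w ∈ W, Nat.card (Zs f a m n0 s0 ε (t + L) e (pt t v w)) ≤ M) :
    Nat.card (Ys f a m n0 s0 ε t L e v D) ≤ Nat.card W * M ∧
    ((∀ w ∈ W, Nat.card (Zs f a m n0 s0 ε (t + L) e (pt t v w)) = M) →
      Nat.card (Ys f a m n0 s0 ε t L e v D) = Nat.card W * M) ∧
    (Nat.card (Ys f a m n0 s0 ε t L e v D) = Nat.card W * M →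
      ∀ w ∈ W, Nat.card (Zs f a m n0 s0 ε (t + L) e (pt t v w)) = M) := by
  classical
  have : Fintype S := Fintype.ofFinite S
  have key : Nat.card (Ys f a m n0 s0 ε t L e v D) =
      ∑ w : W, Nat.card (Zs f a m n0 s0 ε (t + L) e (pt t v w.1)) := by
    have : ∀ w : W, Finite (Zs f a m n0 s0 ε (t + L) e (pt t v w.1)) := fun w => zs_finite hw hp
    rw [← Nat.card_sigma]
    symm
    refine Nat.card_eq_of_bijective (fun p => ⟨p.2.1, ?_⟩) ⟨?_, ?_⟩
    · obtain ⟨⟨w, hw'⟩, ⟨z, hz1, hz2, hz3⟩⟩ := p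
      have hY : z ∈ Ys f a m n0 s0 ε t L e v (fun _ => True) := by
        refine ⟨fun j hj => hz1 j (by push_cast; omega), hz2, fun i hi1 hi2 => ?_, trivial⟩
        rw [hz3 i hi1 (by push_cast; omega)]
        exact pt_lt (by omega)
      refine ⟨hY.1, hY.2.1, hY.2.2.1, (hD z hY).2 ?_⟩
      have : lb f a L z t = w := by
        funext i
        have hi : ((i : ℕ) : ℤ) < L := by exact_mod_cast i.2
        simp only [lb]
        rw [hz3 _ (by positivity) (by push_cast; omega)]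
        exact pt_at i
      rw [this]; exact hw'
    · rintro ⟨⟨w, hw1⟩, ⟨z, hz1, hz2, hz3⟩⟩ ⟨⟨w', hw1'⟩, ⟨z', hz1', hz2', hz3'⟩⟩ h
      have hzz : z = z' := congrArg Subtype.val h
      subst hzz
      have hww : w = w' := by
        funext i
        have hi : ((i : ℕ) : ℤ) < L := by exact_mod_cast i.2
        have h1 := hz3 ((t : ℤ) + ((i : ℕ) : ℤ)) (by positivity) (by push_cast; omega)
        have h2 := hz3' ((t : ℤ) + ((i : ℕ) : ℤ)) (by positivity) (by push_cast; omega)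
        rw [pt_at] at h1 h2
        exact h1.symm.trans h2
      subst hww
      rfl
    · rintro ⟨y, hy1, hy2, hy3, hy4⟩
      have hY : y ∈ Ys f a m n0 s0 ε t L e v (fun _ => True) := ⟨hy1, hy2, hy3, trivial⟩
      refine ⟨⟨⟨lb f a L y t, (hD y hY).1 hy4⟩, ⟨y, ?_, hy2, ?_⟩⟩, rfl⟩
      · intro j hj
        exact hy1 j (by push_cast at hj; omega)
      · intro i hi1 hi2
        by_cases hit : i < t
        · rw [pt_lt hit]; exact hy3 i hi1 hit
        · symm
          exact pt_eq (z := fun j => fl f a y j) rfl (not_lt.mp hit) (by push_cast at hi2; omega)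
  have hc : Nat.card W * M = ∑ w : W, M := by
    rw [Finset.sum_const, Finset.card_univ, Nat.card_eq_fintype_card, smul_eq_mul]
  rw [key, hc]
  refine ⟨Finset.sum_le_sum (fun w _ => hM w.1 w.2), fun h => Finset.sum_congr rfl
    (fun w _ => h w.1 w.2), fun h w hw => ?_⟩
  exact (Finset.sum_eq_sum_iff_of_le (fun w _ => hM w.1 w.2)).1 h ⟨w, hw⟩ (Finset.mem_univ _)

/-- the data of a maximiser -/
structure Max (f : Conf S → Conf S) (a : ℤ) (m n0 : ℕ) (s0 : S) (ε : ℤ → Conf S → T) (M : ℕ)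
    (e0 : T) : Prop where
  pos : 0 < M
  le : ∀ t e v, Nat.card (Zs f a m n0 s0 ε t e v) ≤ M
  ex : ∃ t v, Nat.card (Zs f a m n0 s0 ε t e0 v) = M

theorem exists_maxi [Finite S] (hw : Window f a m) (hp : PreInj f) (n0 : ℕ)
    (ε : ℤ → Conf S → T) (s0 : S) : ∃ M e0, Max f a m n0 s0 ε M e0 := by
  let s : Set ℕ := {c | ∃ t e v, Nat.card (Zs f a m n0 s0 ε t e v) = c}
  have hne : s.Nonempty := ⟨_, 0, ε 0 (fun _ => s0), (fun _ => s0), rfl⟩
  have hb : BddAbove s := ⟨Nat.card ((Fin (n0 + m) → S) × (Fin m → S)), by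
    rintro c ⟨t, e, v, rfl⟩
    exact zs_card_le hw hp⟩
  obtain ⟨t0, e0, v0, h0⟩ := Nat.sSup_mem hne hb
  refine ⟨sSup s, e0, ?_, fun t e v => le_csSup hb ⟨t, e, v, rfl⟩, t0, v0, h0⟩
  have h1 : 0 < Nat.card (Zs f a m n0 s0 ε 0 (ε 0 (fun _ => s0)) (fun _ => s0)) := by
    have : Finite (Zs f a m n0 s0 ε 0 (ε 0 (fun _ => s0)) (fun _ => s0)) := zs_finite hw hp
    have : Nonempty (Zs f a m n0 s0 ε 0 (ε 0 (fun _ => s0)) (fun _ => s0)) :=
      ⟨⟨fun _ => s0, fun _ _ => rfl, rfl, fun i h1 h2 => absurd h2 (by push_cast; omega)⟩⟩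
    exact Nat.card_pos
  exact lt_of_lt_of_le h1 (le_csSup hb ⟨_, _, _, rfl⟩)

theorem max_ext [Finite S] (hw : Window f a m) (hp : PreInj f) (hE : Eps f a m n0 K ε)
    {s0 : S} {M : ℕ} {e0 : T} (hM : Max f a m n0 s0 ε M e0) {t : ℕ} {v : Conf S}
    (h : Nat.card (Zs f a m n0 s0 ε t e0 v) = M) {L : ℕ} (w : Fin L → S) :
    Nat.card (Zs f a m n0 s0 ε (t + L) e0 (pt t v w)) = M := by
  have h1 := card_ys (s0 := s0) (t := t) (L := L) (e := e0) (v := v) (D := fun _ => True)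
    (C := Set.univ) hw hE (fun z => by simp)
  have h2 := card_ys' (s0 := s0) (n0 := n0) (ε := ε) (t := t) (L := L) (e := e0) (v := v)
    (D := fun _ => True) (W := Set.univ) (M := M) hw hp (fun z _ => by simp)
    (fun w _ => hM.le _ _ _)
  apply h2.2.2 _ w (Set.mem_univ _)
  rw [h1, h, mul_comm]

theorem zs_nonempty [Finite S] {s0 : S} {M : ℕ} {e0 : T} (hM : Max f a m n0 s0 ε M e0) {t : ℕ}
    {v : Conf S} {e : T} (h : Nat.card (Zs f a m n0 s0 ε t e v) = M) :
    ∃ z, z ∈ Zs f a m n0 s0 ε t e v := by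
  have h1 := hM.pos
  rw [← h] at h1
  obtain ⟨⟨z, hz⟩⟩ := (Nat.card_pos_iff.1 h1).1
  exact ⟨z, hz⟩

/-- every state is reached by a maximiser -/
theorem reach [Finite S] (hw : Window f a m) (hp : PreInj f) (hE : Eps f a m n0 K ε)
    {s0 : S} {M : ℕ} {e0 : T} (hM : Max f a m n0 s0 ε M e0) (x : Conf S) :
    ∃ (t : ℕ) (v : Conf S), Nat.card (Zs f a m n0 s0 ε t e0 v) = M ∧
      ∀ z : Conf S, ε 0 z = e0 → (∀ i : ℤ, 0 ≤ i → i < t → fl f a z i = v i) →
        ε t z = ε 0 x := by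
  obtain ⟨t0, v0, h0⟩ := hM.ex
  obtain ⟨z0, hz1, hz2, hz3⟩ := zs_nonempty hM h0
  set L := m + n0 with hL
  set t := t0 + L with ht
  set z' : Conf S := glue (t0 + m) z0 (tr (-(t : ℤ)) x) with hz'
  have e1 : ε t z' = ε 0 x := by
    have h1 : ε t z' = ε t (tr (-(t : ℤ)) x) :=
      hE.mem _ _ _ (fun j hj1 _ => glue_ge (by push_cast [ht, hL] at hj1; omega))
    rw [h1, hE.tr]
    congr 1; ring
  have e2 : ε 0 z' = e0 := by
    rw [← hz2]
    exact hE.mem _ _ _ (fun j _ hj2 => glue_lt (by omega))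
  refine ⟨t, pt t0 v0 (lb f a L z' t0), max_ext hw hp hE hM h0 _, fun z hz0 hzl => ?_⟩
  have h3 : ε (0 + (t : ℕ)) z = ε (0 + (t : ℕ)) z' := by
    apply det_all hE (by rw [hz0, e2])
    intro i hi1 hi2
    rw [zero_add] at hi2
    rw [hzl i hi1 hi2]
    by_cases hit : i < t0
    · rw [pt_lt hit, ← hz3 i hi1 hit]
      exact fl_congr hw (fun j _ hj2 => (glue_lt (by omega)).symm)
    · exact pt_eq (z := fun j => fl f a z' j) rfl (not_lt.mp hit)
        (by push_cast [ht] at hi2; exact hi2)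
  rw [zero_add] at h3
  rw [h3, e1]

/-- every label word is realised from every state -/
theorem full_word [Finite S] (hf : ∀ (n : ℤ) (x : Conf S) t, fl f a (tr n x) t = fl f a x (t + n))
    (hw : Window f a m) (hp : PreInj f) (hE : Eps f a m n0 K ε)
    {s0 : S} {M : ℕ} {e0 : T} (hM : Max f a m n0 s0 ε M e0) (x : Conf S) {L : ℕ}
    (w : Fin L → S) : ∃ z, ε 0 z = ε 0 x ∧ lb f a L z 0 = w := by
  obtain ⟨t, v, hc, hr⟩ := reach hw hp hE hM x
  obtain ⟨z, hz1, hz2, hz3⟩ := zs_nonempty hM (max_ext hw hp hE hM hc w)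
  refine ⟨tr t z, ?_, ?_⟩
  · rw [hE.tr, zero_add]
    apply hr z hz2
    intro i hi1 hi2
    rw [hz3 i hi1 (by push_cast; omega)]
    exact pt_lt hi2
  · funext i
    have hi : ((i : ℕ) : ℤ) < L := by exact_mod_cast i.2
    simp only [lb]
    rw [hf, hz3 _ (by positivity) (by push_cast; omega)]
    have e : (0 : ℤ) + ((i : ℕ) : ℤ) + t = t + ((i : ℕ) : ℤ) := by ring
    rw [e]
    exact pt_at i

open Classical in
/-- the transition map on blocks of labels -/
noncomputable def del (f : Conf S → Conf S) (a : ℤ) (ε : ℤ → Conf S → T) {n : ℕ} (e : T)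
    (w : Fin n → S) : T :=
  if h : ∃ z, ε 0 z = e ∧ lb f a n z 0 = w then ε n h.choose else e

theorem del_spec (hf : ∀ (n : ℤ) (x : Conf S) t, fl f a (tr n x) t = fl f a x (t + n))
    (hE : Eps f a m n0 K ε) {n : ℕ} (x : Conf S) (t : ℤ) :
    ε (t + n) x = del f a ε (ε t x) (lb f a n x t) := by
  have h : ∃ z, ε 0 z = ε t x ∧ lb f a n z 0 = lb f a n x t := by
    refine ⟨tr t x, by rw [hE.tr, zero_add], ?_⟩
    funext i
    simp only [lb]
    rw [hf]
    congr 1; ring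
  rw [del, dif_pos h]
  obtain ⟨h1, h2⟩ := h.choose_spec
  set z := h.choose with hz
  have h3 : ε (0 + (n : ℕ)) (tr t x) = ε (0 + (n : ℕ)) z := by
    apply det_all hE
    · rw [hE.tr, zero_add, h1]
    · intro i hi1 hi2
      have := congrFun h2 ⟨i.toNat, by omega⟩
      simp only [lb] at this
      rw [Int.toNat_of_nonneg hi1, zero_add] at this
      rw [hf, this]
      congr 1; ring
  rw [hE.tr] at h3
  have e : (0 : ℤ) + (n : ℕ) + t = t + n := by ring
  rw [e] at h3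
  rw [h3, zero_add]

/-- the number of label blocks leading from one state to another does not depend on the first -/
theorem full_count [Finite S] (hf : ∀ (n : ℤ) (x : Conf S) t, fl f a (tr n x) t = fl f a x (t + n))
    (hw : Window f a m) (hp : PreInj f) (hE : Eps f a m n0 K ε)
    {s0 : S} {M : ℕ} {e0 : T} (hM : Max f a m n0 s0 ε M e0) (x x0 : Conf S) {n : ℕ}
    (hn : n0 + m ≤ n) (e2 : T) :
    Nat.card {w : Fin n → S // del f a ε (ε 0 x) w = e2} =
      Nat.card {c : Fin n → S // ε n (pt m x0 c) = e2} := by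
  have hn' : (n0 : ℤ) + m ≤ n := by exact_mod_cast hn
  obtain ⟨t, v, hc, hr⟩ := reach hw hp hE hM x
  have h1 := card_ys (s0 := s0) (t := t) (L := n) (e := e0) (v := v)
    (D := fun z => ε (t + n) z = e2) (C := {c : Fin n → S | ε n (pt m x0 c) = e2}) hw hE
    (fun z => by
      simp only [Set.mem_ofPred_eq]
      have : ε ((t : ℤ) + n) z = ε n (pt m x0 (wd n z ((t : ℤ) + m))) := by
        have e : (t : ℤ) + n = (n : ℤ) + t := by ring
        rw [e, ← hE.tr]
        apply hE.mem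
        intro j hj1 hj2
        symm
        apply pt_eq
        · rw [wd_tr]; congr 1; ring
        · omega
        · omega
      rw [this])
  have h2 := card_ys' (s0 := s0) (n0 := n0) (ε := ε) (t := t) (L := n) (e := e0) (v := v)
    (D := fun z => ε (t + n) z = e2) (W := {w : Fin n → S | del f a ε (ε 0 x) w = e2}) (M := M)
    hw hp (fun z hz => by
      simp only [Set.mem_ofPred_eq]
      rw [del_spec hf hE z t, hr z hz.2.1 hz.2.2.1])
    (fun w _ => hM.le _ _ _)
  have h3 := h2.2.1 (fun w _ => max_ext hw hp hE hM hc w)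
  rw [h1, hc, mul_comm] at h3
  exact (Nat.eq_of_mul_eq_mul_right hM.pos h3).symm

theorem exists_bij [Finite S] (hf : ∀ (n : ℤ) (x : Conf S) t, fl f a (tr n x) t = fl f a x (t + n))
    (hw : Window f a m) (hp : PreInj f) (hE : Eps f a m n0 K ε)
    {s0 : S} {M : ℕ} {e0 : T} (hM : Max f a m n0 s0 ε M e0) (x x0 : Conf S) {n : ℕ}
    (hn : n0 + m ≤ n) :
    ∃ β : (Fin n → S) ≃ (Fin n → S), ∀ v, ε n (pt m x0 (β v)) = del f a ε (ε 0 x) v := by
  have : Fintype S := Fintype.ofFinite S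
  exact exists_equiv_of_fibers (fun v => del f a ε (ε 0 x) v) (fun c => ε n (pt m x0 c))
    (fun e2 => full_count hf hw hp hE hM x x0 hn e2)

end

end Pool.Agent.H55.Sweep
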