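import Pool.Agent.H55.Sweep.Fu2

namespace Pool.Agent.H55.Sweep

open Filter Topology

section
variable {S T : Type*} {f : Conf S → Conf S} {a : ℤ} {m n0 : ℕ}
variable {K : Conf S → Conf S → Prop} {ε : ℤ → Conf S → T}

/-- relabelled block at `t` -/
def bk (f : Conf S → Conf S) (a : ℤ) (ε : ℤ → Conf S → T) {n : ℕ}
    (β : T → ((Fin n → S) ≃ (Fin n → S))) (x : Conf S) (t : ℤ) : Fin n → S :=
  β (ε t x) (lb f a n x t)

/-- the factor map onto the full shift over blocks -/
def Hf (f : Conf S → Conf S) (a : ℤ) (ε : ℤ → Conf S → T) {n : ℕ} (hn : 0 < n)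
    (β : T → ((Fin n → S) ≃ (Fin n → S))) (x : Conf S) : Conf S := fun p =>
  bk f a ε β x ((p / n) * n) ⟨(p % (n : ℤ)).toNat, emod_lt_nat hn p⟩

theorem div_block {n : ℕ} (hn : 0 < n) (j : ℤ) (i : Fin n) :
    (j * n + ((i : ℕ) : ℤ)) / n = j ∧ (j * n + ((i : ℕ) : ℤ)) % n = ((i : ℕ) : ℤ) := by
  have hn' : (0 : ℤ) < n := by omega
  have hi : ((i : ℕ) : ℤ) < n := by exact_mod_cast i.2
  constructor
  · rw [Int.add_comm, Int.add_mul_ediv_right _ _ hn'.ne', Int.ediv_eq_zero_of_lt (by omega) hi,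
      zero_add]
  · rw [Int.add_comm, Int.add_mul_emod_self_right, Int.emod_eq_of_lt (by omega) hi]

theorem mod_block {n : ℕ} (hn : 0 < n) (q : ℤ) :
    q / (n : ℤ) * n + (((⟨(q % (n : ℤ)).toNat, emod_lt_nat hn q⟩ : Fin n) : ℕ) : ℤ) = q := by
  have hn' : (0 : ℤ) < n := by omega
  simp only
  rw [Int.toNat_of_nonneg (Int.emod_nonneg q hn'.ne')]
  have := Int.mul_ediv_add_emod q n
  linarith [mul_comm (n : ℤ) (q / n)]

theorem Hf_block {n : ℕ} (hn : 0 < n) (β : T → ((Fin n → S) ≃ (Fin n → S))) (x : Conf S)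
    (j : ℤ) (i : Fin n) :
    Hf f a ε hn β x (j * n + ((i : ℕ) : ℤ)) = bk f a ε β x (j * n) i := by
  obtain ⟨h1, h2⟩ := div_block hn j i
  simp only [Hf]
  rw [h1]
  congr 1
  apply Fin.ext
  simp only
  rw [h2]; simp

theorem Hf_tr (hf : ∀ (n : ℤ) (x : Conf S) t, fl f a (tr n x) t = fl f a x (t + n))
    (hE : Eps f a m n0 K ε) {n : ℕ} (hn : 0 < n)
    (β : T → ((Fin n → S) ≃ (Fin n → S))) (x : Conf S) :
    Hf f a ε hn β (tr n x) = tr n (Hf f a ε hn β x) := by
  funext p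
  have e0 := mod_block hn p
  set j := p / (n : ℤ)
  set i : Fin n := ⟨(p % (n : ℤ)).toNat, emod_lt_nat hn p⟩
  rw [← e0]
  have e : j * (n : ℤ) + ((i : ℕ) : ℤ) + n = (j + 1) * n + ((i : ℕ) : ℤ) := by ring
  rw [tr_apply, e, Hf_block hn, Hf_block hn]
  have e1 : (j + 1) * (n : ℤ) = j * n + n := by ring
  simp only [bk]
  have e2 : ε (j * n) (tr n x) = ε ((j + 1) * n) x := by
    rw [e1]; exact hE.tr _ _ _
  have e3 : lb f a n (tr n x) (j * n) = lb f a n x ((j + 1) * n) := by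
    funext k
    simp only [lb]
    rw [hf]
    congr 1; ring
  rw [e2, e3]

theorem bk_spec (hf : ∀ (n : ℤ) (x : Conf S) t, fl f a (tr n x) t = fl f a x (t + n))
    (hE : Eps f a m n0 K ε) {n : ℕ} {x0 : Conf S} {β : T → ((Fin n → S) ≃ (Fin n → S))}
    (hβ : ∀ t x v, ε n (pt m x0 (β (ε t x) v)) = del f a ε (ε t x) v)
    (x : Conf S) (t : ℤ) : ε (t + n) x = ε n (pt m x0 (bk f a ε β x t)) := by
  rw [del_spec hf hE, ← hβ]
  rfl

theorem Hf_of_ker (hE : Eps f a m n0 K ε) (hKf : ∀ x y, K x y → f x = f y) {n : ℕ} (hn : 0 < n)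
    {β : T → ((Fin n → S) ≃ (Fin n → S))} {x y : Conf S} (h : K x y) :
    Hf f a ε hn β x = Hf f a ε hn β y := by
  funext p
  simp only [Hf, bk]
  rw [hE.inv _ x y h]
  have : lb f a n x (p / (n : ℤ) * n) = lb f a n y (p / (n : ℤ) * n) := by
    funext i
    simp only [lb, fl, hKf x y h]
  rw [this]

theorem ker_of_Hf (hf : ∀ (n : ℤ) (x : Conf S) t, fl f a (tr n x) t = fl f a x (t + n))
    (hE : Eps f a m n0 K ε) {n : ℕ} (hn : 0 < n)
    {x0 : Conf S} {β : T → ((Fin n → S) ≃ (Fin n → S))}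
    (hβ : ∀ t x v, ε n (pt m x0 (β (ε t x) v)) = del f a ε (ε t x) v)
    {x y : Conf S} (h : Hf f a ε hn β x = Hf f a ε hn β y) : K x y := by
  have hblk : ∀ j : ℤ, bk f a ε β x (j * n) = bk f a ε β y (j * n) := by
    intro j
    funext i
    rw [← Hf_block hn, ← Hf_block hn, h]
  have hEq : ∀ j : ℤ, ε (j * n) x = ε (j * n) y := by
    intro j
    have h1 := bk_spec hf hE hβ x ((j - 1) * n)
    have h2 := bk_spec hf hE hβ y ((j - 1) * n)
    rw [hblk, ← h2] at h1
    have e : (j - 1) * (n : ℤ) + n = j * n := by ring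
    rwa [e] at h1
  have hlb : ∀ j : ℤ, lb f a n x (j * n) = lb f a n y (j * n) := by
    intro j
    have h1 := hblk j
    simp only [bk] at h1
    rw [hEq j] at h1
    exact (β _).injective h1
  have hfe : f x = f y := by
    rw [f_eq_iff (a := a)]
    intro t
    have h1 := congrFun (hlb (t / n)) ⟨(t % (n : ℤ)).toNat, emod_lt_nat hn t⟩
    simp only [lb] at h1
    have e := mod_block hn t
    simp only at e
    rwa [e] at h1
  refine hE.sep x y hfe (fun T => ?_)
  refine ⟨-(T.natAbs : ℤ) * n, ?_, hEq _⟩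
  have h1 : (1 : ℤ) ≤ n := by omega
  have h2 : (T.natAbs : ℤ) * 1 ≤ (T.natAbs : ℤ) * n :=
    mul_le_mul_of_nonneg_left h1 (by positivity)
  have h3 : -(T.natAbs : ℤ) * n = -((T.natAbs : ℤ) * n) := by ring
  rw [h3]
  omega

theorem Hf_continuous [TopologicalSpace S] [DiscreteTopology S] [Fintype S]
    (hw : Window f a m) (hE : Eps f a m n0 K ε) {n : ℕ} (hn : 0 < n)
    (β : T → ((Fin n → S) ≃ (Fin n → S))) : Continuous (Hf f a ε hn β) := by
  apply continuous_pi
  intro p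
  apply continuous_of_window
  refine ⟨p / n * n - n0, p / n * n + n + m, fun x y h => ?_⟩
  simp only [Hf, bk]
  have e1 : ε (p / (n : ℤ) * n) x = ε (p / (n : ℤ) * n) y :=
    hE.mem _ _ _ (fun j h1 h2 => h j h1 (by omega))
  have e2 : lb f a n x (p / (n : ℤ) * n) = lb f a n y (p / (n : ℤ) * n) := by
    funext i
    have hi : ((i : ℕ) : ℤ) < n := by exact_mod_cast i.2
    exact fl_congr hw (fun j h1 h2 => h j (by omega) (by omega))
  rw [e1, e2]

theorem Hf_surjective [Finite S]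
    (hf : ∀ (n : ℤ) (x : Conf S) t, fl f a (tr n x) t = fl f a x (t + n))
    (hw : Window f a m) (hp : PreInj f) (hE : Eps f a m n0 K ε)
    {s0 : S} {M : ℕ} {e0 : T} (hM : Max f a m n0 s0 ε M e0) {n : ℕ} (hn : 0 < n)
    {x0 : Conf S} {β : T → ((Fin n → S) ≃ (Fin n → S))}
    (hβ : ∀ t x v, ε n (pt m x0 (β (ε t x) v)) = del f a ε (ε t x) v) :
    Function.Surjective (Hf f a ε hn β) := by
  intro b
  let bb : ℤ → Fin n → S := fun j i => b (j * n + ((i : ℕ) : ℤ))
  let X : ℤ → Conf S := fun j => tr n (pt m x0 (bb (j - 1)))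
  let F : ℤ → T := fun j => ε 0 (X j)
  have hF : ∀ j, F j = ε n (pt m x0 (bb (j - 1))) := by
    intro j
    simp only [F, X]
    rw [hE.tr, zero_add]
  let v : ℤ → Fin n → S := fun j => (β (F j)).symm (bb j)
  have hFv : ∀ j, del f a ε (F j) (v j) = F (j + 1) := by
    intro j
    have h1 := hβ 0 (X j) (v j)
    have h2 : ε 0 (X j) = F j := rfl
    rw [h2] at h1
    rw [← h1, hF (j + 1)]
    simp only [v, Equiv.apply_symm_apply]
    congr 3
    ring
  let V : Conf S := fun q => v (q / n) ⟨(q % (n : ℤ)).toNat, emod_lt_nat hn q⟩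
  have hV : ∀ (j : ℤ) (i : Fin n), V (j * n + ((i : ℕ) : ℤ)) = v j i := by
    intro j i
    obtain ⟨h1, h2⟩ := div_block hn j i
    simp only [V]
    rw [h1]
    congr 1
    apply Fin.ext
    simp only
    rw [h2]; simp
  have hex : ∀ J : ℕ, ∃ x, ε (-(J : ℤ) * n) x = F (-(J : ℤ)) ∧
      ∀ q : ℤ, -(J : ℤ) * n ≤ q → q < (J : ℤ) * n → fl f a x q = V q := by
    intro J
    obtain ⟨z, hz1, hz2⟩ := full_word hf hw hp hE hM (X (-(J : ℤ))) (L := 2 * J * n)
      (fun i => V (-(J : ℤ) * n + ((i : ℕ) : ℤ)))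
    refine ⟨tr ((J : ℤ) * n) z, ?_, fun q h1 h2 => ?_⟩
    · rw [hE.tr]
      have e : -(J : ℤ) * n + J * n = 0 := by ring
      rw [e]; exact hz1
    · rw [hf]
      have hlt : (q + (J : ℤ) * n).toNat < 2 * J * n := by
        have h3 : q + (J : ℤ) * n < ((2 * J * n : ℕ) : ℤ) := by push_cast; linarith
        have h4 : 0 ≤ q + (J : ℤ) * n := by linarith
        generalize q + (J : ℤ) * n = z1 at h3 h4 ⊢
        generalize 2 * J * n = z2 at h3 ⊢
        omega
      have := congrFun hz2 ⟨(q + (J : ℤ) * n).toNat, hlt⟩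
      simp only [lb] at this
      rw [Int.toNat_of_nonneg (by linarith), zero_add] at this
      rw [this]
      congr 1; ring
  choose x hx1 hx2 using hex
  have hlb : ∀ (J : ℕ) (j : ℤ), -(J : ℤ) ≤ j → j < J → lb f a n (x J) (j * n) = v j := by
    intro J j h1 h2
    funext i
    have hi : ((i : ℕ) : ℤ) < n := by exact_mod_cast i.2
    simp only [lb]
    rw [hx2 J, hV]
    · have : -(J : ℤ) * n ≤ j * n := mul_le_mul_of_nonneg_right h1 (by positivity)
      have : (0 : ℤ) ≤ ((i : ℕ) : ℤ) := by positivity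
      linarith
    · have : (j + 1) * (n : ℤ) ≤ J * n := mul_le_mul_of_nonneg_right h2 (by positivity)
      have e : (j + 1) * (n : ℤ) = j * n + n := by ring
      linarith
  have hst : ∀ (J : ℕ) (k : ℕ), k ≤ 2 * J → ε ((-(J : ℤ) + k) * n) (x J) = F (-(J : ℤ) + k) := by
    intro J k
    induction k with
    | zero => intro _; simpa using hx1 J
    | succ k ih =>
      intro hk
      have e : (-(J : ℤ) + ((k + 1 : ℕ) : ℤ)) * n = (-(J : ℤ) + k) * n + n := by push_cast; ring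
      rw [e, del_spec hf hE, ih (by omega), hlb J _ (by omega) (by omega), hFv]
      congr 1
      push_cast; ring
  obtain ⟨φ, p, hφ, hp'⟩ := exists_conv x
  have hEp : ∀ j : ℤ, ε (j * n) p = F j := by
    intro j
    obtain ⟨N, hN⟩ := hp'.window (j * n - n0) (j * n + m)
    set k := N + j.natAbs
    have h1 : k ≤ φ k := hφ.id_le k
    have h2 : (j.natAbs : ℤ) ≤ φ k := by
      have : j.natAbs ≤ φ k := by omega
      exact_mod_cast this
    have h3 := hst (φ k) (j + φ k).toNat (by omega)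
    rw [Int.toNat_of_nonneg (by omega)] at h3
    have e : -((φ k : ℕ) : ℤ) + (j + φ k) = j := by ring
    rw [e] at h3
    rw [← h3]
    exact hE.mem _ _ _ (fun i hi1 hi2 => (hN k (by omega) i hi1 hi2.le).symm)
  have hLp : ∀ j : ℤ, lb f a n p (j * n) = v j := by
    intro j
    obtain ⟨N, hN⟩ := hp'.window (j * n) (j * n + n + m)
    set k := N + j.natAbs + 1
    have h1 : k ≤ φ k := hφ.id_le k
    have h2 : (j.natAbs : ℤ) + 1 ≤ φ k := by
      have : j.natAbs + 1 ≤ φ k := by omega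
      exact_mod_cast this
    rw [← hlb (φ k) j (by omega) (by omega)]
    funext i
    have hi : ((i : ℕ) : ℤ) < n := by exact_mod_cast i.2
    exact fl_congr hw (fun q hq1 hq2 => (hN k (by omega) q (by omega) (by omega)).symm)
  refine ⟨p, ?_⟩
  funext q
  have e0 := mod_block hn q
  set j := q / (n : ℤ)
  set i : Fin n := ⟨(q % (n : ℤ)).toNat, emod_lt_nat hn q⟩
  rw [← e0, Hf_block hn]
  simp only [bk]
  rw [hEp, hLp]
  simp only [v, Equiv.apply_symm_apply, bb]

end

section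
universe u
variable {S : Type u} [TopologicalSpace S] [DiscreteTopology S] [Finite S]
variable {f : Conf S → Conf S} {a : ℤ} {m : ℕ} {A : Set ((Fin m → S) × (Fin m → S))}

/-- a closed invariant equivalence relation inside the kernel of a pre-injective CA, forward
closed in the kernel, is the kernel of a surjective continuous map commuting with `σ^n` -/
theorem exists_quot (hf : IsCA f) (hw : Window f a m) (hp : PreInj f) (hC : CritR f m A) :
    ∃ n1 : ℕ, ∀ n : ℕ, n1 ≤ n → ∃ H : Conf S → Conf S, Continuous H ∧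
      (∀ x, H (tr n x) = tr n (H x)) ∧ Function.Surjective H ∧
      ∀ x y, H x = H y ↔ Ker f m A x y := by
  have : Fintype S := Fintype.ofFinite S
  rcases isEmpty_or_nonempty S with hS | ⟨⟨s0⟩⟩
  · have hE : IsEmpty (Conf S) := ⟨fun x => hS.false (x 0)⟩
    exact ⟨0, fun n _ => ⟨id, continuous_id, fun _ => rfl, Function.surjective_id,
      fun x => (hE.false x).elim⟩⟩
  obtain ⟨T, n0, ε, hE⟩ := exists_eps hf hw hC hp s0
  obtain ⟨M, e0, hM⟩ := exists_maxi hw hp n0 ε s0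
  have hfl : ∀ (n : ℤ) (x : Conf S) t, fl f a (tr n x) t = fl f a x (t + n) :=
    fun n x t => fl_tr hf n x t
  refine ⟨n0 + m + 1, fun n hn => ?_⟩
  have hnpos : 0 < n := by omega
  let x0 : Conf S := fun _ => s0
  have hβ : ∀ e : T, ∃ β : (Fin n → S) ≃ (Fin n → S),
      (∃ x, e = ε 0 x) → ∀ v, ε n (pt m x0 (β v)) = del f a ε e v := by
    intro e
    by_cases he : ∃ x, e = ε 0 x
    · obtain ⟨x, rfl⟩ := he
      obtain ⟨β, hβ⟩ := exists_bij hfl hw hp hE hM x x0 (by omega : n0 + m ≤ n)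
      exact ⟨β, fun _ => hβ⟩
    · exact ⟨Equiv.refl _, fun h => absurd h he⟩
  choose β hβ using hβ
  have hβ' : ∀ t x v, ε n (pt m x0 (β (ε t x) v)) = del f a ε (ε t x) v := by
    intro t x v
    refine hβ _ ⟨tr t x, ?_⟩ v
    rw [hE.tr, zero_add]
  exact ⟨Hf f a ε hnpos β, Hf_continuous hw hE hnpos β, Hf_tr hfl hE hnpos β,
    Hf_surjective hfl hw hp hE hM hnpos hβ', fun x y =>
    ⟨ker_of_Hf hfl hE hnpos hβ', Hf_of_ker hE (fun x y h => h.1) hnpos⟩⟩

end

end Pool.Agent.H55.Sweep
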