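import Pool.Agent.H55.Sweep.Fu3

namespace Pool.Agent.H55.Sweep

open Filter Topology

/-- closed translation-invariant equivalence relations -/
structure IsRel {S : Type*} (K : Conf S → Conf S → Prop) : Prop where
  equiv : Equivalence K
  inv : ∀ (n : ℤ) x y, K x y → K (tr n x) (tr n y)
  closed : ∀ x y, (∀ r : ℕ, ∃ u v, K u v ∧ ∀ j : ℤ, -(r : ℤ) ≤ j → j ≤ r → u j = x j ∧ v j = y j) →
    K x y

/-- pairs of `L` which agree with a pair of `K` far to the left are in `K` -/
def RStep {S : Type*} (K L : Conf S → Conf S → Prop) : Prop :=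
  ∀ x y u v, L x y → K u v → (∃ N : ℤ, ∀ j, j ≤ N → x j = u j ∧ y j = v j) → K x y

/-- pairs of `L` which agree with a pair of `K` far to the right are in `K` -/
def LStep {S : Type*} (K L : Conf S → Conf S → Prop) : Prop :=
  ∀ x y u v, L x y → K u v → (∃ N : ℤ, ∀ j, N ≤ j → x j = u j ∧ y j = v j) → K x y

/-- `BStep false` is `RStep`, `BStep true` is `LStep` -/
def BStep {S : Type*} : Bool → (Conf S → Conf S → Prop) → (Conf S → Conf S → Prop) → Prop
  | false => RStep
  | true => LStep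

/-- pairs of words visible in a relation -/
def VisR {S : Type*} (m : ℕ) (K : Conf S → Conf S → Prop) : Set ((Fin m → S) × (Fin m → S)) :=
  {q | ∃ u v t, K u v ∧ st m u v t = q}

section
variable {S : Type*} {K : Conf S → Conf S → Prop}

theorem match_rel {m : ℕ} (hK : ∀ (n : ℤ) x y, K x y → K (tr n x) (tr n y))
    {x y : Conf S} {s : ℤ} (hq : st m x y s ∈ VisR m K) :
    ∃ u v, K u v ∧ (∀ j : ℤ, s ≤ j → j < s + m → u j = x j) ∧
      (∀ j : ℤ, s ≤ j → j < s + m → v j = y j) := by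
  obtain ⟨u, v, t, huv, hst⟩ := hq
  refine ⟨tr (t - s) u, tr (t - s) v, hK _ _ _ huv, ?_, ?_⟩
  · intro j h1 h2
    have := (st_eq_iff.mp hst).1 (j - s) (by omega) (by omega)
    simp only [tr]
    have e1 : t + (j - s) = j + (t - s) := by ring
    have e2 : s + (j - s) = j := by ring
    rw [e1, e2] at this
    exact this
  · intro j h1 h2
    have := (st_eq_iff.mp hst).2 (j - s) (by omega) (by omega)
    simp only [tr]
    have e1 : t + (j - s) = j + (t - s) := by ring
    have e2 : s + (j - s) = j := by ring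
    rw [e1, e2] at this
    exact this

variable [TopologicalSpace S] {f : Conf S → Conf S} {a : ℤ} {m : ℕ}

theorem glue_rel (hw : Window f a m) (hK : IsRel K) (hKf : ∀ x y, K x y → f x = f y)
    (hs : RStep K (fun x y => f x = f y)) {x y : Conf S} {t : ℤ} (hxy : f x = f y)
    (hq : st m x y t ∈ VisR m K) : ∃ u v, K (glue t u x) (glue t v y) := by
  obtain ⟨u, v, huv, hu, hv⟩ := match_rel hK.inv hq
  refine ⟨u, v, hs _ _ u v (ker_glue hw hu hv (hKf _ _ huv) hxy) huv
    ⟨t - 1, fun j hj => ⟨glue_lt (by omega), glue_lt (by omega)⟩⟩⟩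

theorem rel_critR (hw : Window f a m) (hK : IsRel K) (hKf : ∀ x y, K x y → f x = f y)
    (hs : RStep K (fun x y => f x = f y)) :
    CritR f m (VisR m K) ∧ ∀ x y, Ker f m (VisR m K) x y ↔ K x y := by
  have hiff : ∀ x y, Ker f m (VisR m K) x y ↔ K x y := by
    intro x y
    constructor
    · rintro ⟨hxy, hst⟩
      apply hK.closed
      intro r
      obtain ⟨u, v, huv⟩ := glue_rel hw hK hKf hs hxy (hst (-(r : ℤ)))
      exact ⟨_, _, huv, fun j h1 _ => ⟨glue_ge h1, glue_ge h1⟩⟩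
    · intro h
      exact ⟨hKf _ _ h, fun t => ⟨x, y, t, h, rfl⟩⟩
  refine ⟨⟨⟨fun x => ?_, fun {x y} h => ?_, fun {x y z} h1 h2 => ?_⟩, ?_, ?_⟩, hiff⟩
  · exact (hiff x x).2 (hK.equiv.refl x)
  · exact (hiff y x).2 (hK.equiv.symm ((hiff x y).1 h))
  · exact (hiff x z).2 (hK.equiv.trans ((hiff x y).1 h1) ((hiff y z).1 h2))
  · intro x y t hxy hq
    obtain ⟨u, v, huv⟩ := glue_rel hw hK hKf hs hxy hq
    exact ⟨_, _, t + 1, huv, st_glue_ge (by omega)⟩
  · rintro x y t ⟨u, v, s, huv, hst⟩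
    refine ⟨v, u, s, hK.equiv.symm huv, ?_⟩
    exact Prod.ext (congrArg Prod.snd hst) (congrArg Prod.fst hst)

theorem exists_window [DiscreteTopology S] [Finite S] (hf : IsCA f) :
    ∃ (a : ℤ) (m : ℕ), Window f a m := by
  obtain ⟨ρ, hρ⟩ := exists_radius hf
  refine ⟨-(ρ : ℤ), 2 * ρ, fun x y i h => hρ x y i (fun j h1 h2 => ?_)⟩
  have := h (j - i) (by omega) (by push_cast; omega)
  have e : i + (j - i) = j := by ring
  rwa [e] at this

/-- the conclusion: `K` is the kernel of a surjective continuous map commuting with `σ^n` -/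
def Quo (n : ℕ) (K : Conf S → Conf S → Prop) : Prop :=
  ∃ H : Conf S → Conf S, Continuous H ∧ (∀ x, H (tr n x) = tr n (H x)) ∧
    Function.Surjective H ∧ ∀ x y, H x = H y ↔ K x y

theorem quo_right [DiscreteTopology S] [Finite S] (hf : IsCA f) (hp : PreInj f) (hK : IsRel K)
    (hKf : ∀ x y, K x y → f x = f y) (hs : RStep K (fun x y => f x = f y)) :
    ∃ n1 : ℕ, ∀ n : ℕ, n1 ≤ n → Quo n K := by
  obtain ⟨a, m, hw⟩ := exists_window hf
  obtain ⟨hC, hiff⟩ := rel_critR hw hK hKf hs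
  obtain ⟨n1, h1⟩ := exists_quot hf hw hp hC
  refine ⟨n1, fun n hn => ?_⟩
  obtain ⟨H, hH1, hH2, hH3, hH4⟩ := h1 n hn
  exact ⟨H, hH1, hH2, hH3, fun x y => (hH4 x y).trans (hiff x y)⟩

/-- reflection -/
def rev (x : Conf S) : Conf S := fun j => x (-j)

omit [TopologicalSpace S] in
theorem rev_rev (x : Conf S) : rev (rev x) = x := by
  funext j; simp [rev]

omit [TopologicalSpace S] in
theorem rev_tr (n : ℤ) (x : Conf S) : rev (tr n x) = tr (-n) (rev x) := by
  funext j
  simp only [rev, tr]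
  congr 1; ring

omit [TopologicalSpace S] in
theorem rev_inj {x y : Conf S} (h : rev x = rev y) : x = y := by
  rw [← rev_rev x, h, rev_rev]

theorem rev_cont : Continuous (rev : Conf S → Conf S) :=
  continuous_pi fun j => continuous_apply (-j)

theorem quo_left [DiscreteTopology S] [Finite S] (hf : IsCA f) (hp : PreInj f) (hK : IsRel K)
    (hKf : ∀ x y, K x y → f x = f y) (hs : LStep K (fun x y => f x = f y)) :
    ∃ n1 : ℕ, ∀ n : ℕ, n1 ≤ n → Quo n K := by
  let f' : Conf S → Conf S := fun x => rev (f (rev x))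
  let K' : Conf S → Conf S → Prop := fun x y => K (rev x) (rev y)
  have hf' : IsCA f' := by
    refine ⟨rev_cont.comp (hf.1.comp rev_cont), fun x => ?_⟩
    show rev (f (rev (tr 1 x))) = tr 1 (rev (f (rev x)))
    rw [rev_tr, comm_tr hf, rev_tr]
    norm_num
  have hp' : PreInj f' := by
    intro x y hxy h1 h2
    apply rev_inj
    obtain ⟨N1, h1⟩ := h1
    obtain ⟨N2, h2⟩ := h2
    exact hp _ _ (rev_inj hxy) ⟨-N2, fun j hj => h2 (-j) (by omega)⟩
      ⟨-N1, fun j hj => h1 (-j) (by omega)⟩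
  have hK' : IsRel K' := by
    refine ⟨⟨fun x => hK.equiv.refl _, fun h => hK.equiv.symm h,
      fun h1 h2 => hK.equiv.trans h1 h2⟩, fun n x y h => ?_, fun x y h => ?_⟩
    · show K (rev (tr n x)) (rev (tr n y))
      rw [rev_tr, rev_tr]
      exact hK.inv _ _ _ h
    · apply hK.closed
      intro r
      obtain ⟨u, v, huv, hag⟩ := h r
      exact ⟨rev u, rev v, huv, fun j h1 h2 => hag (-j) (by omega) (by omega)⟩
  have hKf' : ∀ x y, K' x y → f' x = f' y := fun x y h => congrArg rev (hKf _ _ h)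
  have hs' : RStep K' (fun x y => f' x = f' y) := by
    intro x y u v hxy huv hN
    obtain ⟨N, hN⟩ := hN
    exact hs _ _ _ _ (rev_inj hxy) huv ⟨-N, fun j hj => hN (-j) (by omega)⟩
  obtain ⟨n1, h1⟩ := quo_right hf' hp' hK' hKf' hs'
  refine ⟨n1, fun n hn => ?_⟩
  obtain ⟨H, hH1, hH2, hH3, hH4⟩ := h1 n hn
  refine ⟨fun x => rev (H (rev x)), rev_cont.comp (hH1.comp rev_cont), fun x => ?_, fun y => ?_,
    fun x y => ?_⟩
  · have h2 := comm_tr_mul hH2 (-1) (rev x)
    have e : (-1 : ℤ) * n = -n := by ring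
    rw [e] at h2
    show rev (H (rev (tr n x))) = tr n (rev (H (rev x)))
    rw [rev_tr, h2, rev_tr]
    simp
  · obtain ⟨x, hx⟩ := hH3 (rev y)
    exact ⟨rev x, by show rev (H (rev (rev x))) = y; rw [rev_rev, hx, rev_rev]⟩
  · constructor
    · intro h
      have := (hH4 (rev x) (rev y)).1 (rev_inj h)
      simp only [K', rev_rev] at this
      exact this
    · intro h
      show rev (H (rev x)) = rev (H (rev y))
      rw [(hH4 (rev x) (rev y)).2 (by simp only [K', rev_rev]; exact h)]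

theorem quo_b [DiscreteTopology S] [Finite S] (hf : IsCA f) (hp : PreInj f) (hK : IsRel K)
    (hKf : ∀ x y, K x y → f x = f y) {b : Bool} (hs : BStep b K (fun x y => f x = f y)) :
    ∃ n1 : ℕ, ∀ n : ℕ, n1 ≤ n → Quo n K := by
  cases b
  · exact quo_right hf hp hK hKf hs
  · exact quo_left hf hp hK hKf hs

end

/-! recoding by blocks -/

section
variable {S : Type*} {n : ℕ}

/-- block coding -/
def enc (n : ℕ) (x : Conf S) : Conf (Fin n → S) := fun j i => x (j * n + ((i : ℕ) : ℤ))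

/-- block decoding -/
def dec (hn : 0 < n) (X : Conf (Fin n → S)) : Conf S := fun q =>
  X (q / n) ⟨(q % (n : ℤ)).toNat, emod_lt_nat hn q⟩

theorem dec_block (hn : 0 < n) (X : Conf (Fin n → S)) (j : ℤ) (i : Fin n) :
    dec hn X (j * n + ((i : ℕ) : ℤ)) = X j i := by
  obtain ⟨h1, h2⟩ := div_block hn j i
  simp only [dec]
  rw [h1]
  congr 1
  apply Fin.ext
  simp only
  rw [h2]; simp

theorem enc_dec (hn : 0 < n) (X : Conf (Fin n → S)) : enc n (dec hn X) = X := by
  funext j i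
  exact dec_block hn X j i

theorem dec_enc (hn : 0 < n) (x : Conf S) : dec hn (enc n x) = x := by
  funext q
  simp only [dec, enc]
  congr 1
  exact mod_block hn q

theorem enc_tr (k : ℤ) (x : Conf S) : enc n (tr (k * n) x) = tr k (enc n x) := by
  funext j i
  simp only [enc, tr]
  congr 1; ring

theorem dec_tr (hn : 0 < n) (k : ℤ) (X : Conf (Fin n → S)) :
    dec hn (tr k X) = tr (k * n) (dec hn X) := by
  have h := enc_tr (n := n) k (dec hn X)
  rw [enc_dec] at h
  rw [← h, dec_enc]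

theorem dec_congr (hn : 0 < n) {X Y : Conf (Fin n → S)} {q : ℤ} (h : X (q / n) = Y (q / n)) :
    dec hn X q = dec hn Y q := by
  simp only [dec, h]

theorem dec_inj (hn : 0 < n) {X Y : Conf (Fin n → S)} (h : dec hn X = dec hn Y) : X = Y := by
  rw [← enc_dec hn X, h, enc_dec]

theorem enc_inj (hn : 0 < n) {x y : Conf S} (h : enc n x = enc n y) : x = y := by
  rw [← dec_enc hn x, h, dec_enc]

theorem dec_low (hn : 0 < n) {X Y : Conf (Fin n → S)} {N : ℤ} (h : ∀ j, j ≤ N → X j = Y j) :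
    ∀ q : ℤ, q ≤ N * n → dec hn X q = dec hn Y q := by
  intro q hq
  apply dec_congr
  apply h
  have hn' : (0 : ℤ) < n := by omega
  exact Int.ediv_le_of_le_mul hn' hq

theorem dec_high (hn : 0 < n) {X Y : Conf (Fin n → S)} {N : ℤ} (h : ∀ j, N ≤ j → X j = Y j) :
    ∀ q : ℤ, N * n ≤ q → dec hn X q = dec hn Y q := by
  intro q hq
  apply dec_congr
  apply h
  have hn' : (0 : ℤ) < n := by omega
  exact (Int.le_ediv_iff_mul_le hn').2 hq

theorem div_bound (hn : 0 < n) {q : ℤ} {r : ℕ} (h1 : -(r : ℤ) ≤ q) (h2 : q ≤ r) :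
    -(r : ℤ) ≤ q / n ∧ q / (n : ℤ) ≤ r := by
  have hn' : (0 : ℤ) < n := by omega
  have hn1 : (1 : ℤ) ≤ n := by omega
  constructor
  · rw [Int.le_ediv_iff_mul_le hn']
    have : (r : ℤ) * 1 ≤ r * n := mul_le_mul_of_nonneg_left hn1 (by positivity)
    have e : -(r : ℤ) * n = -(r * n) := by ring
    rw [e]; linarith
  · apply Int.ediv_le_of_le_mul hn'
    have : (r : ℤ) * 1 ≤ r * n := mul_le_mul_of_nonneg_left hn1 (by positivity)
    linarith

variable [TopologicalSpace S]

theorem enc_cont : Continuous (enc n : Conf S → Conf (Fin n → S)) :=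
  continuous_pi fun j => continuous_pi fun i => continuous_apply (j * n + ((i : ℕ) : ℤ))

theorem dec_cont (hn : 0 < n) : Continuous (dec hn : Conf (Fin n → S) → Conf S) :=
  continuous_pi fun q => (continuous_apply _).comp (continuous_apply (q / n))

variable [DiscreteTopology S] [Finite S] {K : Conf S → Conf S → Prop}

/-- the quotient theorem for maps commuting with a power of the shift -/
theorem quo_pow {G : Conf S → Conf S} (hG : Continuous G) (hn : 0 < n)
    (hc : ∀ x, G (tr n x) = tr n (G x)) (hp : PreInj G) (hK : IsRel K)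
    (hKG : ∀ x y, K x y → G x = G y) {b : Bool} (hs : BStep b K (fun x y => G x = G y)) :
    ∃ n' : ℕ, 0 < n' ∧ n ∣ n' ∧ Quo n' K := by
  let G' : Conf (Fin n → S) → Conf (Fin n → S) := fun X => enc n (G (dec hn X))
  let K' : Conf (Fin n → S) → Conf (Fin n → S) → Prop := fun X Y => K (dec hn X) (dec hn Y)
  have hG' : IsCA G' := by
    refine ⟨enc_cont.comp (hG.comp (dec_cont hn)), fun X => ?_⟩
    show enc n (G (dec hn (tr 1 X))) = tr 1 (enc n (G (dec hn X)))
    rw [dec_tr, one_mul, hc, ← enc_tr, one_mul]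
  have hp' : PreInj G' := by
    intro X Y hXY h1 h2
    apply dec_inj hn
    obtain ⟨N1, h1⟩ := h1
    obtain ⟨N2, h2⟩ := h2
    exact hp _ _ (enc_inj hn hXY) ⟨N1 * n, dec_low hn h1⟩ ⟨N2 * n, dec_high hn h2⟩
  have hK' : IsRel K' := by
    refine ⟨⟨fun x => hK.equiv.refl _, fun h => hK.equiv.symm h,
      fun h1 h2 => hK.equiv.trans h1 h2⟩, fun k X Y h => ?_, fun X Y h => ?_⟩
    · show K (dec hn (tr k X)) (dec hn (tr k Y))
      rw [dec_tr, dec_tr]
      exact hK.inv _ _ _ h
    · apply hK.closed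
      intro r
      obtain ⟨U, V, hUV, hag⟩ := h r
      refine ⟨dec hn U, dec hn V, hUV, fun q h1 h2 => ?_⟩
      obtain ⟨h3, h4⟩ := div_bound hn h1 h2
      exact ⟨dec_congr hn (hag _ h3 h4).1, dec_congr hn (hag _ h3 h4).2⟩
  have hKG' : ∀ X Y, K' X Y → G' X = G' Y := fun X Y h => congrArg (enc n) (hKG _ _ h)
  have hs' : BStep b K' (fun X Y => G' X = G' Y) := by
    cases b
    · intro X Y U V hXY hUV hN
      obtain ⟨N, hN⟩ := hN
      exact hs _ _ _ _ (enc_inj hn hXY) hUV ⟨N * n, fun q hq =>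
        ⟨dec_low hn (fun j hj => (hN j hj).1) q hq, dec_low hn (fun j hj => (hN j hj).2) q hq⟩⟩
    · intro X Y U V hXY hUV hN
      obtain ⟨N, hN⟩ := hN
      exact hs _ _ _ _ (enc_inj hn hXY) hUV ⟨N * n, fun q hq =>
        ⟨dec_high hn (fun j hj => (hN j hj).1) q hq, dec_high hn (fun j hj => (hN j hj).2) q hq⟩⟩
  obtain ⟨n1, h1⟩ := quo_b hG' hp' hK' hKG' hs'
  obtain ⟨H, hH1, hH2, hH3, hH4⟩ := h1 (n1 + 1) (by omega)
  refine ⟨(n1 + 1) * n, by positivity, Dvd.intro_left _ rfl, fun x => dec hn (H (enc n x)),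
    (dec_cont hn).comp (hH1.comp enc_cont), fun x => ?_, fun y => ?_, fun x y => ?_⟩
  · have e : (((n1 + 1) * n : ℕ) : ℤ) = ((n1 + 1 : ℕ) : ℤ) * n := by push_cast; ring
    rw [e]
    show dec hn (H (enc n (tr (((n1 + 1 : ℕ) : ℤ) * n) x))) =
      tr (((n1 + 1 : ℕ) : ℤ) * n) (dec hn (H (enc n x)))
    rw [enc_tr, hH2, dec_tr]
  · obtain ⟨X, hX⟩ := hH3 (enc n y)
    exact ⟨dec hn X, by show dec hn (H (enc n (dec hn X))) = y; rw [enc_dec, hX, dec_enc]⟩
  · constructor
    · intro h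
      have := (hH4 (enc n x) (enc n y)).1 (dec_inj hn h)
      simp only [K', dec_enc] at this
      exact this
    · intro h
      show dec hn (H (enc n x)) = dec hn (H (enc n y))
      rw [(hH4 (enc n x) (enc n y)).2 (by simp only [K', dec_enc]; exact h)]

end

end Pool.Agent.H55.Sweep
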