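import Pool.Agent.H55.Sweep.Levels

namespace Pool.Agent.H55.Sweep

open Filter Topology

section
variable {S : Type*}

/-- relative closing conditions on pairs of words: `A` is forward closed in `B` (type `false`,
a right-closing step) resp. backward closed in `B` (type `true`, a left-closing step) -/
def StepClosed (f : Conf S → Conf S) (m : ℕ) (A B : Set ((Fin m → S) × (Fin m → S))) :
    Bool → Prop
  | false => ∀ x y t, Ker f m B x y → st m x y t ∈ A → st m x y (t + 1) ∈ A
  | true => ∀ x y t, Ker f m B x y → st m x y (t + 1) ∈ A → st m x y t ∈ A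

/-- type of the step with `n` steps after it, if the last step has type `b` -/
def typ (b : Bool) (n : ℕ) : Bool := if Even n then b else !b

theorem typ_zero (b : Bool) : typ b 0 = b := by simp [typ]

theorem typ_succ (b : Bool) (n : ℕ) : typ b (n + 1) = typ (!b) n := by
  unfold typ
  by_cases h : Even n
  · have h' : ¬ Even (n + 1) := by rw [Nat.even_add_one]; simpa using h
    rw [if_neg h', if_pos h]
  · have h' : Even (n + 1) := by rw [Nat.even_add_one]; exact h
    rw [if_pos h', if_neg h, Bool.not_not]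

variable [TopologicalSpace S] [DiscreteTopology S] [Finite S]

theorem stepClosed_of_closing {f G g h : Conf S → Conf S} {a : ℤ} {m : ℕ} (hw : Window f a m)
    (hfG : f = G ∘ (g ∘ h)) (hG : PreInj G) (hg : IsCA g) (hh : IsCA h) {b : Bool}
    (hcl : Closing b g) : StepClosed f m (Vis m h) (Vis m (g ∘ h)) b := by
  have key := ker_iff hw hfG hG (isCA_comp hg hh)
  cases b
  · intro x y t hK ht
    exact fwd_step hw hfG hG hg hh hcl ((key x y).2 hK) ht
  · intro x y t hK ht
    exact bwd_step hw hfG hG hg hh hcl ((key x y).2 hK) ht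

/-- the relative closing condition gives a closing factor -/
theorem closing_of_step {f g h : Conf S → Conf S} {m : ℕ}
    {A B : Set ((Fin m → S) × (Fin m → S))} {b : Bool} (hh : IsCA h)
    (hs : Function.Surjective h) (hA : ∀ x y, h x = h y ↔ Ker f m A x y)
    (hB : ∀ x y, g (h x) = g (h y) ↔ Ker f m B x y) (hst : StepClosed f m A B b) :
    Closing b g := by
  cases b
  · intro u v huv hN
    obtain ⟨x, rfl⟩ := hs u
    obtain ⟨y, rfl⟩ := hs v
    have hK := (hB x y).1 huv
    refine (hA x y).2 ⟨hK.1, fun t => ?_⟩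
    obtain ⟨s, hs1, hs2⟩ := left_visits hh hA hN t
    have : ∀ n : ℕ, st m x y (s + n) ∈ A := by
      intro n
      induction n with
      | zero => simpa using hs2
      | succ n ih =>
        have := hst x y (s + n) hK ih
        rw [add_assoc] at this
        exact_mod_cast this
    have h1 := this (t - s).toNat
    rw [Int.toNat_of_nonneg (by omega)] at h1
    have e : s + (t - s) = t := by ring
    rw [e] at h1
    exact h1
  · intro u v huv hN
    obtain ⟨x, rfl⟩ := hs u
    obtain ⟨y, rfl⟩ := hs v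
    have hK := (hB x y).1 huv
    refine (hA x y).2 ⟨hK.1, fun t => ?_⟩
    obtain ⟨s, hs1, hs2⟩ := right_visits hh hA hN t
    have : ∀ n : ℕ, st m x y (s - n) ∈ A := by
      intro n
      induction n with
      | zero => simpa using hs2
      | succ n ih =>
        apply hst x y (s - (n + 1 : ℕ)) hK
        have e : s - ((n + 1 : ℕ) : ℤ) + 1 = s - n := by push_cast; ring
        rw [e]; exact ih
    have h1 := this (s - t).toNat
    rw [Int.toNat_of_nonneg (by omega)] at h1
    have e : s - (s - t) = t := by ring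
    rw [e] at h1
    exact h1

/-- factorisation through a surjective CA with smaller kernel -/
theorem exists_factor {h h' : Conf S → Conf S} (hh : IsCA h) (hh' : IsCA h')
    (hs : Function.Surjective h') (hk : ∀ x y, h' x = h' y → h x = h y) :
    ∃ g, IsCA g ∧ h = g ∘ h' := by
  have hgh : ∀ x, h (Function.surjInv hs (h' x)) = h x := fun x =>
    hk _ _ (Function.surjInv_eq hs (h' x))
  refine ⟨fun u => h (Function.surjInv hs u), ⟨?_, ?_⟩, ?_⟩
  · have hq : IsQuotientMap h' := (hh'.1.isClosedMap).isQuotientMap hh'.1 hs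
    rw [hq.continuous_iff]
    have : (fun u => h (Function.surjInv hs u)) ∘ h' = h := funext hgh
    rw [this]; exact hh.1
  · intro u
    obtain ⟨x, rfl⟩ := hs u
    rw [← hh'.2 x]
    show h (Function.surjInv hs (h' (shift x))) = shift (h (Function.surjInv hs (h' x)))
    rw [hgh, hgh, hh.2]
  · funext x; exact (hgh x).symm

end

section
variable {S : Type*} [TopologicalSpace S] [DiscreteTopology S] [Fintype S]

/-- the chain condition -/
def Chain (f : Conf S → Conf S) (m : ℕ) (b : Bool) (K : ℕ)
    (A : ℕ → Set ((Fin m → S) × (Fin m → S))) : Prop :=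
  (∀ x y, Ker f m (A 0) x y ↔ x = y) ∧
  (∀ i, i < K → A i ⊆ A (i + 1) ∧
    (∃ h : Conf S → Conf S, IsCA h ∧ Function.Surjective h ∧
      ∀ x y, h x = h y ↔ Ker f m (A i) x y) ∧
    StepClosed f m (A i) (A (i + 1)) (typ b (K - 1 - i)))

theorem chain_of_level {f : Conf S → Conf S} {a : ℤ} {m : ℕ} (hw : Window f a m) :
    ∀ (K : ℕ) (b : Bool) (h : Conf S → Conf S), h ∈ Level b K → ∀ G, PreInj G → f = G ∘ h →
      ∃ A : ℕ → Set ((Fin m → S) × (Fin m → S)), Chain f m b K A ∧ A K = Vis m h := by
  intro K
  induction K with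
  | zero =>
    intro b h hh G hG hfG
    have : h = id := hh
    subst this
    refine ⟨fun _ => Vis m id, ⟨fun x y => ?_, fun i hi => absurd hi (Nat.not_lt_zero i)⟩, rfl⟩
    exact ((ker_iff hw hfG hG isCA_id x y).symm : _)
  | succ K ih =>
    intro b h hh G hG hfG
    obtain ⟨g, h', hg, hc, hh', rfl⟩ := hh
    have hh'CA := level_isCA hh'
    have hGg : PreInj (G ∘ g) := preInj_comp hg hG (preInj_of_closing hc)
    obtain ⟨A, hA, hAK⟩ := ih (!b) h' hh' (G ∘ g) hGg hfG
    refine ⟨fun i => if i ≤ K then A i else Vis m (g ∘ h'), ⟨?_, ?_⟩, ?_⟩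
    · have : (if 0 ≤ K then A 0 else Vis m (g ∘ h')) = A 0 := if_pos (Nat.zero_le K)
      intro x y
      simp only [Nat.zero_le, if_true]
      exact hA.1 x y
    · intro i hi
      by_cases hiK : i < K
      · have h1 : i ≤ K := hiK.le
        have h2 : i + 1 ≤ K := hiK
        simp only [h1, h2, if_true]
        obtain ⟨q1, q2, q3⟩ := hA.2 i hiK
        refine ⟨q1, q2, ?_⟩
        have e : K + 1 - 1 - i = (K - 1 - i) + 1 := by omega
        rw [e, typ_succ]
        exact q3
      · have hiK' : i = K := by omega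
        subst hiK'
        have h2 : ¬ (i + 1 ≤ i) := by omega
        simp only [le_refl, h2, if_true, if_false]
        rw [hAK]
        refine ⟨vis_mono, ⟨h', hh'CA, level_surj hh',
          fun x y => ker_iff hw (G := G ∘ g) hfG hGg hh'CA x y⟩, ?_⟩
        have e : i + 1 - 1 - i = 0 := by omega
        rw [e, typ_zero]
        exact stepClosed_of_closing hw hfG hG hg hh'CA hc
    · have : ¬ (K + 1 ≤ K) := by omega
      simp only [this, if_false]

theorem ker_mono {f : Conf S → Conf S} {m : ℕ} {A B : Set ((Fin m → S) × (Fin m → S))}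
    (hAB : A ⊆ B) {x y : Conf S} (h : Ker f m A x y) : Ker f m B x y :=
  ⟨h.1, fun t => hAB (h.2 t)⟩

theorem level_of_chain {f : Conf S → Conf S} {m : ℕ} :
    ∀ (k : ℕ) (b : Bool) (A : ℕ → Set ((Fin m → S) × (Fin m → S))), Chain f m b (k + 1) A →
      ∀ h : Conf S → Conf S, IsCA h → (∀ x y, h x = h y ↔ Ker f m (A (k + 1)) x y) →
        h ∈ Level b (k + 1) := by
  intro k
  induction k with
  | zero =>
    intro b A hA h hh hker
    obtain ⟨_, _, q3⟩ := hA.2 0 (by omega)
    have e : 0 + 1 - 1 - 0 = 0 := rfl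
    rw [e, typ_zero] at q3
    refine ⟨h, id, hh, ?_, rfl, rfl⟩
    exact closing_of_step (h := id) isCA_id Function.surjective_id
      (fun x y => (hA.1 x y).symm) hker q3
  | succ k ih =>
    intro b A hA h hh hker
    obtain ⟨q1, ⟨h', hh', hs', hk'⟩, q3⟩ := hA.2 (k + 1) (by omega)
    have e : k + 1 + 1 - 1 - (k + 1) = 0 := by omega
    rw [e, typ_zero] at q3
    have hA' : Chain f m (!b) (k + 1) A := by
      refine ⟨hA.1, fun i hi => ?_⟩
      obtain ⟨p1, p2, p3⟩ := hA.2 i (by omega)
      refine ⟨p1, p2, ?_⟩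
      have e : k + 1 + 1 - 1 - i = (k + 1 - 1 - i) + 1 := by omega
      rw [e, typ_succ] at p3
      exact p3
    have hlev := ih (!b) A hA' h' hh' hk'
    obtain ⟨g, hg, rfl⟩ := exists_factor hh hh' hs'
      (fun x y hxy => (hker x y).2 (ker_mono q1 ((hk' x y).1 hxy)))
    exact ⟨g, h', hg, closing_of_step hh' hs' hk' hker q3, hlev, rfl⟩

/-- normal form for membership in a level -/
theorem level_iff {f : Conf S → Conf S} (hf : IsCA f) {a : ℤ} {m : ℕ} (hw : Window f a m)
    (b : Bool) (k : ℕ) :
    f ∈ Level b (k + 1) ↔ ∃ A : ℕ → Set ((Fin m → S) × (Fin m → S)),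
      Chain f m b (k + 1) A ∧ ∀ x y, f x = f y ↔ Ker f m (A (k + 1)) x y := by
  constructor
  · intro h
    obtain ⟨A, hA, hAK⟩ := chain_of_level hw (k + 1) b f h id preInj_id rfl
    refine ⟨A, hA, fun x y => ?_⟩
    rw [hAK]
    exact ker_iff hw (G := id) rfl preInj_id hf x y
  · rintro ⟨A, hA, hk⟩
    exact level_of_chain k b A hA f hf hk

end

end Pool.Agent.H55.Sweep
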