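import Pool.Agent.H55.Sweep.Fu4
import Pool.Agent.H55.Sweep.Normal

/-!
The hierarchy of compositions of closing maps for continuous maps commuting with a power of the
shift, and the normal form for membership in it.
-/

namespace Pool.Agent.H55.Sweep

open Filter Topology

section
variable {S : Type*}

/-- continuous maps commuting with the `n`-th power of the shift -/
def IsPowCA [TopologicalSpace S] (n : ℕ) (f : Conf S → Conf S) : Prop :=
  Continuous f ∧ ∀ x, f (shift^[n] x) = shift^[n] (f x)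

/-- the levels for continuous maps commuting with the `n`-th power of the shift -/
def LevelPow [TopologicalSpace S] (n : ℕ) : Bool → ℕ → Set (Conf S → Conf S)
  | _, 0 => {id}
  | b, k + 1 => {f | ∃ g h, IsPowCA n g ∧ Closing b g ∧ h ∈ LevelPow n (!b) k ∧ f = g ∘ h}

/-- the chain condition: like `Chain`, with `kernel of a surjective CA` replaced by
`equivalence relation` -/
def EqChain (f : Conf S → Conf S) (m : ℕ) (b : Bool) (K : ℕ)
    (A : ℕ → Set ((Fin m → S) × (Fin m → S))) : Prop :=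
  (∀ x y, Ker f m (A 0) x y ↔ x = y) ∧
  (∀ i, i < K → A i ⊆ A (i + 1) ∧ Equivalence (Ker f m (A i)) ∧
    StepClosed f m (A i) (A (i + 1)) (typ b (K - 1 - i)))

theorem shift_iter (n : ℕ) (x : Conf S) : shift^[n] x = tr n x := by
  induction n generalizing x with
  | zero => simp [tr_zero]
  | succ n ih =>
    rw [Function.iterate_succ, Function.comp, ih, shift_eq_tr, tr_tr]
    push_cast
    rfl

/-- the largest shift-invariant relation inside the kernel of `h` -/
def KR (h : Conf S → Conf S) (x y : Conf S) : Prop := ∀ j : ℤ, h (tr j x) = h (tr j y)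

theorem kr_inv {h : Conf S → Conf S} (n : ℤ) (x y : Conf S) (hK : KR h x y) :
    KR h (tr n x) (tr n y) := by
  intro j
  rw [tr_tr, tr_tr]; exact hK _

variable {f : Conf S → Conf S} {m : ℕ} {A B : Set ((Fin m → S) × (Fin m → S))}

theorem step_right (hst : StepClosed f m A B false) {x y : Conf S} (hK : Ker f m B x y) {s : ℤ}
    (hs : st m x y s ∈ A) : ∀ t, s ≤ t → st m x y t ∈ A := by
  intro t hst'
  obtain ⟨n, rfl⟩ : ∃ n : ℕ, t = s + n :=
    ⟨(t - s).toNat, by rw [Int.toNat_of_nonneg (by omega)]; ring⟩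
  clear hst'
  induction n with
  | zero => simpa using hs
  | succ n ih =>
    have := hst x y (s + n) hK ih
    rw [add_assoc] at this
    exact_mod_cast this

theorem step_left (hst : StepClosed f m A B true) {x y : Conf S} (hK : Ker f m B x y) {s : ℤ}
    (hs : st m x y s ∈ A) : ∀ t, t ≤ s → st m x y t ∈ A := by
  intro t hst'
  obtain ⟨n, rfl⟩ : ∃ n : ℕ, t = s - n :=
    ⟨(s - t).toNat, by rw [Int.toNat_of_nonneg (by omega)]; ring⟩
  clear hst'
  induction n with
  | zero => simpa using hs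
  | succ n ih =>
    apply hst x y (s - (n + 1 : ℕ)) hK
    have e : s - ((n + 1 : ℕ) : ℤ) + 1 = s - n := by push_cast; ring
    rw [e]; exact ih

theorem chain_preInj {b : Bool} {K : ℕ} {A : ℕ → Set ((Fin m → S) × (Fin m → S))}
    (hA : EqChain f m b K A) : ∀ i, i ≤ K → ∀ x y, Ker f m (A i) x y →
      (∃ N : ℤ, ∀ j, j ≤ N → x j = y j) → (∃ N : ℤ, ∀ j, N ≤ j → x j = y j) → x = y := by
  intro i
  induction i with
  | zero => intro _ x y h _ _; exact (hA.1 x y).1 h
  | succ i ih =>
    intro hi x y h h1 h2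
    refine ih (by omega) x y ⟨h.1, fun t => ?_⟩ h1 h2
    obtain ⟨_, he, hst⟩ := hA.2 i (by omega)
    have hd : ∀ t, st m x x t ∈ A i := fun t => (he.refl x).2 t
    generalize typ b (K - 1 - i) = c at hst
    cases c
    · obtain ⟨N, hN⟩ := h1
      have : st m x y (min t (N - m)) ∈ A i := by
        rw [← st_congr (x := x) (y := x) (fun _ _ _ => rfl) (fun j _ hj2 => hN j (by omega))]
        exact hd _
      exact step_right hst h this t (min_le_left _ _)
    · obtain ⟨N, hN⟩ := h2
      have : st m x y (max t N) ∈ A i := by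
        rw [← st_congr (x := x) (y := x) (fun _ _ _ => rfl) (fun j hj1 _ => hN j (by omega))]
        exact hd _
      exact step_left hst h this t (le_max_left _ _)

variable [TopologicalSpace S]

theorem ker_isRel {a : ℤ} (hf : IsCA f) (hw : Window f a m) (he : Equivalence (Ker f m A)) :
    IsRel (Ker f m A) := by
  refine ⟨he, fun n x y h => ?_, fun x y h => ?_⟩
  · refine ⟨by rw [comm_tr hf, comm_tr hf, h.1], fun t => ?_⟩
    rw [st_tr]; exact h.2 _
  · have key : ∀ t : ℤ, fl f a x t = fl f a y t ∧ st m x y t ∈ A := by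
      intro t
      obtain ⟨u, v, hK, hag⟩ := h (t.natAbs + m)
      have h1 : ∀ j : ℤ, t ≤ j → j ≤ t + m → u j = x j ∧ v j = y j := fun j h1 h2 =>
        hag j (by rw [Nat.cast_add]; omega) (by rw [Nat.cast_add]; omega)
      constructor
      · rw [← fl_congr hw (fun j h2 h3 => (h1 j h2 h3).1), ← fl_congr hw
          (fun j h2 h3 => (h1 j h2 h3).2)]
        exact (f_eq_iff (a := a)).1 hK.1 t
      · rw [← st_congr (fun j h2 h3 => (h1 j h2 h3.le).1) (fun j h2 h3 => (h1 j h2 h3.le).2)]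
        exact hK.2 t
    exact ⟨(f_eq_iff (a := a)).2 (fun t => (key t).1), fun t => (key t).2⟩

omit [TopologicalSpace S] in
theorem bstep_of_step {h : Conf S → Conf S} {b : Bool}
    (hB : ∀ x y, h x = h y ↔ Ker f m B x y) (hst : StepClosed f m A B b) :
    BStep b (Ker f m A) (fun x y => h x = h y) := by
  cases b
  · intro x y u v hxy huv hN
    obtain ⟨N, hN⟩ := hN
    have hK := (hB x y).1 hxy
    have e : ∀ t : ℤ, t ≤ N - m → st m x y t ∈ A := by
      intro t ht
      rw [st_congr (fun j _ hj2 => (hN j (by omega)).1) (fun j _ hj2 => (hN j (by omega)).2)]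
      exact huv.2 t
    refine ⟨hK.1, fun t => ?_⟩
    by_cases ht : t ≤ N - m
    · exact e t ht
    · exact step_right hst hK (e (N - m) le_rfl) t (by omega)
  · intro x y u v hxy huv hN
    obtain ⟨N, hN⟩ := hN
    have hK := (hB x y).1 hxy
    have e : ∀ t : ℤ, N ≤ t → st m x y t ∈ A := by
      intro t ht
      rw [st_congr (fun j hj1 _ => (hN j (by omega)).1) (fun j hj1 _ => (hN j (by omega)).2)]
      exact huv.2 t
    refine ⟨hK.1, fun t => ?_⟩
    by_cases ht : N ≤ t
    · exact e t ht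
    · exact step_left hst hK (e N le_rfl) t (by omega)

theorem powCA_tr {n : ℕ} {g : Conf S → Conf S} (hg : IsPowCA n g) (x : Conf S) :
    g (tr n x) = tr n (g x) := by
  rw [← shift_iter, ← shift_iter]; exact hg.2 x

theorem powCA_of_tr {n : ℕ} {g : Conf S → Conf S} (hg : Continuous g)
    (hc : ∀ x, g (tr n x) = tr n (g x)) : IsPowCA n g :=
  ⟨hg, fun x => by rw [shift_iter, shift_iter]; exact hc x⟩

theorem powCA_dvd {n n' : ℕ} {g : Conf S → Conf S} (hg : IsPowCA n g) (hd : n ∣ n') :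
    IsPowCA n' g := by
  obtain ⟨q, rfl⟩ := hd
  apply powCA_of_tr hg.1
  intro x
  have := comm_tr_mul (powCA_tr hg) q x
  have e : ((n * q : ℕ) : ℤ) = (q : ℤ) * n := by push_cast; ring
  rw [e]; exact this

theorem powCA_of_CA {n : ℕ} {g : Conf S → Conf S} (hg : IsCA g) : IsPowCA n g :=
  powCA_of_tr hg.1 (fun x => comm_tr hg n x)

theorem powCA_comp {n : ℕ} {g h : Conf S → Conf S} (hg : IsPowCA n g) (hh : IsPowCA n h) :
    IsPowCA n (g ∘ h) := by
  refine ⟨hg.1.comp hh.1, fun x => ?_⟩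
  simp only [Function.comp]
  rw [hh.2, hg.2]

variable [DiscreteTopology S] [Finite S]

theorem powCA_radius {n : ℕ} (hn : 0 < n) {g : Conf S → Conf S} (hg : IsPowCA n g) :
    ∃ ρ : ℕ, ∀ x y i, (∀ j : ℤ, i - ρ ≤ j → j ≤ i + ρ → x j = y j) → g x i = g y i :=
  exists_radius_pow hg.1 hn (powCA_tr hg)

theorem preInj_comp_pow {n : ℕ} (hn : 0 < n) {f g : Conf S → Conf S} (hg : IsPowCA n g)
    (h1 : PreInj f) (h2 : PreInj g) : PreInj (f ∘ g) := by
  obtain ⟨ρ, hρ⟩ := powCA_radius hn hg
  intro x y hxy hN hM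
  refine h2 x y ?_ hN hM
  refine h1 (g x) (g y) hxy ?_ ?_
  · obtain ⟨N, hN⟩ := hN
    exact ⟨N - ρ, fun j hj => hρ x y j (fun i _ hi => hN i (by omega))⟩
  · obtain ⟨N, hN⟩ := hM
    exact ⟨N + ρ, fun j hj => hρ x y j (fun i hi _ => hN i (by omega))⟩

theorem visits_pow {n : ℕ} (hn : 0 < n) {h : Conf S → Conf S} (hh : IsPowCA n h)
    (hker : ∀ x y, h x = h y ↔ Ker f m A x y) {x y : Conf S} (σ : ℤ) (hσ : σ = 1 ∨ σ = -1)
    (hxy : ∃ N : ℤ, ∀ j, N ≤ σ * j → h x j = h y j) (T : ℤ) :
    ∃ t, T ≤ σ * t ∧ st m x y t ∈ A := by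
  obtain ⟨N, hN⟩ := hxy
  obtain ⟨ρ, hρ⟩ := powCA_radius hn hh
  obtain ⟨φ, p, q, hφ, hp, hq⟩ := exists_conv2 (fun k : ℕ => tr ((σ * k) * n) x)
    (fun k : ℕ => tr ((σ * k) * n) y)
  have hσσ : σ * σ = 1 := by rcases hσ with rfl | rfl <;> norm_num
  have hn1 : (1 : ℤ) ≤ n := by omega
  have big : ∀ k : ℕ, (k : ℤ) ≤ σ * (σ * (φ k : ℤ) * n) := by
    intro k
    have h1 : k ≤ φ k := hφ.id_le k
    have h2 : (k : ℤ) ≤ φ k := by exact_mod_cast h1
    have e : σ * (σ * (φ k : ℤ) * n) = (σ * σ) * ((φ k : ℤ) * n) := by ring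
    rw [e, hσσ, one_mul]
    nlinarith
  have hpq : h p = h q := by
    funext i
    obtain ⟨n1, h1⟩ := hp.window (i - ρ) (i + ρ)
    obtain ⟨n2, h2⟩ := hq.window (i - ρ) (i + ρ)
    set k := n1 + n2 + N.natAbs + i.natAbs
    rw [← hρ _ _ i (fun j hj1 hj2 => h1 k (by omega) j hj1 hj2),
      ← hρ _ _ i (fun j hj1 hj2 => h2 k (by omega) j hj1 hj2)]
    show h (tr ((σ * (φ k : ℤ)) * n) x) i = h (tr ((σ * (φ k : ℤ)) * n) y) i
    rw [comm_tr_mul (powCA_tr hh), comm_tr_mul (powCA_tr hh)]
    simp only [tr]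
    apply hN
    have h3 := big k
    have h4 : (N.natAbs : ℤ) + i.natAbs ≤ k := by
      have : N.natAbs + i.natAbs ≤ k := by omega
      exact_mod_cast this
    have e : σ * (i + σ * (φ k : ℤ) * n) = σ * i + σ * (σ * (φ k : ℤ) * n) := by ring
    rw [e]
    rcases hσ with rfl | rfl <;> omega
  have hA : st m p q 0 ∈ A := ((hker _ _).1 hpq).2 0
  obtain ⟨n1, h1⟩ := hp.window 0 m
  obtain ⟨n2, h2⟩ := hq.window 0 m
  set k := n1 + n2 + T.natAbs
  refine ⟨(σ * (φ k : ℤ)) * n, ?_, ?_⟩
  · have h3 := big k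
    have h4 : (T.natAbs : ℤ) ≤ k := by
      have : T.natAbs ≤ k := by omega
      exact_mod_cast this
    omega
  · have e : st m x y ((σ * (φ k : ℤ)) * n) = st m p q 0 := by
      rw [st_eq_iff]
      constructor
      · intro j hj1 hj2
        have := h1 k (by omega) j (by omega) (by omega)
        rw [zero_add, ← this]
        simp only [Function.comp, tr]
        congr 1; ring
      · intro j hj1 hj2
        have := h2 k (by omega) j (by omega) (by omega)
        rw [zero_add, ← this]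
        simp only [Function.comp, tr]
        congr 1; ring
    rw [e]; exact hA

theorem closing_of_step_pow {n : ℕ} (hn : 0 < n) {g h : Conf S → Conf S} {b : Bool}
    (hh : IsPowCA n h) (hs : Function.Surjective h) (hA : ∀ x y, h x = h y ↔ Ker f m A x y)
    (hB : ∀ x y, g (h x) = g (h y) ↔ Ker f m B x y) (hst : StepClosed f m A B b) :
    Closing b g := by
  cases b
  · intro u v huv hN
    obtain ⟨x, rfl⟩ := hs u
    obtain ⟨y, rfl⟩ := hs v
    have hK := (hB x y).1 huv
    obtain ⟨N, hN⟩ := hN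
    refine (hA x y).2 ⟨hK.1, fun t => ?_⟩
    obtain ⟨s, hs1, hs2⟩ := visits_pow hn hh hA (-1) (Or.inr rfl)
      ⟨-N, fun j hj => hN j (by omega)⟩ (-t)
    exact step_right hst hK hs2 t (by omega)
  · intro u v huv hN
    obtain ⟨x, rfl⟩ := hs u
    obtain ⟨y, rfl⟩ := hs v
    have hK := (hB x y).1 huv
    obtain ⟨N, hN⟩ := hN
    refine (hA x y).2 ⟨hK.1, fun t => ?_⟩
    obtain ⟨s, hs1, hs2⟩ := visits_pow hn hh hA 1 (Or.inl rfl)
      ⟨N, fun j hj => hN j (by omega)⟩ t
    exact step_left hst hK hs2 t (by omega)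

/-- from the chain to the level -/
theorem levelPow_of_chain {a : ℤ} (hf : IsCA f) (hw : Window f a m) :
    ∀ (k : ℕ) (b : Bool) (A : ℕ → Set ((Fin m → S) × (Fin m → S))), EqChain f m b (k + 1) A →
      ∀ n : ℕ, 0 < n → ∀ h : Conf S → Conf S, IsPowCA n h →
        (∀ x y, h x = h y ↔ Ker f m (A (k + 1)) x y) →
          ∃ n' : ℕ, 0 < n' ∧ n ∣ n' ∧ h ∈ LevelPow n' b (k + 1) := by
  have : Fintype S := Fintype.ofFinite S
  intro k
  induction k with
  | zero =>
    intro b A hA n hn h hh hker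
    obtain ⟨_, _, q3⟩ := hA.2 0 (by omega)
    have e : 0 + 1 - 1 - 0 = 0 := rfl
    rw [e, typ_zero] at q3
    refine ⟨n, hn, dvd_rfl, h, id, hh, ?_, rfl, rfl⟩
    exact closing_of_step_pow hn (h := id) (powCA_of_CA isCA_id) Function.surjective_id
      (fun x y => (hA.1 x y).symm) hker q3
  | succ k ih =>
    intro b A hA n hn h hh hker
    obtain ⟨q1, q2, q3⟩ := hA.2 (k + 1) (by omega)
    have e : k + 1 + 1 - 1 - (k + 1) = 0 := by omega
    rw [e, typ_zero] at q3
    have hp : PreInj h := fun x y hxy h1 h2 =>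
      chain_preInj hA (k + 1 + 1) le_rfl x y ((hker x y).1 hxy) h1 h2
    have hKG : ∀ x y, Ker f m (A (k + 1)) x y → h x = h y := fun x y hK =>
      (hker x y).2 (ker_mono q1 hK)
    obtain ⟨n2, hn2, hd2, h', hc', ht', hs', hk'⟩ := quo_pow hh.1 hn (powCA_tr hh) hp
      (ker_isRel hf hw q2) hKG (bstep_of_step hker q3)
    have hh' : IsPowCA n2 h' := powCA_of_tr hc' ht'
    have hA' : EqChain f m (!b) (k + 1) A := by
      refine ⟨hA.1, fun i hi => ?_⟩
      obtain ⟨p1, p2, p3⟩ := hA.2 i (by omega)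
      refine ⟨p1, p2, ?_⟩
      have e : k + 1 + 1 - 1 - i = (k + 1 - 1 - i) + 1 := by omega
      rw [e, typ_succ] at p3
      exact p3
    obtain ⟨n3, hn3, hd3, hlev⟩ := ih (!b) A hA' n2 hn2 h' hh' hk'
    have hhn2 : IsPowCA n2 h := powCA_dvd hh hd2
    obtain ⟨g, hg1, hg2, rfl⟩ := exists_factor_pow hhn2.1 (powCA_tr hhn2) hc' ht' hs'
      (fun x y hxy => hKG x y ((hk' x y).1 hxy))
    refine ⟨n3, hn3, hd2.trans hd3, g, h', powCA_dvd (powCA_of_tr hg1 hg2) hd3, ?_, hlev, rfl⟩
    exact closing_of_step_pow hn2 hh' hs' hk' hker q3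

/-! the converse -/

theorem sat_pow {n : ℕ} (hn : 0 < n) {a : ℤ} (hf : IsCA f) (hw : Window f a m)
    {G h : Conf S → Conf S} (hfG : f = G ∘ h) (hG : PreInj G) (hh : IsPowCA n h)
    {x y : Conf S} (hK : Ker f m (VisR m (KR h)) x y) : KR h x y := by
  obtain ⟨ρ, hρ⟩ := powCA_radius hn hh
  have hKf : ∀ {u v}, KR h u v → f u = f v := by
    intro u v huv
    have := huv 0
    rw [tr_zero, tr_zero] at this
    rw [hfG]; exact congrArg G this
  intro k
  funext i
  set s : ℤ := i + k - ρ with hs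
  set t : ℤ := i + k + ρ + 1 with ht
  obtain ⟨u, v, huv, hu, hv⟩ := match_rel kr_inv (hK.2 s)
  obtain ⟨u', v', huv', hu', hv'⟩ := match_rel kr_inv (hK.2 t)
  have e1 : f (glue t x u') = f (glue t y v') :=
    ker_glue hw (fun j h1 h2 => (hu' j h1 h2).symm) (fun j h1 h2 => (hv' j h1 h2).symm) hK.1
      (hKf huv')
  have agx : ∀ j : ℤ, j < t + m → glue t x u' j = x j := by
    intro j hj
    by_cases hlt : j < t
    · exact glue_lt hlt
    · rw [glue_ge (not_lt.mp hlt)]; exact hu' j (not_lt.mp hlt) hj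
  have agy : ∀ j : ℤ, j < t + m → glue t y v' j = y j := by
    intro j hj
    by_cases hlt : j < t
    · exact glue_lt hlt
    · rw [glue_ge (not_lt.mp hlt)]; exact hv' j (not_lt.mp hlt) hj
  have e2 : f (glue s u (glue t x u')) = f (glue s v (glue t y v')) :=
    ker_glue hw (fun j h1 h2 => by rw [agx j (by omega)]; exact hu j h1 h2)
      (fun j h1 h2 => by rw [agy j (by omega)]; exact hv j h1 h2)
      (hKf huv) e1
  set z := glue s u (glue t x u') with hz
  set w := glue s v (glue t y v') with hw'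
  have e3 : h (tr k z) = h (tr k w) := by
    apply hG
    · have h1 : f (tr k z) = f (tr k w) := by rw [comm_tr hf, comm_tr hf, e2]
      rw [hfG] at h1
      exact h1
    · refine ⟨s - k - ρ - 1, fun j hj => ?_⟩
      have h1 : h (tr k z) j = h (tr k u) j :=
        hρ _ _ _ (fun l _ hl => by simp only [tr]; exact glue_lt (by omega))
      have h2 : h (tr k w) j = h (tr k v) j :=
        hρ _ _ _ (fun l _ hl => by simp only [tr]; exact glue_lt (by omega))
      rw [h1, h2, huv k]
    · refine ⟨t - k + ρ, fun j hj => ?_⟩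
      have h1 : h (tr k z) j = h (tr k u') j := hρ _ _ _ (fun l hl _ => by
        simp only [tr]
        rw [hz, glue_ge (by omega), glue_ge (by omega)])
      have h2 : h (tr k w) j = h (tr k v') j := hρ _ _ _ (fun l hl _ => by
        simp only [tr]
        rw [hw', glue_ge (by omega), glue_ge (by omega)])
      rw [h1, h2, huv' k]
  have hzx : h (tr k z) i = h (tr k x) i := hρ _ _ _ (fun l hl1 hl2 => by
    simp only [tr]
    rw [hz, glue_ge (by omega), glue_lt (by omega)])
  have hwy : h (tr k w) i = h (tr k y) i := hρ _ _ _ (fun l hl1 hl2 => by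
    simp only [tr]
    rw [hw', glue_ge (by omega), glue_lt (by omega)])
  rw [← hzx, ← hwy, e3]

theorem kr_iff {n : ℕ} (hn : 0 < n) {a : ℤ} (hf : IsCA f) (hw : Window f a m)
    {G h : Conf S → Conf S} (hfG : f = G ∘ h) (hG : PreInj G) (hh : IsPowCA n h)
    (x y : Conf S) : Ker f m (VisR m (KR h)) x y ↔ KR h x y := by
  refine ⟨sat_pow hn hf hw hfG hG hh, fun hK => ⟨?_, fun t => ⟨x, y, t, hK, rfl⟩⟩⟩
  have := hK 0
  rw [tr_zero, tr_zero] at this
  rw [hfG]; exact congrArg G this

theorem kr_equiv (h : Conf S → Conf S) : Equivalence (KR h) :=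
  ⟨fun _ _ => rfl, fun h1 j => (h1 j).symm, fun h1 h2 j => (h1 j).trans (h2 j)⟩

theorem ker_equiv {n : ℕ} (hn : 0 < n) {a : ℤ} (hf : IsCA f) (hw : Window f a m)
    {G h : Conf S → Conf S} (hfG : f = G ∘ h) (hG : PreInj G) (hh : IsPowCA n h) :
    Equivalence (Ker f m (VisR m (KR h))) := by
  have key := kr_iff hn hf hw hfG hG hh
  refine ⟨fun x => (key x x).2 ((kr_equiv h).refl x), fun {x y} h1 => ?_, fun {x y z} h1 h2 => ?_⟩
  · exact (key y x).2 ((kr_equiv h).symm ((key x y).1 h1))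
  · exact (key x z).2 ((kr_equiv h).trans ((key x y).1 h1) ((key y z).1 h2))

theorem krel_mono {g h : Conf S → Conf S} {x y : Conf S} (hK : KR h x y) : KR (g ∘ h) x y :=
  fun j => congrArg g (hK j)

theorem step_pow {n : ℕ} (hn : 0 < n) {a : ℤ} (hf : IsCA f) (hw : Window f a m)
    {G g h : Conf S → Conf S} (hfG : f = G ∘ (g ∘ h)) (hG : PreInj G) (hg : IsPowCA n g)
    (hh : IsPowCA n h) {b : Bool} (hcl : Closing b g) :
    StepClosed f m (VisR m (KR h)) (VisR m (KR (g ∘ h))) b := by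
  obtain ⟨ρ, hρ⟩ := powCA_radius hn hh
  have key := kr_iff hn hf hw hfG hG (powCA_comp hg hh)
  have hKf : ∀ {u v}, KR h u v → f u = f v := by
    intro u v huv
    have := huv 0
    rw [tr_zero, tr_zero] at this
    rw [hfG]; exact congrArg (fun z => G (g z)) this
  cases b
  · intro x y t hK ht
    obtain ⟨u, v, huv, hu, hv⟩ := match_rel kr_inv ht
    have e1 : f (glue t u x) = f (glue t v y) := ker_glue hw hu hv (hKf huv) hK.1
    have hK2 : Ker f m (VisR m (KR (g ∘ h))) (glue t u x) (glue t v y) := by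
      refine ⟨e1, fun s => ?_⟩
      by_cases hs : s ≤ t
      · rw [st_glue_le hu hv hs]
        exact ⟨u, v, s, krel_mono huv, rfl⟩
      · rw [st_glue_ge (by omega)]
        exact hK.2 s
    have e2 := (key _ _).1 hK2
    have e3 : KR h (glue t u x) (glue t v y) := by
      intro k
      refine hcl _ _ (e2 k) ⟨t - k - ρ - 1, fun j hj => ?_⟩
      have h1 : h (tr k (glue t u x)) j = h (tr k u) j :=
        hρ _ _ _ (fun l _ hl => by simp only [tr]; exact glue_lt (by omega))
      have h2 : h (tr k (glue t v y)) j = h (tr k v) j :=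
        hρ _ _ _ (fun l _ hl => by simp only [tr]; exact glue_lt (by omega))
      rw [h1, h2, huv k]
    exact ⟨_, _, t + 1, e3, st_glue_ge (by omega)⟩
  · intro x y t hK ht
    obtain ⟨u, v, huv, hu, hv⟩ := match_rel kr_inv ht
    have hu' : ∀ j : ℤ, t + 1 ≤ j → j < t + 1 + m → x j = u j := fun j h1 h2 => (hu j h1 h2).symm
    have hv' : ∀ j : ℤ, t + 1 ≤ j → j < t + 1 + m → y j = v j := fun j h1 h2 => (hv j h1 h2).symm
    have e1 : f (glue (t + 1) x u) = f (glue (t + 1) y v) :=
      ker_glue hw hu' hv' hK.1 (hKf huv)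
    have hK2 : Ker f m (VisR m (KR (g ∘ h))) (glue (t + 1) x u) (glue (t + 1) y v) := by
      refine ⟨e1, fun s => ?_⟩
      by_cases hs : s ≤ t + 1
      · rw [st_glue_le hu' hv' hs]
        exact hK.2 s
      · rw [st_glue_ge (by omega)]
        exact ⟨u, v, s, krel_mono huv, rfl⟩
    have e2 := (key _ _).1 hK2
    have e3 : KR h (glue (t + 1) x u) (glue (t + 1) y v) := by
      intro k
      refine hcl _ _ (e2 k) ⟨t + 1 - k + ρ, fun j hj => ?_⟩
      have h1 : h (tr k (glue (t + 1) x u)) j = h (tr k u) j :=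
        hρ _ _ _ (fun l hl _ => by simp only [tr]; exact glue_ge (by omega))
      have h2 : h (tr k (glue (t + 1) y v)) j = h (tr k v) j :=
        hρ _ _ _ (fun l hl _ => by simp only [tr]; exact glue_ge (by omega))
      rw [h1, h2, huv k]
    exact ⟨_, _, t, e3, st_glue_le hu' hv' (by omega)⟩

theorem levelPow_isPowCA {n : ℕ} {b : Bool} {k : ℕ} {h : Conf S → Conf S}
    (hh : h ∈ LevelPow n b k) : IsPowCA n h := by
  induction k generalizing b h with
  | zero =>
    have : h = id := hh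
    subst this; exact powCA_of_CA isCA_id
  | succ k ih =>
    obtain ⟨g, h', hg, _, hh', rfl⟩ := hh
    exact powCA_comp hg (ih hh')

theorem chain_of_levelPow {n : ℕ} (hn : 0 < n) {a : ℤ} (hf : IsCA f) (hw : Window f a m) :
    ∀ (K : ℕ) (b : Bool) (h : Conf S → Conf S), h ∈ LevelPow n b K → ∀ G, PreInj G → f = G ∘ h →
      ∃ A : ℕ → Set ((Fin m → S) × (Fin m → S)), EqChain f m b K A ∧ A K = VisR m (KR h) := by
  intro K
  induction K with
  | zero =>
    intro b h hh G hG hfG
    have : h = id := hh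
    subst this
    refine ⟨fun _ => VisR m (KR id), ⟨fun x y => ?_, fun i hi => absurd hi (Nat.not_lt_zero i)⟩,
      rfl⟩
    rw [kr_iff hn hf hw hfG hG (powCA_of_CA isCA_id)]
    constructor
    · intro h
      have := h 0
      rwa [tr_zero, tr_zero] at this
    · rintro rfl
      exact fun _ => rfl
  | succ K ih =>
    intro b h hh G hG hfG
    obtain ⟨g, h', hg, hc, hh', rfl⟩ := hh
    have hh'CA := levelPow_isPowCA hh'
    have hGg : PreInj (G ∘ g) := preInj_comp_pow hn hg hG (preInj_of_closing hc)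
    obtain ⟨A, hA, hAK⟩ := ih (!b) h' hh' (G ∘ g) hGg hfG
    refine ⟨fun i => if i ≤ K then A i else VisR m (KR (g ∘ h')), ⟨?_, ?_⟩, ?_⟩
    · intro x y
      simp only [Nat.zero_le, if_true]
      exact hA.1 x y
    · intro i hi
      by_cases hiK : i < K
      · have h1 : i ≤ K := hiK.le
        have h2 : i + 1 ≤ K := hiK
        simp only [h1, h2, if_true]
        obtain ⟨q1, q2, q3⟩ := hA.2 i hiK
        refine ⟨q1, q2, ?_⟩
        have e : K + 1 - 1 - i = (K - 1 - i) + 1 := by omega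
        rw [e, typ_succ]
        exact q3
      · have hiK' : i = K := by omega
        subst hiK'
        have h2 : ¬ (i + 1 ≤ i) := by omega
        simp only [le_refl, h2, if_true, if_false]
        rw [hAK]
        refine ⟨?_, ker_equiv hn hf hw (G := G ∘ g) hfG hGg hh'CA, ?_⟩
        · rintro q ⟨u, v, t, huv, hq⟩
          exact ⟨u, v, t, krel_mono huv, hq⟩
        · have e : i + 1 - 1 - i = 0 := by omega
          rw [e, typ_zero]
          exact step_pow hn hf hw hfG hG hg hh'CA hc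
    · have : ¬ (K + 1 ≤ K) := by omega
      simp only [this, if_false]

/-- normal form for membership in a level up to a power of the shift -/
theorem levelPow_iff {a : ℤ} (hf : IsCA f) (hw : Window f a m) (b : Bool) (k : ℕ) :
    (∃ n : ℕ, 0 < n ∧ f ∈ LevelPow n b (k + 1)) ↔
      ∃ A : ℕ → Set ((Fin m → S) × (Fin m → S)),
        EqChain f m b (k + 1) A ∧ ∀ x y, f x = f y ↔ Ker f m (A (k + 1)) x y := by
  constructor
  · rintro ⟨n, hn, h⟩
    obtain ⟨A, hA, hAK⟩ := chain_of_levelPow hn hf hw (k + 1) b f h id preInj_id rfl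
    refine ⟨A, hA, fun x y => ?_⟩
    rw [hAK, kr_iff (G := id) hn hf hw rfl preInj_id (powCA_of_CA hf)]
    constructor
    · intro h j
      rw [comm_tr hf, comm_tr hf, h]
    · intro h
      have := h 0
      rwa [tr_zero, tr_zero] at this
  · rintro ⟨A, hA, hk⟩
    obtain ⟨n, hn, _, h⟩ := levelPow_of_chain hf hw k b A hA 1 Nat.one_pos f (powCA_of_CA hf) hk
    exact ⟨n, hn, h⟩

end

end Pool.Agent.H55.Sweep
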