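import Pool.Agent.H55.Sweep.Fu5

/-!
The finite check: in the chain condition it is enough to look at positions `-R ≤ t ≤ R`.
-/

namespace Pool.Agent.H55.Sweep

open Filter Topology

section
variable {T : Type*} {m : ℕ}

/-- periodic continuation to the right from `t1` with period `p` -/
def perR (t1 p : ℤ) (c : Conf T) : Conf T := fun j => if j < t1 then c j else c (t1 + (j - t1) % p)

/-- `c` is `p`-periodic on `[t1, t1 + p + m)` -/
theorem per_agree {c : Conf T} {t1 p : ℤ} (hp : 0 < p)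
    (h : ∀ j : ℤ, 0 ≤ j → j < m → c (t1 + j) = c (t1 + p + j)) (n : ℕ) :
    ∀ j : ℤ, 0 ≤ j → j < p + m → j / p = n → c (t1 + j) = c (t1 + j % p) := by
  induction n with
  | zero =>
    intro j h1 _ h3
    have := Int.mul_ediv_add_emod j p
    rw [h3] at this
    simp only [Nat.cast_zero, mul_zero, zero_add] at this
    rw [this]
  | succ n ih =>
    intro j h1 h2 h3
    have e := Int.mul_ediv_add_emod j p
    have hm0 := Int.emod_nonneg j hp.ne'
    have hge : p ≤ j := by
      rw [h3] at e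
      push_cast at e
      nlinarith
    have e1 := h (j - p) (by omega) (by omega)
    have e2 : (j - p) / p = n := by
      have : j - p = j + (-1) * p := by ring
      rw [this, Int.add_mul_ediv_right _ _ hp.ne', h3]
      push_cast; ring
    have e3 := ih (j - p) (by omega) (by omega) e2
    have e4 : (j - p) % p = j % p := by
      rw [Int.sub_emod_right]
    rw [e4] at e3
    rw [← e3, e1]
    congr 1; ring

theorem perR_agree {c : Conf T} {t1 p : ℤ} (hp : 0 < p)
    (h : ∀ j : ℤ, 0 ≤ j → j < m → c (t1 + j) = c (t1 + p + j)) {j : ℤ} (hj : j < t1 + p + m) :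
    perR t1 p c j = c j := by
  simp only [perR]
  split_ifs with hlt
  · rfl
  · have h1 : 0 ≤ (j - t1) / p := Int.ediv_nonneg (by omega) hp.le
    have := per_agree hp h ((j - t1) / p).toNat (j - t1) (by omega) (by omega)
      (by rw [Int.toNat_of_nonneg h1])
    rw [← this]
    congr 1; ring

theorem perR_shift {c : Conf T} {t1 p : ℤ} {j : ℤ} (hj : t1 ≤ j) :
    perR t1 p c j = perR t1 p c (t1 + (j - t1) % p) := by
  rcases eq_or_ne p 0 with rfl | hp
  · simp
  · have hm0 := Int.emod_nonneg (j - t1) hp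
    simp only [perR]
    rw [if_neg (by omega), if_neg (by omega)]
    have e : t1 + (j - t1) % p - t1 = (j - t1) % p := by ring
    rw [e, Int.emod_emod_of_dvd _ dvd_rfl]

/-- extension to the right -/
theorem extend_right [Finite T] {P : Conf T → ℤ → Prop}
    (hP : ∀ c c' t s, (∀ j : ℤ, 0 ≤ j → j ≤ m → c (t + j) = c' (s + j)) → P c t → P c' s)
    {c : Conf T} {s R : ℤ} (hR : s + Nat.card (Fin m → T) ≤ R)
    (h : ∀ t, s ≤ t → t ≤ R → P c t) :
    ∃ c' : Conf T, (∀ t, s ≤ t → P c' t) ∧ ∀ j, j < s + m → c' j = c j := by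
  classical
  have : Fintype T := Fintype.ofFinite T
  have hcard : Fintype.card (Fin m → T) < Fintype.card (Fin (Nat.card (Fin m → T) + 1)) := by
    rw [Fintype.card_fin, Nat.card_eq_fintype_card]
    exact Nat.lt_succ_self _
  obtain ⟨i1, i2, hne, heq⟩ := Fintype.exists_ne_map_eq_of_card_lt
    (fun i : Fin (Nat.card (Fin m → T) + 1) => wd m c (s + ((i : ℕ) : ℤ))) hcard
  wlog hlt : i1 < i2 generalizing i1 i2
  · exact this i2 i1 hne.symm heq.symm (lt_of_le_of_ne (not_lt.mp hlt) hne.symm)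
  set t1 : ℤ := s + ((i1 : ℕ) : ℤ) with ht1
  set p : ℤ := ((i2 : ℕ) : ℤ) - ((i1 : ℕ) : ℤ) with hp
  have hlt' : ((i1 : ℕ) : ℤ) < ((i2 : ℕ) : ℤ) := by exact_mod_cast hlt
  have hi2 : ((i2 : ℕ) : ℤ) ≤ Nat.card (Fin m → T) := by
    have := i2.2
    have : (i2 : ℕ) ≤ Nat.card (Fin m → T) := by omega
    exact_mod_cast this
  have hppos : 0 < p := by omega
  have hper : ∀ j : ℤ, 0 ≤ j → j < m → c (t1 + j) = c (t1 + p + j) := by
    intro j h1 h2
    have := (wd_eq_iff.1 heq) j h1 h2
    rw [this]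
    congr 1
    rw [ht1, hp]; ring
  have hag : ∀ j, j < t1 + p + m → perR t1 p c j = c j := fun j hj => perR_agree hppos hper hj
  refine ⟨perR t1 p c, fun t ht => ?_, fun j hj => hag j (by omega)⟩
  have hloc : ∀ t, s ≤ t → t < t1 + p → P (perR t1 p c) t := by
    intro t h1 h2
    refine hP c _ t t (fun j hj1 hj2 => (hag _ (by omega)).symm) (h t h1 (by omega))
  by_cases hlt2 : t < t1
  · exact hloc t ht (by omega)
  · have hm0 := Int.emod_nonneg (t - t1) hppos.ne'
    have hm1 := Int.emod_lt_of_pos (t - t1) hppos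
    refine hP _ _ (t1 + (t - t1) % p) t (fun j hj1 hj2 => ?_) (hloc _ (by omega) (by omega))
    rw [perR_shift (by omega : t1 ≤ t + j), perR_shift (by omega : t1 ≤ t1 + (t - t1) % p + j)]
    congr 2
    have e1 : t1 + (t - t1) % p + j - t1 = (t - t1) % p + j := by ring
    have e2 : t + j - t1 = (t - t1) + j := by ring
    rw [e1, e2, Int.add_emod, Int.emod_emod_of_dvd _ dvd_rfl, ← Int.add_emod]

/-- extension to both sides -/
theorem extend_both [Finite T] {P : Conf T → ℤ → Prop}
    (hP : ∀ c c' t s, (∀ j : ℤ, 0 ≤ j → j ≤ m → c (t + j) = c' (s + j)) → P c t → P c' s)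
    {c : Conf T} {R : ℤ} (hR : 1 + Nat.card (Fin m → T) ≤ R)
    (h : ∀ t, -R ≤ t → t ≤ R → P c t) :
    ∃ c' : Conf T, (∀ t, P c' t) ∧ ∀ j : ℤ, 0 ≤ j → j ≤ m → c' j = c j := by
  obtain ⟨c1, h1, h1'⟩ := extend_right hP (s := 1) hR (fun t ht1 ht2 => h t (by omega) ht2)
  have h1a : ∀ t, -R ≤ t → P c1 t := by
    intro t ht
    by_cases ht1 : 1 ≤ t
    · exact h1 t ht1
    · exact hP c c1 t t (fun j _ hj2 => (h1' _ (by omega)).symm) (h t ht (by omega))
  -- reflect
  let Q : Conf T → ℤ → Prop := fun d t => P (fun j => d (-j)) (-t - m)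
  have hQ : ∀ d d' t s, (∀ j : ℤ, 0 ≤ j → j ≤ m → d (t + j) = d' (s + j)) → Q d t → Q d' s := by
    intro d d' t s hd hQ
    refine hP _ _ (-t - m) (-s - m) (fun j hj1 hj2 => ?_) hQ
    have := hd (m - j) (by omega) (by omega)
    have e1 : -(-t - (m : ℤ) + j) = t + (m - j) := by ring
    have e2 : -(-s - (m : ℤ) + j) = s + (m - j) := by ring
    show d _ = d' _
    rw [e1, e2]; exact this
  let d : Conf T := fun j => c1 (-j)
  have hdd : ∀ t, Q d t ↔ P c1 (-t - m) := by
    intro t
    have : (fun j => d (-j)) = c1 := by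
      funext j
      simp only [d, neg_neg]
    simp only [Q, this]
  obtain ⟨d2, h2, h2'⟩ := extend_right hQ (c := d) (s := -(m : ℤ) + 1) (R := R - m) (by omega)
    (fun t ht1 ht2 => (hdd t).2 (h1a _ (by omega)))
  have h2a : ∀ t, Q d2 t := by
    intro t
    by_cases ht : -(m : ℤ) + 1 ≤ t
    · exact h2 t ht
    · refine hQ d d2 t t (fun j _ hj2 => (h2' _ (by omega)).symm) ((hdd t).2 (h1a _ (by omega)))
  refine ⟨fun j => d2 (-j), fun t => ?_, fun j hj1 hj2 => ?_⟩
  · have := h2a (-t - m)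
    have e : -(-t - (m : ℤ)) - m = t := by ring
    simp only [Q, e] at this
    exact this
  · have := h2' (-j) (by omega)
    simp only [this, d, neg_neg]
    exact h1' j (by omega)

end

end Pool.Agent.H55.Sweep
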