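import Pool.Agent.H55.Sweep.Fu6

/-!
The finite chain condition and its equivalence with the chain condition.
-/

namespace Pool.Agent.H55.Sweep

open Filter Topology

/-- `x` and `y` satisfy the conditions of `Ker f m A` at all positions `-R ≤ t ≤ R` -/
def Near {S : Type*} (f : Conf S → Conf S) (a : ℤ) (m : ℕ)
    (A : Set ((Fin m → S) × (Fin m → S))) (R : ℕ) (x y : Conf S) : Prop :=
  ∀ t : ℤ, -(R : ℤ) ≤ t → t ≤ R → f x (t - a) = f y (t - a) ∧ st m x y t ∈ A

/-- the closure condition of one step, looked at near `0` only -/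
def NearStep {S : Type*} (f : Conf S → Conf S) (a : ℤ) (m : ℕ)
    (A B : Set ((Fin m → S) × (Fin m → S))) (R : ℕ) : Bool → Prop
  | false => ∀ x y, Near f a m B R x y → st m x y 0 ∈ A → st m x y 1 ∈ A
  | true => ∀ x y, Near f a m B R x y → st m x y 1 ∈ A → st m x y 0 ∈ A

/-- the finite chain condition: all conditions concern words of length `2 R + m + 1` -/
def FinChain {S : Type*} (f : Conf S → Conf S) (a : ℤ) (m : ℕ) (b : Bool) (K R : ℕ)
    (A : ℕ → Set ((Fin m → S) × (Fin m → S))) : Prop :=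
  (∀ x, st m x x 0 ∈ A 0) ∧
  (∀ x y, Near f a m (A 0) R x y → x 0 = y 0) ∧
  (∀ i, i < K → A i ⊆ A (i + 1) ∧
    (∀ x y, Near f a m (A i) R x y → st m y x 0 ∈ A i) ∧
    (∀ x y z, Near f a m (A i) R x y → Near f a m (A i) R y z → st m x z 0 ∈ A i) ∧
    NearStep f a m (A i) (A (i + 1)) R (typ b (K - 1 - i))) ∧
  (∀ x y, Near f a m Set.univ R x y → st m x y 0 ∈ A K)

section
variable {S : Type*} [TopologicalSpace S] {f : Conf S → Conf S} {a : ℤ} {m : ℕ}

theorem fl_loc (hf : IsCA f) (hw : Window f a m) {x y : Conf S} {t s : ℤ}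
    (h : ∀ j : ℤ, 0 ≤ j → j ≤ m → x (t + j) = y (s + j)) : fl f a x t = fl f a y s := by
  have e1 := fl_tr hf (a := a) t x 0
  have e2 := fl_tr hf (a := a) s y 0
  rw [zero_add] at e1 e2
  rw [← e1, ← e2]
  apply fl_congr hw
  intro j hj1 hj2
  have := h j hj1 (by omega)
  simp only [tr]
  rw [add_comm j t, add_comm j s]; exact this

theorem ext3 [Finite S] (hf : IsCA f) (hw : Window f a m)
    {A B : Set ((Fin m → S) × (Fin m → S))} {R : ℕ}
    (hR : 1 + Nat.card (Fin m → S × S × S) ≤ R) {x y z : Conf S}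
    (h1 : Near f a m A R x y) (h2 : Near f a m B R y z) :
    ∃ x' y' z' : Conf S, Ker f m A x' y' ∧ Ker f m B y' z' ∧
      ∀ j : ℤ, 0 ≤ j → j ≤ m → x' j = x j ∧ y' j = y j ∧ z' j = z j := by
  let P : Conf (S × S × S) → ℤ → Prop := fun c t =>
    (fl f a (fun j => (c j).1) t = fl f a (fun j => (c j).2.1) t ∧
      st m (fun j => (c j).1) (fun j => (c j).2.1) t ∈ A) ∧
    (fl f a (fun j => (c j).2.1) t = fl f a (fun j => (c j).2.2) t ∧
      st m (fun j => (c j).2.1) (fun j => (c j).2.2) t ∈ B)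
  have hP : ∀ c c' t s, (∀ j : ℤ, 0 ≤ j → j ≤ m → c (t + j) = c' (s + j)) → P c t → P c' s := by
    intro c c' t s hc hPc
    have e1 : fl f a (fun j => (c j).1) t = fl f a (fun j => (c' j).1) s :=
      fl_loc hf hw (fun j hj1 hj2 => by rw [hc j hj1 hj2])
    have e2 : fl f a (fun j => (c j).2.1) t = fl f a (fun j => (c' j).2.1) s :=
      fl_loc hf hw (fun j hj1 hj2 => by rw [hc j hj1 hj2])
    have e3 : fl f a (fun j => (c j).2.2) t = fl f a (fun j => (c' j).2.2) s :=
      fl_loc hf hw (fun j hj1 hj2 => by rw [hc j hj1 hj2])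
    have e4 : st m (fun j => (c j).1) (fun j => (c j).2.1) t =
        st m (fun j => (c' j).1) (fun j => (c' j).2.1) s :=
      st_eq_iff.2 ⟨fun j hj1 hj2 => by rw [hc j hj1 hj2.le], fun j hj1 hj2 => by
        rw [hc j hj1 hj2.le]⟩
    have e5 : st m (fun j => (c j).2.1) (fun j => (c j).2.2) t =
        st m (fun j => (c' j).2.1) (fun j => (c' j).2.2) s :=
      st_eq_iff.2 ⟨fun j hj1 hj2 => by rw [hc j hj1 hj2.le], fun j hj1 hj2 => by
        rw [hc j hj1 hj2.le]⟩
    simp only [P] at hPc ⊢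
    rw [← e1, ← e2, ← e3, ← e4, ← e5]
    exact hPc
  obtain ⟨c', hc1, hc2⟩ := extend_both hP (c := fun j => (x j, y j, z j)) (R := R)
    (by exact_mod_cast hR) (fun t ht1 ht2 => ⟨h1 t ht1 ht2, h2 t ht1 ht2⟩)
  refine ⟨fun j => (c' j).1, fun j => (c' j).2.1, fun j => (c' j).2.2,
    ⟨(f_eq_iff (a := a)).2 (fun t => (hc1 t).1.1), fun t => (hc1 t).1.2⟩,
    ⟨(f_eq_iff (a := a)).2 (fun t => (hc1 t).2.1), fun t => (hc1 t).2.2⟩,
    fun j hj1 hj2 => ?_⟩
  have := hc2 j hj1 hj2
  exact ⟨congrArg (fun q => q.1) this, congrArg (fun q => q.2.1) this,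
    congrArg (fun q => q.2.2) this⟩

theorem ext2 [Finite S] (hf : IsCA f) (hw : Window f a m)
    {A : Set ((Fin m → S) × (Fin m → S))} {R : ℕ}
    (hR : 1 + Nat.card (Fin m → S × S × S) ≤ R) {x y : Conf S}
    (h1 : Near f a m A R x y) :
    ∃ x' y' : Conf S, Ker f m A x' y' ∧ ∀ j : ℤ, 0 ≤ j → j ≤ m → x' j = x j ∧ y' j = y j := by
  obtain ⟨x', y', z', hK, _, hag⟩ := ext3 (B := Set.univ) hf hw hR h1
    (fun t _ _ => ⟨rfl, Set.mem_univ _⟩ : Near f a m Set.univ R y y)
  exact ⟨x', y', hK, fun j h1 h2 => ⟨(hag j h1 h2).1, (hag j h1 h2).2.1⟩⟩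

theorem near_of_ker (hf : IsCA f) {A : Set ((Fin m → S) × (Fin m → S))} {R : ℕ} {x y : Conf S}
    (h : Ker f m A x y) (s : ℤ) : Near f a m A R (tr s x) (tr s y) := by
  intro t _ _
  refine ⟨by rw [comm_tr hf, comm_tr hf, h.1], ?_⟩
  rw [st_tr]; exact h.2 _

theorem st_at {x y x' y' : Conf S} (h : ∀ j : ℤ, 0 ≤ j → j ≤ m → x' j = x j ∧ y' j = y j)
    {s : ℤ} (hs : s = 0 ∨ s = 1) : st m x' y' s = st m x y s := by
  apply st_congr
  · intro j h1 h2
    rcases hs with rfl | rfl <;> exact (h j (by omega) (by omega)).1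
  · intro j h1 h2
    rcases hs with rfl | rfl <;> exact (h j (by omega) (by omega)).2

/-- the chain condition is a finite check -/
theorem finChain_iff [Finite S] (hf : IsCA f) (hw : Window f a m) {R : ℕ}
    (hR : 1 + Nat.card (Fin m → S × S × S) ≤ R) (b : Bool) (K : ℕ)
    (A : ℕ → Set ((Fin m → S) × (Fin m → S))) :
    (EqChain f m b K A ∧ ∀ x y, f x = f y ↔ Ker f m (A K) x y) ↔ FinChain f a m b K R A := by
  constructor
  · rintro ⟨⟨h0, hA⟩, hK⟩
    refine ⟨fun x => ((h0 x x).2 rfl).2 0, fun x y hxy => ?_, fun i hi => ?_, fun x y hxy => ?_⟩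
    · obtain ⟨x', y', hKer, hag⟩ := ext2 hf hw hR hxy
      have := (h0 x' y').1 hKer
      rw [← (hag 0 le_rfl (by positivity)).1, ← (hag 0 le_rfl (by positivity)).2, this]
    · obtain ⟨q1, q2, q3⟩ := hA i hi
      refine ⟨q1, fun x y hxy => ?_, fun x y z hxy hyz => ?_, ?_⟩
      · obtain ⟨x', y', hKer, hag⟩ := ext2 hf hw hR hxy
        have := (q2.symm hKer).2 0
        rwa [st_at (x := y) (y := x) (fun j h1 h2 => ⟨(hag j h1 h2).2, (hag j h1 h2).1⟩)
          (Or.inl rfl)] at this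
      · obtain ⟨x', y', z', hK1, hK2, hag⟩ := ext3 hf hw hR hxy hyz
        have := (q2.trans hK1 hK2).2 0
        rwa [st_at (x := x) (y := z) (fun j h1 h2 => ⟨(hag j h1 h2).1, (hag j h1 h2).2.2⟩)
          (Or.inl rfl)] at this
      · generalize typ b (K - 1 - i) = c at q3
        cases c
        · intro x y hxy h
          obtain ⟨x', y', hKer, hag⟩ := ext2 hf hw hR hxy
          rw [← st_at hag (Or.inr rfl)]
          rw [← st_at hag (Or.inl rfl)] at h
          have := q3 x' y' 0 hKer h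
          rwa [zero_add] at this
        · intro x y hxy h
          obtain ⟨x', y', hKer, hag⟩ := ext2 hf hw hR hxy
          rw [← st_at hag (Or.inl rfl)]
          rw [← st_at hag (Or.inr rfl)] at h
          exact q3 x' y' 0 hKer (by rw [zero_add]; exact h)
    · obtain ⟨x', y', hKer, hag⟩ := ext2 hf hw hR hxy
      rw [← st_at hag (Or.inl rfl)]
      exact ((hK x' y').1 hKer.1).2 0
  · rintro ⟨hd, h0, hA, hK⟩
    have hmono : ∀ i, i ≤ K → A 0 ⊆ A i := by
      intro i
      induction i with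
      | zero => intro _; exact le_rfl
      | succ i ih => intro hi; exact (ih (by omega)).trans (hA i (by omega)).1
    have hdiag : ∀ (x : Conf S) (t : ℤ), st m x x t ∈ A 0 := by
      intro x t
      have := hd (tr t x)
      rwa [st_tr, zero_add] at this
    refine ⟨⟨fun x y => ⟨fun h => ?_, ?_⟩, fun i hi => ?_⟩, fun x y => ⟨fun h => ?_, fun h => h.1⟩⟩
    · funext t
      have := h0 _ _ (near_of_ker (a := a) (R := R) hf h t)
      simpa [tr] using this
    · rintro rfl
      exact ⟨rfl, fun t => hdiag x t⟩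
    · obtain ⟨q1, q2, q3, q4⟩ := hA i hi
      refine ⟨q1, ⟨fun x => ⟨rfl, fun t => hmono i hi.le (hdiag x t)⟩, fun {x y} h => ?_,
        fun {x y z} h1 h2 => ?_⟩, ?_⟩
      · refine ⟨h.1.symm, fun t => ?_⟩
        have := q2 _ _ (near_of_ker (a := a) (R := R) hf h t)
        rwa [st_tr, zero_add] at this
      · refine ⟨h1.1.trans h2.1, fun t => ?_⟩
        have := q3 _ _ _ (near_of_ker (a := a) (R := R) hf h1 t)
          (near_of_ker (a := a) (R := R) hf h2 t)
        rwa [st_tr, zero_add] at this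
      · generalize typ b (K - 1 - i) = c at q4
        cases c
        · intro x y t h ht
          have := q4 _ _ (near_of_ker (a := a) (R := R) hf h t)
            (by rw [st_tr, zero_add]; exact ht)
          rwa [st_tr, add_comm 1 t] at this
        · intro x y t h ht
          have := q4 _ _ (near_of_ker (a := a) (R := R) hf h t)
            (by rw [st_tr, add_comm 1 t]; exact ht)
          rwa [st_tr, zero_add] at this
    · refine ⟨h, fun t => ?_⟩
      have := hK _ _ (near_of_ker (a := a) (R := R) (A := Set.univ) hf ⟨h, fun _ => Set.mem_univ _⟩ t)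
      rwa [st_tr, zero_add] at this

end

end Pool.Agent.H55.Sweep
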