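import Pool.Agent.H55.Sweep.Basic

namespace Pool.Agent.H55.Sweep

open Filter Topology

section
variable {S : Type*} [TopologicalSpace S] [DiscreteTopology S]

/-- a word missed by a non-surjective CA -/
theorem exists_orphan [Finite S] {f : Conf S → Conf S} (hf : IsCA f)
    (hns : ¬ Function.Surjective f) :
    ∃ (w : Conf S) (n : ℕ), ∀ x (k : ℤ), ∃ i : ℤ, -(n : ℤ) ≤ i ∧ i ≤ n ∧ f x (k + i) ≠ w i := by
  classical
  simp only [Function.Surjective, not_forall, not_exists] at hns
  obtain ⟨w, hw⟩ := hns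
  refine ⟨w, ?_⟩
  by_contra hcon
  push Not at hcon
  choose x k hx using hcon
  obtain ⟨z, φ, hφ, hz⟩ := CompactSpace.tendsto_subseq (fun n => tr (k n) (x n))
  apply hw z
  funext i
  have h1 : Tendsto (fun n => f (tr (k (φ n)) (x (φ n))) i) atTop (𝓝 (f z i)) :=
    ((continuous_apply i).comp hf.1).continuousAt.tendsto.comp hz
  have h2 : Tendsto (fun n => f (tr (k (φ n)) (x (φ n))) i) atTop (𝓝 (w i)) := by
    refine tendsto_const_nhds.congr' ?_
    filter_upwards [eventually_ge_atTop i.natAbs] with n hn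
    have h1 : i.natAbs ≤ φ n := le_trans hn (hφ.id_le n)
    have h3 : (i.natAbs : ℤ) ≤ φ n := by exact_mod_cast h1
    have := hx (φ n) i (by omega) (by omega)
    rw [comm_tr hf]
    simp only [tr]
    rw [add_comm]; exact this.symm
  exact tendsto_nhds_unique h1 h2

theorem exists_count (q C : ℕ) (hq : 0 < q) : ∃ K : ℕ, (q - 1) ^ K * C < q ^ K := by
  rcases Nat.eq_or_lt_of_le hq with h1 | h1
  · refine ⟨1, ?_⟩
    subst h1; simp
  · have hqr : (0 : ℝ) < q := by exact_mod_cast hq
    have hr1 : ((q : ℝ) - 1) / q < 1 := by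
      rw [div_lt_one hqr]; linarith
    have hr0 : 0 ≤ ((q : ℝ) - 1) / q := by
      apply div_nonneg _ hqr.le
      have : (1 : ℝ) < q := by exact_mod_cast h1
      linarith
    obtain ⟨K, hK⟩ := exists_pow_lt_of_lt_one (show (0 : ℝ) < 1 / (C + 1) by positivity) hr1
    refine ⟨K, ?_⟩
    have h2 : ((q : ℝ) - 1) ^ K * C < (q : ℝ) ^ K := by
      rw [div_pow, div_lt_div_iff₀ (by positivity) (by positivity)] at hK
      have h3 : (0 : ℝ) ≤ ((q : ℝ) - 1) ^ K := by
        apply pow_nonneg
        have : (1 : ℝ) < q := by exact_mod_cast h1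
        linarith
      nlinarith
    have h4 : (((q - 1 : ℕ) : ℝ)) = (q : ℝ) - 1 := by
      rw [Nat.cast_sub hq]; simp
    have h5 : (((q - 1) ^ K * C : ℕ) : ℝ) < ((q ^ K : ℕ) : ℝ) := by
      push_cast
      rw [h4]; exact h2
    exact_mod_cast h5

/-- Myhill's theorem in dimension one: pre-injective CA are surjective -/
theorem surj_of_preInj [Fintype S] {f : Conf S → Conf S} (hf : IsCA f) (hp : PreInj f) :
    Function.Surjective f := by
  classical
  by_contra hns
  obtain ⟨w, n, hw⟩ := exists_orphan hf hns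
  obtain ⟨ρ, hρ⟩ := exists_radius hf
  set s0 : S := w 0 with hs0
  set L : ℕ := 2 * n + 1 with hL
  have hLpos : 0 < L := by omega
  set w' : Fin L → S := fun i => w ((i : ℕ) - (n : ℤ)) with hw'
  have hSpos : 0 < Fintype.card S := Fintype.card_pos_iff.mpr ⟨s0⟩
  obtain ⟨K, hK⟩ := exists_count (Fintype.card S ^ L) (Fintype.card S ^ ρ * Fintype.card S ^ ρ)
    (by positivity)
  -- configurations supported on `[0, K * L)`
  let X : (Fin (K * L) → S) → Conf S := fun u j =>
    if h : 0 ≤ j ∧ j < ((K * L : ℕ) : ℤ) then u ⟨j.toNat, by omega⟩ else s0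
  have hXout : ∀ u j, ¬ (0 ≤ j ∧ j < ((K * L : ℕ) : ℤ)) → X u j = s0 := by
    intro u j h
    simp only [X]
    rw [dif_neg h]
  have hblock : ∀ (u : Fin (K * L) → S) (b : Fin K),
      (fun i : Fin L => f (X u) (((b : ℕ) : ℤ) * L + ((i : ℕ) : ℤ))) ≠ w' := by
    intro u b hb
    obtain ⟨i, hi1, hi2, hi3⟩ := hw (X u) (((b : ℕ) : ℤ) * L + n)
    have := congrFun hb ⟨(i + n).toNat, by omega⟩
    simp only [hw'] at this
    apply hi3
    have e1 : (((i + n).toNat : ℕ) : ℤ) = i + n := Int.toNat_of_nonneg (by omega)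
    rw [e1] at this
    have e2 : ((b : ℕ) : ℤ) * L + (i + n) = ((b : ℕ) : ℤ) * L + n + i := by ring
    have e3 : i + (n : ℤ) - n = i := by ring
    rw [e2, e3] at this
    exact this
  let code : (Fin (K * L) → S) →
      (Fin K → {v : Fin L → S // v ≠ w'}) × ((Fin ρ → S) × (Fin ρ → S)) := fun u =>
    (fun b => ⟨fun i : Fin L => f (X u) (((b : ℕ) : ℤ) * L + ((i : ℕ) : ℤ)), hblock u b⟩,
      (fun i => f (X u) (-(((i : ℕ) : ℤ)) - 1), fun i => f (X u) (((K * L : ℕ) : ℤ) + ((i : ℕ) : ℤ))))
  have hcard : Fintype.card ((Fin K → {v : Fin L → S // v ≠ w'}) × ((Fin ρ → S) × (Fin ρ → S))) <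
      Fintype.card (Fin (K * L) → S) := by
    rw [Fintype.card_prod, Fintype.card_prod, Fintype.card_fun, Fintype.card_fun, Fintype.card_fun,
      Fintype.card_fin, Fintype.card_fin, Fintype.card_fin, Fintype.card_subtype_compl,
      Fintype.card_subtype_eq, Fintype.card_fun, Fintype.card_fin]
    rw [Nat.mul_comm K L, pow_mul]
    exact hK
  obtain ⟨u, v, huv, hc⟩ := Fintype.exists_ne_map_eq_of_card_lt code hcard
  have hc1 : ∀ (b : Fin K) (i : Fin L), f (X u) (((b : ℕ) : ℤ) * L + ((i : ℕ) : ℤ)) =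
      f (X v) (((b : ℕ) : ℤ) * L + ((i : ℕ) : ℤ)) := by
    intro b i
    have h1 := congrArg Prod.fst hc
    have h2 := congrArg Subtype.val (congrFun h1 b)
    exact congrFun h2 i
  have hc2 : ∀ i : Fin ρ, f (X u) (-(((i : ℕ) : ℤ)) - 1) = f (X v) (-(((i : ℕ) : ℤ)) - 1) := by
    intro i
    have h1 := congrArg (fun p => p.2.1) hc
    exact congrFun h1 i
  have hc3 : ∀ i : Fin ρ, f (X u) (((K * L : ℕ) : ℤ) + ((i : ℕ) : ℤ)) =
      f (X v) (((K * L : ℕ) : ℤ) + ((i : ℕ) : ℤ)) := by
    intro i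
    have h1 := congrArg (fun p => p.2.2) hc
    exact congrFun h1 i
  have hfe : f (X u) = f (X v) := by
    funext j
    by_cases h1 : j + ρ < 0
    · apply hρ
      intro k hk1 hk2
      rw [hXout u k (by omega), hXout v k (by omega)]
    · by_cases h2 : ((K * L : ℕ) : ℤ) ≤ j - ρ
      · apply hρ
        intro k hk1 hk2
        rw [hXout u k (by omega), hXout v k (by omega)]
      · by_cases h3 : j < 0
        · have := hc2 ⟨(-j - 1).toNat, by omega⟩
          have e1 : (((-j - 1).toNat : ℕ) : ℤ) = -j - 1 := Int.toNat_of_nonneg (by omega)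
          simp only [e1] at this
          have e2 : -(-j - 1) - 1 = j := by ring
          rw [e2] at this
          exact this
        · by_cases h4 : ((K * L : ℕ) : ℤ) ≤ j
          · have := hc3 ⟨(j - ((K * L : ℕ) : ℤ)).toNat, by omega⟩
            have e1 : (((j - ((K * L : ℕ) : ℤ)).toNat : ℕ) : ℤ) = j - ((K * L : ℕ) : ℤ) :=
              Int.toNat_of_nonneg (by omega)
            simp only [e1] at this
            have e2 : ((K * L : ℕ) : ℤ) + (j - ((K * L : ℕ) : ℤ)) = j := by ring
            rw [e2] at this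
            exact this
          · -- inside a block
            have hj0 : 0 ≤ j := by omega
            obtain ⟨k, rfl⟩ := Int.eq_ofNat_of_zero_le hj0
            have hk : k < K * L := by
              have : (k : ℤ) < ((K * L : ℕ) : ℤ) := by omega
              exact_mod_cast this
            have hb : k / L < K := Nat.div_lt_of_lt_mul (by rw [Nat.mul_comm]; exact hk)
            have := hc1 ⟨k / L, hb⟩ ⟨k % L, Nat.mod_lt _ hLpos⟩
            have e1 : (((k / L : ℕ) : ℤ)) * L + ((k % L : ℕ) : ℤ) = (k : ℤ) := by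
              have := Nat.div_add_mod k L
              have h5 : ((L * (k / L) + k % L : ℕ) : ℤ) = (k : ℤ) := by rw [this]
              push_cast at h5 ⊢
              linarith
            simp only [e1] at this
            exact this
  have hXe : X u = X v := by
    refine hp _ _ hfe ⟨-1, fun j hj => ?_⟩ ⟨((K * L : ℕ) : ℤ), fun j hj => ?_⟩
    · rw [hXout u j (by omega), hXout v j (by omega)]
    · rw [hXout u j (by omega), hXout v j (by omega)]
  apply huv
  funext i
  have h1 := congrFun hXe ((i : ℕ) : ℤ)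
  have hi : (0 : ℤ) ≤ ((i : ℕ) : ℤ) ∧ ((i : ℕ) : ℤ) < ((K * L : ℕ) : ℤ) :=
    ⟨by positivity, by exact_mod_cast i.2⟩
  simp only [X] at h1
  rw [dif_pos hi, dif_pos hi] at h1
  simpa using h1

end

end Pool.Agent.H55.Sweep
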