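import Pool.Agent.H55.Sweep.Struct
import Pool.Agent.H55.Sweep.Surj

namespace Pool.Agent.H55.Sweep

open Filter Topology

section
variable {S : Type*} [TopologicalSpace S]

theorem level_isCA {b : Bool} {k : ℕ} {h : Conf S → Conf S} (hh : h ∈ Level b k) : IsCA h := by
  induction k generalizing b h with
  | zero =>
    have : h = id := hh
    subst this; exact isCA_id
  | succ k ih =>
    obtain ⟨g, h', hg, _, hh', rfl⟩ := hh
    exact isCA_comp hg (ih hh')

theorem level_other {b : Bool} {k : ℕ} {h : Conf S → Conf S} (hh : h ∈ Level b k) :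
    h ∈ Level (!b) (k + 1) := by
  refine ⟨id, h, isCA_id, closing_of_injective Function.injective_id, ?_, rfl⟩
  rw [Bool.not_not]; exact hh

theorem level_succ {b : Bool} {k : ℕ} {h : Conf S → Conf S} (hh : h ∈ Level b k) :
    h ∈ Level b (k + 1) := by
  induction k generalizing b h with
  | zero =>
    have : h = id := hh
    subst this
    exact ⟨id, id, isCA_id, closing_of_injective Function.injective_id, rfl, rfl⟩
  | succ k ih =>
    obtain ⟨g, h', hg, hc, hh', rfl⟩ := hh
    exact ⟨g, h', hg, hc, ih hh', rfl⟩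

theorem level_mono {b : Bool} {k n : ℕ} (hkn : k ≤ n) {h : Conf S → Conf S}
    (hh : h ∈ Level b k) : h ∈ Level b n := by
  induction n, hkn using Nat.le_induction with
  | base => exact hh
  | succ n _ ih => exact level_succ ih

theorem level_all {b : Bool} {k n : ℕ} (hkn : k + 1 ≤ n) {h : Conf S → Conf S}
    (hh : h ∈ Level b k) (c : Bool) : h ∈ Level c n := by
  by_cases hc : c = b
  · subst hc
    exact level_mono (by omega) hh
  · have : c = !b := by
      cases b <;> cases c <;> simp_all
    subst this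
    exact level_mono hkn (level_other hh)

variable [DiscreteTopology S]

theorem level_preInj [Finite S] {b : Bool} {k : ℕ} {h : Conf S → Conf S} (hh : h ∈ Level b k) :
    PreInj h := by
  induction k generalizing b h with
  | zero =>
    have : h = id := hh
    subst this; exact preInj_id
  | succ k ih =>
    obtain ⟨g, h', _, hc, hh', rfl⟩ := hh
    exact preInj_comp (level_isCA hh') (preInj_of_closing hc) (ih hh')

theorem level_surj [Fintype S] {b : Bool} {k : ℕ} {h : Conf S → Conf S} (hh : h ∈ Level b k) :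
    Function.Surjective h :=
  surj_of_preInj (level_isCA hh) (level_preInj hh)

theorem level_merge [Finite S] {b : Bool} {k : ℕ} {g h : Conf S → Conf S} (hg : IsCA g)
    (hc : Closing b g) (hh : h ∈ Level b (k + 1)) : g ∘ h ∈ Level b (k + 1) := by
  obtain ⟨g', h', hg', hc', hh', rfl⟩ := hh
  exact ⟨g ∘ g', h', isCA_comp hg hg', closing_comp hg' hc hc', hh', rfl⟩

/-- unordered pairs of distinct words of length `m` visible in the kernel of `h` -/
def Pairs (m : ℕ) (h : Conf S → Conf S) : Set (Sym2 (Fin m → S)) :=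
  {z | ¬ z.IsDiag ∧ ∃ x y t, h x = h y ∧ s((st m x y t).1, (st m x y t).2) = z}

theorem pairs_mono {m : ℕ} {g h : Conf S → Conf S} : Pairs m h ⊆ Pairs m (g ∘ h) := by
  rintro z ⟨hz, x, y, t, hxy, rfl⟩
  exact ⟨hz, x, y, t, congrArg g hxy, rfl⟩

theorem vis_of_pairs {m : ℕ} {g h : Conf S → Conf S} (heq : Pairs m (g ∘ h) ⊆ Pairs m h) :
    Vis m (g ∘ h) ⊆ Vis m h := by
  rintro q ⟨u, v, t, huv, rfl⟩
  by_cases hd : (st m u v t).1 = (st m u v t).2
  · refine ⟨u, u, t, rfl, ?_⟩
    refine Prod.ext rfl ?_
    simpa [st] using hd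
  · have hz : s((st m u v t).1, (st m u v t).2) ∈ Pairs m (g ∘ h) :=
      ⟨by simpa using hd, u, v, t, huv, rfl⟩
    obtain ⟨_, x, y, s, hxy, he⟩ := heq hz
    rw [Sym2.eq_iff] at he
    rcases he with ⟨h1, h2⟩ | ⟨h1, h2⟩
    · exact ⟨x, y, s, hxy, Prod.ext h1 h2⟩
    · exact ⟨y, x, s, hxy.symm, Prod.ext h2 h1⟩

variable [Fintype S]

theorem pairs_card (m : ℕ) (h : Conf S → Conf S) :
    (Pairs m h).ncard ≤ (Fintype.card S ^ m).choose 2 := by
  classical
  have h1 : Pairs m h ⊆ {z : Sym2 (Fin m → S) | ¬ z.IsDiag} := fun z hz => hz.1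
  refine (Set.ncard_le_ncard h1 (Set.toFinite _)).trans ?_
  have h2 := Sym2.card_subtype_not_diag (α := Fin m → S)
  rw [Fintype.card_fun, Fintype.card_fin] at h2
  rw [← h2, ← Nat.card_coe_set_eq, Nat.card_eq_fintype_card]
  exact le_of_eq (Fintype.card_congr (Equiv.refl _))

theorem level_core {f : Conf S → Conf S} {a : ℤ} {m : ℕ} (hw : Window f a m) :
    ∀ (k : ℕ) (b : Bool) (h : Conf S → Conf S), h ∈ Level b k → ∀ G, PreInj G → f = G ∘ h →
      Function.Injective h ∨ ∃ c n, n + 1 ≤ (Pairs m h).ncard ∧ h ∈ Level c (n + 1) := by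
  intro k
  induction k with
  | zero =>
    intro b h hh G _ _
    have : h = id := hh
    subst this
    exact Or.inl Function.injective_id
  | succ k ih =>
    intro b h hh G hG hfG
    obtain ⟨g, h', hg, hc, hh', rfl⟩ := hh
    have hh'CA := level_isCA hh'
    have hGg : PreInj (G ∘ g) := preInj_comp hg hG (preInj_of_closing hc)
    have hI := ih (!b) h' hh' (G ∘ g) hGg hfG
    have hsur := level_surj hh'
    by_cases hP : Pairs m (g ∘ h') ⊆ Pairs m h'
    · have hV := vis_of_pairs hP
      have hinj : ∀ x y, g (h' x) = g (h' y) → h' x = h' y := by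
        intro x y hxy
        have h1 := (ker_iff hw hfG hG (isCA_comp hg hh'CA) x y).1 hxy
        exact (ker_iff hw (G := G ∘ g) hfG hGg hh'CA x y).2 ⟨h1.1, fun t => hV (h1.2 t)⟩
      have hginj : Function.Injective g := by
        intro u v huv
        obtain ⟨x, rfl⟩ := hsur u
        obtain ⟨y, rfl⟩ := hsur v
        exact hinj x y huv
      rcases hI with hI | ⟨c, n, hn, hI⟩
      · exact Or.inl (hginj.comp hI)
      · refine Or.inr ⟨c, n, hn.trans (Set.ncard_le_ncard pairs_mono (Set.toFinite _)), ?_⟩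
        exact level_merge hg (closing_of_injective hginj) hI
    · have hlt : (Pairs m h').ncard < (Pairs m (g ∘ h')).ncard :=
        Set.ncard_lt_ncard ⟨pairs_mono, hP⟩ (Set.toFinite _)
      rcases hI with hI | ⟨c, n, hn, hI⟩
      · refine Or.inr ⟨b, 0, by omega, ?_⟩
        exact ⟨g ∘ h', id, isCA_comp hg hh'CA,
          closing_comp hh'CA hc (closing_of_injective hI), rfl, rfl⟩
      · by_cases hcb : c = b
        · subst hcb
          exact Or.inr ⟨c, n, by omega, level_merge hg hc hI⟩
        · have : c = !b := by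
            cases b <;> cases c <;> simp_all
          subst this
          exact Or.inr ⟨b, n + 1, by omega, ⟨g, h', hg, hc, hI, rfl⟩⟩

/-- every member of the hierarchy lies in a level bounded by its window -/
theorem level_bound {f : Conf S → Conf S} {a : ℤ} {m : ℕ} (hw : Window f a m) {b : Bool} {k : ℕ}
    (hf : f ∈ Level b k) (c : Bool) {n : ℕ} (hn : (Pairs m f).ncard + 1 ≤ n) : f ∈ Level c n := by
  rcases level_core hw k b f hf id preInj_id rfl with h | ⟨c', n', hn', h⟩
  · have h1 : f ∈ Level c 1 :=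
      ⟨f, id, level_isCA hf, closing_of_injective h, rfl, rfl⟩
    exact level_mono (by omega) h1
  · exact level_all (by omega) h c

end

end Pool.Agent.H55.Sweep
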