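import Pool.Agent.H55.Sweep.Recode

/-!
An explicit surjective CA on six letters none of whose block recodings is in any level.
-/

namespace Pool.Agent.H55.Sweep

open Filter Topology

section general
variable {S : Type*} {f : Conf S → Conf S} {m : ℕ}

/-- pairs of the kernel agreeing with pairs of a chain member on both sides are in it -/
theorem two_step {b : Bool} {K : ℕ} {A : ℕ → Set ((Fin m → S) × (Fin m → S))}
    (hA : EqChain f m b K A) (hK : ∀ x y, f x = f y ↔ Ker f m (A K) x y) :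
    ∀ d i : ℕ, i + d = K → ∀ x y u v u' v', f x = f y → Ker f m (A i) u v →
      Ker f m (A i) u' v' → (∃ N : ℤ, ∀ j, j ≤ N → x j = u j ∧ y j = v j) →
      (∃ N : ℤ, ∀ j, N ≤ j → x j = u' j ∧ y j = v' j) → Ker f m (A i) x y := by
  intro d
  induction d with
  | zero =>
    intro i hi x y u v u' v' hxy _ _ _ _
    have : i = K := by omega
    subst this
    exact (hK x y).1 hxy
  | succ d ih =>
    intro i hi x y u v u' v' hxy hu hu' h1 h2
    obtain ⟨q1, _, q3⟩ := hA.2 i (by omega)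
    have hB := ih (i + 1) (by omega) x y u v u' v' hxy ⟨hu.1, fun t => q1 (hu.2 t)⟩
      ⟨hu'.1, fun t => q1 (hu'.2 t)⟩ h1 h2
    refine ⟨hxy, fun t => ?_⟩
    generalize typ b (K - 1 - i) = c at q3
    cases c
    · obtain ⟨N, hN⟩ := h1
      have : st m x y (min t (N - m)) ∈ A i := by
        rw [st_congr (fun j _ hj2 => (hN j (by omega)).1) (fun j _ hj2 => (hN j (by omega)).2)]
        exact hu.2 _
      exact step_right q3 hB this t (min_le_left _ _)
    · obtain ⟨N, hN⟩ := h2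
      have : st m x y (max t N) ∈ A i := by
        rw [st_congr (fun j hj1 _ => (hN j (by omega)).1) (fun j hj1 _ => (hN j (by omega)).2)]
        exact hu'.2 _
      exact step_left q3 hB this t (le_max_left _ _)

end general

/-- the local rule -/
def F6 : Fin 6 → Fin 6 → Fin 6 :=
  ![![5, 0, 3, 2, 5, 3], ![0, 3, 5, 3, 2, 5], ![4, 3, 2, 4, 3, 2],
    ![2, 1, 4, 1, 0, 4], ![2, 1, 4, 1, 0, 4], ![0, 1, 5, 1, 0, 5]]

/-- the CA `f(x)_i = F6 (x_i) (x_{i+1})` -/
def f6 (x : Conf (Fin 6)) : Conf (Fin 6) := fun i => F6 (x i) (x (i + 1))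

/-- classes of pairs of letters: `0` equal, `1` and `2` the two recurrent classes, `3`, `4`
transient -/
def c6 : Fin 6 → Fin 6 → ℕ :=
  ![![0, 2, 2, 1, 1, 2], ![2, 0, 2, 3, 1, 4], ![2, 2, 0, 2, 2, 3],
    ![1, 3, 2, 0, 4, 4], ![1, 1, 2, 4, 0, 4], ![2, 4, 3, 4, 4, 0]]

theorem c6_zero : ∀ a b : Fin 6, c6 a b = 0 ↔ a = b := by decide

theorem c6_trans : ∀ a b c d : Fin 6, F6 a c = F6 b d → 3 ≤ c6 a b → 3 ≤ c6 c d →
    c6 c d < c6 a b := by decide

theorem c6_le : ∀ a b : Fin 6, c6 a b ≤ 4 := by decide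

theorem c6_out : ∀ a b c d : Fin 6, F6 a c = F6 b d →
    (c6 a b = 1 ∨ c6 a b = 3 → c6 c d = 1 ∨ c6 c d = 3) ∧
    (c6 a b = 0 → c6 c d = 0 ∨ c6 c d = 1 ∨ c6 c d = 3) := by decide

theorem f6_window : Window f6 0 1 := by
  intro x y i h
  have h0 := h 0 le_rfl (by norm_num)
  have h1 := h 1 (by norm_num) (by norm_num)
  rw [add_zero] at h0
  simp only [f6, h0, h1]

theorem f6_isCA : IsCA f6 := by
  refine ⟨?_, fun x => ?_⟩
  · apply continuous_pi
    intro i
    apply continuous_of_window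
    exact ⟨i, i + 1, fun x y h => by simp only [f6, h i le_rfl (by omega), h (i + 1) (by omega) le_rfl]⟩
  · funext i
    simp only [f6, shift]

theorem f6_eq {x y : Conf (Fin 6)} (h : f6 x = f6 y) (i : ℤ) :
    F6 (x i) (x (i + 1)) = F6 (y i) (y (i + 1)) := congrFun h i

/-- once out of the diagonal, never back -/
theorem out_stays {x y : Conf (Fin 6)} (h : f6 x = f6 y) {s : ℤ}
    (hs : c6 (x s) (y s) = 1 ∨ c6 (x s) (y s) = 3) (n : ℕ) :
    c6 (x (s + n)) (y (s + n)) = 1 ∨ c6 (x (s + n)) (y (s + n)) = 3 := by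
  induction n with
  | zero => simpa using hs
  | succ n ih =>
    have := (c6_out _ _ _ _ (f6_eq h (s + n))).1 ih
    have e : s + ((n + 1 : ℕ) : ℤ) = s + n + 1 := by push_cast; ring
    rw [e]; exact this

theorem diag_or_out {x y : Conf (Fin 6)} (h : f6 x = f6 y) {s : ℤ}
    (hs : x s = y s) (n : ℕ) :
    x (s + n) = y (s + n) ∨ c6 (x (s + n)) (y (s + n)) = 1 ∨ c6 (x (s + n)) (y (s + n)) = 3 := by
  induction n with
  | zero => left; simpa using hs
  | succ n ih =>
    have e : s + ((n + 1 : ℕ) : ℤ) = s + n + 1 := by push_cast; ring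
    rw [e]
    rcases ih with ih | ih
    · rcases (c6_out _ _ _ _ (f6_eq h (s + n))).2 ((c6_zero _ _).2 ih) with h0 | h0
      · left; exact (c6_zero _ _).1 h0
      · right; exact h0
    · right
      exact (c6_out _ _ _ _ (f6_eq h (s + n))).1 ih

/-- between two equal positions everything is equal -/
theorem between {x y : Conf (Fin 6)} (h : f6 x = f6 y) {s t : ℤ} (hs : x s = y s)
    (ht : x t = y t) {j : ℤ} (h1 : s ≤ j) (h2 : j ≤ t) : x j = y j := by
  obtain ⟨n, rfl⟩ : ∃ n : ℕ, j = s + n := ⟨(j - s).toNat, by rw [Int.toNat_of_nonneg (by omega)]; ring⟩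
  rcases diag_or_out h hs n with h0 | h0
  · exact h0
  · exfalso
    obtain ⟨k, hk⟩ : ∃ k : ℕ, t = s + n + k :=
      ⟨(t - (s + n)).toNat, by rw [Int.toNat_of_nonneg (by omega)]; ring⟩
    have h3 := out_stays h h0 k
    rw [← hk] at h3
    have h4 := (c6_zero _ _).2 ht
    omega

theorem f6_preInj : PreInj f6 := by
  intro x y h ⟨N, hN⟩ ⟨M, hM⟩
  funext j
  exact between h (hN (min N j) (min_le_left _ _)) (hM (max M j) (le_max_left _ _))
    (min_le_right _ _) (le_max_right _ _)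

theorem f6_surj : Function.Surjective f6 := surj_of_preInj f6_isCA f6_preInj

/-- a recurrent pair near every position -/
theorem recur {x y : Conf (Fin 6)} (h : f6 x = f6 y) (t : ℤ) :
    ∃ s, t ≤ s ∧ s ≤ t + 2 ∧ c6 (x s) (y s) ≤ 2 := by
  by_contra hcon
  push Not at hcon
  have h0 := hcon t le_rfl (by omega)
  have h1 := hcon (t + 1) (by omega) (by omega)
  have h2 := hcon (t + 2) (by omega) (by omega)
  have e1 := c6_trans _ _ _ _ (f6_eq h t) (by omega) (by omega)
  have e2 := f6_eq h (t + 1)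
  have e3 : t + 1 + 1 = t + 2 := by ring
  rw [e3] at e2
  have e4 := c6_trans _ _ _ _ e2 (by omega) (by omega)
  have := c6_le (x t) (y t)
  omega

/-- periodic configurations -/
def per (L : ℕ) (w : ℕ → Fin 6) : Conf (Fin 6) := fun j => w (j % (L : ℤ)).toNat

theorem per_tr (L : ℕ) (w : ℕ → Fin 6) : tr L (per L w) = per L w := by
  funext j
  simp only [tr, per]
  rw [Int.add_emod_right]

theorem per_nat {L : ℕ} {w : ℕ → Fin 6} {r : ℕ} (hr : r < L) : per L w (r : ℤ) = w r := by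
  simp only [per]
  rw [← Int.natCast_mod, Int.toNat_natCast, Nat.mod_eq_of_lt hr]

theorem per_f6 {L : ℕ} (hL : 0 < L) {w w' : ℕ → Fin 6}
    (h : ∀ r, r < L → F6 (w r) (w ((r + 1) % L)) = F6 (w' r) (w' ((r + 1) % L))) :
    f6 (per L w) = f6 (per L w') := by
  funext j
  simp only [f6, per]
  have hL' : (0 : ℤ) < L := by exact_mod_cast hL
  have h0 := Int.emod_nonneg j hL'.ne'
  have h1 := Int.emod_lt_of_pos j hL'
  obtain ⟨r, hr⟩ := Int.eq_ofNat_of_zero_le h0
  have e : ((j + 1) % (L : ℤ)).toNat = (r + 1) % L := by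
    rw [Int.add_emod, hr]
    have : ((r : ℤ) + 1 % (L : ℤ)) % L = (((r + 1) % L : ℕ) : ℤ) := by
      push_cast
      rw [Int.add_emod, Int.emod_emod_of_dvd _ dvd_rfl, ← Int.add_emod]
    rw [this, Int.toNat_natCast]
  rw [e, hr, Int.toNat_natCast]
  exact h r (by omega)

end Pool.Agent.H55.Sweep
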