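import Pool.Agent.H55.Sweep.NoLev

namespace Pool.Agent.H55.Sweep

open Filter Topology

section
variable {b : Bool} {K : ℕ} {A : ℕ → Set ((Fin 1 → Fin 6) × (Fin 1 → Fin 6))}

theorem ker_tr6 {B : Set ((Fin 1 → Fin 6) × (Fin 1 → Fin 6))} {x y : Conf (Fin 6)}
    (h : Ker f6 1 B x y) (n : ℤ) : Ker f6 1 B (tr n x) (tr n y) :=
  ⟨by rw [comm_tr f6_isCA, comm_tr f6_isCA, h.1], fun t => by rw [st_tr]; exact h.2 _⟩

theorem st_one {x y z w : Conf (Fin 6)} {t : ℤ} (h1 : x t = z t) (h2 : y t = w t) :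
    st 1 x y t = st 1 z w t := by
  apply st_congr
  · intro j hj1 hj2
    have : j = t := by push_cast at hj2; omega
    rw [this]; exact h1
  · intro j hj1 hj2
    have : j = t := by push_cast at hj2; omega
    rw [this]; exact h2

theorem cover_per (hA : EqChain f6 1 b K A) (hK : ∀ x y, f6 x = f6 y ↔ Ker f6 1 (A K) x y)
    {i : ℕ} (hi : i ≤ K) {x y p q : Conf (Fin 6)} {L : ℕ} (hL : 0 < L)
    (hE : Ker f6 1 (A i) x y) (hp : tr L p = p) (hq : tr L q = q) (hpq : f6 p = f6 q)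
    {s r : ℤ} (h1 : x s = p r) (h2 : y s = q r) : Ker f6 1 (A i) p q := by
  have hLz : (0 : ℤ) < L := by exact_mod_cast hL
  -- translate
  set x' := tr s x with hx'
  set y' := tr s y with hy'
  set p' := tr r p with hp'
  set q' := tr r q with hq'
  have hE' : Ker f6 1 (A i) x' y' := ker_tr6 hE s
  have hpp : tr L p' = p' := by rw [hp', tr_tr, add_comm, ← tr_tr, hp]
  have hqq : tr L q' = q' := by rw [hq', tr_tr, add_comm, ← tr_tr, hq]
  have hx0 : x' 0 = p' 0 := by simp only [hx', hp', tr, zero_add]; exact h1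
  have hy0 : y' 0 = q' 0 := by simp only [hy', hq', tr, zero_add]; exact h2
  have hfpq : f6 p' = f6 q' := by rw [hp', hq', comm_tr f6_isCA, comm_tr f6_isCA, hpq]
  have hpL : p' L = p' 0 := by
    have := congrFun hpp 0
    simp only [tr, zero_add] at this
    exact this
  have hqL : q' L = q' 0 := by
    have := congrFun hqq 0
    simp only [tr, zero_add] at this
    exact this
  -- the glued pair
  have e1 : f6 (glue L p' (tr (-(L : ℤ)) x')) = f6 (glue L q' (tr (-(L : ℤ)) y')) := by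
    apply ker_glue f6_window _ _ hfpq
    · exact (ker_tr6 hE' (-(L : ℤ))).1
    · intro j hj1 hj2
      have : j = L := by push_cast at hj2; omega
      subst this
      simp only [tr, add_neg_cancel]
      rw [hpL, hx0]
    · intro j hj1 hj2
      have : j = L := by push_cast at hj2; omega
      subst this
      simp only [tr, add_neg_cancel]
      rw [hqL, hy0]
  have e2 : f6 (glue 0 x' (glue L p' (tr (-(L : ℤ)) x'))) =
      f6 (glue 0 y' (glue L q' (tr (-(L : ℤ)) y'))) := by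
    apply ker_glue f6_window _ _ hE'.1 e1
    · intro j hj1 hj2
      have : j = 0 := by push_cast at hj2; omega
      subst this
      rw [glue_lt hLz, hx0]
    · intro j hj1 hj2
      have : j = 0 := by push_cast at hj2; omega
      subst this
      rw [glue_lt hLz, hy0]
  have hzw := two_step hA hK (K - i) i (by omega) _ _ x' y' (tr (-(L : ℤ)) x')
    (tr (-(L : ℤ)) y') e2 hE' (ker_tr6 hE' _)
    ⟨-1, fun j hj => ⟨glue_lt (by omega), glue_lt (by omega)⟩⟩
    ⟨L, fun j hj => ⟨by rw [glue_ge (by omega), glue_ge hj], by rw [glue_ge (by omega), glue_ge hj]⟩⟩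
  have hpq' : Ker f6 1 (A i) p' q' := by
    refine ⟨hfpq, fun t => ?_⟩
    have h0 := Int.emod_nonneg t hLz.ne'
    have h1 := Int.emod_lt_of_pos t hLz
    have h3 : ∀ z : Conf (Fin 6), tr L z = z → z t = z (t % L) := by
      intro z hz
      have e : z = tr (t / L * L) z :=
        comm_tr_mul (h := fun _ : Conf (Fin 6) => z) (n := (L : ℤ)) (fun _ => hz.symm) (t / L) z
      have e' := congrFun e (t % L)
      rw [tr_apply] at e'
      rw [e']
      congr 1
      have := Int.mul_ediv_add_emod t L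
      linarith [mul_comm (L : ℤ) (t / L)]
    have e3 : st 1 p' q' t = st 1 p' q' (t % L) := by
      rw [st_eq_iff]
      constructor
      · intro j hj1 hj2
        have : j = 0 := by push_cast at hj2; omega
        subst this
        rw [add_zero, add_zero]; exact h3 p' hpp
      · intro j hj1 hj2
        have : j = 0 := by push_cast at hj2; omega
        subst this
        rw [add_zero, add_zero]; exact h3 q' hqq
    rw [e3]
    have := hzw.2 (t % L)
    rwa [st_one (z := p') (w := q') (by rw [glue_ge h0, glue_lt h1])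
      (by rw [glue_ge h0, glue_lt h1])] at this
  have h4 := ker_tr6 hpq' (-r)
  rw [hp', hq', tr_tr, tr_tr, neg_add_cancel, tr_zero, tr_zero] at h4
  exact h4

/-- covering cycles of the two classes -/
def w1 (r : ℕ) : Fin 6 := ([0, 1, 4, 4, 0, 3] : List (Fin 6)).getD r 0
def w1' (r : ℕ) : Fin 6 := ([3, 4, 0, 1, 4, 0] : List (Fin 6)).getD r 0
def w2 (r : ℕ) : Fin 6 := ([5, 0, 2, 2, 2, 1, 4, 2, 0, 3, 0, 1] : List (Fin 6)).getD r 0
def w2' (r : ℕ) : Fin 6 := ([0, 1, 1, 4, 0, 2, 2, 3, 2, 2, 5, 0] : List (Fin 6)).getD r 0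

theorem w1_edge : ∀ r, r < 6 → F6 (w1 r) (w1 ((r + 1) % 6)) = F6 (w1' r) (w1' ((r + 1) % 6)) := by
  decide

theorem w2_edge : ∀ r, r < 12 →
    F6 (w2 r) (w2 ((r + 1) % 12)) = F6 (w2' r) (w2' ((r + 1) % 12)) := by
  decide

theorem w1_cover : ∀ a b : Fin 6, c6 a b = 1 → ∃ r : Fin 6, w1 r = a ∧ w1' r = b := by decide

theorem w2_cover : ∀ a b : Fin 6, c6 a b = 2 → ∃ r : Fin 12, w2 r = a ∧ w2' r = b := by decide

theorem f1 : f6 (per 6 w1) = f6 (per 6 w1') := per_f6 (by norm_num) w1_edge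
theorem f2 : f6 (per 12 w2) = f6 (per 12 w2') := per_f6 (by norm_num) w2_edge

theorem class_one (hA : EqChain f6 1 b K A) (hK : ∀ x y, f6 x = f6 y ↔ Ker f6 1 (A K) x y)
    {i : ℕ} (hi : i ≤ K) {x y : Conf (Fin 6)} (hE : Ker f6 1 (A i) x y) {s : ℤ}
    (hs : c6 (x s) (y s) = 1) : Ker f6 1 (A i) (per 6 w1) (per 6 w1') := by
  obtain ⟨r, h1, h2⟩ := w1_cover _ _ hs
  refine cover_per hA hK hi (L := 6) (by norm_num) hE (per_tr 6 w1) (per_tr 6 w1') f1
    (s := s) (r := ((r : ℕ) : ℤ)) ?_ ?_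
  · rw [per_nat r.2, h1]
  · rw [per_nat r.2, h2]

theorem class_two (hA : EqChain f6 1 b K A) (hK : ∀ x y, f6 x = f6 y ↔ Ker f6 1 (A K) x y)
    {i : ℕ} (hi : i ≤ K) {x y : Conf (Fin 6)} (hE : Ker f6 1 (A i) x y) {s : ℤ}
    (hs : c6 (x s) (y s) = 2) : Ker f6 1 (A i) (per 12 w2) (per 12 w2') := by
  obtain ⟨r, h1, h2⟩ := w2_cover _ _ hs
  refine cover_per hA hK hi (L := 12) (by norm_num) hE (per_tr 12 w2) (per_tr 12 w2') f2
    (s := s) (r := ((r : ℕ) : ℤ)) ?_ ?_
  · rw [per_nat r.2, h1]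
  · rw [per_nat r.2, h2]

theorem from_one (hA : EqChain f6 1 b K A) (hK : ∀ x y, f6 x = f6 y ↔ Ker f6 1 (A K) x y)
    {i : ℕ} (hi : i ≤ K) (hE : Ker f6 1 (A i) (per 6 w1) (per 6 w1')) {p q : Conf (Fin 6)}
    {L : ℕ} (hL : 0 < L) (hp : tr L p = p) (hq : tr L q = q) (hpq : f6 p = f6 q) {s : ℤ}
    (hs : c6 (p s) (q s) = 1) : Ker f6 1 (A i) p q := by
  obtain ⟨r, h1, h2⟩ := w1_cover _ _ hs
  refine cover_per hA hK hi hL hE hp hq hpq (s := ((r : ℕ) : ℤ)) (r := s) ?_ ?_
  · rw [per_nat r.2, h1]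
  · rw [per_nat r.2, h2]

theorem from_two (hA : EqChain f6 1 b K A) (hK : ∀ x y, f6 x = f6 y ↔ Ker f6 1 (A K) x y)
    {i : ℕ} (hi : i ≤ K) (hE : Ker f6 1 (A i) (per 12 w2) (per 12 w2')) {p q : Conf (Fin 6)}
    {L : ℕ} (hL : 0 < L) (hp : tr L p = p) (hq : tr L q = q) (hpq : f6 p = f6 q) {s : ℤ}
    (hs : c6 (p s) (q s) = 2) : Ker f6 1 (A i) p q := by
  obtain ⟨r, h1, h2⟩ := w2_cover _ _ hs
  refine cover_per hA hK hi hL hE hp hq hpq (s := ((r : ℕ) : ℤ)) (r := s) ?_ ?_
  · rw [per_nat r.2, h1]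
  · rw [per_nat r.2, h2]

/-- words of period two -/
def al (a b : Fin 6) (r : ℕ) : Fin 6 := if r = 0 then a else b

theorem al_f6 {a b c d : Fin 6} (h1 : F6 a b = F6 c d) (h2 : F6 b a = F6 d c) :
    f6 (per 2 (al a b)) = f6 (per 2 (al c d)) := by
  apply per_f6 (by norm_num)
  intro r hr
  interval_cases r
  · exact h1
  · exact h2

theorem al_zero (a b : Fin 6) : per 2 (al a b) 0 = a := by
  have := per_nat (L := 2) (w := al a b) (r := 0) (by norm_num)
  rw [Nat.cast_zero] at this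
  rw [this]; rfl

theorem one_two (hA : EqChain f6 1 b K A) (hK : ∀ x y, f6 x = f6 y ↔ Ker f6 1 (A K) x y)
    {i : ℕ} (hi : i < K) (hE : Ker f6 1 (A i) (per 6 w1) (per 6 w1')) :
    Ker f6 1 (A i) (per 12 w2) (per 12 w2') := by
  have e1 : Ker f6 1 (A i) (per 2 (al 1 0)) (per 2 (al 4 4)) := by
    refine from_one hA hK hi.le hE (L := 2) (by norm_num) (per_tr 2 _) (per_tr 2 _)
      (al_f6 (by decide) (by decide)) (s := 0) ?_
    rw [al_zero, al_zero]; decide
  have e2 : Ker f6 1 (A i) (per 2 (al 4 4)) (per 2 (al 0 1)) := by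
    refine from_one hA hK hi.le hE (L := 2) (by norm_num) (per_tr 2 _) (per_tr 2 _)
      (al_f6 (by decide) (by decide)) (s := 0) ?_
    rw [al_zero, al_zero]; decide
  refine class_two hA hK hi.le ((hA.2 i hi).2.1.trans e1 e2) (s := 0) ?_
  rw [al_zero, al_zero]; decide

theorem two_one (hA : EqChain f6 1 b K A) (hK : ∀ x y, f6 x = f6 y ↔ Ker f6 1 (A K) x y)
    {i : ℕ} (hi : i < K) (hE : Ker f6 1 (A i) (per 12 w2) (per 12 w2')) :
    Ker f6 1 (A i) (per 6 w1) (per 6 w1') := by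
  have e1 : Ker f6 1 (A i) (per 2 (al 3 0)) (per 2 (al 2 2)) := by
    refine from_two hA hK hi.le hE (L := 2) (by norm_num) (per_tr 2 _) (per_tr 2 _)
      (al_f6 (by decide) (by decide)) (s := 0) ?_
    rw [al_zero, al_zero]; decide
  have e2 : Ker f6 1 (A i) (per 2 (al 2 2)) (per 2 (al 0 3)) := by
    refine from_two hA hK hi.le hE (L := 2) (by norm_num) (per_tr 2 _) (per_tr 2 _)
      (al_f6 (by decide) (by decide)) (s := 0) ?_
    rw [al_zero, al_zero]; decide
  refine class_one hA hK hi.le ((hA.2 i hi).2.1.trans e1 e2) (s := 0) ?_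
  rw [al_zero, al_zero]; decide

/-- both classes in a chain member: it is the whole kernel -/
theorem full_of_both (hA : EqChain f6 1 b K A) (hK : ∀ x y, f6 x = f6 y ↔ Ker f6 1 (A K) x y)
    {i : ℕ} (hi : i < K) (h1 : Ker f6 1 (A i) (per 6 w1) (per 6 w1'))
    (h2 : Ker f6 1 (A i) (per 12 w2) (per 12 w2')) {x y : Conf (Fin 6)} (hxy : f6 x = f6 y) :
    Ker f6 1 (A i) x y := by
  -- a pair of the relation through every recurrent state
  have hst : ∀ s : ℤ, c6 (x s) (y s) ≤ 2 → ∃ u v, Ker f6 1 (A i) u v ∧ u s = x s ∧ v s = y s := by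
    intro s hs
    have h3 : c6 (x s) (y s) = 0 ∨ c6 (x s) (y s) = 1 ∨ c6 (x s) (y s) = 2 := by omega
    rcases h3 with h3 | h3 | h3
    · exact ⟨x, x, (hA.2 i hi).2.1.refl x, rfl, (c6_zero _ _).1 h3⟩
    · obtain ⟨r, hr1, hr2⟩ := w1_cover _ _ h3
      refine ⟨_, _, ker_tr6 h1 (((r : ℕ) : ℤ) - s), ?_, ?_⟩
      · rw [tr_apply, add_sub_cancel, per_nat r.2, hr1]
      · rw [tr_apply, add_sub_cancel, per_nat r.2, hr2]
    · obtain ⟨r, hr1, hr2⟩ := w2_cover _ _ h3
      refine ⟨_, _, ker_tr6 h2 (((r : ℕ) : ℤ) - s), ?_, ?_⟩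
      · rw [tr_apply, add_sub_cancel, per_nat r.2, hr1]
      · rw [tr_apply, add_sub_cancel, per_nat r.2, hr2]
  refine ⟨hxy, fun t => ?_⟩
  obtain ⟨s, hs1, hs2, hs3⟩ := recur hxy (t - 2)
  obtain ⟨s', hs1', hs2', hs3'⟩ := recur hxy t
  obtain ⟨u, v, huv, hu, hv⟩ := hst s hs3
  obtain ⟨u', v', huv', hu', hv'⟩ := hst s' hs3'
  have e1 : f6 (glue s' x u') = f6 (glue s' y v') := by
    apply ker_glue f6_window _ _ hxy huv'.1
    · intro j hj1 hj2
      have : j = s' := by push_cast at hj2; omega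
      rw [this, hu']
    · intro j hj1 hj2
      have : j = s' := by push_cast at hj2; omega
      rw [this, hv']
  have hgx : ∀ j, j ≤ s' → glue s' x u' j = x j := by
    intro j hj
    rcases lt_or_eq_of_le hj with h | h
    · exact glue_lt h
    · rw [h, glue_ge le_rfl, hu']
  have hgy : ∀ j, j ≤ s' → glue s' y v' j = y j := by
    intro j hj
    rcases lt_or_eq_of_le hj with h | h
    · exact glue_lt h
    · rw [h, glue_ge le_rfl, hv']
  have e2 : f6 (glue s u (glue s' x u')) = f6 (glue s v (glue s' y v')) := by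
    apply ker_glue f6_window _ _ huv.1 e1
    · intro j hj1 hj2
      have : j = s := by push_cast at hj2; omega
      rw [this, hgx s (by omega), hu]
    · intro j hj1 hj2
      have : j = s := by push_cast at hj2; omega
      rw [this, hgy s (by omega), hv]
  have hzw := two_step hA hK (K - i) i (by omega) _ _ u v u' v' e2 huv huv'
    ⟨s - 1, fun j hj => ⟨glue_lt (by omega), glue_lt (by omega)⟩⟩
    ⟨s', fun j hj => ⟨by rw [glue_ge (by omega), glue_ge hj], by rw [glue_ge (by omega), glue_ge hj]⟩⟩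
  have h3 := hzw.2 t
  rwa [st_one (z := x) (w := y) (by rw [glue_ge (by omega), hgx t hs1'])
    (by rw [glue_ge (by omega), hgy t hs1'])] at h3

/-- every member of a chain is equality or the kernel -/
theorem dichotomy (hA : EqChain f6 1 b K A) (hK : ∀ x y, f6 x = f6 y ↔ Ker f6 1 (A K) x y)
    {i : ℕ} (hi : i < K) :
    (∀ x y, Ker f6 1 (A i) x y → x = y) ∨ (∀ x y, f6 x = f6 y → Ker f6 1 (A i) x y) := by
  by_cases h : ∀ x y, Ker f6 1 (A i) x y → x = y
  · exact Or.inl h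
  · right
    push Not at h
    obtain ⟨x, y, hE, hne⟩ := h
    obtain ⟨t, ht⟩ : ∃ t, x t ≠ y t := by
      by_contra hcon
      push Not at hcon
      exact hne (funext hcon)
    have hboth : Ker f6 1 (A i) (per 6 w1) (per 6 w1') ∧
        Ker f6 1 (A i) (per 12 w2) (per 12 w2') := by
      obtain ⟨s, _, hs2, hs3⟩ := recur hE.1 (t - 2)
      obtain ⟨s', hs1', _, hs3'⟩ := recur hE.1 t
      have key : ∀ r, c6 (x r) (y r) ≤ 2 → c6 (x r) (y r) ≠ 0 →
          Ker f6 1 (A i) (per 6 w1) (per 6 w1') ∧ Ker f6 1 (A i) (per 12 w2) (per 12 w2') := by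
        intro r h1 h2
        have h3 : c6 (x r) (y r) = 1 ∨ c6 (x r) (y r) = 2 := by omega
        rcases h3 with h3 | h3
        · have := class_one hA hK hi.le hE h3
          exact ⟨this, one_two hA hK hi this⟩
        · have := class_two hA hK hi.le hE h3
          exact ⟨two_one hA hK hi this, this⟩
      by_cases h1 : c6 (x s) (y s) = 0
      · by_cases h2 : c6 (x s') (y s') = 0
        · exact absurd (between hE.1 ((c6_zero _ _).1 h1) ((c6_zero _ _).1 h2) (by omega) hs1') ht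
        · exact key s' hs3' h2
      · exact key s hs3 h1
    intro u v huv
    exact full_of_both hA hK hi hboth.1 hboth.2 huv

end

end Pool.Agent.H55.Sweep
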