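import Pool.Agent.H55.Sweep.NoLev2

namespace Pool.Agent.H55.Sweep

open Filter Topology

/-- a pair showing that `f6` is not right-closing -/
def xr : Conf (Fin 6) := fun j => if j ≤ 0 then 0 else if j % 2 = 1 then 0 else 1
def yr : Conf (Fin 6) := fun j => if j ≤ 0 then 0 else 4

theorem f6_r : f6 xr = f6 yr := by
  funext j
  simp only [f6, xr, yr]
  rcases lt_trichotomy j 0 with h | h | h
  · rw [if_pos h.le, if_pos (by omega : j + 1 ≤ 0), if_pos h.le, if_pos (by omega : j + 1 ≤ 0)]
  · subst h
    decide
  · rw [if_neg (by omega : ¬ j ≤ 0), if_neg (by omega : ¬ j + 1 ≤ 0),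
      if_neg (by omega : ¬ j ≤ 0), if_neg (by omega : ¬ j + 1 ≤ 0)]
    rcases Int.emod_two_eq_zero_or_one j with h2 | h2
    · have h3 : (j + 1) % 2 = 1 := by omega
      rw [if_neg (by omega), if_pos h3]
      decide
    · have h3 : ¬ (j + 1) % 2 = 1 := by omega
      rw [if_pos h2, if_neg h3]
      decide

/-- a pair showing that `f6` is not left-closing -/
def xl : Conf (Fin 6) := fun j => if j ≤ -1 then 0 else if j ≤ 0 then 2 else 1
def yl : Conf (Fin 6) := fun j => if j ≤ -2 then 5 else if j ≤ -1 then 2 else 1

theorem f6_l : f6 xl = f6 yl := by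
  funext j
  simp only [f6, xl, yl]
  have h : j ≤ -3 ∨ j = -2 ∨ j = -1 ∨ j = 0 ∨ 1 ≤ j := by omega
  rcases h with h | h | h | h | h
  · rw [if_pos (by omega : j ≤ -1), if_pos (by omega : j + 1 ≤ -1), if_pos (by omega : j ≤ -2),
      if_pos (by omega : j + 1 ≤ -2)]
    decide
  · subst h; decide
  · subst h; decide
  · subst h; decide
  · rw [if_neg (by omega : ¬ j ≤ -1), if_neg (by omega : ¬ j ≤ 0), if_neg (by omega : ¬ j + 1 ≤ -1),
      if_neg (by omega : ¬ j + 1 ≤ 0), if_neg (by omega : ¬ j ≤ -2), if_neg (by omega : ¬ j ≤ -1),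
      if_neg (by omega : ¬ j + 1 ≤ -2), if_neg (by omega : ¬ j + 1 ≤ -1)]

theorem no_chain {b : Bool} {K : ℕ} {A : ℕ → Set ((Fin 1 → Fin 6) × (Fin 1 → Fin 6))}
    (hA : EqChain f6 1 b K A) (hK : ∀ x y, f6 x = f6 y ↔ Ker f6 1 (A K) x y) : False := by
  have hne : xr ≠ yr := by
    intro h
    have := congrFun h 1
    simp only [xr, yr] at this
    exact absurd this (by decide)
  have hne' : xl ≠ yl := by
    intro h
    have := congrFun h 0
    simp only [xl, yl] at this
    exact absurd this (by decide)
  have key : ∀ i, i ≤ K → ∀ x y, Ker f6 1 (A i) x y → x = y := by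
    intro i
    induction i with
    | zero => intro _ x y h; exact (hA.1 x y).1 h
    | succ i ih =>
      intro hi
      have hdi := ih (by omega)
      obtain ⟨_, q2, q3⟩ := hA.2 i (by omega)
      -- if the next member is the whole kernel, `f6` would be closing
      have hfull : ¬ (∀ x y, f6 x = f6 y → Ker f6 1 (A (i + 1)) x y) := by
        intro hfull
        have hd : ∀ (x : Conf (Fin 6)) t, st 1 x x t ∈ A i := fun x t => (q2.refl x).2 t
        generalize typ b (K - 1 - i) = c at q3
        cases c
        · apply hne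
          apply hdi
          refine ⟨f6_r, fun t => ?_⟩
          have h0 : st 1 xr yr (min t (-1)) ∈ A i := by
            rw [← st_one (x := xr) (y := xr) rfl]
            · exact hd _ _
            · simp only [xr, yr]
              rw [if_pos (by omega), if_pos (by omega)]
          exact step_right q3 (hfull _ _ f6_r) h0 t (min_le_left _ _)
        · apply hne'
          apply hdi
          refine ⟨f6_l, fun t => ?_⟩
          have h0 : st 1 xl yl (max t 1) ∈ A i := by
            rw [← st_one (x := xl) (y := xl) rfl]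
            · exact hd _ _
            · simp only [xl, yl]
              rw [if_neg (by omega), if_neg (by omega), if_neg (by omega), if_neg (by omega)]
          exact step_left q3 (hfull _ _ f6_l) h0 t (le_max_left _ _)
      rcases Nat.lt_or_ge (i + 1) K with hlt | hge
      · rcases dichotomy hA hK hlt with h | h
        · exact h
        · exact absurd h hfull
      · have hiK : i + 1 = K := by omega
        exfalso
        apply hfull
        intro x y hxy
        rw [hiK]
        exact (hK x y).1 hxy
  exact hne (key K le_rfl _ _ ((hK _ _).1 f6_r))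

/-- no block recoding of `f6` is in any level -/
theorem f6_no_level (n : ℕ) (hn : 0 < n) (b : Bool) (k : ℕ) : recode n hn f6 ∉ Level b k := by
  intro h
  have h1 := (level_recode hn).1 (level_succ h)
  obtain ⟨A, hA, hK⟩ := (levelPow_iff f6_isCA f6_window b k).1 ⟨n, hn, h1⟩
  exact no_chain hA hK

end Pool.Agent.H55.Sweep

namespace Pool.Agent.H55.Sweep

theorem levelPow_one {S : Type*} [TopologicalSpace S] {b : Bool} {k : ℕ} {f : Conf S → Conf S}
    (h : f ∈ Level b k) : f ∈ LevelPow 1 b k := by
  induction k generalizing b f with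
  | zero => exact h
  | succ k ih =>
    obtain ⟨g, h', hg, hc, hh', rfl⟩ := h
    exact ⟨g, h', powCA_of_CA hg, hc, ih hh', rfl⟩

theorem f6_no_level' (b : Bool) (k : ℕ) : f6 ∉ Level b k := fun h =>
  f6_no_level 1 Nat.one_pos b k ((level_recode Nat.one_pos).2 (levelPow_one h))

end Pool.Agent.H55.Sweep
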