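import Pool.Agent.H55.Sweep.Fu5

/-!
Constant right multiplicity for reversible maps with bounded drift commuting with a power of the
shift.
-/

namespace Pool.Agent.H55.Sweep

open Filter Topology

/-- put the word `w` at `[s, s+n)` of `u` -/
def pz {S : Type*} (s : ℤ) {n : ℕ} (u : Conf S) (w : Fin n → S) : Conf S := fun j =>
  if h : s ≤ j ∧ j < s + n then w ⟨(j - s).toNat, by omega⟩ else u j

section
variable {S : Type*} {n : ℕ} {s : ℤ}

theorem pz_lt {u : Conf S} {w : Fin n → S} {j : ℤ} (h : j < s) : pz s u w j = u j := by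
  simp only [pz]
  rw [dif_neg (by omega)]

theorem pz_ge {u : Conf S} {w : Fin n → S} {j : ℤ} (h : s + n ≤ j) : pz s u w j = u j := by
  simp only [pz]
  rw [dif_neg (by omega)]

theorem wd_pz {u : Conf S} {w : Fin n → S} : wd n (pz s u w) s = w := by
  funext i
  have hi : ((i : ℕ) : ℤ) < n := by exact_mod_cast i.2
  simp only [wd, pz]
  rw [dif_pos ⟨by omega, by omega⟩]
  congr 1
  apply Fin.ext
  simp

theorem pz_eq {u z : Conf S} {w : Fin n → S} (hw : wd n z s = w) {j : ℤ} (h1 : s ≤ j)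
    (h2 : j < s + n) : pz s u w j = z j := by
  subst hw
  simp only [pz]
  rw [dif_pos ⟨h1, h2⟩]
  simp only [wd]
  congr 1
  rw [Int.toNat_of_nonneg (by omega)]; ring

end

/-- `g` and `g'` are inverse to each other, with drift `n` resp. `-n` up to `ρ`, and commute with
`σ^{n'}` -/
structure Drift {S : Type*} (g g' : Conf S → Conf S) (n n' ρ : ℕ) : Prop where
  left : ∀ x, g' (g x) = x
  right : ∀ x, g (g' x) = x
  loc : ∀ x y i, (∀ j : ℤ, i + n - ρ ≤ j → j ≤ i + n + ρ → x j = y j) → g x i = g y i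
  loc' : ∀ x y i, (∀ j : ℤ, i - n - ρ ≤ j → j ≤ i - n + ρ → x j = y j) → g' x i = g' y i
  comm : ∀ (q : ℤ) x, g (tr (q * n') x) = tr (q * n') (g x)

/-- configurations ending with `s0` from `p + n + ρ` on, with `g`-image `y` below `p` -/
def Cs {S : Type*} (g : Conf S → Conf S) (n ρ : ℕ) (s0 : S) (p : ℤ) (y : Conf S) :
    Set (Conf S) :=
  {x | (∀ j, p + n + ρ ≤ j → x j = s0) ∧ ∀ i, i < p → g x i = y i}

/-- the same with `L` more free letters -/
def Ds {S : Type*} (g : Conf S → Conf S) (n ρ : ℕ) (s0 : S) (p : ℤ) (L : ℕ) (y : Conf S) :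
    Set (Conf S) :=
  {x | (∀ j, p + L + n + ρ ≤ j → x j = s0) ∧ ∀ i, i < p → g x i = y i}

section
variable {S : Type*} {g g' : Conf S → Conf S} {n n' ρ : ℕ}

theorem Drift.eq_left (hg : Drift g g' n n' ρ) {x y : Conf S} {p : ℤ}
    (h : ∀ i, i < p → g x i = g y i) : ∀ j, j < p + n - ρ → x j = y j := by
  intro j hj
  rw [← hg.left x, ← hg.left y]
  exact hg.loc' _ _ _ (fun i _ hi => h i (by omega))

theorem cs_inj (hg : Drift g g' n n' ρ) {s0 : S} {p : ℤ} {y : Conf S} :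
    Function.Injective (fun x : Cs g n ρ s0 p y => wd (2 * ρ) x.1 (p + n - ρ)) := by
  rintro ⟨x, hx1, hx2⟩ ⟨z, hz1, hz2⟩ h
  have e := wd_eq_iff'.1 h
  apply Subtype.ext
  funext j
  show x j = z j
  by_cases h1 : j < p + n - ρ
  · exact hg.eq_left (fun i hi => (hx2 i hi).trans (hz2 i hi).symm) j h1
  · by_cases h2 : j < p + n + ρ
    · exact e j (not_lt.mp h1) (by push_cast; omega)
    · rw [hx1 j (not_lt.mp h2), hz1 j (not_lt.mp h2)]

theorem cs_finite [Finite S] (hg : Drift g g' n n' ρ) {s0 : S} {p : ℤ} {y : Conf S} :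
    Finite (Cs g n ρ s0 p y) := Finite.of_injective _ (cs_inj hg)

theorem cs_card_le [Finite S] (hg : Drift g g' n n' ρ) {s0 : S} {p : ℤ} {y : Conf S} :
    Nat.card (Cs g n ρ s0 p y) ≤ Nat.card (Fin (2 * ρ) → S) :=
  Nat.card_le_card_of_injective _ (cs_inj hg)

theorem card_ds (hg : Drift g g' n n' ρ) {s0 : S} {p : ℤ} {L : ℕ} {y : Conf S} :
    Nat.card (Ds g n ρ s0 p L y) = Nat.card (Cs g n ρ s0 p y) * Nat.card (Fin L → S) := by
  rw [← Nat.card_prod]
  symm
  refine Nat.card_eq_of_bijective (fun q => ⟨pz (p + n + ρ) q.1.1 q.2, ?_⟩) ⟨?_, ?_⟩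
  · obtain ⟨⟨x, hx1, hx2⟩, w⟩ := q
    show pz (p + n + ρ) x w ∈ Ds g n ρ s0 p L y
    refine ⟨fun j hj => ?_, fun i hi => ?_⟩
    · rw [pz_ge (by omega)]; exact hx1 j (by omega)
    · rw [← hx2 i hi]
      exact hg.loc _ _ _ (fun j _ hj => pz_lt (by omega))
  · rintro ⟨⟨x, hx1, hx2⟩, w⟩ ⟨⟨x', hx1', hx2'⟩, w'⟩ h
    have h' : pz (p + n + ρ) x w = pz (p + n + ρ) x' w' := congrArg Subtype.val h
    have h1 : w = w' := by
      rw [← wd_pz (s := p + n + ρ) (u := x) (w := w), h', wd_pz]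
    have h2 : x = x' := by
      funext j
      by_cases hj : j < p + n + ρ
      · have := congrFun h' j
        rwa [pz_lt hj, pz_lt hj] at this
      · rw [hx1 j (not_lt.mp hj), hx1' j (not_lt.mp hj)]
    subst h1 h2
    rfl
  · rintro ⟨y', hy1, hy2⟩
    refine ⟨⟨⟨fun j => if j < p + n + ρ then y' j else s0, fun j hj => if_neg (by omega), ?_⟩,
      wd L y' (p + n + ρ)⟩, ?_⟩
    · intro i hi
      rw [← hy2 i hi]
      exact hg.loc _ _ _ (fun j _ hj => if_pos (by omega))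
    · apply Subtype.ext
      funext j
      show pz (p + n + ρ) _ _ j = y' j
      by_cases h1 : j < p + n + ρ
      · rw [pz_lt h1]
        exact if_pos h1
      · by_cases h2 : j < p + n + ρ + L
        · exact pz_eq rfl (not_lt.mp h1) h2
        · rw [pz_ge (not_lt.mp h2)]
          show (if j < p + n + ρ then y' j else s0) = y' j
          rw [if_neg h1, hy1 j (by omega)]

theorem card_ds' [Finite S] (hg : Drift g g' n n' ρ) {s0 : S} {p : ℤ} {L : ℕ} {y : Conf S}
    {M : ℕ} (hM : ∀ p y, Nat.card (Cs g n ρ s0 p y) ≤ M)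
    (h : Nat.card (Cs g n ρ s0 p y) = M) (w : Fin L → S) :
    Nat.card (Cs g n ρ s0 (p + L) (pz p y w)) = M := by
  classical
  have : Fintype S := Fintype.ofFinite S
  have key : Nat.card (Ds g n ρ s0 p L y) =
      ∑ w : Fin L → S, Nat.card (Cs g n ρ s0 (p + L) (pz p y w)) := by
    have : ∀ w : Fin L → S, Finite (Cs g n ρ s0 (p + L) (pz p y w)) := fun w => cs_finite hg
    rw [← Nat.card_sigma]
    symm
    refine Nat.card_eq_of_bijective (fun q => ⟨q.2.1, ?_⟩) ⟨?_, ?_⟩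
    · obtain ⟨w, ⟨x, hx1, hx2⟩⟩ := q
      show x ∈ Ds g n ρ s0 p L y
      refine ⟨fun j hj => hx1 j (by omega), fun i hi => ?_⟩
      rw [hx2 i (by omega)]
      exact pz_lt hi
    · rintro ⟨w, ⟨x, hx1, hx2⟩⟩ ⟨w', ⟨x', hx1', hx2'⟩⟩ h
      have hxx : x = x' := congrArg Subtype.val h
      subst hxx
      have hww : w = w' := by
        rw [← wd_pz (s := p) (u := y) (w := w), ← wd_pz (s := p) (u := y) (w := w'),
          wd_eq_iff']
        intro j h1 h2
        rw [← hx2 j (by omega), ← hx2' j (by omega)]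
      subst hww
      rfl
    · rintro ⟨x, hx1, hx2⟩
      refine ⟨⟨wd L (g x) p, ⟨x, fun j hj => hx1 j (by omega), fun i hi => ?_⟩⟩, rfl⟩
      by_cases hip : i < p
      · rw [pz_lt hip]; exact hx2 i hip
      · exact (pz_eq rfl (not_lt.mp hip) (by omega)).symm
  have hc : Nat.card (Ds g n ρ s0 p L y) = ∑ _w : Fin L → S, M := by
    rw [card_ds hg, h, Finset.sum_const, Finset.card_univ, Nat.card_eq_fintype_card, smul_eq_mul,
      mul_comm]
  rw [key] at hc
  exact (Finset.sum_eq_sum_iff_of_le (fun w _ => hM _ _)).1 hc w (Finset.mem_univ _)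

/-- the multiplicity is local -/
theorem cs_local (hg : Drift g g' n n' ρ) {s0 : S} {p : ℤ} {y y' : Conf S} [Finite S]
    (h : ∀ j, p - 4 * ρ ≤ j → j < p → y j = y' j) :
    Nat.card (Cs g n ρ s0 p y) ≤ Nat.card (Cs g n ρ s0 p y') := by
  have : Finite (Cs g n ρ s0 p y') := cs_finite hg
  -- transplant the left part
  have hx : ∀ x, x ∈ Cs g n ρ s0 p y → glue (p + n - ρ) (g' y') x ∈ Cs g n ρ s0 p y' := by
    rintro x ⟨hx1, hx2⟩
    refine ⟨fun j hj => by rw [glue_ge (by omega)]; exact hx1 j hj, fun i hi => ?_⟩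
    by_cases h1 : i < p - 2 * ρ
    · have e : g (glue (p + n - ρ) (g' y') x) i = g (g' y') i :=
        hg.loc _ _ _ (fun j _ hj => glue_lt (by omega))
      rw [e, hg.right]
    · have e : g (glue (p + n - ρ) (g' y') x) i = g x i := by
        apply hg.loc
        intro j hj1 hj2
        by_cases hj : j < p + n - ρ
        · rw [glue_lt hj]
          have e1 : x j = g' (g x) j := by rw [hg.left]
          rw [e1]
          apply hg.loc'
          intro l hl1 hl2
          rw [hx2 l (by omega)]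
          exact (h l (by omega) (by omega)).symm
        · exact glue_ge (not_lt.mp hj)
      rw [e, hx2 i hi]
      exact h i (by omega) hi
  refine Nat.card_le_card_of_injective
    (fun x : Cs g n ρ s0 p y => (⟨glue (p + n - ρ) (g' y') x.1, hx x.1 x.2⟩ : Cs g n ρ s0 p y'))
    ?_
  rintro ⟨x, hx1, hx2⟩ ⟨z, hz1, hz2⟩ heq
  have heq' : glue (p + n - ρ) (g' y') x = glue (p + n - ρ) (g' y') z := congrArg Subtype.val heq
  apply Subtype.ext
  funext j
  show x j = z j
  by_cases hj : j < p + n - ρ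
  · exact hg.eq_left (fun i hi => (hx2 i hi).trans (hz2 i hi).symm) j hj
  · have := congrFun heq' j
    rwa [glue_ge (not_lt.mp hj), glue_ge (not_lt.mp hj)] at this

theorem cs_tr (hg : Drift g g' n n' ρ) {s0 : S} {p : ℤ} {y : Conf S} (q : ℤ) :
    Nat.card (Cs g n ρ s0 p y) = Nat.card (Cs g n ρ s0 (p - q * n') (tr (q * n') y)) := by
  refine Nat.card_eq_of_bijective (fun x => ⟨tr (q * n') x.1, ?_, ?_⟩) ⟨?_, ?_⟩
  · intro j hj
    exact x.2.1 _ (by omega)
  · intro i hi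
    rw [hg.comm]
    exact x.2.2 _ (by omega)
  · rintro ⟨x, hx⟩ ⟨z, hz⟩ h
    have h' : tr (q * n') x = tr (q * n') z := congrArg Subtype.val h
    apply Subtype.ext
    funext j
    have := congrFun h' (j - q * n')
    simp only [tr, sub_add_cancel] at this
    exact this
  · rintro ⟨z, hz1, hz2⟩
    refine ⟨⟨tr (-(q * n')) z, fun j hj => ?_, fun i hi => ?_⟩, ?_⟩
    · exact hz1 _ (by omega)
    · have e : -(q * (n' : ℤ)) = (-q) * n' := by ring
      rw [e, hg.comm]
      simp only [tr]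
      rw [hz2 _ (by linarith)]
      simp only [tr]
      congr 1; ring
    · apply Subtype.ext
      show tr (q * n') (tr (-(q * n')) z) = z
      rw [tr_tr]
      simp [tr_zero]

/-- the multiplicity is constant -/
theorem const_mult [Finite S] (hg : Drift g g' n n' ρ) (hn' : 0 < n') (s0 : S) :
    ∃ M : ℕ, 0 < M ∧ ∀ p y, Nat.card (Cs g n ρ s0 p y) = M := by
  let s : Set ℕ := {c | ∃ p y, Nat.card (Cs g n ρ s0 p y) = c}
  have hne : s.Nonempty := ⟨_, 0, g (fun _ => s0), rfl⟩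
  have hb : BddAbove s := ⟨Nat.card (Fin (2 * ρ) → S), by
    rintro c ⟨p, y, rfl⟩
    exact cs_card_le hg⟩
  obtain ⟨p0, y0, h0⟩ := Nat.sSup_mem hne hb
  have hM : ∀ p y, Nat.card (Cs g n ρ s0 p y) ≤ sSup s := fun p y => le_csSup hb ⟨p, y, rfl⟩
  have hpos : 0 < sSup s := by
    have : Finite (Cs g n ρ s0 0 (g (fun _ => s0))) := cs_finite hg
    have : Nonempty (Cs g n ρ s0 0 (g (fun _ => s0))) := ⟨⟨fun _ => s0, fun _ _ => rfl,
      fun _ _ => rfl⟩⟩
    exact lt_of_lt_of_le Nat.card_pos (hM 0 (g (fun _ => s0)))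
  refine ⟨sSup s, hpos, fun p1 y1 => le_antisymm (hM _ _) ?_⟩
  obtain ⟨q, hq1⟩ : ∃ q : ℕ, p0 + 4 * ρ - p1 ≤ q := ⟨_, Int.self_le_toNat _⟩
  have hn1 : (1 : ℤ) ≤ n' := by omega
  have hqn : (q : ℤ) ≤ q * n' := by
    have : (q : ℤ) * 1 ≤ q * n' := mul_le_mul_of_nonneg_left hn1 (by positivity)
    linarith
  obtain ⟨L, hL⟩ : ∃ L : ℕ, (L : ℤ) = p1 + (q : ℤ) * n' - p0 :=
    ⟨(p1 + (q : ℤ) * n' - p0).toNat, Int.toNat_of_nonneg (by linarith)⟩
  -- the shifted cut
  have e1 : Nat.card (Cs g n ρ s0 p1 y1) =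
      Nat.card (Cs g n ρ s0 (p1 - (-(q : ℤ)) * n') (tr (-(q : ℤ) * n') y1)) := cs_tr hg (-(q : ℤ))
  have e2 : p1 - (-(q : ℤ)) * n' = p0 + L := by rw [hL]; ring
  rw [e1, e2]
  have hLge : (4 * ρ : ℤ) ≤ L := by linarith
  set y2 := tr (-(q : ℤ) * n') y1
  have h3 := card_ds' hg (p := p0) (L := L) (y := y0) hM h0 (wd L y2 p0)
  rw [← h3]
  exact cs_local hg (fun j hj1 hj2 => pz_eq rfl (by omega) hj2)

end

end Pool.Agent.H55.Sweep
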