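import Pool.Agent.H55.Sweep.Rt1

/-!
Roots of full shifts: if `ψ` is an action of `ℤ` on `S^ℤ` with `ψ^{n'} = σ^{n'}` and bounded
drift, then `ψ^n` is conjugate to a full shift for all large `n`.
-/

namespace Pool.Agent.H55.Sweep

open Filter Topology

/-- a `ℤ`-action extending the powers of `σ^{n'}` with drift bounded by `ρ` -/
structure Root {S : Type*} (ψ : ℤ → Conf S → Conf S) (n' ρ : ℕ) : Prop where
  add : ∀ s t x, ψ (s + t) x = ψ s (ψ t x)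
  per : ∀ (q : ℤ) x, ψ (q * n') x = tr (q * n') x
  loc : ∀ s x y i, (∀ j : ℤ, i + s - ρ ≤ j → j ≤ i + s + ρ → x j = y j) → ψ s x i = ψ s y i

section
variable {S : Type*} {ψ : ℤ → Conf S → Conf S} {n' ρ : ℕ}

theorem Root.zero (h : Root ψ n' ρ) (x : Conf S) : ψ 0 x = x := by
  have := h.per 0 x
  rw [zero_mul, tr_zero] at this
  exact this

theorem Root.drift (h : Root ψ n' ρ) (n : ℕ) : Drift (ψ n) (ψ (-(n : ℤ))) n n' ρ := by
  refine ⟨fun x => ?_, fun x => ?_, fun x y i hxy => h.loc _ _ _ _ hxy, fun x y i hxy => ?_,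
    fun q x => ?_⟩
  · rw [← h.add, neg_add_cancel, h.zero]
  · rw [← h.add, add_neg_cancel, h.zero]
  · exact h.loc _ _ _ _ (fun j h1 h2 => hxy j (by omega) (by omega))
  · rw [← h.per, ← h.add, add_comm, h.add, h.per]

/-- the word of `x` on `[-3ρ, 0)` -/
def ew (ρ : ℕ) (x : Conf S) : Fin (3 * ρ) → S := wd (3 * ρ) x (-(3 * ρ))

/-- the word of `ψ^n x` on `[-(n+2ρ), 0)` -/
def kw (ψ : ℤ → Conf S → Conf S) (n ρ : ℕ) (x : Conf S) : Fin (n + 2 * ρ) → S :=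
  wd (n + 2 * ρ) (ψ n x) (-(n + 2 * ρ))

/-- the last `3ρ` letters of a word on `[-(n+2ρ), 0)` -/
def nx (s0 : S) (n ρ : ℕ) (κ : Fin (n + 2 * ρ) → S) : Fin (3 * ρ) → S :=
  ew ρ (pz (-(n + 2 * ρ)) (fun _ => s0) κ)

/-- possible words `kw x` for `ew x = e` -/
def Poss (ψ : ℤ → Conf S → Conf S) (n ρ : ℕ) (e : Fin (3 * ρ) → S) : Set (Fin (n + 2 * ρ) → S) :=
  {κ | ∃ x, ew ρ x = e ∧ kw ψ n ρ x = κ}

theorem ew_eq_iff {x y : Conf S} : ew ρ x = ew ρ y ↔ ∀ j : ℤ, -(3 * ρ) ≤ j → j < 0 → x j = y j := by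
  simp only [ew]
  rw [wd_eq_iff']
  constructor
  · intro h j h1 h2
    exact h j (by push_cast; exact h1) (by push_cast; omega)
  · intro h j h1 h2
    exact h j (by push_cast at h1; exact h1) (by push_cast at h2; omega)

theorem kw_eq_iff {n : ℕ} {x y : Conf S} : kw ψ n ρ x = kw ψ n ρ y ↔
    ∀ j : ℤ, -(n + 2 * ρ) ≤ j → j < 0 → ψ n x j = ψ n y j := by
  simp only [kw]
  rw [wd_eq_iff']
  constructor
  · intro h j h1 h2
    exact h j (by push_cast; exact h1) (by push_cast; omega)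
  · intro h j h1 h2
    exact h j (by push_cast at h1; exact h1) (by push_cast at h2; omega)

theorem nx_kw {s0 : S} {n : ℕ} (hn : ρ ≤ n) (x : Conf S) :
    nx s0 n ρ (kw ψ n ρ x) = ew ρ (ψ n x) := by
  simp only [nx]
  rw [ew_eq_iff]
  intro j h1 h2
  exact pz_eq (z := ψ n x) rfl (by omega) (by push_cast; omega)

theorem kw_loc (h : Root ψ n' ρ) {n : ℕ} {x y : Conf S}
    (hxy : ∀ j : ℤ, -(3 * ρ) ≤ j → j < n + ρ → x j = y j) : kw ψ n ρ x = kw ψ n ρ y := by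
  rw [kw_eq_iff]
  intro i h1 h2
  exact h.loc _ _ _ _ (fun j hj1 hj2 => hxy j (by omega) (by omega))

/-- the base configuration with `ew = e` -/
def xe (s0 : S) (e : Fin (3 * ρ) → S) : Conf S := pz (-(3 * ρ)) (fun _ => s0) e

theorem ew_xe {s0 : S} (e : Fin (3 * ρ) → S) (u : Conf S) (hu : ∀ j, j < 0 → u j = xe s0 e j) :
    ew ρ u = e := by
  have h1 : ew ρ u = ew ρ (xe s0 e) := ew_eq_iff.2 (fun j _ h2 => hu j h2)
  rw [h1]
  exact wd_pz

theorem xe_eq {s0 : S} {x : Conf S} {e : Fin (3 * ρ) → S} (hx : ew ρ x = e) {j : ℤ}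
    (h1 : -(3 * ρ) ≤ j) (h2 : j < 0) : xe s0 e j = x j :=
  pz_eq (z := x) hx h1 (by push_cast; omega)

/-- fibre cardinality -/
theorem card_fibre [Finite S] (h : Root ψ n' ρ) {n : ℕ} (hn : 4 * ρ ≤ n) {s0 : S} {M : ℕ}
    (hM : ∀ p y, Nat.card (Cs (ψ n) n ρ s0 p y) = M) (e : Fin (3 * ρ) → S)
    {κ : Fin (n + 2 * ρ) → S} (hκ : κ ∈ Poss ψ n ρ e) :
    Nat.card {u : Fin (n + ρ) → S // kw ψ n ρ (pz 0 (xe s0 e) u) = κ} = M := by
  obtain ⟨x, hx1, hx2⟩ := hκ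
  set x1 : Conf S := pz 0 (xe s0 e) (wd (n + ρ) x 0) with hx1'
  have hkx1 : kw ψ n ρ x1 = κ := by
    rw [← hx2]
    apply kw_loc h
    intro j h1 h2
    by_cases hj : j < 0
    · rw [hx1', pz_lt hj]; exact xe_eq hx1 h1 hj
    · exact pz_eq rfl (not_lt.mp hj) (by push_cast; omega)
  rw [← hM 0 (ψ n x1)]
  refine Nat.card_eq_of_bijective (fun u => ⟨pz 0 (xe s0 e) u.1, fun j hj => ?_, fun i hi => ?_⟩)
    ⟨?_, ?_⟩
  · rw [pz_ge (by push_cast; omega)]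
    exact pz_ge (by push_cast; omega)
  · by_cases hi2 : i < -(n + 2 * ρ)
    · apply h.loc
      intro j _ hj
      rw [hx1', pz_lt (by omega), pz_lt (by omega)]
    · exact kw_eq_iff.1 (u.2.trans hkx1.symm) i (not_lt.mp hi2) hi
  · rintro ⟨u, hu⟩ ⟨v, hv⟩ huv
    have huv' : pz 0 (xe s0 e) u = pz 0 (xe s0 e) v := congrArg Subtype.val huv
    apply Subtype.ext
    show u = v
    rw [← wd_pz (s := 0) (u := xe s0 e) (w := u), huv', wd_pz]
  · rintro ⟨z, hz1, hz2⟩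
    have hzx : ∀ j : ℤ, j < 0 → z j = xe s0 e j := by
      intro j hj
      have := (h.drift n).eq_left hz2 j (by omega)
      rw [this, hx1', pz_lt hj]
    have hpz : pz 0 (xe s0 e) (wd (n + ρ) z 0) = z := by
      funext j
      by_cases hj : j < 0
      · rw [pz_lt hj, hzx j hj]
      · by_cases hj2 : j < (n + ρ : ℕ)
        · exact pz_eq rfl (not_lt.mp hj) (by omega)
        · rw [pz_ge (by omega), hz1 j (by push_cast at hj2; omega)]
          exact pz_ge (by push_cast; omega)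
    refine ⟨⟨wd (n + ρ) z 0, ?_⟩, Subtype.ext hpz⟩
    rw [hpz, ← hkx1, kw_eq_iff]
    intro j _ hj2
    exact hz2 j hj2

/-- number of possible words with given end -/
theorem card_poss [Finite S] (h : Root ψ n' ρ) {n : ℕ} (hn : 4 * ρ ≤ n) {s0 : S} {M : ℕ}
    (hM : ∀ p y, Nat.card (Cs (ψ n) n ρ s0 p y) = M) (e e' : Fin (3 * ρ) → S) :
    Nat.card {u : Fin (n + ρ) → S // ew ρ (ψ n (pz 0 (fun _ => s0) u)) = e'} =
      Nat.card {κ : Poss ψ n ρ e // nx s0 n ρ κ.1 = e'} * M := by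
  classical
  have : Fintype S := Fintype.ofFinite S
  have hew : ∀ u : Fin (n + ρ) → S,
      ew ρ (ψ n (pz 0 (xe s0 e) u)) = ew ρ (ψ n (pz 0 (fun _ => s0) u)) := by
    intro u
    rw [ew_eq_iff]
    intro i h1 h2
    apply h.loc
    intro j hj1 hj2
    exact (pz_eq (z := pz 0 (fun _ => s0) u) wd_pz (by omega) (by push_cast; omega))
  have hmem : ∀ u : Fin (n + ρ) → S, kw ψ n ρ (pz 0 (xe s0 e) u) ∈ Poss ψ n ρ e := fun u =>
    ⟨_, ew_xe e _ (fun j hj => pz_lt hj), rfl⟩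
  let F : {u : Fin (n + ρ) → S // ew ρ (ψ n (pz 0 (fun _ => s0) u)) = e'} →
      {κ : Poss ψ n ρ e // nx s0 n ρ κ.1 = e'} := fun u =>
    ⟨⟨kw ψ n ρ (pz 0 (xe s0 e) u.1), hmem u.1⟩, by
      rw [nx_kw (by omega), hew]; exact u.2⟩
  have h1 : Nat.card {u : Fin (n + ρ) → S // ew ρ (ψ n (pz 0 (fun _ => s0) u)) = e'} =
      ∑ κ, Nat.card {u // F u = κ} := by
    rw [← Nat.card_sigma]
    exact (Nat.card_congr (Equiv.sigmaFiberEquiv F)).symm
  have h2 : ∀ κ, Nat.card {u // F u = κ} = M := by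
    rintro ⟨⟨κ, hκ⟩, hκe⟩
    rw [← card_fibre h hn hM e hκ]
    refine Nat.card_congr ⟨fun u => ⟨u.1.1, congrArg (fun q => q.1.1) u.2⟩,
      fun u => ⟨⟨u.1, ?_⟩, Subtype.ext (Subtype.ext u.2)⟩, fun u => rfl, fun u => rfl⟩
    rw [← hew, ← nx_kw (s0 := s0) (by omega), u.2]
    exact hκe
  rw [h1, Finset.sum_congr rfl (fun κ _ => h2 κ), Finset.sum_const, Finset.card_univ,
    Nat.card_eq_fintype_card, smul_eq_mul]

/-- equal fibre cardinalities give a bijection, two types -/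
theorem exists_equiv_fib {α α' γ : Type*} [Finite α] [Finite α'] (g1 : α → γ) (g2 : α' → γ)
    (h : ∀ e, Nat.card {v // g1 v = e} = Nat.card {v // g2 v = e}) :
    ∃ β : α ≃ α', ∀ v, g2 (β v) = g1 v := by
  classical
  have h1 : ∀ e, Nonempty ({v // g1 v = e} ≃ {v // g2 v = e}) := fun e => by
    rw [← Finite.card_eq (α := {v // g1 v = e}) (β := {v // g2 v = e})]
    exact h e
  let φ : ∀ e, {v // g1 v = e} ≃ {v // g2 v = e} := fun e => (h1 e).some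
  refine ⟨(Equiv.sigmaFiberEquiv g1).symm.trans
    ((Equiv.sigmaCongrRight φ).trans (Equiv.sigmaFiberEquiv g2)), fun v => ?_⟩
  have : (((Equiv.sigmaFiberEquiv g1).symm.trans
    ((Equiv.sigmaCongrRight φ).trans (Equiv.sigmaFiberEquiv g2))) v) =
      ((φ (g1 v) ⟨v, rfl⟩ : {u // g2 u = g1 v}) : α') := rfl
  rw [this]
  exact (φ (g1 v) ⟨v, rfl⟩).2

/-- the coding function -/
theorem exists_code [Finite S] (h : Root ψ n' ρ) (hn' : 0 < n') {n : ℕ} (hn : 4 * ρ ≤ n)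
    (s0 : S) : ∃ (Q : Set (Fin (n + 2 * ρ) → S)) (B : Conf S → Q),
      (∀ x y, B x = B y → ew ρ (ψ n x) = ew ρ (ψ n y)) ∧
      (∀ x y, ew ρ x = ew ρ y → (B x = B y ↔ kw ψ n ρ x = kw ψ n ρ y)) ∧
      (∀ (x : Conf S) (q : Q), ∃ x' : Conf S, (∀ j : ℤ, j < 0 → x' j = x j) ∧ B x' = q) := by
  obtain ⟨M, hMpos, hM⟩ := const_mult (h.drift n) hn' s0
  let e0 : Fin (3 * ρ) → S := fun _ => s0
  have hβ : ∀ e, ∃ β : Poss ψ n ρ e ≃ Poss ψ n ρ e0, ∀ κ, nx s0 n ρ (β κ).1 = nx s0 n ρ κ.1 := by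
    intro e
    refine exists_equiv_fib (fun κ : Poss ψ n ρ e => nx s0 n ρ κ.1)
      (fun κ : Poss ψ n ρ e0 => nx s0 n ρ κ.1) (fun e' => ?_)
    have h1 := card_poss h hn hM e e'
    have h2 := card_poss h hn hM e0 e'
    rw [h1] at h2
    exact Nat.eq_of_mul_eq_mul_right hMpos h2
  choose β hβ using hβ
  have hβc : ∀ e e' (κ : Poss ψ n ρ e) (κ' : Poss ψ n ρ e'), e = e' → κ.1 = κ'.1 →
      β e κ = β e' κ' := by
    rintro e _ κ κ' rfl hk
    rw [Subtype.ext hk]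
  let B : Conf S → Poss ψ n ρ e0 := fun x => β (ew ρ x) ⟨kw ψ n ρ x, x, rfl, rfl⟩
  have key : ∀ (x y : Conf S), ew ρ x = ew ρ y → (B x = B y ↔ kw ψ n ρ x = kw ψ n ρ y) := by
    intro x y hxy
    have e1 : B y = β (ew ρ x) ⟨kw ψ n ρ y, y, hxy.symm, rfl⟩ := hβc _ _ _ _ hxy.symm rfl
    rw [e1]
    constructor
    · intro hB
      have := (β (ew ρ x)).injective hB
      exact congrArg Subtype.val this
    · intro hk
      exact congrArg (β (ew ρ x)) (Subtype.ext hk)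
  refine ⟨Poss ψ n ρ e0, B, fun x y hxy => ?_, key, fun x q => ?_⟩
  · have h1 : nx s0 n ρ (B x).1 = ew ρ (ψ n x) := by
      simp only [B]
      rw [hβ, nx_kw (by omega)]
    have h2 : nx s0 n ρ (B y).1 = ew ρ (ψ n y) := by
      simp only [B]
      rw [hβ, nx_kw (by omega)]
    rw [← h1, ← h2, hxy]
  · obtain ⟨⟨κ, z, hz1, hz2⟩, hκ⟩ := (β (ew ρ x)).surjective q
    set x' : Conf S := glue 0 x z with hx'
    have he : ew ρ x' = ew ρ x := ew_eq_iff.2 (fun j _ h2 => glue_lt h2)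
    have hk : kw ψ n ρ x' = κ := by
      rw [← hz2]
      apply kw_loc h
      intro j h1 _
      by_cases hj : j < 0
      · rw [hx', glue_lt hj]
        exact ew_eq_iff.1 hz1.symm j h1 hj
      · exact glue_ge (not_lt.mp hj)
    refine ⟨x', fun j hj => glue_lt hj, ?_⟩
    rw [← hκ]
    have e1 : B x' = β (ew ρ x) ⟨kw ψ n ρ x', x', he, rfl⟩ := hβc _ _ _ _ he rfl
    rw [e1]
    exact congrArg (β (ew ρ x)) (Subtype.ext hk)

end

end Pool.Agent.H55.Sweep
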