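import Pool.Agent.H55.Sweep.Rt2

/-!
Conjugacy of `ψ^n` with the full shift, and: a quotient of `S^ℤ` which is conjugate to the full
shift for one power is so for all large powers.
-/

namespace Pool.Agent.H55.Sweep

open Filter Topology

theorem card_fix {T : Type*} [Finite T] {p : ℕ} (hp : 0 < p) :
    Nat.card {x : Conf T // tr p x = x} = Nat.card T ^ p := by
  have e : Nat.card (Fin p → T) = Nat.card T ^ p := by
    rw [Nat.card_fun, Nat.card_eq_fintype_card (α := Fin p), Fintype.card_fin]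
  rw [← e]
  refine Nat.card_eq_of_bijective (fun x => enc p x.1 0) ⟨?_, ?_⟩
  · have key : ∀ x : Conf T, tr p x = x → ∀ j, enc p x j = enc p x 0 := by
      intro x hx j
      have h1 : x = tr (j * p) x :=
        comm_tr_mul (h := fun _ : Conf T => x) (n := (p : ℤ)) (fun _ => hx.symm) j x
      have h2 := enc_tr (n := p) j x
      rw [← h1] at h2
      have h3 := congrFun h2 0
      rw [tr_apply, zero_add] at h3
      exact h3.symm
    rintro ⟨x, hx⟩ ⟨y, hy⟩ hxy
    apply Subtype.ext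
    apply enc_inj hp
    funext j
    show enc p x j = enc p y j
    rw [key x hx, key y hy]
    exact hxy
  · intro w
    refine ⟨⟨dec hp (fun _ => w), ?_⟩, ?_⟩
    · have := dec_tr hp 1 (fun _ => w : Conf (Fin p → T))
      rw [one_mul] at this
      rw [← this]
      rfl
    · show enc p (dec hp (fun _ => w)) 0 = w
      rw [enc_dec]

section
variable {S : Type*} {ψ : ℤ → Conf S → Conf S} {n' ρ : ℕ}

theorem exists_conj [Finite S] (h : Root ψ n' ρ) (hn' : 0 < n') {n : ℕ} (hn : 4 * ρ ≤ n)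
    (hn0 : 0 < n) (s0 : S) :
    ∃ (Q : Set (Fin (n + 2 * ρ) → S)) (Θ : Conf S → Conf Q), Function.Bijective Θ ∧
      (∀ (k : ℤ) x, Θ (ψ (n * k) x) = tr k (Θ x)) ∧
      (∀ t : ℤ, ∃ r1 r2 : ℤ, ∀ x y : Conf S, (∀ j, r1 ≤ j → j ≤ r2 → x j = y j) →
        Θ x t = Θ y t) := by
  obtain ⟨Q, B, hB1, hB2, hB3⟩ := exists_code h hn' hn s0
  have hnz : (0 : ℤ) < n := by omega
  have hBloc : ∀ x y : Conf S, (∀ j : ℤ, -(3 * ρ) ≤ j → j < n + ρ → x j = y j) → B x = B y := by
    intro x y hxy
    exact (hB2 x y (ew_eq_iff.2 fun j h1 h2 => hxy j h1 (by omega))).2 (kw_loc h hxy)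
  have hloc : ∀ (t : ℤ) (x y : Conf S),
      (∀ j, -(3 * ρ) + n * t - ρ ≤ j → j ≤ n + ρ + n * t + ρ → x j = y j) →
      B (ψ (n * t) x) = B (ψ (n * t) y) := by
    intro t x y hxy
    apply hBloc
    intro j h1 h2
    exact h.loc _ _ _ _ (fun l hl1 hl2 => hxy l (by omega) (by omega))
  refine ⟨Q, fun x t => B (ψ (n * t) x), ⟨?_, ?_⟩, fun k x => ?_, fun t =>
    ⟨-(3 * ρ) + n * t - ρ, n + ρ + n * t + ρ, fun x y hxy => hloc t x y hxy⟩⟩
  · -- injective
    intro x y hxy
    have hb : ∀ t : ℤ, B (ψ (n * t) x) = B (ψ (n * t) y) := fun t => congrFun hxy t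
    have hsucc : ∀ (t : ℤ) (z : Conf S), ψ n (ψ (n * (t - 1)) z) = ψ (n * t) z := by
      intro t z
      rw [← h.add]; congr 1; ring
    have he : ∀ t : ℤ, ew ρ (ψ (n * t) x) = ew ρ (ψ (n * t) y) := by
      intro t
      have := hB1 _ _ (hb (t - 1))
      rwa [hsucc, hsucc] at this
    have hk : ∀ t : ℤ, ∀ j : ℤ, -(n + 2 * ρ) ≤ j → j < 0 → ψ (n * t) x j = ψ (n * t) y j := by
      intro t j h1 h2
      have := kw_eq_iff.1 ((hB2 _ _ (he (t - 1))).1 (hb (t - 1))) j h1 h2
      rwa [hsucc, hsucc] at this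
    funext i
    set t : ℤ := (i + ρ + n) / n with ht
    have ht1 : (n : ℤ) * t ≤ i + ρ + n := Int.mul_ediv_self_le hnz.ne'
    have ht2 : i + ρ < n * t := by
      have := Int.lt_ediv_add_one_mul_self (i + ρ + n) hnz
      have e : ((i + ρ + n) / (n : ℤ) + 1) * n = n * t + n := by rw [ht]; ring
      rw [e] at this
      omega
    have e : ∀ z : Conf S, z i = ψ (-(n * t)) (ψ (n * t) z) i := by
      intro z
      rw [← h.add, neg_add_cancel, h.zero]
    rw [e x, e y]
    apply h.loc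
    intro j h1 h2
    exact hk t j (by omega) (by omega)
  · -- surjective
    intro q
    have hfin : ∀ (I : ℕ) (a : ℤ), ∃ w : Conf S, ∀ i : ℕ, i < I → B (ψ (n * i) w) = q (a + i) := by
      intro I a
      induction I with
      | zero => exact ⟨fun _ => s0, fun i hi => absurd hi (Nat.not_lt_zero i)⟩
      | succ I ih =>
        obtain ⟨w, hw⟩ := ih
        obtain ⟨v', hv1, hv2⟩ := hB3 (ψ (n * I) w) (q (a + I))
        refine ⟨ψ (-(n * I)) v', fun i hi => ?_⟩
        by_cases hiI : i < I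
        · rw [← hw i hiI]
          have e1 : ψ (n * i) (ψ (-(n * I)) v') = ψ (n * i - n * I) v' := by
            rw [← h.add]; congr 1
          have e2 : ψ (n * i) w = ψ (n * i - n * I) (ψ (n * I) w) := by
            rw [← h.add]; congr 1; ring
          rw [e1, e2]
          set v := ψ (n * (I : ℤ)) w
          have hle : (n : ℤ) * i - n * I ≤ -n := by
            have h1 : ((i : ℤ) + 1) ≤ I := by exact_mod_cast hiI
            have h2 : (n : ℤ) * (i + 1) ≤ n * I := mul_le_mul_of_nonneg_left h1 hnz.le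
            have e : (n : ℤ) * (i + 1) = n * i + n := by ring
            omega
          have he : ew ρ (ψ (n * i - n * I) v') = ew ρ (ψ (n * i - n * I) v) := by
            rw [ew_eq_iff]
            intro j _ hj2
            exact h.loc _ _ _ _ (fun l _ hl2 => hv1 l (by omega))
          rw [hB2 _ _ he, kw_eq_iff]
          intro j _ hj2
          rw [← h.add, ← h.add]
          rcases eq_or_lt_of_le hle with heq | hlt
          · have e0 : (n : ℤ) + (n * i - n * I) = 0 := by omega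
            rw [e0, h.zero, h.zero]
            exact hv1 j hj2
          · have h1 : (i : ℤ) + 1 < I := by
              by_contra hcon
              have h2 : (I : ℤ) ≤ i + 1 := not_lt.mp hcon
              have h3 : (n : ℤ) * I ≤ n * (i + 1) := mul_le_mul_of_nonneg_left h2 hnz.le
              have e : (n : ℤ) * (i + 1) = n * i + n := by ring
              omega
            have h2 : (n : ℤ) * (i + 2) ≤ n * I := mul_le_mul_of_nonneg_left (by omega) hnz.le
            have e : (n : ℤ) * (i + 2) = n * i + n + n := by ring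
            exact h.loc _ _ _ _ (fun l _ hl2 => hv1 l (by omega))
        · have hie : i = I := by omega
          subst hie
          rw [← h.add, add_neg_cancel, h.zero, hv2]
    choose w hw using fun J : ℕ => hfin (2 * J) (-(J : ℤ))
    have hz : ∀ (J : ℕ) (t : ℤ), -(J : ℤ) ≤ t → t < J →
        B (ψ (n * t) (ψ (n * J) (w J))) = q t := by
      intro J t h1 h2
      have h3 := hw J (t + J).toNat (by omega)
      rw [Int.toNat_of_nonneg (by omega)] at h3
      rw [← h.add]
      have e1 : (n : ℤ) * t + n * J = n * (t + J) := by ring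
      have e2 : -(J : ℤ) + (t + J) = t := by ring
      rw [e1, h3, e2]
    obtain ⟨φ, p, hφ, hp⟩ := exists_conv (fun J : ℕ => ψ (n * J) (w J))
    refine ⟨p, funext fun t => ?_⟩
    obtain ⟨N, hN⟩ := hp.window (-(3 * ρ) + n * t - ρ) (n + ρ + n * t + ρ)
    set k := N + t.natAbs + 1
    have h1 : k ≤ φ k := hφ.id_le k
    have h2 : (t.natAbs : ℤ) + 1 ≤ φ k := by
      have : t.natAbs + 1 ≤ φ k := by omega
      exact_mod_cast this
    rw [← hz (φ k) t (by omega) (by omega)]
    exact hloc t _ _ (fun j hj1 hj2 => (hN k (by omega) j hj1 hj2).symm)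
  · funext t
    show B (ψ (n * t) (ψ (n * k) x)) = B (ψ (n * (t + k)) x)
    rw [← h.add]
    congr 2; ring

/-- conjugacy with `σ^n` on `S^ℤ` -/
theorem exists_conj' [TopologicalSpace S] [DiscreteTopology S] [Finite S] (h : Root ψ n' ρ)
    (hn' : 0 < n') {n : ℕ} (hn : 4 * ρ ≤ n) (hn0 : 0 < n) (s0 : S) :
    ∃ Θ : Conf S → Conf S, Continuous Θ ∧ Function.Bijective Θ ∧
      ∀ x, Θ (ψ n x) = tr n (Θ x) := by
  classical
  have : Fintype S := Fintype.ofFinite S
  obtain ⟨Q, Θ, hΘ1, hΘ2, hΘ3⟩ := exists_conj h hn' hn hn0 s0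
  have hcard : Nat.card Q = Nat.card (Fin n → S) := by
    have h1 := card_fix (T := S) (p := n * n') (by positivity)
    have h2 := card_fix (T := Q) (p := n') hn'
    have h3 : Nat.card {x : Conf S // tr ((n * n' : ℕ) : ℤ) x = x} =
        Nat.card {X : Conf Q // tr n' X = X} := by
      have key : ∀ x, Θ (tr ((n * n' : ℕ) : ℤ) x) = tr n' (Θ x) := by
        intro x
        rw [← hΘ2]
        congr 1
        have := h.per n x
        push_cast
        rw [this]
      refine Nat.card_eq_of_bijective (fun x => ⟨Θ x.1, ?_⟩) ⟨?_, ?_⟩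
      · rw [← key, x.2]
      · rintro ⟨x, hx⟩ ⟨y, hy⟩ hxy
        exact Subtype.ext (hΘ1.1 (congrArg Subtype.val hxy))
      · rintro ⟨X, hX⟩
        obtain ⟨x, rfl⟩ := hΘ1.2 X
        exact ⟨⟨x, hΘ1.1 (by rw [key, hX])⟩, rfl⟩
    rw [h1, h2, pow_mul] at h3
    have h4 := Nat.pow_left_injective hn'.ne' h3
    rw [← h4, Nat.card_fun, Nat.card_eq_fintype_card (α := Fin n), Fintype.card_fin]
  obtain ⟨ε⟩ : Nonempty (Q ≃ (Fin n → S)) := (Finite.card_eq).1 hcard
  refine ⟨fun x => dec hn0 (fun t => ε (Θ x t)), ?_, ⟨?_, ?_⟩, fun x => ?_⟩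
  · apply continuous_pi
    intro p
    apply continuous_of_window
    obtain ⟨r1, r2, hr⟩ := hΘ3 (p / n)
    refine ⟨r1, r2, fun x y hxy => ?_⟩
    apply dec_congr
    rw [hr x y hxy]
  · intro x y hxy
    apply hΘ1.1
    funext t
    have := congrFun (dec_inj hn0 hxy) t
    exact ε.injective this
  · intro y
    obtain ⟨x, hx⟩ := hΘ1.2 (fun t => ε.symm (enc n y t))
    refine ⟨x, ?_⟩
    simp only [hx, Equiv.apply_symm_apply]
    exact dec_enc hn0 y
  · have e1 := hΘ2 1 x
    rw [mul_one] at e1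
    have e2 := dec_tr hn0 1 (fun t => ε (Θ x t))
    rw [one_mul] at e2
    show dec hn0 (fun t => ε (Θ (ψ n x) t)) = tr n (dec hn0 (fun t => ε (Θ x t)))
    rw [← e2, e1]
    rfl

end

section
variable {S : Type*} [TopologicalSpace S] [DiscreteTopology S] [Finite S]
variable {K : Conf S → Conf S → Prop}

theorem tr_cont (n : ℤ) : Continuous (tr n : Conf S → Conf S) :=
  continuous_pi fun i => continuous_apply (i + n)

/-- one power is enough -/
theorem quo_all (hK : IsRel K) {n' : ℕ} (hn' : 0 < n') (hQ : Quo n' K) :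
    ∃ n1 : ℕ, ∀ n : ℕ, n1 ≤ n → Quo n K := by
  rcases isEmpty_or_nonempty S with hS | ⟨⟨s0⟩⟩
  · have hE : IsEmpty (Conf S) := ⟨fun x => hS.false (x 0)⟩
    exact ⟨0, fun n _ => ⟨id, continuous_id, fun _ => rfl, Function.surjective_id,
      fun x => (hE.false x).elim⟩⟩
  obtain ⟨H, hH1, hH2, hH3, hH4⟩ := hQ
  obtain ⟨ψ, hψ⟩ : ∃ ψ : ℤ → Conf S → Conf S, ∀ s x, ψ s (H x) = H (tr s x) := by
    refine ⟨fun s u => H (tr s (Function.surjInv hH3 u)), fun s x => ?_⟩
    apply (hH4 _ _).2
    apply hK.inv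
    exact (hH4 _ _).1 (Function.surjInv_eq hH3 (H x))
  have hadd : ∀ s t x, ψ (s + t) x = ψ s (ψ t x) := by
    intro s t u
    obtain ⟨x, rfl⟩ := hH3 u
    rw [hψ, hψ, hψ, tr_tr]
  have hper : ∀ (q : ℤ) x, ψ (q * n') x = tr (q * n') x := by
    intro q u
    obtain ⟨x, rfl⟩ := hH3 u
    rw [hψ, comm_tr_mul hH2]
  have hcont : ∀ s, Continuous (ψ s) := by
    intro s
    have hq : IsQuotientMap H := (hH1.isClosedMap).isQuotientMap hH1 hH3
    rw [hq.continuous_iff]
    have : ψ s ∘ H = H ∘ tr s := funext fun x => hψ s x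
    rw [this]
    exact hH1.comp (tr_cont s)
  have hcomm : ∀ s x, ψ s (tr n' x) = tr n' (ψ s x) := by
    intro s x
    have e : ∀ y, tr (n' : ℤ) y = ψ n' y := by
      intro y
      have := hper 1 y
      rw [one_mul] at this
      exact this.symm
    rw [e, e, ← hadd, ← hadd, add_comm]
  have hrad : ∀ r : ℕ, ∃ ρ : ℕ, ∀ x y i, (∀ j : ℤ, i - ρ ≤ j → j ≤ i + ρ → x j = y j) →
      ψ r x i = ψ r y i := fun r => exists_radius_pow (hcont r) hn' (hcomm r)
  choose R hR using hrad
  set R0 := (Finset.range n').sup R with hR0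
  have hroot : Root ψ n' (R0 + n') := by
    refine ⟨hadd, hper, fun s x y i hxy => ?_⟩
    have hnz : (0 : ℤ) < n' := by omega
    have h0 := Int.emod_nonneg s hnz.ne'
    have h1 := Int.emod_lt_of_pos s hnz
    have h2 := Int.mul_ediv_add_emod s n'
    obtain ⟨r, hr⟩ := Int.eq_ofNat_of_zero_le h0
    have hrn : r < n' := by omega
    have hRr : R r ≤ R0 := Finset.le_sup (Finset.mem_range.2 hrn)
    have e : ∀ z, ψ s z i = ψ r z (i + s / n' * n') := by
      intro z
      have e1 : s = s / n' * n' + r := by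
        rw [← hr]; linarith [mul_comm (n' : ℤ) (s / n')]
      conv_lhs => rw [e1]
      rw [hadd, hper]
      rfl
    rw [e, e]
    apply hR
    intro j hj1 hj2
    have h3 : s / (n' : ℤ) * n' = s - r := by
      rw [← hr]; linarith [mul_comm (n' : ℤ) (s / n')]
    rw [h3] at hj1 hj2
    have h4 : (R r : ℤ) ≤ R0 := by exact_mod_cast hRr
    apply hxy
    · push_cast; omega
    · push_cast; omega
  refine ⟨4 * (R0 + n') + 1, fun n hn => ?_⟩
  obtain ⟨Θ, hΘ1, hΘ2, hΘ3⟩ := exists_conj' hroot hn' (n := n) (by omega) (by omega) s0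
  refine ⟨Θ ∘ H, hΘ1.comp hH1, fun x => ?_, hΘ2.2.comp hH3, fun x y => ?_⟩
  · show Θ (H (tr n x)) = tr n (Θ (H x))
    rw [← hψ, hΘ3]
  · rw [← hH4]
    exact ⟨fun h => hΘ2.1 h, fun h => congrArg Θ h⟩

end

end Pool.Agent.H55.Sweep
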