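import Pool.Agent.H55.Sweep.Basic

namespace Pool.Agent.H55.Sweep

open Filter Topology

section
variable {S : Type*}

/-- all pairs of words of length `m` visible in the kernel of `h` -/
def Vis (m : ℕ) (h : Conf S → Conf S) : Set ((Fin m → S) × (Fin m → S)) :=
  {q | ∃ u v t, h u = h v ∧ st m u v t = q}

theorem vis_mono {m : ℕ} {g h : Conf S → Conf S} : Vis m h ⊆ Vis m (g ∘ h) := by
  rintro q ⟨u, v, t, huv, hq⟩
  exact ⟨u, v, t, congrArg g huv, hq⟩

theorem vis_symm {m : ℕ} {h : Conf S → Conf S} {q : (Fin m → S) × (Fin m → S)}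
    (hq : q ∈ Vis m h) : q.swap ∈ Vis m h := by
  obtain ⟨u, v, t, huv, rfl⟩ := hq
  exact ⟨v, u, t, huv.symm, rfl⟩

theorem vis_diag {m : ℕ} (h : Conf S → Conf S) (x : Conf S) (t : ℤ) : st m x x t ∈ Vis m h :=
  ⟨x, x, t, rfl, rfl⟩

theorem st_glue_le {m : ℕ} {t : ℤ} {x y x' y' : Conf S}
    (hx : ∀ j : ℤ, t ≤ j → j < t + m → x j = x' j)
    (hy : ∀ j : ℤ, t ≤ j → j < t + m → y j = y' j) {s : ℤ} (hs : s ≤ t) :
    st m (glue t x x') (glue t y y') s = st m x y s := by
  rw [st_eq_iff]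
  constructor
  · intro j h0 hj
    by_cases hlt : s + j < t
    · rw [glue_lt hlt]
    · rw [glue_ge (not_lt.mp hlt)]
      exact (hx _ (not_lt.mp hlt) (by omega)).symm
  · intro j h0 hj
    by_cases hlt : s + j < t
    · rw [glue_lt hlt]
    · rw [glue_ge (not_lt.mp hlt)]
      exact (hy _ (not_lt.mp hlt) (by omega)).symm

theorem st_glue_ge {m : ℕ} {t : ℤ} {x y x' y' : Conf S} {s : ℤ} (hs : t ≤ s) :
    st m (glue t x x') (glue t y y') s = st m x' y' s := by
  rw [st_eq_iff]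
  constructor
  · intro j h0 hj
    rw [glue_ge (by omega)]
  · intro j h0 hj
    rw [glue_ge (by omega)]

/-- matching a kernel pair to a state: after translation it sits at the same place -/
theorem exists_match [TopologicalSpace S] {m : ℕ} {h : Conf S → Conf S} (hh : IsCA h)
    {x y : Conf S} {s : ℤ} (hq : st m x y s ∈ Vis m h) :
    ∃ u v, h u = h v ∧ (∀ j : ℤ, s ≤ j → j < s + m → u j = x j) ∧
      (∀ j : ℤ, s ≤ j → j < s + m → v j = y j) := by
  obtain ⟨u, v, t, huv, hst⟩ := hq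
  refine ⟨tr (t - s) u, tr (t - s) v, ?_, ?_, ?_⟩
  · rw [comm_tr hh, comm_tr hh, huv]
  · intro j h1 h2
    have := (st_eq_iff.mp hst).1 (j - s) (by omega) (by omega)
    simp only [tr]
    have e1 : t + (j - s) = j + (t - s) := by ring
    have e2 : s + (j - s) = j := by ring
    rw [e1, e2] at this
    exact this
  · intro j h1 h2
    have := (st_eq_iff.mp hst).2 (j - s) (by omega) (by omega)
    simp only [tr]
    have e1 : t + (j - s) = j + (t - s) := by ring
    have e2 : s + (j - s) = j := by ring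
    rw [e1, e2] at this
    exact this

variable [TopologicalSpace S] [DiscreteTopology S] [Finite S]

/-- the structure theorem, saturation form -/
theorem sat {f G h : Conf S → Conf S} {a : ℤ} {m : ℕ} (hw : Window f a m) (hfG : f = G ∘ h)
    (hG : PreInj G) (hh : IsCA h) {x y : Conf S} (hxy : f x = f y)
    (hL : ∀ T : ℤ, ∃ s, s ≤ T ∧ st m x y s ∈ Vis m h)
    (hR : ∀ T : ℤ, ∃ t, T ≤ t ∧ st m x y t ∈ Vis m h) : h x = h y := by
  obtain ⟨ρ, hρ⟩ := exists_radius hh
  funext i
  obtain ⟨s, hs, hqs⟩ := hL (i - ρ)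
  obtain ⟨t, ht, hqt⟩ := hR (i + ρ + 1)
  obtain ⟨u, v, huv, hu, hv⟩ := exists_match hh hqs
  obtain ⟨u', v', huv', hu', hv'⟩ := exists_match hh hqt
  have hst : s ≤ t := by omega
  -- right gluing
  have e1 : f (glue t x u') = f (glue t y v') :=
    ker_glue hw (fun j h1 h2 => (hu' j h1 h2).symm) (fun j h1 h2 => (hv' j h1 h2).symm) hxy
      (by rw [hfG]; exact congrArg G huv')
  have agx : ∀ j : ℤ, j < t + m → glue t x u' j = x j := by
    intro j hj
    by_cases hlt : j < t
    · exact glue_lt hlt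
    · rw [glue_ge (not_lt.mp hlt)]; exact hu' j (not_lt.mp hlt) hj
  have agy : ∀ j : ℤ, j < t + m → glue t y v' j = y j := by
    intro j hj
    by_cases hlt : j < t
    · exact glue_lt hlt
    · rw [glue_ge (not_lt.mp hlt)]; exact hv' j (not_lt.mp hlt) hj
  have e2 : f (glue s u (glue t x u')) = f (glue s v (glue t y v')) :=
    ker_glue hw (fun j h1 h2 => by rw [agx j (by omega)]; exact hu j h1 h2)
      (fun j h1 h2 => by rw [agy j (by omega)]; exact hv j h1 h2)
      (by rw [hfG]; exact congrArg G huv) e1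
  set z := glue s u (glue t x u') with hz
  set w := glue s v (glue t y v') with hw'
  have e3 : h z = h w := by
    apply hG
    · have := e2; rw [hfG] at this; exact this
    · refine ⟨s - ρ - 1, fun j hj => ?_⟩
      have h1 : h z j = h u j := hρ _ _ _ (fun k _ hk => glue_lt (by omega))
      have h2 : h w j = h v j := hρ _ _ _ (fun k _ hk => glue_lt (by omega))
      rw [h1, h2, huv]
    · refine ⟨t + ρ, fun j hj => ?_⟩
      have h1 : h z j = h u' j := hρ _ _ _ (fun k hk _ => by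
        rw [hz, glue_ge (by omega), glue_ge (by omega)])
      have h2 : h w j = h v' j := hρ _ _ _ (fun k hk _ => by
        rw [hw', glue_ge (by omega), glue_ge (by omega)])
      rw [h1, h2, huv']
  have hzx : h z i = h x i := hρ _ _ _ (fun k hk1 hk2 => by
    rw [hz, glue_ge (by omega), glue_lt (by omega)])
  have hwy : h w i = h y i := hρ _ _ _ (fun k hk1 hk2 => by
    rw [hw', glue_ge (by omega), glue_lt (by omega)])
  rw [← hzx, ← hwy, e3]

/-- the structure theorem: the kernel of a right factor `h` of `f` is determined by the pairs of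
words visible in it -/
theorem ker_iff {f G h : Conf S → Conf S} {a : ℤ} {m : ℕ} (hw : Window f a m) (hfG : f = G ∘ h)
    (hG : PreInj G) (hh : IsCA h) (x y : Conf S) : h x = h y ↔ Ker f m (Vis m h) x y := by
  constructor
  · intro hxy
    exact ⟨by rw [hfG]; exact congrArg G hxy, fun t => ⟨x, y, t, hxy, rfl⟩⟩
  · rintro ⟨h1, h2⟩
    exact sat hw hfG hG hh h1 (fun T => ⟨T, le_rfl, h2 T⟩) (fun T => ⟨T, le_rfl, h2 T⟩)

/-- forward closedness for a right-closing step -/
theorem fwd_step {f G g h : Conf S → Conf S} {a : ℤ} {m : ℕ} (hw : Window f a m)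
    (hfG : f = G ∘ (g ∘ h)) (hG : PreInj G) (hg : IsCA g) (hh : IsCA h) (hcl : RightClosing g)
    {x y : Conf S} (hxy : g (h x) = g (h y)) {t : ℤ} (ht : st m x y t ∈ Vis m h) :
    st m x y (t + 1) ∈ Vis m h := by
  obtain ⟨ρ, hρ⟩ := exists_radius hh
  obtain ⟨u, v, huv, hu, hv⟩ := exists_match hh ht
  have hfxy : f x = f y := by rw [hfG]; exact congrArg G hxy
  have e1 : f (glue t u x) = f (glue t v y) :=
    ker_glue hw hu hv (by rw [hfG]; exact congrArg (fun z => G (g z)) huv) hfxy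
  have hK : Ker f m (Vis m (g ∘ h)) (glue t u x) (glue t v y) := by
    refine ⟨e1, fun s => ?_⟩
    by_cases hs : s ≤ t
    · rw [st_glue_le hu hv hs]
      exact vis_mono ⟨u, v, s, huv, rfl⟩
    · rw [st_glue_ge (by omega)]
      exact ⟨x, y, s, hxy, rfl⟩
  have e2 : (g ∘ h) (glue t u x) = (g ∘ h) (glue t v y) :=
    (ker_iff hw hfG hG (isCA_comp hg hh) _ _).2 hK
  have e3 : h (glue t u x) = h (glue t v y) := by
    refine hcl _ _ e2 ⟨t - ρ - 1, fun j hj => ?_⟩
    have h1 : h (glue t u x) j = h u j := hρ _ _ _ (fun k _ hk => glue_lt (by omega))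
    have h2 : h (glue t v y) j = h v j := hρ _ _ _ (fun k _ hk => glue_lt (by omega))
    rw [h1, h2, huv]
  refine ⟨_, _, t + 1, e3, ?_⟩
  exact st_glue_ge (by omega)

/-- backward closedness for a left-closing step -/
theorem bwd_step {f G g h : Conf S → Conf S} {a : ℤ} {m : ℕ} (hw : Window f a m)
    (hfG : f = G ∘ (g ∘ h)) (hG : PreInj G) (hg : IsCA g) (hh : IsCA h) (hcl : LeftClosing g)
    {x y : Conf S} (hxy : g (h x) = g (h y)) {t : ℤ} (ht : st m x y (t + 1) ∈ Vis m h) :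
    st m x y t ∈ Vis m h := by
  obtain ⟨ρ, hρ⟩ := exists_radius hh
  obtain ⟨u, v, huv, hu, hv⟩ := exists_match hh ht
  have hfxy : f x = f y := by rw [hfG]; exact congrArg G hxy
  have e1 : f (glue (t + 1) x u) = f (glue (t + 1) y v) :=
    ker_glue hw (fun j h1 h2 => (hu j h1 h2).symm) (fun j h1 h2 => (hv j h1 h2).symm) hfxy
      (by rw [hfG]; exact congrArg (fun z => G (g z)) huv)
  have hK : Ker f m (Vis m (g ∘ h)) (glue (t + 1) x u) (glue (t + 1) y v) := by
    refine ⟨e1, fun s => ?_⟩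
    by_cases hs : s ≤ t + 1
    · rw [st_glue_le (fun j h1 h2 => (hu j h1 h2).symm) (fun j h1 h2 => (hv j h1 h2).symm) hs]
      exact ⟨x, y, s, hxy, rfl⟩
    · rw [st_glue_ge (by omega)]
      exact vis_mono ⟨u, v, s, huv, rfl⟩
  have e2 : (g ∘ h) (glue (t + 1) x u) = (g ∘ h) (glue (t + 1) y v) :=
    (ker_iff hw hfG hG (isCA_comp hg hh) _ _).2 hK
  have e3 : h (glue (t + 1) x u) = h (glue (t + 1) y v) := by
    refine hcl _ _ e2 ⟨t + 1 + ρ, fun j hj => ?_⟩
    have h1 : h (glue (t + 1) x u) j = h u j := hρ _ _ _ (fun k hk _ => glue_ge (by omega))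
    have h2 : h (glue (t + 1) y v) j = h v j := hρ _ _ _ (fun k hk _ => glue_ge (by omega))
    rw [h1, h2, huv]
  refine ⟨_, _, t, e3, ?_⟩
  exact st_glue_le (fun j h1 h2 => (hu j h1 h2).symm) (fun j h1 h2 => (hv j h1 h2).symm)
    (by omega)

/-- compactness: if the `h`-images of `x, y` are left-asymptotic, then arbitrarily far to the
left the states of `(x, y)` lie in every `A` describing the kernel of `h` -/
theorem left_visits {f h : Conf S → Conf S} {m : ℕ} {A : Set ((Fin m → S) × (Fin m → S))}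
    (hh : IsCA h) (hker : ∀ x y, h x = h y ↔ Ker f m A x y) {x y : Conf S}
    (hxy : ∃ N : ℤ, ∀ j, j ≤ N → h x j = h y j) (T : ℤ) : ∃ t, t ≤ T ∧ st m x y t ∈ A := by
  obtain ⟨N, hN⟩ := hxy
  obtain ⟨p, φ, hφ, hp⟩ := CompactSpace.tendsto_subseq
    (fun n : ℕ => ((tr (-(n : ℤ)) x, tr (-(n : ℤ)) y) : Conf S × Conf S))
  have hp1 : Tendsto (fun n => tr (-((φ n : ℕ) : ℤ)) x) atTop (𝓝 p.1) :=
    (continuous_fst.continuousAt (x := p)).tendsto.comp hp
  have hp2 : Tendsto (fun n => tr (-((φ n : ℕ) : ℤ)) y) atTop (𝓝 p.2) :=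
    (continuous_snd.continuousAt (x := p)).tendsto.comp hp
  have hφT : Tendsto (fun n => ((φ n : ℕ) : ℤ)) atTop atTop :=
    tendsto_natCast_atTop_atTop.comp hφ.tendsto_atTop
  have hlim : h p.1 = h p.2 := by
    funext i
    have h1 : Tendsto (fun n => h (tr (-((φ n : ℕ) : ℤ)) x) i) atTop (𝓝 (h p.1 i)) :=
      ((continuous_apply i).comp hh.1).continuousAt.tendsto.comp hp1
    have h2 : Tendsto (fun n => h (tr (-((φ n : ℕ) : ℤ)) y) i) atTop (𝓝 (h p.2 i)) :=
      ((continuous_apply i).comp hh.1).continuousAt.tendsto.comp hp2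
    refine tendsto_nhds_unique h1 (h2.congr' ?_)
    filter_upwards [hφT.eventually_ge_atTop (i - N)] with n hn
    rw [comm_tr hh, comm_tr hh]
    simp only [tr]
    exact (hN _ (by omega)).symm
  have hA : st m p.1 p.2 0 ∈ A := ((hker _ _).1 hlim).2 0
  have hev1 : ∀ᶠ n in atTop, ∀ j : Fin m, tr (-((φ n : ℕ) : ℤ)) x ((j : ℕ) : ℤ) = p.1 ((j : ℕ) : ℤ) := by
    rw [eventually_all]
    intro j
    have := (tendsto_pi_nhds.mp hp1) ((j : ℕ) : ℤ)
    rw [nhds_discrete, tendsto_pure] at this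
    exact this
  have hev2 : ∀ᶠ n in atTop, ∀ j : Fin m, tr (-((φ n : ℕ) : ℤ)) y ((j : ℕ) : ℤ) = p.2 ((j : ℕ) : ℤ) := by
    rw [eventually_all]
    intro j
    have := (tendsto_pi_nhds.mp hp2) ((j : ℕ) : ℤ)
    rw [nhds_discrete, tendsto_pure] at this
    exact this
  obtain ⟨n, hn1, hn2, hn3⟩ := (hev1.and (hev2.and (hφT.eventually_ge_atTop (-T)))).exists
  refine ⟨-((φ n : ℕ) : ℤ), by omega, ?_⟩
  have : st m x y (-((φ n : ℕ) : ℤ)) = st m p.1 p.2 0 := by
    refine Prod.ext ?_ ?_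
    · funext j
      have := hn1 j
      simp only [tr] at this
      simp only [st, zero_add]
      rw [← this]; congr 1; ring
    · funext j
      have := hn2 j
      simp only [tr] at this
      simp only [st, zero_add]
      rw [← this]; congr 1; ring
  rw [this]; exact hA

theorem right_visits {f h : Conf S → Conf S} {m : ℕ} {A : Set ((Fin m → S) × (Fin m → S))}
    (hh : IsCA h) (hker : ∀ x y, h x = h y ↔ Ker f m A x y) {x y : Conf S}
    (hxy : ∃ N : ℤ, ∀ j, N ≤ j → h x j = h y j) (T : ℤ) : ∃ t, T ≤ t ∧ st m x y t ∈ A := by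
  obtain ⟨N, hN⟩ := hxy
  obtain ⟨p, φ, hφ, hp⟩ := CompactSpace.tendsto_subseq
    (fun n : ℕ => ((tr (n : ℤ) x, tr (n : ℤ) y) : Conf S × Conf S))
  have hp1 : Tendsto (fun n => tr ((φ n : ℕ) : ℤ) x) atTop (𝓝 p.1) :=
    (continuous_fst.continuousAt (x := p)).tendsto.comp hp
  have hp2 : Tendsto (fun n => tr ((φ n : ℕ) : ℤ) y) atTop (𝓝 p.2) :=
    (continuous_snd.continuousAt (x := p)).tendsto.comp hp
  have hφT : Tendsto (fun n => ((φ n : ℕ) : ℤ)) atTop atTop :=
    tendsto_natCast_atTop_atTop.comp hφ.tendsto_atTop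
  have hlim : h p.1 = h p.2 := by
    funext i
    have h1 : Tendsto (fun n => h (tr ((φ n : ℕ) : ℤ) x) i) atTop (𝓝 (h p.1 i)) :=
      ((continuous_apply i).comp hh.1).continuousAt.tendsto.comp hp1
    have h2 : Tendsto (fun n => h (tr ((φ n : ℕ) : ℤ) y) i) atTop (𝓝 (h p.2 i)) :=
      ((continuous_apply i).comp hh.1).continuousAt.tendsto.comp hp2
    refine tendsto_nhds_unique h1 (h2.congr' ?_)
    filter_upwards [hφT.eventually_ge_atTop (N - i)] with n hn
    rw [comm_tr hh, comm_tr hh]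
    simp only [tr]
    exact (hN _ (by omega)).symm
  have hA : st m p.1 p.2 0 ∈ A := ((hker _ _).1 hlim).2 0
  have hev1 : ∀ᶠ n in atTop, ∀ j : Fin m, tr ((φ n : ℕ) : ℤ) x ((j : ℕ) : ℤ) = p.1 ((j : ℕ) : ℤ) := by
    rw [eventually_all]
    intro j
    have := (tendsto_pi_nhds.mp hp1) ((j : ℕ) : ℤ)
    rw [nhds_discrete, tendsto_pure] at this
    exact this
  have hev2 : ∀ᶠ n in atTop, ∀ j : Fin m, tr ((φ n : ℕ) : ℤ) y ((j : ℕ) : ℤ) = p.2 ((j : ℕ) : ℤ) := by
    rw [eventually_all]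
    intro j
    have := (tendsto_pi_nhds.mp hp2) ((j : ℕ) : ℤ)
    rw [nhds_discrete, tendsto_pure] at this
    exact this
  obtain ⟨n, hn1, hn2, hn3⟩ := (hev1.and (hev2.and (hφT.eventually_ge_atTop T))).exists
  refine ⟨((φ n : ℕ) : ℤ), by omega, ?_⟩
  have : st m x y ((φ n : ℕ) : ℤ) = st m p.1 p.2 0 := by
    refine Prod.ext ?_ ?_
    · funext j
      have := hn1 j
      simp only [tr] at this
      simp only [st, zero_add]
      rw [← this]; congr 1; ring
    · funext j
      have := hn2 j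
      simp only [tr] at this
      simp only [st, zero_add]
      rw [← this]; congr 1; ring
  rw [this]; exact hA

end

end Pool.Agent.H55.Sweep
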